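import Pool.Agent.H176R2.R5.Defs

/-!
# Project R5, task GN1: genericity I
-/

set_option autoImplicit false

open Finset

namespace H176R2.R5

variable {V : Type} [Fintype V] [DecidableEq V]

theorem Fd_mem (p : V → Fin 3 → ℝ) {S : Set V} {w : V} (hw : w ∈ S) (i : Fin 3) :
    p w i ∈ Fd p S := IntermediateField.subset_adjoin _ _ ⟨w, hw, i, rfl⟩

open scoped IntermediateField.algebraAdjoinAdjoin in
theorem gen_indep {p : V → Fin 3 → ℝ} (hp : Gen p) {S : Set V} {v : V} (hv : v ∉ S) :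
    AlgebraicIndependent (Fd p S) (p v) := by
  have hset : {x | ∃ w ∈ S, ∃ i, x = p w i} =
      (fun vi : V × Fin 3 => p vi.1 vi.2) '' {vi : V × Fin 3 | vi.1 ∈ S} := by
    ext x
    constructor
    · rintro ⟨w, hw, i, rfl⟩; exact ⟨(w, i), hw, rfl⟩
    · rintro ⟨⟨w, i⟩, hw, rfl⟩; exact ⟨w, hw, i, rfl⟩
  have hdis : Disjoint {vi : V × Fin 3 | vi.1 ∈ S} {vi : V × Fin 3 | vi.1 = v} := by
    rw [Set.disjoint_left]
    rintro ⟨w, i⟩ hw hw'
    exact hv (by rw [← show w = v from hw']; exact hw)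
  have h1 := AlgebraicIndependent.adjoin_of_disjoint hp hdis
  rw [← hset] at h1
  have h2 := h1.extendScalars (IntermediateField.adjoin ℚ {x | ∃ w ∈ S, ∃ i, x = p w i})
  exact h2.comp (fun i : Fin 3 => (⟨(v, i), rfl⟩ : {vi : V × Fin 3 | vi.1 = v}))
    (fun i j hij => by
      have := congrArg (fun z => z.1.2) hij
      exact this)

/-- a polynomial function over the field of the other vertices which vanishes at a generic point
vanishes identically -/
theorem gen_zero {p : V → Fin 3 → ℝ} (hp : Gen p) {S : Set V} {v : V} (hv : v ∉ S)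
    {f : (Fin 3 → ℝ) → ℝ} (hf : PF (Fd p S) f) (h0 : f (p v) = 0) : ∀ ξ, f ξ = 0 := by
  obtain ⟨P, hP⟩ := hf
  have h1 := gen_indep hp hv
  rw [hP] at h0
  have h2 : P = 0 := (algebraicIndependent_iff.1 h1) P h0
  intro ξ
  rw [hP, h2, map_zero]

theorem PF.const {F : IntermediateField ℚ ℝ} {c : ℝ} (hc : c ∈ F) : PF F (fun _ => c) :=
  ⟨MvPolynomial.C ⟨c, hc⟩, fun ξ => by
    rw [MvPolynomial.aeval_C]; rfl⟩

theorem PF.coord (F : IntermediateField ℚ ℝ) (i : Fin 3) : PF F (fun ξ => ξ i) :=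
  ⟨MvPolynomial.X i, fun ξ => by rw [MvPolynomial.aeval_X]⟩

theorem PF.add {F : IntermediateField ℚ ℝ} {f g : (Fin 3 → ℝ) → ℝ} (hf : PF F f) (hg : PF F g) :
    PF F (fun ξ => f ξ + g ξ) := by
  obtain ⟨P, hP⟩ := hf
  obtain ⟨Q, hQ⟩ := hg
  exact ⟨P + Q, fun ξ => by show f ξ + g ξ = _; rw [hP, hQ, map_add]⟩

theorem PF.sub {F : IntermediateField ℚ ℝ} {f g : (Fin 3 → ℝ) → ℝ} (hf : PF F f) (hg : PF F g) :
    PF F (fun ξ => f ξ - g ξ) := by
  obtain ⟨P, hP⟩ := hf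
  obtain ⟨Q, hQ⟩ := hg
  exact ⟨P - Q, fun ξ => by show f ξ - g ξ = _; rw [hP, hQ, map_sub]⟩

theorem PF.mul {F : IntermediateField ℚ ℝ} {f g : (Fin 3 → ℝ) → ℝ} (hf : PF F f) (hg : PF F g) :
    PF F (fun ξ => f ξ * g ξ) := by
  obtain ⟨P, hP⟩ := hf
  obtain ⟨Q, hQ⟩ := hg
  exact ⟨P * Q, fun ξ => by show f ξ * g ξ = _; rw [hP, hQ, map_mul]⟩

theorem PF.neg {F : IntermediateField ℚ ℝ} {f : (Fin 3 → ℝ) → ℝ} (hf : PF F f) :
    PF F (fun ξ => - f ξ) := by
  obtain ⟨P, hP⟩ := hf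
  exact ⟨-P, fun ξ => by show -f ξ = _; rw [hP, map_neg]⟩

theorem PF.sum {F : IntermediateField ℚ ℝ} {ι : Type} (s : Finset ι) {f : ι → (Fin 3 → ℝ) → ℝ}
    (hf : ∀ i ∈ s, PF F (f i)) : PF F (fun ξ => ∑ i ∈ s, f i ξ) := by
  classical
  induction s using Finset.induction_on with
  | empty => simpa using PF.const (F := F) (zero_mem F)
  | insert a s ha ih =>
    simp only [Finset.sum_insert ha]
    exact PF.add (hf a (Finset.mem_insert_self a s))
      (ih fun i hi => hf i (Finset.mem_insert_of_mem hi))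

/-- determinants of matrices whose entries are polynomial functions -/
theorem PF.det {F : IntermediateField ℚ ℝ} {n : ℕ} {A : Fin n → Fin n → (Fin 3 → ℝ) → ℝ}
    (hA : ∀ i j, PF F (A i j)) : PF F (fun ξ => Matrix.det (Matrix.of fun i j => A i j ξ)) := by
  choose P hP using hA
  refine ⟨Matrix.det (Matrix.of fun i j => P i j), fun ξ => ?_⟩
  have h : (Matrix.of fun i j => A i j ξ) =
      (MvPolynomial.aeval ξ).mapMatrix (Matrix.of fun i j => P i j) := by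
    ext i j
    simp [hP]
  show Matrix.det (Matrix.of fun i j => A i j ξ) = _
  rw [AlgHom.map_det, h]

theorem PF.br {F : IntermediateField ℚ ℝ} {A B C D : (Fin 3 → ℝ) → Fin 4 → ℝ}
    (hA : ∀ i, PF F (fun ξ => A ξ i)) (hB : ∀ i, PF F (fun ξ => B ξ i))
    (hC : ∀ i, PF F (fun ξ => C ξ i)) (hD : ∀ i, PF F (fun ξ => D ξ i)) :
    PF F (fun ξ => H176R2.R5.br (A ξ) (B ξ) (C ξ) (D ξ)) := by
  have h := PF.det (F := F) (n := 4)
    (A := fun i j ξ => (![A ξ, B ξ, C ξ, D ξ] : Fin 4 → Fin 4 → ℝ) i j) (by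
      intro i j
      fin_cases i
      · exact hA j
      · exact hB j
      · exact hC j
      · exact hD j)
  exact h

theorem PF.hat (F : IntermediateField ℚ ℝ) (i : Fin 4) : PF F (fun ξ => H176R2.R5.hat ξ i) := by
  fin_cases i
  · exact PF.const (one_mem F)
  · exact PF.coord F 0
  · exact PF.coord F 1
  · exact PF.coord F 2

theorem PF.hatc (p : V → Fin 3 → ℝ) {S : Set V} {w : V} (hw : w ∈ S) (i : Fin 4) :
    PF (Fd p S) (fun _ => H176R2.R5.hat (p w) i) := by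
  fin_cases i
  · exact PF.const (one_mem _)
  · exact PF.const (Fd_mem p hw 0)
  · exact PF.const (Fd_mem p hw 1)
  · exact PF.const (Fd_mem p hw 2)

/-- an `F`-linear retraction of `ℝ` onto `F` -/
theorem exists_retract (F : IntermediateField ℚ ℝ) :
    ∃ π : ℝ → ℝ, (∀ x, π x ∈ F) ∧ (∀ x ∈ F, π x = x) ∧ (∀ x y, π (x + y) = π x + π y) ∧
      ∀ c ∈ F, ∀ x, π (c * x) = c * π x := by
  obtain ⟨g, hg⟩ := (Algebra.linearMap F ℝ).exists_leftInverse_of_injective
    (LinearMap.ker_eq_bot.2 (algebraMap F ℝ).injective)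
  refine ⟨fun x => (g x : ℝ), fun x => (g x).2, fun x hx => ?_, fun x y => ?_, fun c hc x => ?_⟩
  · have h := LinearMap.congr_fun hg ⟨x, hx⟩
    have h' : g x = ⟨x, hx⟩ := h
    show ((g x : F) : ℝ) = x
    rw [h']
  · show ((g (x + y) : F) : ℝ) = (g x : ℝ) + (g y : ℝ)
    rw [map_add]; rfl
  · have h := g.map_smul (⟨c, hc⟩ : F) x
    have h' : g (c * x) = (⟨c, hc⟩ : F) • g x := h
    show ((g (c * x) : F) : ℝ) = c * (g x : ℝ)
    rw [h']; rfl

end H176R2.R5
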