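import Pool.Agent.H176R2.R5.Defs

/-!
# R5, task GN2: existence of generic placements, brackets, small vertex stars
-/

set_option autoImplicit false

open Finset

namespace H176R2.R5

variable {V : Type} [Fintype V] [DecidableEq V]

theorem exists_gen : ∃ p : V → Fin 3 → ℝ, Gen p := by
  obtain ⟨ι, x, hx⟩ := exists_isTranscendenceBasis' ℚ ℝ
  have hne : Nonempty ι := by
    by_contra h
    rw [not_nonempty_iff] at h
    have h1 : Algebra.IsAlgebraic ℚ ℝ := hx.isEmpty_iff_isAlgebraic.1 h
    have h2 := Algebra.IsAlgebraic.cardinalMk_le_max ℚ ℝ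
    rw [Cardinal.mk_real] at h2
    have h5 : Cardinal.continuum ≤ Cardinal.aleph0 := by simpa using h2
    exact absurd h5 (not_le.2 Cardinal.aleph0_lt_continuum)
  have hinf : Infinite ι := by
    by_contra h
    rw [not_infinite_iff_finite] at h
    have h2 := hx.lift_cardinalMk_eq_max_lift
    have h3 : Cardinal.mk ι < Cardinal.aleph0 := Cardinal.lt_aleph0_of_finite ι
    simp only [Cardinal.lift_id, Cardinal.mk_real] at h2
    have h4 : (Cardinal.mk ℚ ⊔ Cardinal.mk ι ⊔ Cardinal.aleph0) ≤ Cardinal.aleph0 := by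
      simp [h3.le]
    have h5 : Cardinal.continuum ≤ Cardinal.aleph0 := by
      first
        | exact h2.le.trans h4
        | exact (le_of_eq (by simpa using h2)).trans h4
    exact absurd h5 (not_le.2 Cardinal.aleph0_lt_continuum)
  have : Nonempty (V × Fin 3 ↪ ι) := by
    exact ⟨(Function.Embedding.nonempty_of_card_le
      (by simp : Fintype.card (V × Fin 3) ≤ Fintype.card (Fin (Fintype.card (V × Fin 3))))).some.trans
        ((Fin.valEmbedding).trans (Infinite.natEmbedding ι))⟩
  obtain ⟨e⟩ := this
  exact ⟨fun v i => x (e (v, i)), hx.1.comp e e.injective⟩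

theorem GN2_eval {p : V → Fin 3 → ℝ} (hp : Gen p) (P : MvPolynomial (V × Fin 3) ℚ)
    (h : MvPolynomial.aeval (fun vi : V × Fin 3 => p vi.1 vi.2) P = 0)
    (q : V × Fin 3 → ℝ) : MvPolynomial.aeval q P = 0 := by
  have := hp.eq_zero_of_aeval_eq_zero P h
  rw [this, map_zero]

/-- the determinant of a matrix of polynomials which is nonzero at some point is nonzero at `p` -/
theorem GN2_det {p : V → Fin 3 → ℝ} (hp : Gen p) {n : ℕ}
    (M : Matrix (Fin n) (Fin n) (MvPolynomial (V × Fin 3) ℚ)) (q : V × Fin 3 → ℝ)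
    (h : (M.map (MvPolynomial.aeval (R := ℚ) q)).det ≠ 0) :
    (M.map (MvPolynomial.aeval (R := ℚ) (fun vi : V × Fin 3 => p vi.1 vi.2))).det ≠ 0 := by
  intro h0
  apply h
  have e1 := (AlgHom.map_det (MvPolynomial.aeval (R := ℚ) q) M)
  have e2 := (AlgHom.map_det (MvPolynomial.aeval (R := ℚ) (fun vi : V × Fin 3 => p vi.1 vi.2)) M)
  simp only [AlgHom.mapMatrix_apply] at e1 e2
  rw [← e1]
  apply GN2_eval hp
  rw [e2]
  exact h0

/-- four different vertices span an affine frame -/
theorem br_ne {p : V → Fin 3 → ℝ} (hp : Gen p) {a b c d : V} (hab : a ≠ b) (hac : a ≠ c)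
    (had : a ≠ d) (hbc : b ≠ c) (hbd : b ≠ d) (hcd : c ≠ d) :
    br (hat (p a)) (hat (p b)) (hat (p c)) (hat (p d)) ≠ 0 := by
  have key := GN2_det hp (n := 4) (Matrix.of ![
    ![1, MvPolynomial.X (a, 0), MvPolynomial.X (a, 1), MvPolynomial.X (a, 2)],
    ![1, MvPolynomial.X (b, 0), MvPolynomial.X (b, 1), MvPolynomial.X (b, 2)],
    ![1, MvPolynomial.X (c, 0), MvPolynomial.X (c, 1), MvPolynomial.X (c, 2)],
    ![1, MvPolynomial.X (d, 0), MvPolynomial.X (d, 1), MvPolynomial.X (d, 2)]])
    (fun vi => if vi.1 = b ∧ vi.2 = 0 then 1 else if vi.1 = c ∧ vi.2 = 1 then 1 else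
      if vi.1 = d ∧ vi.2 = 2 then 1 else 0) (by
      simp [Matrix.det_succ_row_zero, Fin.sum_univ_succ, Fin.succAbove, hab, hac, had, hbc, hbd, hcd,
        hbc.symm, hbd.symm, hcd.symm])
  intro h
  apply key
  rw [← h]
  unfold br hat
  congr 1
  ext i j
  fin_cases i <;> fin_cases j <;> simp

/-- at most three bars at a vertex are independent -/
theorem small_indep {p : V → Fin 3 → ℝ} (hp : Gen p) {w : V} {N : Finset V} (hw : w ∉ N)
    (hN : N.card ≤ 3) (c : V → ℝ) (hc : ∀ i, ∑ b ∈ N, c b * (p w i - p b i) = 0) :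
    ∀ b ∈ N, c b = 0 := by
  classical
  obtain ⟨e⟩ : Nonempty (N ↪ Fin 3) := Function.Embedding.nonempty_of_card_le (by simpa using hN)
  let s : Fin 3 → Option N := fun r => if h : ∃ b, e b = r then some h.choose else none
  have hs1 : ∀ b, s (e b) = some b := by
    intro b
    have h : ∃ b', e b' = e b := ⟨b, rfl⟩
    simp only [s, dif_pos h, Option.some.injEq]
    exact e.injective h.choose_spec
  have hs2 : ∀ r b, s r = some b → e b = r := by
    intro r b h
    simp only [s] at h
    split_ifs at h with h'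
    rw [Option.some.injEq] at h
    rw [← h]
    exact h'.choose_spec
  let M : Matrix (Fin 3) (Fin 3) (MvPolynomial (V × Fin 3) ℚ) := Matrix.of fun r i =>
    match s r with
    | some b => MvPolynomial.X (w, i) - MvPolynomial.X (b.1, i)
    | none => if r = i then 1 else 0
  let q : V × Fin 3 → ℝ := fun vi => if h : vi.1 ∈ N then (if e ⟨vi.1, h⟩ = vi.2 then -1 else 0) else 0
  have hq : (M.map (MvPolynomial.aeval (R := ℚ) q)).det ≠ 0 := by
    have : M.map (MvPolynomial.aeval (R := ℚ) q) = 1 := by
      ext r i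
      rw [Matrix.map_apply, Matrix.one_apply]
      simp only [M, Matrix.of_apply]
      rcases hsr : s r with _ | b
      · simp only
        split_ifs <;> simp
      · have h1 := hs2 r b hsr
        simp only [map_sub, MvPolynomial.aeval_X, q, hw, dif_neg, not_false_eq_true, b.2, dif_pos,
          Subtype.coe_eta, h1]
        split_ifs <;> simp
    rw [this]
    simp
  have hdet := GN2_det hp M q hq
  have hz := Matrix.eq_zero_of_vecMul_eq_zero hdet
    (v := fun r => match s r with | some b => c b.1 | none => 0) (by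
      ext i
      simp only [Matrix.vecMul, dotProduct, Matrix.map_apply, Pi.zero_apply]
      have hci : ∑ b : N, c b.1 * (p w i - p b.1 i) = 0 := by
        rw [Finset.sum_coe_sort N (fun b => c b * (p w i - p b i))]
        exact hc i
      refine Eq.trans (Eq.symm ?_) hci
      apply Fintype.sum_of_injective e e.injective
      · intro r hr
        have : s r = none := by
          simp only [s]
          rw [dif_neg]
          exact fun ⟨b, hb⟩ => hr ⟨b, hb⟩
        simp only [this, zero_mul]
      · intro b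
        simp only [M, Matrix.of_apply, hs1, map_sub, MvPolynomial.aeval_X])
  intro b hb
  have := congrFun hz (e ⟨b, hb⟩)
  simpa only [hs1, Pi.zero_apply] using this

end H176R2.R5
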