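import Pool.Agent.H176R2.R5.L1
import Pool.Agent.H176R2.R5.GN1
import Pool.Agent.H176R2.R5.GN2

/-!
# Project R5, task EX: the axioms of an independence predicate hold for generic independence
-/

set_option autoImplicit false

open Finset

namespace H176R2.R5

variable {V : Type} [Fintype V] [DecidableEq V]

theorem ax_bot (p : V → Fin 3 → ℝ) : Ind p (⊥ : SimpleGraph V) := fun _ h a b =>
  h.supp a b (by simp)

theorem ax_ext0 {p : V → Fin 3 → ℝ} (hp : Gen p) (G : SimpleGraph V) (w : V)
    (hd : dg G univ w ≤ 3) (hI : Ind p (del G w)) : Ind p G := by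
  classical
  intro ω h
  have hz : ∀ b, ω w b = 0 := by
    intro b
    by_cases hb : G.Adj w b
    · have := small_indep hp (w := w) (N := univ.filter fun b => G.Adj w b) (by simp)
        (by
          refine le_trans (le_of_eq ?_) hd
          unfold dg
          congr 1
          ) (fun b => ω w b) (by
          intro i
          rw [← h.bal w i]
          apply Finset.sum_subset (Finset.subset_univ _)
          intro x _ hx
          have : ¬ G.Adj w x := by simpa using hx
          simp [h.supp w x this])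
      exact this b (by simpa using hb)
    · exact h.supp w b hb
  refine hI ω ⟨h.symm, ?_, h.bal⟩
  intro a b hab
  by_cases h1 : a = w
  · rw [h1]; exact hz b
  by_cases h2 : b = w
  · rw [h2, h.symm]; exact hz a
  exact h.supp a b (fun h3 => hab ⟨h3, h1, h2⟩)

theorem ax_cut {p : V → Fin 3 → ℝ} (G : SimpleGraph V) (w : V) (X : Finset V) (hw : w ∉ X)
    (hX : Closed (del G w) X) (h1 : Ind p (tch G X)) (h2 : Ind p (nch G X)) : Ind p G := by
  classical
  intro ω h
  set ω1 : V → V → ℝ := fun x z => if x ∈ X ∨ z ∈ X then ω x z else 0 with hω1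
  have hsym : ∀ a b, ω1 a b = ω1 b a := by
    intro a b
    simp only [hω1]
    rw [h.symm a b]
    simp only [or_comm]
  have hnw : ∀ x i, x ≠ w → ∑ z, ω1 x z * (p x i - p z i) = 0 := by
    intro x i hx
    by_cases hxX : x ∈ X
    · rw [← h.bal x i]
      apply Finset.sum_congr rfl
      intro z _
      simp [hω1, hxX]
    · apply Finset.sum_eq_zero
      intro z _
      by_cases hz : z ∈ X
      · have hzw : z ≠ w := fun e => hw (e ▸ hz)
        have : ¬ G.Adj x z := fun hxz => hxX (hX z hz x ⟨hxz.symm, hzw, hx⟩)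
        simp [hω1, h.supp x z this]
      · simp [hω1, hxX, hz]
  have htot : ∀ i, ∑ x, ∑ z, ω1 x z * (p x i - p z i) = 0 := by
    intro i
    have e : ∑ x, ∑ z, ω1 x z * (p x i - p z i) = ∑ x, ∑ z, ω1 z x * (p z i - p x i) :=
      Finset.sum_comm
    have e2 : ∑ x, ∑ z, ω1 z x * (p z i - p x i) = - ∑ x, ∑ z, ω1 x z * (p x i - p z i) := by
      rw [← Finset.sum_neg_distrib]
      apply Finset.sum_congr rfl
      intro x _
      rw [← Finset.sum_neg_distrib]
      apply Finset.sum_congr rfl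
      intro z _
      rw [hsym z x]; ring
    rw [e2] at e
    linarith
  have hS1 : IsStress p (tch G X) ω1 := by
    refine ⟨hsym, ?_, ?_⟩
    · intro a b hab
      by_cases hc : a ∈ X ∨ b ∈ X
      · have : ¬ G.Adj a b := fun h3 => hab ⟨h3, hc⟩
        simp [hω1, h.supp a b this]
      · simp [hω1, hc]
    · intro a i
      by_cases ha : a = w
      · subst ha
        have := htot i
        rw [Finset.sum_eq_single a (fun x _ hx => hnw x i hx) (by simp)] at this
        exact this
      · exact hnw a i ha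
  have hz1 := h1 ω1 hS1
  refine h2 ω ⟨h.symm, ?_, h.bal⟩
  intro a b hab
  by_cases hc : a ∈ X ∨ b ∈ X
  · have := hz1 a b
    simpa [hω1, hc] using this
  · push Not at hc
    exact h.supp a b (fun h3 => hab ⟨h3, hc.1, hc.2⟩)

theorem det_id1 (h0 h1 h2 ma mb c0 c1 c2 mc d0 d1 d2 md : ℝ) :
    Matrix.det (Matrix.of ![![h0, h1, h2, ma], ![-h0, -h1, -h2, mb], ![c0, c1, c2, mc],
      ![d0, d1, d2, md]]) =
    (ma + mb) * (h0 * (c1 * d2 - c2 * d1) - h1 * (c0 * d2 - c2 * d0) +
      h2 * (c0 * d1 - c1 * d0)) := by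
  simp [Matrix.det_succ_row_zero, Fin.sum_univ_succ, Fin.succAbove, Matrix.submatrix]
  ring

theorem det_id2 (x0 x1 x2 h0 h1 h2 c0 c1 c2 d0 d1 d2 : ℝ) :
    br ![1, x0 - h0, x1 - h1, x2 - h2] ![1, x0 + h0, x1 + h1, x2 + h2]
      ![1, x0 - c0, x1 - c1, x2 - c2] ![1, x0 - d0, x1 - d1, x2 - d2] =
    2 * (h0 * (c1 * d2 - c2 * d1) - h1 * (c0 * d2 - c2 * d0) +
      h2 * (c0 * d1 - c1 * d0)) := by
  simp [br, Matrix.det_succ_row_zero, Fin.sum_univ_succ, Fin.succAbove, Matrix.submatrix]
  ring

theorem sum_four {w a b c d : V} {G : SimpleGraph V}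
    (hN : ∀ x, G.Adj w x ↔ x = a ∨ x = b ∨ x = c ∨ x = d)
    (hab : a ≠ b) (hac : a ≠ c) (had : a ≠ d) (hbc : b ≠ c) (hbd : b ≠ d) (hcd : c ≠ d)
    (f : V → ℝ) (hf : ∀ x, ¬ G.Adj w x → f x = 0) : ∑ x, f x = f a + f b + f c + f d := by
  classical
  rw [← Finset.sum_subset (Finset.subset_univ ({a, b, c, d} : Finset V))]
  · rw [Finset.sum_insert (by simp [hab, hac, had]), Finset.sum_insert (by simp [hbc, hbd]),
      Finset.sum_insert (by simp [hcd]), Finset.sum_singleton]
    ring
  · intro x _ hx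
    apply hf
    rw [hN]
    simpa using hx

theorem ax_ext1 {p : V → Fin 3 → ℝ} (hp : Gen p) (G : SimpleGraph V) (w a b c d : V)
    (hN : ∀ x, G.Adj w x ↔ x = a ∨ x = b ∨ x = c ∨ x = d)
    (hab : a ≠ b) (hac : a ≠ c) (had : a ≠ d) (hbc : b ≠ c) (hbd : b ≠ d) (hcd : c ≠ d)
    (hnab : ¬ G.Adj a b) (hI : Ind p (addE (del G w) a b)) : Ind p G := by
  classical
  have haw : a ≠ w := fun e => (G.ne_of_adj ((hN a).2 (by simp))) e.symm
  have hbw : b ≠ w := fun e => (G.ne_of_adj ((hN b).2 (by simp))) e.symm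
  have hcw : c ≠ w := fun e => (G.ne_of_adj ((hN c).2 (by simp))) e.symm
  have hdw : d ≠ w := fun e => (G.ne_of_adj ((hN d).2 (by simp))) e.symm
  intro ω h
  obtain ⟨u, hu⟩ := surj p _ hI
    (fun x y => if (x = a ∧ y = b) ∨ (x = b ∧ y = a) then 1 else 0) (by
      intro x y
      have : ((x = a ∧ y = b) ∨ (x = b ∧ y = a)) ↔ ((y = a ∧ x = b) ∨ (y = b ∧ x = a)) := by
        tauto
      simp only [this])
  obtain ⟨π, hπF, hπid, hπadd, hπmul⟩ := exists_retract (Fd p {w}ᶜ)
  have hπ0 : π 0 = 0 := hπid 0 (zero_mem _)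
  have hπ1 : π 1 = 1 := hπid 1 (one_mem _)
  have hπsub : ∀ x y, π (x - y) = π x - π y := by
    intro x y
    have := hπadd (x - y) y
    rw [sub_add_cancel] at this
    linarith
  set y : V → Fin 3 → ℝ := fun x i => if x = w then 0 else π (u x i) with hy
  have hyF : ∀ x i, y x i ∈ Fd p {w}ᶜ := by
    intro x i
    simp only [hy]
    split_ifs
    · exact zero_mem _
    · exact hπF _
  have hpF : ∀ x, x ≠ w → ∀ i, p x i ∈ Fd p {w}ᶜ := fun x hx i => Fd_mem p (by simpa using hx) i
  have hee : ∀ x z, x ≠ w → z ≠ w → ee p y x z = π (ee p u x z) := by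
    intro x z hx hz
    simp only [ee, hy, hx, hz, if_false, Fin.sum_univ_three, hπadd, ← hπsub]
    rw [hπmul _ (sub_mem (hpF x hx 0) (hpF z hz 0)), hπmul _ (sub_mem (hpF x hx 1) (hpF z hz 1)),
      hπmul _ (sub_mem (hpF x hx 2) (hpF z hz 2))]
  have h1 : ee p y a b = 1 := by
    rw [hee a b haw hbw, hu a b (Or.inr ⟨hab, Or.inl ⟨rfl, rfl⟩⟩)]
    simpa using hπ1
  have h0 : ∀ x z, G.Adj x z → x ≠ w → z ≠ w → ee p y x z = 0 := by
    intro x z hxz hx hz
    rw [hee x z hx hz, hu x z (Or.inl ⟨hxz, hx, hz⟩), if_neg]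
    · exact hπ0
    · rintro (⟨rfl, rfl⟩ | ⟨rfl, rfl⟩)
      · exact hnab hxz
      · exact hnab hxz.symm
  have hsp := stress_pair h y
  set s : V → ℝ := fun z => ω w z * ∑ i, (p w i - p z i) * y z i with hs
  have hsw : s w = 0 := by simp [hs]
  have hterm : ∀ x z, ω x z * ee p y x z =
      (if x = w then - s z else 0) + (if z = w then - s x else 0) := by
    intro x z
    by_cases hx : x = w
    · by_cases hz : z = w
      · subst hx; subst hz
        simp [hsw, ee]
      · subst hx
        rw [if_pos rfl, if_neg hz, add_zero]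
        simp only [hs, ee, hy, hz, if_true, if_false, Fin.sum_univ_three]
        ring
    · by_cases hz : z = w
      · subst hz
        rw [if_neg hx, if_pos rfl, zero_add, h.symm x z]
        simp only [hs, ee, hy, hx, if_true, if_false, Fin.sum_univ_three]
        ring
      · rw [if_neg hx, if_neg hz, add_zero]
        by_cases hxz : G.Adj x z
        · rw [h0 x z hxz hx hz, mul_zero]
        · rw [h.supp x z hxz, zero_mul]
  have hkey : ∑ z, s z = 0 := by
    simp only [hterm, Finset.sum_add_distrib] at hsp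
    have e1 : ∑ x, ∑ z, (if x = w then - s z else 0) = - ∑ z, s z := by
      rw [Finset.sum_eq_single w (by intro x _ hx; simp [hx]) (by simp)]
      simp
    have e2 : ∑ x, ∑ z, (if z = w then - s x else 0) = - ∑ z, s z := by
      rw [← Finset.sum_neg_distrib]
      apply Finset.sum_congr rfl
      intro x _
      simp
    rw [e1, e2] at hsp
    linarith
  have hkey4 : s a + s b + s c + s d = 0 := by
    rw [← sum_four hN hab hac had hbc hbd hcd s (by
      intro x hx; simp [hs, h.supp w x hx])]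
    exact hkey
  have hbal4 : ∀ i, ω w a * (p w i - p a i) + ω w b * (p w i - p b i) +
      ω w c * (p w i - p c i) + ω w d * (p w i - p d i) = 0 := by
    intro i
    rw [← sum_four hN hab hac had hbc hbd hcd (fun x => ω w x * (p w i - p x i)) (by
      intro x hx; simp [h.supp w x hx])]
    exact h.bal w i
  -- the determinant
  have hlam : (![ω w a, ω w b, ω w c, ω w d] : Fin 4 → ℝ) = 0 := by
    by_contra hne
    set n : Fin 4 → V := ![a, b, c, d] with hn
    have hnw : ∀ r, n r ≠ w := by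
      intro r
      fin_cases r
      · exact haw
      · exact hbw
      · exact hcw
      · exact hdw
    set A : Fin 4 → Fin 4 → (Fin 3 → ℝ) → ℝ := fun r j =>
      ![fun ξ => ξ 0 - p (n r) 0, fun ξ => ξ 1 - p (n r) 1, fun ξ => ξ 2 - p (n r) 2,
        fun ξ => ∑ i, (ξ i - p (n r) i) * y (n r) i] j with hA
    have hPF : ∀ r j, PF (Fd p {w}ᶜ) (A r j) := by
      intro r j
      have hco : ∀ i, PF (Fd p {w}ᶜ) (fun ξ : Fin 3 → ℝ => ξ i - p (n r) i) := fun i =>
        PF.sub (PF.coord _ i) (PF.const (hpF _ (hnw r) i))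
      fin_cases j
      · exact hco 0
      · exact hco 1
      · exact hco 2
      · exact PF.sum (f := fun i (ξ : Fin 3 → ℝ) => (ξ i - p (n r) i) * y (n r) i) Finset.univ
          (fun i _ => PF.mul (hco i) (PF.const (hyF (n r) i)))
    have hdet := PF.det hPF
    have hz := gen_zero hp (S := {w}ᶜ) (v := w) (by simp) hdet (by
      rw [← Matrix.exists_vecMul_eq_zero_iff]
      refine ⟨_, hne, ?_⟩
      funext j
      fin_cases j
      · have := hbal4 0
        simp [Matrix.vecMul, dotProduct, Fin.sum_univ_four, hA, hn]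
        linarith
      · have := hbal4 1
        simp [Matrix.vecMul, dotProduct, Fin.sum_univ_four, hA, hn]
        linarith
      · have := hbal4 2
        simp [Matrix.vecMul, dotProduct, Fin.sum_univ_four, hA, hn]
        linarith
      · have := hkey4
        simp only [hs] at this
        simp [Matrix.vecMul, dotProduct, Fin.sum_univ_four, hA, hn]
        linarith)
    set ξ0 : Fin 3 → ℝ := fun i => (p a i + p b i) / 2 with hξ0
    have hz0 := hz ξ0
    have hM : (Matrix.of fun i j => A i j ξ0) = Matrix.of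
        ![![(p b 0 - p a 0) / 2, (p b 1 - p a 1) / 2, (p b 2 - p a 2) / 2,
            ∑ i, (ξ0 i - p a i) * y a i],
          ![-((p b 0 - p a 0) / 2), -((p b 1 - p a 1) / 2), -((p b 2 - p a 2) / 2),
            ∑ i, (ξ0 i - p b i) * y b i],
          ![ξ0 0 - p c 0, ξ0 1 - p c 1, ξ0 2 - p c 2, ∑ i, (ξ0 i - p c i) * y c i],
          ![ξ0 0 - p d 0, ξ0 1 - p d 1, ξ0 2 - p d 2, ∑ i, (ξ0 i - p d i) * y d i]] := by
      ext i j
      fin_cases i <;> fin_cases j <;> simp [hA, hn, hξ0] <;> ring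
    rw [hM, det_id1] at hz0
    have hmm : (∑ i, (ξ0 i - p a i) * y a i) + (∑ i, (ξ0 i - p b i) * y b i) = - (1 / 2) := by
      simp only [ee, Fin.sum_univ_three] at h1
      simp only [Fin.sum_univ_three, hξ0]
      linarith
    rw [hmm] at hz0
    have hbr := br_ne hp hab hac had hbc hbd hcd
    have e : br (hat (p a)) (hat (p b)) (hat (p c)) (hat (p d)) =
        2 * ((p b 0 - p a 0) / 2 * ((ξ0 1 - p c 1) * (ξ0 2 - p d 2) - (ξ0 2 - p c 2) * (ξ0 1 - p d 1))
          - (p b 1 - p a 1) / 2 * ((ξ0 0 - p c 0) * (ξ0 2 - p d 2) - (ξ0 2 - p c 2) * (ξ0 0 - p d 0))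
          + (p b 2 - p a 2) / 2 *
            ((ξ0 0 - p c 0) * (ξ0 1 - p d 1) - (ξ0 1 - p c 1) * (ξ0 0 - p d 0))) := by
      rw [← det_id2 (ξ0 0) (ξ0 1) (ξ0 2)]
      simp only [hat, hξ0]
      congr 1 <;> ext i <;> fin_cases i <;> simp <;> ring
    apply hbr
    rw [e]
    linarith
  have hwz : ∀ z, ω w z = 0 := by
    intro z
    by_cases hz : G.Adj w z
    · rcases (hN z).1 hz with rfl | rfl | rfl | rfl
      · exact congrFun hlam 0
      · exact congrFun hlam 1
      · exact congrFun hlam 2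
      · exact congrFun hlam 3
    · exact h.supp w z hz
  refine hI ω ⟨h.symm, ?_, h.bal⟩
  intro x z hxz
  by_cases hx : x = w
  · rw [hx]; exact hwz z
  by_cases hz : z = w
  · rw [hz, h.symm]; exact hwz x
  exact h.supp x z (fun h3 => hxz (Or.inl ⟨h3, hx, hz⟩))

theorem ax_ind {p : V → Fin 3 → ℝ} (hp : Gen p) : Ax (Ind p) where
  bot := ax_bot p
  ext0 := ax_ext0 hp
  ext1 := ax_ext1 hp
  cut := ax_cut

end H176R2.R5
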