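import Pool.Agent.H176R2.R5.Defs

/-!
# Project R5, task G1: counting edges in sets
-/

set_option autoImplicit false
set_option linter.unusedSectionVars false

open Finset

namespace H176R2.R5

variable {V : Type} [Fintype V] [DecidableEq V]

open Classical in
/-- adjacency indicator -/
noncomputable def g1_ad (G : SimpleGraph V) (a b : V) : ℕ := if G.Adj a b then 1 else 0

theorem g1_ad_comm (G : SimpleGraph V) (a b : V) : g1_ad G a b = g1_ad G b a := by
  unfold g1_ad
  by_cases h : G.Adj a b
  · rw [if_pos h, if_pos h.symm]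
  · rw [if_neg h, if_neg (fun h' => h h'.symm)]

theorem g1_ad_self (G : SimpleGraph V) (a : V) : g1_ad G a a = 0 := by
  unfold g1_ad
  rw [if_neg (fun h => h.ne rfl)]

theorem g1_dg (G : SimpleGraph V) (X : Finset V) (a : V) :
    dg G X a = ∑ b ∈ X, g1_ad G a b := by
  unfold dg g1_ad
  rw [Finset.card_filter]

theorem g1_i2 (G : SimpleGraph V) (X : Finset V) :
    i2 G X = ∑ a ∈ X, ∑ b ∈ X, g1_ad G a b := by
  unfold i2
  exact Finset.sum_congr rfl (fun a _ => g1_dg G X a)

theorem i2_insert (G : SimpleGraph V) {X : Finset V} {a : V} (ha : a ∉ X) :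
    i2 G (insert a X) = i2 G X + 2 * dg G X a := by
  rw [g1_i2, g1_i2, g1_dg, Finset.sum_insert ha, Finset.sum_insert ha, g1_ad_self]
  have h1 : ∀ x ∈ X, ∑ b ∈ insert a X, g1_ad G x b = g1_ad G a x + ∑ b ∈ X, g1_ad G x b := by
    intro x _
    rw [Finset.sum_insert ha, g1_ad_comm]
  rw [Finset.sum_congr rfl h1, Finset.sum_add_distrib]
  ring

open Classical in
theorem g1_i2_card (G : SimpleGraph V) (X : Finset V) :
    i2 G X = ((X ×ˢ X).filter (fun p => G.Adj p.1 p.2)).card := by
  rw [g1_i2, Finset.card_filter, Finset.sum_product]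
  rfl

theorem i2_super (G : SimpleGraph V) (X Y : Finset V) :
    i2 G X + i2 G Y ≤ i2 G (X ∪ Y) + i2 G (X ∩ Y) := by
  classical
  rw [g1_i2_card, g1_i2_card, g1_i2_card, g1_i2_card, ← Finset.card_union_add_card_inter]
  apply add_le_add
  · apply Finset.card_le_card
    intro p hp
    simp only [Finset.mem_union, Finset.mem_filter, Finset.mem_product] at hp ⊢
    tauto
  · apply Finset.card_le_card
    intro p hp
    simp only [Finset.mem_inter, Finset.mem_filter, Finset.mem_product] at hp ⊢
    tauto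

theorem g1_even (G : SimpleGraph V) (X : Finset V) : Even (i2 G X) := by
  induction X using Finset.induction_on with
  | empty => exact ⟨0, by simp [i2]⟩
  | insert a s ha ih =>
    rw [i2_insert G ha]
    exact ih.add (even_two_mul _)

theorem g1_dg_le (G : SimpleGraph V) (X : Finset V) (a : V) : dg G X a ≤ X.card := by
  classical
  unfold dg
  exact Finset.card_filter_le _ _

theorem g1_dg_insert (G : SimpleGraph V) {X : Finset V} {a b : V} (hb : b ∉ X) :
    dg G (insert b X) a = dg G X a + g1_ad G a b := by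
  rw [g1_dg, g1_dg, Finset.sum_insert hb, add_comm]

theorem g1_dg_erase (G : SimpleGraph V) (X : Finset V) (a : V) :
    dg G (X.erase a) a = dg G X a := by
  by_cases ha : a ∈ X
  · have h := g1_dg_insert G (a := a) (Finset.notMem_erase a X)
    rw [Finset.insert_erase ha, g1_ad_self] at h
    omega
  · rw [Finset.erase_eq_of_notMem ha]

theorem tight_min_deg {G : SimpleGraph V} (hS : Sparse G) {X : Finset V} (hX : Tight G X)
    (h4 : 4 ≤ X.card) {a : V} (ha : a ∈ X) : 3 ≤ dg G X a := by
  have h1 := i2_insert G (Finset.notMem_erase a X)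
  rw [Finset.insert_erase ha, g1_dg_erase] at h1
  have h2 := Finset.card_erase_of_mem ha
  have h3 := hS (X.erase a) (by omega)
  have h5 := hX.2
  omega

theorem tight_union {G : SimpleGraph V} (hS : Sparse G) {X Y : Finset V} (hX : Tight G X)
    (hY : Tight G Y) (h : 3 ≤ (X ∩ Y).card) : Tight G (X ∪ Y) := by
  have h1 := i2_super G X Y
  have h2 := Finset.card_union_add_card_inter X Y
  have h3 := hS _ h
  have hc : 3 ≤ (X ∪ Y).card :=
    hX.1.trans (Finset.card_le_card Finset.subset_union_left)
  have h4 := hS _ hc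
  have h5 := hX.2
  have h6 := hY.2
  exact ⟨hc, by omega⟩

/-- near-tight version -/
theorem near_union {G : SimpleGraph V} {X Y : Finset V} (hX : 6 * X.card ≤ i2 G X + 14)
    (hY : 6 * Y.card ≤ i2 G Y + 14) :
    6 * (X ∪ Y).card + 6 * (X ∩ Y).card ≤ i2 G (X ∪ Y) + i2 G (X ∩ Y) + 28 := by
  have h1 := i2_super G X Y
  have h2 := Finset.card_union_add_card_inter X Y
  omega

theorem tight_merge {G : SimpleGraph V} (hS : Sparse G) {X Y : Finset V} (hX : Tight G X)
    (hY : Tight G Y) (h4X : 4 ≤ X.card) (h4Y : 4 ≤ Y.card) {a : V} (haX : a ∈ X) (haY : a ∈ Y)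
    (hd : dg G univ a ≤ 4) : Tight G (X ∪ Y) := by
  classical
  apply tight_union hS hX hY
  have h1 := tight_min_deg hS hX h4X haX
  have h2 := tight_min_deg hS hY h4Y haY
  unfold dg at h1 h2 hd
  have h3 := Finset.card_union_add_card_inter (X.filter fun b => G.Adj a b)
    (Y.filter fun b => G.Adj a b)
  have h4 : ((X.filter fun b => G.Adj a b) ∪ (Y.filter fun b => G.Adj a b)).card ≤
      ((univ : Finset V).filter fun b => G.Adj a b).card := by
    apply Finset.card_le_card
    intro x hx
    simp only [Finset.mem_union, Finset.mem_filter, Finset.mem_univ, true_and] at hx ⊢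
    tauto
  have h5 : (insert a ((X.filter fun b => G.Adj a b) ∩ (Y.filter fun b => G.Adj a b))).card ≤
      (X ∩ Y).card := by
    apply Finset.card_le_card
    intro x hx
    simp only [Finset.mem_insert, Finset.mem_inter, Finset.mem_filter] at hx ⊢
    rcases hx with rfl | hx
    · exact ⟨haX, haY⟩
    · exact ⟨hx.1.1, hx.2.1⟩
  have h6 : a ∉ (X.filter fun b => G.Adj a b) ∩ (Y.filter fun b => G.Adj a b) := by
    simp
  rw [Finset.card_insert_of_notMem h6] at h5
  omega

theorem tight_insert {G : SimpleGraph V} (hS : Sparse G) {X : Finset V} (hX : Tight G X) {b : V}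
    (hb : b ∉ X) (h : 3 ≤ dg G X b) : Tight G (insert b X) := by
  have h1 := i2_insert G hb
  have h2 := Finset.card_insert_of_notMem hb
  have h0 := hX.1
  have h3 := hS (insert b X) (by omega)
  have h5 := hX.2
  exact ⟨by omega, by omega⟩

theorem no_four {G : SimpleGraph V} (hS : Sparse G) {X : Finset V} (hX : Tight G X) {b : V}
    (hb : b ∉ X) : dg G X b ≤ 3 := by
  have h1 := i2_insert G hb
  have h2 := Finset.card_insert_of_notMem hb
  have h0 := hX.1
  have h3 := hS (insert b X) (by omega)
  have h5 := hX.2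
  omega

theorem tight_three {G : SimpleGraph V} {X : Finset V} (hX : Tight G X) (h3 : X.card = 3)
    {a b : V} (ha : a ∈ X) (hb : b ∈ X) (hab : a ≠ b) : G.Adj a b := by
  by_contra hn
  have hb' : b ∈ X.erase a := Finset.mem_erase.mpr ⟨hab.symm, hb⟩
  have c1 := Finset.card_erase_of_mem ha
  have c2 := Finset.card_erase_of_mem hb'
  have hcard : ((X.erase a).erase b).card = 1 := by omega
  obtain ⟨c, hc⟩ := Finset.card_eq_one.mp hcard
  have e1 := i2_insert G (Finset.notMem_erase a X)
  rw [Finset.insert_erase ha] at e1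
  have e2 := i2_insert G (Finset.notMem_erase b (X.erase a))
  rw [Finset.insert_erase hb'] at e2
  have e3 : i2 G ((X.erase a).erase b) = 0 := by
    rw [hc, g1_i2]
    simp [g1_ad_self]
  have e4 := g1_dg_le G ((X.erase a).erase b) b
  have e5 : dg G (X.erase a) a ≤ 1 := by
    have h := g1_dg_insert G (a := a) (Finset.notMem_erase b (X.erase a))
    rw [Finset.insert_erase hb'] at h
    have h6 := g1_dg_le G ((X.erase a).erase b) a
    have h7 : g1_ad G a b = 0 := by
      unfold g1_ad
      rw [if_neg hn]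
    omega
  have h5 := hX.2
  omega

theorem g1_i2_addE (G : SimpleGraph V) (a b : V) (X : Finset V) :
    i2 (addE G a b) X ≤ i2 G X + if a ∈ X ∧ b ∈ X then 2 else 0 := by
  classical
  rw [g1_i2, g1_i2]
  have h1 : ∀ x ∈ X, ∀ y ∈ X, g1_ad (addE G a b) x y ≤ g1_ad G x y +
      ((if x = a then (if y = b then 1 else 0) else 0) +
        (if x = b then (if y = a then 1 else 0) else 0)) := by
    intro x _ y _
    unfold g1_ad
    by_cases h : G.Adj x y
    · rw [if_pos h]
      split_ifs <;> omega
    · rw [if_neg h]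
      by_cases h2 : (addE G a b).Adj x y
      · rw [if_pos h2]
        rcases h2 with h2 | ⟨-, ⟨h3, h4⟩ | ⟨h3, h4⟩⟩
        · exact absurd h2 h
        · rw [if_pos h3, if_pos h4]; omega
        · rw [if_pos h3, if_pos h4]; omega
      · rw [if_neg h2]; omega
  have h2 : ∑ x ∈ X, ∑ y ∈ X, g1_ad (addE G a b) x y ≤ ∑ x ∈ X, ∑ y ∈ X, (g1_ad G x y +
      ((if x = a then (if y = b then 1 else 0) else 0) +
        (if x = b then (if y = a then 1 else 0) else 0))) :=
    Finset.sum_le_sum fun x hx => Finset.sum_le_sum fun y hy => h1 x hx y hy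
  refine h2.trans ?_
  simp only [Finset.sum_add_distrib]
  apply Nat.add_le_add_left
  have e1 : ∀ (c d : V), ∑ x ∈ X, ∑ y ∈ X, (if x = c then (if y = d then 1 else 0) else 0) =
      if c ∈ X ∧ d ∈ X then 1 else 0 := by
    intro c d
    have e2 : ∀ x ∈ X, ∑ y ∈ X, (if x = c then (if y = d then 1 else 0) else 0) =
        if x = c then (if d ∈ X then 1 else 0) else 0 := by
      intro x _
      by_cases hx : x = c
      · simp only [if_pos hx]
        rw [Finset.sum_ite_eq']
      · simp only [if_neg hx]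
        simp
    rw [Finset.sum_congr rfl e2, Finset.sum_ite_eq']
    by_cases hc : c ∈ X <;> by_cases hd : d ∈ X <;> simp [hc, hd]
  rw [e1, e1]
  by_cases ha : a ∈ X <;> by_cases hb : b ∈ X <;> simp [ha, hb]

theorem sparse_addE {G : SimpleGraph V} (hS : Sparse G) {a b : V} (_hab : a ≠ b)
    (hb : ¬ Blocked G a b) : Sparse (addE G a b) := by
  intro X hX
  have h1 := g1_i2_addE G a b X
  have h2 := hS X hX
  by_cases h : a ∈ X ∧ b ∈ X
  · rw [if_pos h] at h1
    by_contra hcon
    apply hb
    right
    refine ⟨X, ⟨hX, ?_⟩, h.1, h.2⟩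
    obtain ⟨k, hk⟩ := g1_even G X
    omega
  · rw [if_neg h] at h1
    omega

theorem g1_i2_mono {G G' : SimpleGraph V} (hle : G' ≤ G) (X : Finset V) : i2 G' X ≤ i2 G X := by
  rw [g1_i2, g1_i2]
  refine Finset.sum_le_sum fun a _ => Finset.sum_le_sum fun b _ => ?_
  unfold g1_ad
  by_cases h : G'.Adj a b
  · rw [if_pos h, if_pos (hle h)]
  · rw [if_neg h]; omega

theorem sparse_le {G G' : SimpleGraph V} (h : Sparse G) (hle : G' ≤ G) : Sparse G' := by
  intro X hX
  have h1 := g1_i2_mono hle X
  have h2 := h X hX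
  omega

end H176R2.R5
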