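import Pool.Agent.H176R2.R5.Defs
import Pool.Agent.H176R2.R5.G1

/-!
# Blocked pairs
-/

set_option autoImplicit false

open Finset

namespace H176R2.R5

variable {V : Type} [Fintype V] [DecidableEq V]

private theorem G2_exists_max (P : Finset V → Prop) (h : ∃ X, P X) :
    ∃ X, P X ∧ ∀ Y, P Y → Y.card ≤ X.card := by
  classical
  obtain ⟨X₀, hX₀⟩ := h
  obtain ⟨X, hX, hmax⟩ := Finset.exists_max_image
    ((univ : Finset (Finset V)).filter P) Finset.card
    ⟨X₀, Finset.mem_filter.mpr ⟨Finset.mem_univ _, hX₀⟩⟩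
  exact ⟨X, (Finset.mem_filter.mp hX).2, fun Y hY =>
    hmax Y (Finset.mem_filter.mpr ⟨Finset.mem_univ _, hY⟩)⟩

private theorem G2_dg_add (G : SimpleGraph V) (X S : Finset V) (a : V) (hd : Disjoint X S)
    (hS : ∀ b ∈ S, G.Adj a b) : dg G X a + S.card ≤ dg G univ a := by
  classical
  unfold dg
  have h1 : (X.filter fun b => G.Adj a b) ∪ S ⊆ univ.filter fun b => G.Adj a b := by
    intro b hb
    rcases Finset.mem_union.mp hb with h | h
    · exact Finset.mem_filter.mpr ⟨Finset.mem_univ _, (Finset.mem_filter.mp h).2⟩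
    · exact Finset.mem_filter.mpr ⟨Finset.mem_univ _, hS b h⟩
  have h2 : Disjoint (X.filter fun b => G.Adj a b) S :=
    Finset.disjoint_of_subset_left (Finset.filter_subset _ _) hd
  rw [← Finset.card_union_of_disjoint h2]
  exact Finset.card_le_card h1

private theorem G2_dg_ge (G : SimpleGraph V) (X S : Finset V) (b : V) (hSX : S ⊆ X)
    (hS : ∀ a ∈ S, G.Adj a b) : S.card ≤ dg G X b := by
  classical
  unfold dg
  apply Finset.card_le_card
  intro a ha
  exact Finset.mem_filter.mpr ⟨hSX ha, (hS a ha).symm⟩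

private theorem G2_complete (G : SimpleGraph V) (N : Finset V) (h3 : 3 ≤ N.card)
    (h4 : N.card ≤ 4) (hb : ∀ a ∈ N, ∀ b ∈ N, a ≠ b → G.Adj a b) : Tight G N := by
  classical
  refine ⟨h3, ?_⟩
  have h1 : ∀ a ∈ N, dg G N a = N.card - 1 := by
    intro a ha
    unfold dg
    rw [← Finset.card_erase_of_mem ha]
    congr 1
    ext b
    rw [Finset.mem_filter, Finset.mem_erase]
    constructor
    · rintro ⟨hb1, hb2⟩
      exact ⟨hb2.ne', hb1⟩
    · rintro ⟨hb1, hb2⟩
      exact ⟨hb2, hb a ha b hb2 hb1.symm⟩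
  unfold i2
  rw [Finset.sum_congr rfl h1, Finset.sum_const, smul_eq_mul]
  have h5 : N.card = 3 ∨ N.card = 4 := by omega
  rcases h5 with h5 | h5 <;> rw [h5]

/-- a nonadjacent blocked pair lies in a tight set with at least four elements -/
private theorem G2_tight4 {G : SimpleGraph V} {a b : V} (hab : a ≠ b) (h : Blocked G a b)
    (hn : ¬ G.Adj a b) : ∃ X, Tight G X ∧ 4 ≤ X.card ∧ a ∈ X ∧ b ∈ X := by
  rcases h with h | ⟨X, hX, ha, hb⟩
  · exact absurd h hn
  · refine ⟨X, hX, ?_, ha, hb⟩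
    have h3 := hX.1
    by_contra h4
    exact hn (tight_three hX (by omega) ha hb hab)

private theorem G2_max {G : SimpleGraph V} (hS : Sparse G) (N : Finset V)
    (hd : ∀ a ∈ N, dg G univ a ≤ 4) (hb : ∀ a ∈ N, ∀ b ∈ N, a ≠ b → Blocked G a b)
    (hna : ∃ a ∈ N, ∃ b ∈ N, a ≠ b ∧ ¬ G.Adj a b) :
    ∃ X, Tight G X ∧ 4 ≤ X.card ∧ 2 ≤ (X ∩ N).card ∧
      (∀ a ∈ X ∩ N, ∀ b ∈ N \ X, G.Adj a b) ∧ ∀ b ∈ N \ X, dg G X b ≤ 2 := by
  obtain ⟨a₀, ha₀, b₀, hb₀, hab₀, hn₀⟩ := hna
  obtain ⟨X₀, hX₀, hc₀, haX₀, hbX₀⟩ := G2_tight4 hab₀ (hb a₀ ha₀ b₀ hb₀ hab₀) hn₀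
  have h2 : 2 ≤ (X₀ ∩ N).card := by
    rw [← Finset.card_pair hab₀]
    apply Finset.card_le_card
    intro z hz
    rcases Finset.mem_insert.mp hz with rfl | hz
    · exact Finset.mem_inter.mpr ⟨haX₀, ha₀⟩
    · rw [Finset.mem_singleton.mp hz]
      exact Finset.mem_inter.mpr ⟨hbX₀, hb₀⟩
  obtain ⟨X, ⟨hX, hc, hN⟩, hmax⟩ := G2_exists_max
    (fun X => Tight G X ∧ 4 ≤ X.card ∧ 2 ≤ (X ∩ N).card) ⟨X₀, hX₀, hc₀, h2⟩
  refine ⟨X, hX, hc, hN, ?_, ?_⟩
  · intro a ha b hb'
    obtain ⟨haX, haN⟩ := Finset.mem_inter.mp ha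
    obtain ⟨hbN, hbX⟩ := Finset.mem_sdiff.mp hb'
    have hab : a ≠ b := fun h => hbX (h ▸ haX)
    by_contra hn
    obtain ⟨Y, hY, hcY, haY, hbY⟩ := G2_tight4 hab (hb a haN b hbN hab) hn
    have hU := tight_merge hS hX hY hc hcY haX haY (hd a haN)
    have hlt : X.card < (X ∪ Y).card := by
      apply Finset.card_lt_card
      rw [Finset.ssubset_iff_of_subset Finset.subset_union_left]
      exact ⟨b, Finset.mem_union_right _ hbY, hbX⟩
    have h3 := hmax (X ∪ Y) ⟨hU, by omega, hN.trans (Finset.card_le_card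
      (Finset.inter_subset_inter_right Finset.subset_union_left))⟩
    omega
  · intro b hb'
    obtain ⟨hbN, hbX⟩ := Finset.mem_sdiff.mp hb'
    by_contra h3
    have hI := tight_insert hS hX hbX (by omega)
    have hcI : (insert b X).card = X.card + 1 := Finset.card_insert_of_notMem hbX
    have h4 := hmax (insert b X) ⟨hI, by omega, hN.trans (Finset.card_le_card
      (Finset.inter_subset_inter_right (Finset.subset_insert _ _)))⟩
    omega

theorem blocked4 {G : SimpleGraph V} (hS : Sparse G) (N : Finset V) (hN : N.card = 4)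
    (hd : ∀ a ∈ N, dg G univ a ≤ 4) (hb : ∀ a ∈ N, ∀ b ∈ N, a ≠ b → Blocked G a b) :
    ∃ X, Tight G X ∧ N ⊆ X := by
  by_cases hna : ∃ a ∈ N, ∃ b ∈ N, a ≠ b ∧ ¬ G.Adj a b
  · obtain ⟨X, hX, hc, h2, hadj, hle⟩ := G2_max hS N hd hb hna
    refine ⟨X, hX, ?_⟩
    by_contra hsub
    obtain ⟨b, hbN, hbX⟩ := Finset.not_subset.mp hsub
    have hbm : b ∈ N \ X := Finset.mem_sdiff.mpr ⟨hbN, hbX⟩
    obtain ⟨a, ha⟩ : (X ∩ N).Nonempty := Finset.card_pos.mp (by omega)
    have h3 := tight_min_deg hS hX hc (Finset.mem_inter.mp ha).1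
    have h4 := G2_dg_add G X (N \ X) a Finset.disjoint_sdiff (fun c hc' => hadj a ha c hc')
    have h5 := hd a (Finset.mem_inter.mp ha).2
    have h6 : (N \ X).card + (X ∩ N).card = N.card := by
      rw [Finset.inter_comm]
      exact Finset.card_sdiff_add_card_inter N X
    have h7 := G2_dg_ge G X (X ∩ N) b Finset.inter_subset_left (fun c hc' => hadj c hc' b hbm)
    have h8 := hle b hbm
    omega
  · push Not at hna
    exact ⟨N, G2_complete G N (by omega) (by omega) hna, Finset.Subset.refl _⟩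

theorem blocked3 {G : SimpleGraph V} (hS : Sparse G) {a b c : V} (hab : a ≠ b) (hac : a ≠ c)
    (hbc : b ≠ c) (ha : dg G univ a ≤ 4) (hb : dg G univ b ≤ 4) (hc : dg G univ c ≤ 4)
    (h1 : Blocked G a b) (h2 : Blocked G a c) (h3 : Blocked G b c) :
    (∃ X, Tight G X ∧ a ∈ X ∧ b ∈ X ∧ c ∈ X) ∨
    ∃ x m y, (∀ z, z = a ∨ z = b ∨ z = c ↔ z = x ∨ z = m ∨ z = y) ∧ G.Adj x m ∧ G.Adj m y ∧
      ¬ G.Adj x y ∧ ∃ X, Tight G X ∧ x ∈ X ∧ y ∈ X ∧ m ∉ X := by
  have hsym : ∀ {u v : V}, Blocked G u v → Blocked G v u := by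
    rintro u v (h | ⟨X, hX, hu, hv⟩)
    · exact Or.inl h.symm
    · exact Or.inr ⟨X, hX, hv, hu⟩
  have hNc : ({a, b, c} : Finset V).card = 3 := by
    rw [Finset.card_insert_of_notMem, Finset.card_pair hbc]
    simp [hab, hac]
  have hd : ∀ z ∈ ({a, b, c} : Finset V), dg G univ z ≤ 4 := by
    intro z hz
    simp only [Finset.mem_insert, Finset.mem_singleton] at hz
    rcases hz with rfl | rfl | rfl
    · exact ha
    · exact hb
    · exact hc
  have hbl : ∀ u ∈ ({a, b, c} : Finset V), ∀ v ∈ ({a, b, c} : Finset V), u ≠ v →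
      Blocked G u v := by
    intro u hu v hv huv
    simp only [Finset.mem_insert, Finset.mem_singleton] at hu hv
    rcases hu with rfl | rfl | rfl <;> rcases hv with rfl | rfl | rfl
    · exact absurd rfl huv
    · exact h1
    · exact h2
    · exact hsym h1
    · exact absurd rfl huv
    · exact h3
    · exact hsym h2
    · exact hsym h3
    · exact absurd rfl huv
  by_cases hna : ∃ u ∈ ({a, b, c} : Finset V), ∃ v ∈ ({a, b, c} : Finset V), u ≠ v ∧ ¬ G.Adj u v
  · obtain ⟨X, hX, hcX, h2X, hadj, _⟩ := G2_max hS _ hd hbl hna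
    by_cases hsub : ({a, b, c} : Finset V) ⊆ X
    · left
      exact ⟨X, hX, hsub (by simp), hsub (by simp), hsub (by simp)⟩
    · right
      obtain ⟨m, hmN, hmX⟩ := Finset.not_subset.mp hsub
      have hmm : m ∈ ({a, b, c} : Finset V) \ X := Finset.mem_sdiff.mpr ⟨hmN, hmX⟩
      have h6 : (({a, b, c} : Finset V) \ X).card + (X ∩ ({a, b, c} : Finset V)).card = 3 := by
        rw [Finset.inter_comm, ← hNc]
        exact Finset.card_sdiff_add_card_inter _ X
      have h7 : (({a, b, c} : Finset V) \ X).card ≤ 1 := by omega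
      -- the others are in `X`
      have hin : ∀ z ∈ ({a, b, c} : Finset V), z ≠ m → z ∈ X := by
        intro z hz hzm
        by_contra hzX
        have := Finset.card_le_one.mp h7 z (Finset.mem_sdiff.mpr ⟨hz, hzX⟩) m hmm
        exact hzm this
      have hfin : ∀ x y, (∀ z, z = a ∨ z = b ∨ z = c ↔ z = x ∨ z = m ∨ z = y) → x ≠ m → y ≠ m →
          x ≠ y → ∃ x m y, (∀ z, z = a ∨ z = b ∨ z = c ↔ z = x ∨ z = m ∨ z = y) ∧ G.Adj x m ∧
            G.Adj m y ∧ ¬ G.Adj x y ∧ ∃ X, Tight G X ∧ x ∈ X ∧ y ∈ X ∧ m ∉ X := by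
        intro x y hz hxm hym hxy
        have hxN : x ∈ ({a, b, c} : Finset V) := by
          simp only [Finset.mem_insert, Finset.mem_singleton]
          exact (hz x).mpr (Or.inl rfl)
        have hyN : y ∈ ({a, b, c} : Finset V) := by
          simp only [Finset.mem_insert, Finset.mem_singleton]
          exact (hz y).mpr (Or.inr (Or.inr rfl))
        have hxX := hin x hxN hxm
        have hyX := hin y hyN hym
        have hA1 := hadj x (Finset.mem_inter.mpr ⟨hxX, hxN⟩) m hmm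
        have hA2 := hadj y (Finset.mem_inter.mpr ⟨hyX, hyN⟩) m hmm
        refine ⟨x, m, y, hz, hA1, hA2.symm, ?_, X, hX, hxX, hyX, hmX⟩
        intro hxyA
        obtain ⟨u, hu, v, hv, huv, hnA⟩ := hna
        simp only [Finset.mem_insert, Finset.mem_singleton] at hu hv
        rw [hz] at hu hv
        apply hnA
        rcases hu with rfl | rfl | rfl <;> rcases hv with rfl | rfl | rfl
        · exact absurd rfl huv
        · exact hA1
        · exact hxyA
        · exact hA1.symm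
        · exact absurd rfl huv
        · exact hA2.symm
        · exact hxyA.symm
        · exact hA2
        · exact absurd rfl huv
      simp only [Finset.mem_insert, Finset.mem_singleton] at hmN
      rcases hmN with h | h | h
      · exact hfin b c (fun z => by rw [h]; tauto) (by rw [h]; exact hab.symm)
          (by rw [h]; exact hac.symm) hbc
      · exact hfin a c (fun z => by rw [h]) (by rw [h]; exact hab)
          (by rw [h]; exact hbc.symm) hac
      · exact hfin a b (fun z => by rw [h]; tauto) (by rw [h]; exact hac)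
          (by rw [h]; exact hbc) hab
  · push Not at hna
    left
    exact ⟨{a, b, c}, G2_complete G _ (by omega) (by omega) hna, by simp, by simp, by simp⟩

theorem blocked_all {G : SimpleGraph V} (hS : Sparse G) (N : Finset V) (hN : N.card = 5) {x : V}
    (hx : x ∈ N) (hd : dg G univ x ≤ 4) (hb : ∀ y ∈ N, y ≠ x → Blocked G x y) :
    (∀ y ∈ N, y ≠ x → G.Adj x y) ∨ ∃ X, Tight G X ∧ 4 ≤ (X ∩ N).card := by
  by_cases hna : ∃ y ∈ N, y ≠ x ∧ ¬ G.Adj x y
  · right
    obtain ⟨y₀, hy₀, hyx₀, hn₀⟩ := hna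
    obtain ⟨X₀, hX₀, hc₀, hxX₀, _⟩ := G2_tight4 hyx₀.symm (hb y₀ hy₀ hyx₀) hn₀
    obtain ⟨X, ⟨hX, hc, hxX⟩, hmax⟩ := G2_exists_max
      (fun X => Tight G X ∧ 4 ≤ X.card ∧ x ∈ X) ⟨X₀, hX₀, hc₀, hxX₀⟩
    refine ⟨X, hX, ?_⟩
    have hadj : ∀ b ∈ N \ X, G.Adj x b := by
      intro b hb'
      obtain ⟨hbN, hbX⟩ := Finset.mem_sdiff.mp hb'
      have hxb : x ≠ b := fun h => hbX (h ▸ hxX)
      by_contra hn
      obtain ⟨Y, hY, hcY, hxY, hbY⟩ := G2_tight4 hxb (hb b hbN hxb.symm) hn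
      have hU := tight_merge hS hX hY hc hcY hxX hxY hd
      have hlt : X.card < (X ∪ Y).card := by
        apply Finset.card_lt_card
        rw [Finset.ssubset_iff_of_subset Finset.subset_union_left]
        exact ⟨b, Finset.mem_union_right _ hbY, hbX⟩
      have h3 := hmax (X ∪ Y) ⟨hU, by omega, Finset.mem_union_left _ hxX⟩
      omega
    have h3 := tight_min_deg hS hX hc hxX
    have h4 := G2_dg_add G X (N \ X) x Finset.disjoint_sdiff hadj
    have h6 : (N \ X).card + (X ∩ N).card = N.card := by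
      rw [Finset.inter_comm]
      exact Finset.card_sdiff_add_card_inter N X
    omega
  · left
    push Not at hna
    exact hna

end H176R2.R5
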