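import Pool.Agent.H176R2.R5.G1
import Pool.Agent.H176R2.R5.G2

/-!
# Task JJ: the Jackson-Jordan theorem from the axioms
-/

set_option autoImplicit false

open Finset

namespace H176R2.R5

variable {V : Type} [Fintype V] [DecidableEq V]

namespace JJaux

theorem dg_mono {G G' : SimpleGraph V} (h : G' ≤ G) (X : Finset V) (a : V) :
    dg G' X a ≤ dg G X a := by
  classical
  unfold dg
  refine Finset.card_le_card fun b hb => ?_
  rw [Finset.mem_filter] at hb ⊢
  exact ⟨hb.1, h hb.2⟩

theorem i2_mono {G G' : SimpleGraph V} (h : G' ≤ G) (X : Finset V) : i2 G' X ≤ i2 G X :=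
  Finset.sum_le_sum fun a _ => dg_mono h X a

theorem i2_lt {G G' : SimpleGraph V} (h : ∀ x, dg G' univ x ≤ dg G univ x) (w : V)
    (hw : dg G' univ w < dg G univ w) : i2 G' univ < i2 G univ :=
  Finset.sum_lt_sum (fun x _ => h x) ⟨w, Finset.mem_univ w, hw⟩

/-- a subgraph which misses an edge at `x` -/
theorem dg_lt {G G' : SimpleGraph V} (h : G' ≤ G) {x y : V} (h1 : G.Adj x y)
    (h2 : ¬ G'.Adj x y) : dg G' univ x < dg G univ x := by
  classical
  unfold dg
  refine Finset.card_lt_card ?_
  rw [Finset.ssubset_iff_of_subset]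
  · exact ⟨y, by simpa using h1, by simpa using h2⟩
  · intro b hb
    rw [Finset.mem_filter] at hb ⊢
    exact ⟨hb.1, h hb.2⟩

theorem NC_mono {G G' : SimpleGraph V} (h : G' ≤ G) (hd : ∀ a, dg G univ a ≤ 5) (hN : NC G) :
    NC G' := by
  classical
  intro X hX hcl
  by_contra hcon
  push Not at hcon
  have hadj : ∀ x ∈ X, ∀ b, G.Adj x b → G'.Adj x b := by
    intro x hx b hb
    by_contra hnb
    have h1 := dg_lt h hb hnb
    have h2 := hcon x hx
    have h3 := hd x
    omega
  obtain ⟨a, ha, ha5⟩ := hN X hX fun x hx b hb => hcl x hx b (hadj x hx b hb)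
  have h1 := dg_mono h univ a
  have h2 := hcon a ha
  have h3 := hd a
  omega

theorem del_le (G : SimpleGraph V) (w : V) : del G w ≤ G := fun _ _ h => h.1

theorem tch_le (G : SimpleGraph V) (X : Finset V) : tch G X ≤ G := fun _ _ h => h.1

theorem nch_le (G : SimpleGraph V) (X : Finset V) : nch G X ≤ G := fun _ _ h => h.1

theorem dg_del_self (G : SimpleGraph V) (w : V) (X : Finset V) : dg (del G w) X w = 0 := by
  classical
  unfold dg
  rw [Finset.card_eq_zero, Finset.filter_eq_empty_iff]
  exact fun b _ hb => hb.2.1 rfl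

/-- degrees of the graph `addE (del G w) a b` -/
theorem dg_addE_le {G : SimpleGraph V} {w a b : V} (hwa : G.Adj w a) (hwb : G.Adj w b) (x : V) :
    dg (addE (del G w) a b) univ x ≤ dg G univ x := by
  classical
  by_cases hx : G.Adj x w
  · -- remove w, add one vertex
    have hxw : x ≠ w := hx.ne
    have hsub : ∃ y : V, (univ.filter fun z => (addE (del G w) a b).Adj x z) ⊆
        insert y ((univ.filter fun z => G.Adj x z).erase w) := by
      by_cases hxa : x = a
      · refine ⟨b, fun z hz => ?_⟩
        rw [Finset.mem_filter] at hz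
        rw [Finset.mem_insert, Finset.mem_erase, Finset.mem_filter]
        rcases hz.2 with h1 | ⟨hab, h1 | h1⟩
        · exact Or.inr ⟨h1.2.2, Finset.mem_univ _, h1.1⟩
        · exact Or.inl h1.2
        · exact absurd (hxa.symm.trans h1.1) hab
      · refine ⟨a, fun z hz => ?_⟩
        rw [Finset.mem_filter] at hz
        rw [Finset.mem_insert, Finset.mem_erase, Finset.mem_filter]
        rcases hz.2 with h1 | ⟨hab, h1 | h1⟩
        · exact Or.inr ⟨h1.2.2, Finset.mem_univ _, h1.1⟩
        · exact absurd h1.1 hxa
        · exact Or.inl h1.2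
    obtain ⟨y, hy⟩ := hsub
    unfold dg
    have h1 := Finset.card_le_card hy
    have h2 := Finset.card_insert_le y ((univ.filter fun z => G.Adj x z).erase w)
    have h3 : ((univ.filter fun z => G.Adj x z).erase w).card + 1 =
        (univ.filter fun z => G.Adj x z).card :=
      Finset.card_erase_add_one (by simpa using hx)
    omega
  · -- x is not a or b
    unfold dg
    refine Finset.card_le_card fun z hz => ?_
    rw [Finset.mem_filter] at hz ⊢
    refine ⟨hz.1, ?_⟩
    rcases hz.2 with h1 | ⟨-, h1 | h1⟩
    · exact h1.1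
    · rw [h1.1] at hx
      exact absurd hwa.symm hx
    · rw [h1.1] at hx
      exact absurd hwb.symm hx

theorem dg_addE_lt {G : SimpleGraph V} {w a b c : V} (hwa : G.Adj w a) (hwb : G.Adj w b)
    (hwc : G.Adj w c) (hca : c ≠ a) (hcb : c ≠ b) :
    dg (addE (del G w) a b) univ c < dg G univ c := by
  classical
  have hsub : (univ.filter fun z => (addE (del G w) a b).Adj c z) ⊆
      (univ.filter fun z => G.Adj c z).erase w := by
    intro z hz
    rw [Finset.mem_filter] at hz
    rw [Finset.mem_erase, Finset.mem_filter]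
    rcases hz.2 with h1 | ⟨-, h1 | h1⟩
    · exact ⟨h1.2.2, Finset.mem_univ _, h1.1⟩
    · exact absurd h1.1 hca
    · exact absurd h1.1 hcb
  have h3 : ((univ.filter fun z => G.Adj c z).erase w).card + 1 =
      (univ.filter fun z => G.Adj c z).card :=
    Finset.card_erase_add_one (by simpa using hwc.symm)
  have h1 := Finset.card_le_card hsub
  unfold dg
  omega

theorem dg_addE_w {G : SimpleGraph V} {w a b : V} (hwa : G.Adj w a) (hwb : G.Adj w b) :
    dg (addE (del G w) a b) univ w = 0 := by
  classical
  unfold dg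
  rw [Finset.card_eq_zero, Finset.filter_eq_empty_iff]
  rintro z - (h1 | ⟨-, h1 | h1⟩)
  · exact h1.2.1 rfl
  · exact hwa.ne h1.1
  · exact hwb.ne h1.1

theorem dg_four {G : SimpleGraph V} {w a b c d : V}
    (hN : ∀ x, G.Adj w x ↔ x = a ∨ x = b ∨ x = c ∨ x = d) (hab : a ≠ b) (hac : a ≠ c)
    (had : a ≠ d) (hbc : b ≠ c) (hbd : b ≠ d) (hcd : c ≠ d) (X : Finset V)
    (hX : ({a, b, c, d} : Finset V) ⊆ X) : dg G X w = 4 := by
  classical
  unfold dg
  have h1 : (X.filter fun z => G.Adj w z) = {a, b, c, d} := by
    ext z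
    rw [Finset.mem_filter, hN]
    constructor
    · rintro ⟨-, h⟩
      simpa using h
    · intro h
      exact ⟨hX h, by simpa using h⟩
  rw [h1]
  rw [Finset.card_insert_of_notMem (by simp [hab, hac, had]),
    Finset.card_insert_of_notMem (by simp [hbc, hbd]),
    Finset.card_insert_of_notMem (by simp [hcd]), Finset.card_singleton]

/-- the step at a vertex of degree four, with an unblocked pair `a, b` of neighbours -/
theorem step {I : SimpleGraph V → Prop} (hI : Ax I) (G : SimpleGraph V) (hS : Sparse G)
    (hd : ∀ a, dg G univ a ≤ 5) (hN : NC G)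
    (ih : ∀ G' : SimpleGraph V, i2 G' univ < i2 G univ → Sparse G' → (∀ a, dg G' univ a ≤ 5) →
      NC G' → I G')
    (w a b c d : V) (hNb : ∀ x, G.Adj w x ↔ x = a ∨ x = b ∨ x = c ∨ x = d) (hab : a ≠ b)
    (hac : a ≠ c) (had : a ≠ d) (hbc : b ≠ c) (hbd : b ≠ d) (hcd : c ≠ d)
    (hbl : ¬ Blocked (del G w) a b) : I G := by
  classical
  have hwa : G.Adj w a := (hNb a).2 (Or.inl rfl)
  have hwb : G.Adj w b := (hNb b).2 (Or.inr (Or.inl rfl))
  have hwc : G.Adj w c := (hNb c).2 (Or.inr (Or.inr (Or.inl rfl)))
  have hnab : ¬ G.Adj a b := fun h => hbl (Or.inl ⟨h, hwa.ne', hwb.ne'⟩)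
  have hw4 : dg G univ w = 4 :=
    dg_four hNb hab hac had hbc hbd hcd univ (Finset.subset_univ _)
  set E := addE (del G w) a b with hE
  have hdE : ∀ x, dg E univ x ≤ dg G univ x := dg_addE_le hwa hwb
  have hdE5 : ∀ x, dg E univ x ≤ 5 := fun x => le_trans (hdE x) (hd x)
  have hEw : dg E univ w = 0 := dg_addE_w hwa hwb
  have hlt : i2 E univ < i2 G univ := i2_lt hdE w (by omega)
  have hSE : Sparse E := sparse_addE (sparse_le hS (del_le G w)) hab hbl
  by_cases hNE : NC E
  · exact hI.ext1 G w a b c d hNb hab hac had hbc hbd hcd hnab (ih E hlt hSE hdE5 hNE)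
  · unfold NC at hNE
    push Not at hNE
    obtain ⟨X, hXne, hXcl, hX5⟩ := hNE
    have hwX : w ∉ X := fun h => by
      have := hX5 w h
      omega
    have hcX : c ∉ X := fun h => by
      have h1 := hX5 c h
      have h2 : dg E univ c < dg G univ c := dg_addE_lt hwa hwb hwc hac.symm hbc.symm
      have h3 := hd c
      omega
    have hXH : Closed (del G w) X := fun x hx y hxy => hXcl x hx y (Or.inl hxy)
    refine hI.cut G w X hwX hXH ?_ ?_
    · refine ih _ ?_ (sparse_le hS (tch_le G X)) (fun x => le_trans (dg_mono (tch_le G X) _ x) (hd x))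
        (NC_mono (tch_le G X) hd hN)
      refine i2_lt (fun x => dg_mono (tch_le G X) _ x) w (dg_lt (tch_le G X) hwc ?_)
      rintro ⟨-, h | h⟩
      · exact hwX h
      · exact hcX h
    · obtain ⟨x, hx⟩ := hXne
      -- an edge at x
      have hex : ∃ y, G.Adj x y := by
        by_contra hno
        push Not at hno
        have h0 : dg G univ x = 0 := by
          unfold dg
          rw [Finset.card_eq_zero, Finset.filter_eq_empty_iff]
          exact fun y _ => hno y
        have h1 := hX5 x hx
        have h2 := hdE x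
        omega
      obtain ⟨y, hxy⟩ := hex
      refine ih _ ?_ (sparse_le hS (nch_le G X)) (fun x => le_trans (dg_mono (nch_le G X) _ x) (hd x))
        (NC_mono (nch_le G X) hd hN)
      refine i2_lt (fun x => dg_mono (nch_le G X) _ x) x (dg_lt (nch_le G X) hxy ?_)
      rintro ⟨-, h, -⟩
      exact h hx

/-- the case of a vertex of degree four -/
theorem four {I : SimpleGraph V → Prop} (hI : Ax I) (G : SimpleGraph V) (hS : Sparse G)
    (hd : ∀ a, dg G univ a ≤ 5) (hN : NC G)
    (ih : ∀ G' : SimpleGraph V, i2 G' univ < i2 G univ → Sparse G' → (∀ a, dg G' univ a ≤ 5) →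
      NC G' → I G')
    (w : V) (hw : dg G univ w = 4) : I G := by
  classical
  -- the four neighbours
  obtain ⟨a, b, c, d, hab, hac, had, hbc, hbd, hcd, hset⟩ :=
    Finset.card_eq_four.1 (show (univ.filter fun z => G.Adj w z).card = 4 from hw)
  have hNb : ∀ x, G.Adj w x ↔ x = a ∨ x = b ∨ x = c ∨ x = d := by
    intro x
    have h1 : x ∈ (univ.filter fun z => G.Adj w z) ↔ x ∈ ({a, b, c, d} : Finset V) := by rw [hset]
    simpa using h1
  by_cases h1 : Blocked (del G w) a b
  swap
  · exact step hI G hS hd hN ih w a b c d hNb hab hac had hbc hbd hcd h1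
  by_cases h2 : Blocked (del G w) a c
  swap
  · exact step hI G hS hd hN ih w a c b d (fun x => by rw [hNb]; tauto) hac hab had hbc.symm hcd
      hbd h2
  by_cases h3 : Blocked (del G w) a d
  swap
  · exact step hI G hS hd hN ih w a d b c (fun x => by rw [hNb]; tauto) had hab hac hbd.symm
      hcd.symm hbc h3
  by_cases h4 : Blocked (del G w) b c
  swap
  · exact step hI G hS hd hN ih w b c a d (fun x => by rw [hNb]; tauto) hbc hab.symm hbd
      hac.symm hcd had h4
  by_cases h5 : Blocked (del G w) b d
  swap
  · exact step hI G hS hd hN ih w b d a c (fun x => by rw [hNb]; tauto) hbd hab.symm hbc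
      had.symm hcd.symm hac h5
  by_cases h6 : Blocked (del G w) c d
  swap
  · exact step hI G hS hd hN ih w c d a b (fun x => by rw [hNb]; tauto) hcd hac.symm hbc.symm
      had.symm hbd.symm hab h6
  -- all pairs blocked
  exfalso
  have hsymm : ∀ x y, Blocked (del G w) x y → Blocked (del G w) y x := by
    rintro x y (h | ⟨X, hX, hx, hy⟩)
    · exact Or.inl h.symm
    · exact Or.inr ⟨X, hX, hy, hx⟩
  have hSH : Sparse (del G w) := sparse_le hS (del_le G w)
  obtain ⟨X, hX, hNX⟩ := blocked4 hSH {a, b, c, d} (by
      rw [Finset.card_insert_of_notMem (by simp [hab, hac, had]),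
        Finset.card_insert_of_notMem (by simp [hbc, hbd]),
        Finset.card_insert_of_notMem (by simp [hcd]), Finset.card_singleton])
    (by
      intro x hx
      have hwx : G.Adj x w := ((hNb x).2 (by simpa using hx)).symm
      have h7 := dg_lt (del_le G w) hwx (fun h => h.2.2 rfl)
      have h8 := hd x
      omega)
    (by
      intro x hx y hy hxy
      simp only [Finset.mem_insert, Finset.mem_singleton] at hx hy
      rcases hx with rfl | rfl | rfl | rfl <;> rcases hy with rfl | rfl | rfl | rfl <;>
        first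
        | exact absurd rfl hxy
        | assumption
        | (apply hsymm; assumption))
  have hX4 : 4 ≤ X.card := by
    have h7 := Finset.card_le_card hNX
    rw [Finset.card_insert_of_notMem (by simp [hab, hac, had]),
      Finset.card_insert_of_notMem (by simp [hbc, hbd]),
      Finset.card_insert_of_notMem (by simp [hcd]), Finset.card_singleton] at h7
    exact h7
  have hwX : w ∉ X := by
    intro h
    have h7 := tight_min_deg hSH hX hX4 h
    rw [dg_del_self] at h7
    omega
  have h7 := i2_insert G hwX
  rw [dg_four hNb hab hac had hbc hbd hcd X hNX] at h7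
  have h8 := i2_mono (del_le G w) X
  have h9 := hX.2
  have h10 := hS (insert w X) (by rw [Finset.card_insert_of_notMem hwX]; omega)
  rw [Finset.card_insert_of_notMem hwX] at h10
  omega

end JJaux

open JJaux

theorem JJ {I : SimpleGraph V → Prop} (hI : Ax I) (G : SimpleGraph V) (hS : Sparse G)
    (hd : ∀ a, dg G univ a ≤ 5) (hN : NC G) : I G := by
  classical
  have key : ∀ (n : ℕ) (G : SimpleGraph V), i2 G univ = n → Sparse G →
      (∀ a, dg G univ a ≤ 5) → NC G → I G := by
    intro n
    induction n using Nat.strong_induction_on with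
    | _ n ihn =>
      intro G hn hS hd hN
      have ih : ∀ G' : SimpleGraph V, i2 G' univ < i2 G univ → Sparse G' →
          (∀ a, dg G' univ a ≤ 5) → NC G' → I G' := by
        intro G' hlt h1 h2 h3
        rw [hn] at hlt
        exact ihn _ hlt G' rfl h1 h2 h3
      by_cases hbot : G = ⊥
      · rw [hbot]
        exact hI.bot
      · -- the vertices of positive degree
        obtain ⟨x0, y0, hxy0⟩ : ∃ x y, G.Adj x y := by
          by_contra hno
          push Not at hno
          apply hbot
          ext x y
          simp only [SimpleGraph.bot_adj, iff_false]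
          exact hno x y
        obtain ⟨w, hw, hw5⟩ := hN (univ.filter fun v => ∃ y, G.Adj v y)
          ⟨x0, by simp only [Finset.mem_filter, Finset.mem_univ, true_and]; exact ⟨y0, hxy0⟩⟩
          (by
            intro a _ b hab
            simp only [Finset.mem_filter, Finset.mem_univ, true_and]
            exact ⟨a, hab.symm⟩)
        simp only [Finset.mem_filter, Finset.mem_univ, true_and] at hw
        obtain ⟨y, hwy⟩ := hw
        have h5 := hd w
        by_cases h3 : dg G univ w ≤ 3
        · refine hI.ext0 G w h3 (ih _ ?_ (sparse_le hS (del_le G w))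
            (fun x => le_trans (dg_mono (del_le G w) _ x) (hd x)) (NC_mono (del_le G w) hd hN))
          exact i2_lt (fun x => dg_mono (del_le G w) _ x) w
            (dg_lt (del_le G w) hwy (fun h => h.2.1 rfl))
        · exact four hI G hS hd hN ih w (by omega)
  exact key _ G rfl hS hd hN

end H176R2.R5
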