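import Pool.Agent.H176R2.R5.G1
import Pool.Agent.H176R2.R5.JJ
import Pool.Agent.H176R2.R5.EX

/-!
# Project R5, task CF1 (helper495): basic facts on circuits
-/

set_option autoImplicit false

open Finset

namespace H176R2.R5

variable {V : Type} [Fintype V] [DecidableEq V]

/-! ### auxiliary lemmas on degrees -/

theorem cf1_dg_mono {G G' : SimpleGraph V} (h : G ≤ G') (x : V) : dg G univ x ≤ dg G' univ x := by
  classical
  unfold dg
  refine card_le_card ?_
  intro y hy
  rw [mem_filter] at hy ⊢
  exact ⟨hy.1, h hy.2⟩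

theorem cf1_dg_pos {G : SimpleGraph V} {x y : V} (h : G.Adj x y) : 0 < dg G univ x := by
  classical
  unfold dg
  exact card_pos.2 ⟨y, by rw [mem_filter]; exact ⟨mem_univ _, h⟩⟩

theorem cf1_dg_ex {G : SimpleGraph V} {x : V} (h : dg G univ x ≠ 0) : ∃ y, G.Adj x y := by
  classical
  unfold dg at h
  obtain ⟨y, hy⟩ := card_pos.1 (Nat.pos_of_ne_zero h)
  rw [mem_filter] at hy
  exact ⟨y, hy.2⟩

theorem cf1_dg_zero {G : SimpleGraph V} {x : V} (h : ∀ y, ¬ G.Adj x y) : dg G univ x = 0 := by
  by_contra hc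
  obtain ⟨y, hy⟩ := cf1_dg_ex hc
  exact h y hy

theorem cf1_del_le (G : SimpleGraph V) (w : V) : del G w ≤ G := fun _ _ h => h.1

theorem cf1_le_addE (G : SimpleGraph V) (a b : V) : G ≤ addE G a b := fun _ _ h => Or.inl h

theorem cf1_dg_del {G : SimpleGraph V} {v x : V} (h : G.Adj v x) :
    dg (del G v) univ x + 1 ≤ dg G univ x := by
  classical
  unfold dg
  rw [← card_insert_of_notMem (a := v)]
  · refine card_le_card ?_
    intro y hy
    rw [mem_insert, mem_filter] at hy
    rw [mem_filter]
    rcases hy with hy | hy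
    · rw [hy]; exact ⟨mem_univ _, h.symm⟩
    · exact ⟨mem_univ _, hy.2.1⟩
  · intro hc
    rw [mem_filter] at hc
    exact hc.2.2.2 rfl

theorem cf1_dg_addE (G : SimpleGraph V) (a b x : V) :
    dg (addE G a b) univ x ≤ dg G univ x + (if x = a ∨ x = b then 1 else 0) := by
  classical
  by_cases hx : x = a ∨ x = b
  · rw [if_pos hx]
    unfold dg
    have : (univ.filter fun y => (addE G a b).Adj x y) ⊆
        insert (if x = a then b else a) (univ.filter fun y => G.Adj x y) := by
      intro y hy
      rw [mem_filter] at hy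
      rw [mem_insert, mem_filter]
      rcases hy.2 with h | ⟨hne, ⟨h1, h2⟩ | ⟨h1, h2⟩⟩
      · exact Or.inr ⟨mem_univ _, h⟩
      · left; rw [if_pos h1]; exact h2
      · left
        have : x ≠ a := fun h => hne (h.symm.trans h1)
        rw [if_neg this]; exact h2
    exact (card_le_card this).trans (card_insert_le _ _)
  · rw [if_neg hx, add_zero]
    unfold dg
    refine card_le_card ?_
    intro y hy
    rw [mem_filter] at hy ⊢
    refine ⟨mem_univ _, ?_⟩
    rcases hy.2 with h | ⟨_, ⟨h1, _⟩ | ⟨h1, _⟩⟩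
    · exact h
    · exact absurd (Or.inl h1) hx
    · exact absurd (Or.inr h1) hx

/-- the cut argument -/
theorem cf1_cut {p : V → Fin 3 → ℝ} (hp : Gen p) {C : SimpleGraph V} (hC : Circ p C) (w : V)
    (X : Finset V) (hw : w ∉ X) (hX : Closed (del C w) X) :
    (∀ a ∈ X, dg C univ a = 0) ∨ ∀ a, a ∉ X → a ≠ w → dg C univ a = 0 := by
  by_contra hcon
  rw [not_or] at hcon
  obtain ⟨h1, h2⟩ := hcon
  push Not at h1 h2
  obtain ⟨a, haX, ha⟩ := h1
  obtain ⟨b, hbX, hbw, hb⟩ := h2
  obtain ⟨a', haa⟩ := cf1_dg_ex ha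
  obtain ⟨b', hbb⟩ := cf1_dg_ex hb
  have hb' : b' ∉ X := by
    intro hb'
    apply hbX
    refine hX b' hb' b ⟨hbb.symm, ?_, hbw⟩
    rintro rfl
    exact hw hb'
  have l1 : tch C X < C := by
    refine lt_of_le_of_ne (fun _ _ h => h.1) ?_
    intro he
    have : (tch C X).Adj b b' := by rw [he]; exact hbb
    rcases this.2 with h | h
    · exact hbX h
    · exact hb' h
  have l2 : nch C X < C := by
    refine lt_of_le_of_ne (fun _ _ h => h.1) ?_
    intro he
    have : (nch C X).Adj a a' := by rw [he]; exact haa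
    exact this.2.1 haX
  exact hC.dep ((ax_ind hp).cut C w X hw hX (hC.min _ l1) (hC.min _ l2))

theorem circ_std {p : V → Fin 3 → ℝ} (hp : Gen p) {C : SimpleGraph V} (hC : Circ p C)
    (hS : Sparse C) (hd : ∀ a, dg C univ a ≤ 5) : ∃ ω, Std p C ω := by
  classical
  have hNC : ¬ NC C := fun h => hC.dep (JJ (ax_ind hp) C hS hd h)
  unfold NC at hNC
  push Not at hNC
  obtain ⟨X, hXne, hXc, hX5⟩ := hNC
  have hout : ∀ a, a ∉ X → dg C univ a = 0 := by
    intro a ha
    by_contra hne
    obtain ⟨b, hab⟩ := cf1_dg_ex hne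
    have hba : b ≠ a := hab.ne.symm
    have hbX : b ∉ X := fun hb => ha (hXc b hb a hab.symm)
    have hcl : Closed (del C a) X := fun x hx y hy => hXc x hx y hy.1
    rcases cf1_cut hp hC a X ha hcl with h | h
    · obtain ⟨x, hx⟩ := hXne
      have e1 := h x hx
      have e2 := hX5 x hx
      omega
    · have e1 := h b hbX hba
      have e2 := cf1_dg_pos hab.symm
      omega
  have hdep := hC.dep
  unfold Ind at hdep
  push Not at hdep
  obtain ⟨ω, hω, a0, b0, h0⟩ := hdep
  refine ⟨ω, hp, hC, hS, ?_, hω, ?_⟩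
  · intro a
    by_cases ha : a ∈ X
    · exact Or.inr (hX5 a ha)
    · exact Or.inl (hout a ha)
  · intro a b hab h
    let C' : SimpleGraph V :=
      { Adj := fun x y => C.Adj x y ∧ ¬ ((x = a ∧ y = b) ∨ (x = b ∧ y = a))
        symm := ⟨fun _ _ h => ⟨h.1.symm, fun h' => h.2 (by
          rcases h' with ⟨h1, h2⟩ | ⟨h1, h2⟩
          · exact Or.inr ⟨h2, h1⟩
          · exact Or.inl ⟨h2, h1⟩)⟩⟩
        loopless := ⟨fun _ h => h.1.ne rfl⟩ }
    have hlt : C' < C := by
      refine lt_of_le_of_ne (fun _ _ h => h.1) ?_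
      intro he
      have : C'.Adj a b := by rw [he]; exact hab
      exact this.2 (Or.inl ⟨rfl, rfl⟩)
    have hs : IsStress p C' ω := by
      refine ⟨hω.symm, ?_, hω.bal⟩
      intro x y hxy
      by_cases hc : C.Adj x y
      · have : (x = a ∧ y = b) ∨ (x = b ∧ y = a) := by
          by_contra hn
          exact hxy ⟨hc, hn⟩
        rcases this with ⟨rfl, rfl⟩ | ⟨rfl, rfl⟩
        · exact h
        · rw [hω.symm]; exact h
      · exact hω.supp x y hc
    exact h0 (hC.min C' hlt ω hs a0 b0)

section std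

variable {p : V → Fin 3 → ℝ} {C : SimpleGraph V} {ω : V → V → ℝ}

theorem conn2 (h : Std p C ω) (w : V) (X : Finset V) (hw : w ∉ X) (hX : Closed (del C w) X) :
    (∀ a ∈ X, dg C univ a = 0) ∨ ∀ a, a ∉ X → a ≠ w → dg C univ a = 0 :=
  cf1_cut h.gen h.circ w X hw hX

theorem conn (h : Std p C ω) (X : Finset V) (hX : Closed C X) :
    (∀ a ∈ X, dg C univ a = 0) ∨ ∀ a, a ∉ X → dg C univ a = 0 := by
  by_contra hcon
  rw [not_or] at hcon
  obtain ⟨h1, h2⟩ := hcon
  push Not at h2
  obtain ⟨b, hbX, hb⟩ := h2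
  obtain ⟨b', hbb⟩ := cf1_dg_ex hb
  have hb' : b' ∉ X := fun hb' => hbX (hX b' hb' b hbb.symm)
  rcases conn2 h b X hbX (fun x hx y hy => hX x hx y hy.1) with h3 | h3
  · exact h1 h3
  · have e1 := h3 b' hb' hbb.ne.symm
    have e2 := cf1_dg_pos hbb.symm
    omega

/-- general form of `ind_add1` and `ind_add2` -/
theorem cf1_ind (h : Std p C ω) {v f : V} {H : SimpleGraph V} (hle : del C v ≤ H)
    (hS : Sparse H) (hd : ∀ x, dg H univ x ≤ 5) (hv : dg H univ v = 0) (hvf : C.Adj v f)
    (hf : dg H univ f ≠ 5) (hx : ∀ x, dg H univ x = 5 → dg C univ x ≠ 0) : Ind p H := by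
  refine JJ (ax_ind h.gen) H hS hd ?_
  intro X hXne hXc
  by_contra hall
  push Not at hall
  have hvX : v ∉ X := by
    intro hvX
    have := hall v hvX
    omega
  have hfX : f ∉ X := fun hfX => hf (hall f hfX)
  have hcl : Closed (del C v) X := fun x hx' y hy => hXc x hx' y (hle hy)
  rcases conn2 h v X hvX hcl with h1 | h1
  · obtain ⟨x, hx'⟩ := hXne
    exact hx x (hall x hx') (h1 x hx')
  · have e1 := h1 f hfX hvf.ne.symm
    have e2 := cf1_dg_pos hvf.symm
    omega

theorem cf1_deg (h : Std p C ω) (x : V) : dg C univ x ≤ 5 := by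
  rcases h.deg5 x with h | h <;> omega

/-- one new edge between two neighbours of `v` -/
theorem ind_add1 (h : Std p C ω) {v a b : V} (hv : dg C univ v = 5) (ha : C.Adj v a)
    (hb : C.Adj v b) (hab : a ≠ b) (hbl : ¬ Blocked (del C v) a b) :
    Ind p (addE (del C v) a b) := by
  classical
  -- a third neighbour
  obtain ⟨f, hvf, hfa, hfb⟩ : ∃ f, C.Adj v f ∧ f ≠ a ∧ f ≠ b := by
    by_contra hcon
    push Not at hcon
    have : (univ.filter fun y => C.Adj v y) ⊆ {a, b} := by
      intro y hy
      rw [mem_filter] at hy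
      rw [mem_insert, mem_singleton]
      by_cases hya : y = a
      · exact Or.inl hya
      · exact Or.inr (hcon y hy.2 hya)
    have h1 := card_le_card this
    have h2 : ({a, b} : Finset V).card ≤ 2 := card_le_two
    have h3 : (univ.filter fun y => C.Adj v y).card = 5 := by
      rw [← hv]; unfold dg; congr
    omega
  have hvv : dg (del C v) univ v = 0 := cf1_dg_zero (fun y hy => hy.2.1 rfl)
  have hbd : ∀ x, dg (addE (del C v) a b) univ x ≤ dg (del C v) univ x +
      (if x = a ∨ x = b then 1 else 0) := cf1_dg_addE _ a b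
  refine cf1_ind h (cf1_le_addE _ a b)
    (sparse_addE (sparse_le h.sparse (cf1_del_le C v)) hab hbl) ?_ ?_ hvf ?_ ?_
  · intro x
    have h1 := hbd x
    have h2 := cf1_deg h x
    by_cases hx : x = a ∨ x = b
    · rw [if_pos hx] at h1
      have : C.Adj v x := by rcases hx with rfl | rfl <;> assumption
      have := cf1_dg_del this
      omega
    · rw [if_neg hx] at h1
      have := cf1_dg_mono (cf1_del_le C v) x
      omega
  · have h1 := hbd v
    rw [if_neg (by rintro (h | h)
                   · exact ha.ne h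
                   · exact hb.ne h)] at h1
    omega
  · have h1 := hbd f
    rw [if_neg (by rintro (h | h)
                   · exact hfa h
                   · exact hfb h)] at h1
    have h2 := cf1_dg_del hvf
    have h3 := cf1_deg h f
    omega
  · intro x hx
    have h1 := hbd x
    have h2 := cf1_dg_mono (cf1_del_le C v) x
    split_ifs at h1 <;> omega

/-- two new disjoint edges between neighbours of `v` -/
theorem ind_add2 (h : Std p C ω) {v a b c d f : V} (hN : Nb C v a b c d f)
    (h1 : ¬ (del C v).Adj a b) (h2 : ¬ (del C v).Adj c d)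
    (hS : Sparse (addE (addE (del C v) a b) c d)) : Ind p (addE (addE (del C v) a b) c d) := by
  classical
  obtain ⟨hadj, n1, n2, n3, n4, n5, n6, n7, n8, n9, n10⟩ := hN
  have hva : C.Adj v a := (hadj a).2 (by simp)
  have hvb : C.Adj v b := (hadj b).2 (by simp)
  have hvc : C.Adj v c := (hadj c).2 (by simp)
  have hvd : C.Adj v d := (hadj d).2 (by simp)
  have hvf : C.Adj v f := (hadj f).2 (by simp)
  have hvv : dg (del C v) univ v = 0 := cf1_dg_zero (fun y hy => hy.2.1 rfl)
  have hbd : ∀ x, dg (addE (addE (del C v) a b) c d) univ x ≤ dg (del C v) univ x +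
      (if x = a ∨ x = b then 1 else 0) + (if x = c ∨ x = d then 1 else 0) := fun x =>
    (cf1_dg_addE _ c d x).trans (Nat.add_le_add_right (cf1_dg_addE _ a b x) _)
  refine cf1_ind h ((cf1_le_addE _ a b).trans (cf1_le_addE _ c d)) hS ?_ ?_ hvf ?_ ?_
  · intro x
    have e1 := hbd x
    have e2 := cf1_deg h x
    by_cases hx : C.Adj v x
    · have e3 := cf1_dg_del hx
      by_cases hab : x = a ∨ x = b
      · have hcd : ¬ (x = c ∨ x = d) := by
          rcases hab with rfl | rfl
          · rintro (h | h)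
            · exact n2 h
            · exact n3 h
          · rintro (h | h)
            · exact n5 h
            · exact n6 h
        rw [if_pos hab, if_neg hcd] at e1
        omega
      · rw [if_neg hab] at e1
        split_ifs at e1 <;> omega
    · have e3 := cf1_dg_mono (cf1_del_le C v) x
      have e4 : ¬ (x = a ∨ x = b) := by
        rintro (rfl | rfl)
        · exact hx hva
        · exact hx hvb
      have e5 : ¬ (x = c ∨ x = d) := by
        rintro (rfl | rfl)
        · exact hx hvc
        · exact hx hvd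
      rw [if_neg e4, if_neg e5] at e1
      omega
  · have e1 := hbd v
    have e4 : ¬ (v = a ∨ v = b) := by
      rintro (h | h)
      · exact hva.ne h
      · exact hvb.ne h
    have e5 : ¬ (v = c ∨ v = d) := by
      rintro (h | h)
      · exact hvc.ne h
      · exact hvd.ne h
    rw [if_neg e4, if_neg e5] at e1
    omega
  · have e1 := hbd f
    have e4 : ¬ (f = a ∨ f = b) := by
      rintro (h | h)
      · exact n4 h.symm
      · exact n7 h.symm
    have e5 : ¬ (f = c ∨ f = d) := by
      rintro (h | h)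
      · exact n9 h.symm
      · exact n10 h.symm
    rw [if_neg e4, if_neg e5] at e1
    have e2 := cf1_dg_del hvf
    have e3 := cf1_deg h f
    omega
  · intro x hx
    have e1 := hbd x
    have e2 := cf1_dg_mono (cf1_del_le C v) x
    split_ifs at e1 <;> omega

end std

end H176R2.R5
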