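import Pool.Agent.H176R2.R5.AT
import Pool.Agent.H176R2.R5.CF1
import Pool.Agent.H176R2.R5.GN1
import Pool.Agent.H176R2.R5.GN2

/-!
# Project R5, task AG: all vertices of type A, girth at least five
-/

set_option autoImplicit false

open Finset

namespace H176R2.R5

variable {V : Type} [Fintype V] [DecidableEq V]

namespace AGaux

/-- labelling the neighbours of a vertex of degree five -/
theorem nb_of {C : SimpleGraph V} {v a : V} (hv : dg C univ v = 5) (ha : C.Adj v a) :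
    ∃ b d e f, Nb C v a b d e f := by
  classical
  have h5 : (univ.filter fun b => C.Adj v b).card = 5 := by
    have := hv
    unfold dg at this
    convert this
  have hmem : a ∈ univ.filter fun b => C.Adj v b := by simp [ha]
  have h4 : ((univ.filter fun b => C.Adj v b).erase a).card = 3 + 1 := by
    rw [card_erase_of_mem hmem, h5]
  obtain ⟨b, t, hbt, hins, ht3⟩ := Finset.card_eq_succ.mp h4
  obtain ⟨d, e, f, hde, hdf, hef, rfl⟩ := Finset.card_eq_three.mp ht3
  have hx : ∀ x, (x ≠ a ∧ C.Adj v x) ↔ (x = b ∨ x = d ∨ x = e ∨ x = f) := by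
    intro x
    have h := Finset.ext_iff.mp hins x
    simp only [mem_insert, mem_singleton, mem_erase, mem_filter, mem_univ, true_and] at h
    exact h.symm
  simp only [mem_insert, mem_singleton, not_or] at hbt
  have hb := (hx b).mpr (Or.inl rfl)
  have hd := (hx d).mpr (Or.inr (Or.inl rfl))
  have he := (hx e).mpr (Or.inr (Or.inr (Or.inl rfl)))
  have hf := (hx f).mpr (Or.inr (Or.inr (Or.inr rfl)))
  refine ⟨b, d, e, f, ?_, hb.1.symm, hd.1.symm, he.1.symm, hf.1.symm, hbt.1, hbt.2.1, hbt.2.2,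
    hde, hdf, hef⟩
  intro x
  constructor
  · intro hvx
    by_cases hxa : x = a
    · exact Or.inl hxa
    · exact Or.inr ((hx x).mp ⟨hxa, hvx⟩)
  · rintro (rfl | h)
    · exact ha
    · exact ((hx x).mpr h).2

theorem br_self12 (A B D : Fin 4 → ℝ) : br A A B D = 0 := by
  simp [br, Matrix.det_succ_row_zero, Fin.sum_univ_succ, Fin.succAbove]
  ring

theorem br_self13 (A B D : Fin 4 → ℝ) : br A B A D = 0 := by
  simp [br, Matrix.det_succ_row_zero, Fin.sum_univ_succ, Fin.succAbove]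
  ring

theorem br_self14 (A B D : Fin 4 → ℝ) : br A B D A = 0 := by
  simp [br, Matrix.det_succ_row_zero, Fin.sum_univ_succ, Fin.succAbove]
  ring

theorem br_swap12 (A B D E : Fin 4 → ℝ) : br A B D E = - br B A D E := by
  simp [br, Matrix.det_succ_row_zero, Fin.sum_univ_succ, Fin.succAbove]
  ring

theorem br_swap13 (A B D E : Fin 4 → ℝ) : br A B D E = - br D B A E := by
  simp [br, Matrix.det_succ_row_zero, Fin.sum_univ_succ, Fin.succAbove]
  ring

theorem br_swap14 (A B D E : Fin 4 → ℝ) : br A B D E = - br E B D A := by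
  simp [br, Matrix.det_succ_row_zero, Fin.sum_univ_succ, Fin.succAbove]
  ring

/-- the bracket is linear in the first argument -/
theorem br_lin (B D E : Fin 4 → ℝ) : ∃ L : (Fin 4 → ℝ) →ₗ[ℝ] ℝ, ∀ A, br A B D E = L A := by
  refine ⟨(Matrix.detRowAlternating (R := ℝ) (n := Fin 4)).toMultilinearMap.toLinearMap
    ![0, B, D, E] 0, ?_⟩
  intro A
  simp only [br, MultilinearMap.toLinearMap_apply]
  show Matrix.det _ = Matrix.det _
  congr 1
  ext i j
  fin_cases i <;> simp [Function.update]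

theorem sum_ne {p : V → Fin 3 → ℝ} (hp : Gen p) {t1 t2 t3 : V} (h12 : t1 ≠ t2) (h13 : t1 ≠ t3)
    (h23 : t2 ≠ t3) (S : Finset V) : S.Nonempty → t1 ∉ S → t2 ∉ S → t3 ∉ S →
    ∑ x ∈ S, br (hat (p x)) (hat (p t1)) (hat (p t2)) (hat (p t3)) ≠ 0 := by
  classical
  induction S using Finset.induction_on with
  | empty => intro h; exact absurd h (by simp)
  | insert a S' ha ih =>
    intro _ h1 h2 h3
    rw [Finset.sum_insert ha]
    have ha1 : a ≠ t1 := by rintro rfl; exact h1 (mem_insert_self _ _)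
    have ha2 : a ≠ t2 := by rintro rfl; exact h2 (mem_insert_self _ _)
    have ha3 : a ≠ t3 := by rintro rfl; exact h3 (mem_insert_self _ _)
    by_cases hS : S'.Nonempty
    · have ih' := ih hS (fun h => h1 (mem_insert_of_mem h)) (fun h => h2 (mem_insert_of_mem h))
        (fun h => h3 (mem_insert_of_mem h))
      intro h0
      have hc1 : ∀ w : V, w ≠ a → w ∈ ({a}ᶜ : Set V) := fun w hw => by simpa using hw
      have hPF : PF (Fd p {a}ᶜ) (fun ξ => br (hat ξ) (hat (p t1)) (hat (p t2)) (hat (p t3)) +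
          ∑ x ∈ S', br (hat (p x)) (hat (p t1)) (hat (p t2)) (hat (p t3))) := by
        refine PF.add (PF.br (fun i => PF.hat _ i) (fun i => PF.hatc p (hc1 _ ha1.symm) i)
          (fun i => PF.hatc p (hc1 _ ha2.symm) i) (fun i => PF.hatc p (hc1 _ ha3.symm) i)) ?_
        refine PF.sum (f := fun x _ => br (hat (p x)) (hat (p t1)) (hat (p t2)) (hat (p t3))) S' ?_
        intro x hx
        have hxa : x ≠ a := by rintro rfl; exact ha hx
        exact PF.br (fun i => PF.hatc p (hc1 _ hxa) i) (fun i => PF.hatc p (hc1 _ ha1.symm) i)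
          (fun i => PF.hatc p (hc1 _ ha2.symm) i) (fun i => PF.hatc p (hc1 _ ha3.symm) i)
      have h := gen_zero hp (v := a) (S := {a}ᶜ) (by simp) hPF h0 (p t1)
      simp only [br_self12, zero_add] at h
      exact ih' h
    · rw [Finset.not_nonempty_iff_eq_empty.mp hS]
      simp only [Finset.sum_empty, add_zero]
      exact br_ne hp ha1 ha2 ha3 h12 h13 h23

/-- `k` is the value at `y` of a rational function which is regular and nonzero at `ξ0` -/
def Un (F : IntermediateField ℚ ℝ) (ξ0 y : Fin 3 → ℝ) (k : ℝ) : Prop :=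
  ∃ f g, PF F f ∧ PF F g ∧ f ξ0 ≠ 0 ∧ g ξ0 ≠ 0 ∧ g y ≠ 0 ∧ k * g y = f y

theorem Un.one (F : IntermediateField ℚ ℝ) (ξ0 y : Fin 3 → ℝ) : Un F ξ0 y 1 :=
  ⟨fun _ => 1, fun _ => 1, PF.const F.one_mem, PF.const F.one_mem, one_ne_zero, one_ne_zero,
    one_ne_zero, by norm_num⟩

theorem Un.mul {F : IntermediateField ℚ ℝ} {ξ0 y : Fin 3 → ℝ} {k k' : ℝ} (h : Un F ξ0 y k)
    (h' : Un F ξ0 y k') : Un F ξ0 y (k * k') := by
  obtain ⟨f, g, hf, hg, hf0, hg0, hgy, hk⟩ := h
  obtain ⟨f', g', hf', hg', hf0', hg0', hgy', hk'⟩ := h'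
  refine ⟨_, _, hf.mul hf', hg.mul hg', mul_ne_zero hf0 hf0', mul_ne_zero hg0 hg0',
    mul_ne_zero hgy hgy', ?_⟩
  show k * k' * (g y * g' y) = f y * f' y
  rw [← hk, ← hk']
  ring

theorem Un.neg {F : IntermediateField ℚ ℝ} {ξ0 y : Fin 3 → ℝ} {k : ℝ} (h : Un F ξ0 y k) :
    Un F ξ0 y (-k) := by
  obtain ⟨f, g, hf, hg, hf0, hg0, hgy, hk⟩ := h
  refine ⟨_, g, hf.neg, hg, neg_ne_zero.mpr hf0, hg0, hgy, ?_⟩
  show -k * g y = - f y
  rw [← hk]
  ring

theorem Un.div {F : IntermediateField ℚ ℝ} {ξ0 y : Fin 3 → ℝ} {k k' : ℝ} (h : Un F ξ0 y k)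
    (h' : Un F ξ0 y k') (h0 : k' ≠ 0) : Un F ξ0 y (k / k') := by
  obtain ⟨f, g, hf, hg, hf0, hg0, hgy, hk⟩ := h
  obtain ⟨f', g', hf', hg', hf0', hg0', hgy', hk'⟩ := h'
  have hfy' : f' y ≠ 0 := by rw [← hk']; exact mul_ne_zero h0 hgy'
  refine ⟨_, _, hf.mul hg', hg.mul hf', mul_ne_zero hf0 hg0', mul_ne_zero hg0 hf0',
    mul_ne_zero hgy hfy', ?_⟩
  show k / k' * (g y * f' y) = f y * g' y
  rw [← hk, ← hk']
  field_simp

theorem hat_avg (a b c : Fin 3 → ℝ) (B D E : Fin 4 → ℝ) :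
    br (hat (fun i => (a i + b i + c i) / 3)) B D E =
      (br (hat a) B D E + br (hat b) B D E + br (hat c) B D E) / 3 := by
  obtain ⟨L, hL⟩ := br_lin B D E
  rw [hL, hL, hL, hL]
  have : hat (fun i => (a i + b i + c i) / 3) = (1 / 3 : ℝ) • (hat a + hat b + hat c) := by
    ext i
    fin_cases i <;> simp [hat] <;> ring
  rw [this, map_smul, map_add, map_add]
  simp only [smul_eq_mul]
  ring

section

variable {p : V → Fin 3 → ℝ} {C : SimpleGraph V} {v w s s1 s2 s3 : V}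

theorem unit1 (hp : Gen p)
    (hQ : ∀ u v w x, C.Adj u v → C.Adj v w → C.Adj w x → C.Adj x u → u ≠ w → v ≠ x → False)
    (hN : Nb C v w s s1 s2 s3) {a b n2 n3 n4 : V} (hab : Nb C a b s n2 n3 n4)
    (hne : ¬ (a = v ∧ b = w)) :
    Un (Fd p {s}ᶜ) (fun i => (p s1 i + p s2 i + p s3 i) / 3) (p s)
      (br (hat (p s)) (hat (p n2)) (hat (p n3)) (hat (p n4))) := by
  obtain ⟨hadj, c1, c2, c3, c4, c5, c6, c7, c8, c9, c10⟩ := hN
  obtain ⟨hadj', e1, e2, e3, e4, e5, e6, e7, e8, e9, e10⟩ := hab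
  have hc1 : ∀ x : V, x ≠ s → x ∈ ({s}ᶜ : Set V) := fun x hx => by simpa using hx
  refine ⟨fun ξ => br (hat ξ) (hat (p n2)) (hat (p n3)) (hat (p n4)), fun _ => 1,
    PF.br (fun i => PF.hat _ i) (fun i => PF.hatc p (hc1 _ e5.symm) i)
      (fun i => PF.hatc p (hc1 _ e6.symm) i) (fun i => PF.hatc p (hc1 _ e7.symm) i),
    PF.const (Fd p {s}ᶜ).one_mem, ?_, one_ne_zero, one_ne_zero, by ring⟩
  simp only
  rw [hat_avg]
  have hsum : br (hat (p s1)) (hat (p n2)) (hat (p n3)) (hat (p n4)) +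
      br (hat (p s2)) (hat (p n2)) (hat (p n3)) (hat (p n4)) +
      br (hat (p s3)) (hat (p n2)) (hat (p n3)) (hat (p n4)) =
      ∑ x ∈ ({s1, s2, s3} : Finset V), br (hat (p x)) (hat (p n2)) (hat (p n3)) (hat (p n4)) := by
    rw [Finset.sum_insert (by simp [c8, c9]), Finset.sum_insert (by simp [c10]),
      Finset.sum_singleton]
    ring
  rw [hsum]
  refine div_ne_zero ?_ (by norm_num)
  by_cases hav : a = v
  · subst hav
    have hbw : b ≠ w := fun h => hne ⟨rfl, h⟩
    have hbS : b ∈ ({s1, s2, s3} : Finset V) := by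
      have := (hadj b).mp ((hadj' b).mpr (Or.inl rfl))
      rcases this with h | h | h | h | h
      · exact absurd h hbw
      · exact absurd h e1
      · simp [h]
      · simp [h]
      · simp [h]
    rw [Finset.sum_eq_single b]
    · exact br_ne hp e2 e3 e4 e8 e9 e10
    · intro x hx hxb
      have hxs : x ≠ s := by
        simp only [mem_insert, mem_singleton] at hx
        rcases hx with rfl | rfl | rfl
        · exact c5.symm
        · exact c6.symm
        · exact c7.symm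
      have hvx : C.Adj a x := by
        simp only [mem_insert, mem_singleton] at hx
        exact (hadj x).mpr (by tauto)
      rcases (hadj' x).mp hvx with h | h | h | h | h
      · exact absurd h hxb
      · exact absurd h hxs
      · rw [h]; exact br_self12 _ _ _
      · rw [h]; exact br_self13 _ _ _
      · rw [h]; exact br_self14 _ _ _
    · intro h; exact absurd hbS h
  · have key : ∀ x, C.Adj a x → x ≠ s → x ∉ ({s1, s2, s3} : Finset V) := by
      intro x hax hxs hx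
      have hvx : C.Adj v x := by
        simp only [mem_insert, mem_singleton] at hx
        exact (hadj x).mpr (by tauto)
      exact hQ v x a s hvx hax.symm ((hadj' s).mpr (Or.inr (Or.inl rfl)))
        ((hadj s).mpr (Or.inr (Or.inl rfl))).symm (fun h => hav h.symm) hxs
    refine sum_ne hp e8 e9 e10 _ ⟨s1, by simp⟩ ?_ ?_ ?_
    · exact key _ ((hadj' _).mpr (by tauto)) e5.symm
    · exact key _ ((hadj' _).mpr (by tauto)) e6.symm
    · exact key _ ((hadj' _).mpr (by tauto)) e7.symm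

theorem unitb (hp : Gen p)
    (hQ : ∀ u v w x, C.Adj u v → C.Adj v w → C.Adj w x → C.Adj x u → u ≠ w → v ≠ x → False)
    (hN : Nb C v w s s1 s2 s3) {a b n1 n2 n3 n4 : V} (hab : Nb C a b n1 n2 n3 n4)
    (hne : ¬ (a = v ∧ b = w)) :
    Un (Fd p {s}ᶜ) (fun i => (p s1 i + p s2 i + p s3 i) / 3) (p s)
      (br (hat (p n1)) (hat (p n2)) (hat (p n3)) (hat (p n4))) := by
  by_cases h1 : n1 = s
  · subst h1
    exact unit1 hp hQ hN hab hne
  by_cases h2 : n2 = s
  · subst h2
    rw [br_swap12]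
    refine (unit1 hp hQ hN ?_ hne).neg
    obtain ⟨hadj', e1, e2, e3, e4, e5, e6, e7, e8, e9, e10⟩ := hab
    exact ⟨fun x => (hadj' x).trans (by tauto), e2, e1, e3, e4, e5.symm, e8, e9, e6, e7, e10⟩
  by_cases h3 : n3 = s
  · subst h3
    rw [br_swap13]
    refine (unit1 hp hQ hN ?_ hne).neg
    obtain ⟨hadj', e1, e2, e3, e4, e5, e6, e7, e8, e9, e10⟩ := hab
    exact ⟨fun x => (hadj' x).trans (by tauto), e3, e2, e1, e4, e8.symm, e6.symm, e10, e5.symm,
      e9, e7⟩
  by_cases h4 : n4 = s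
  · subst h4
    rw [br_swap14]
    refine (unit1 hp hQ hN ?_ hne).neg
    obtain ⟨hadj', e1, e2, e3, e4, e5, e6, e7, e8, e9, e10⟩ := hab
    exact ⟨fun x => (hadj' x).trans (by tauto), e4, e2, e3, e1, e9.symm, e10.symm, e7.symm, e8,
      e5.symm, e6.symm⟩
  have hc1 : ∀ x : V, x ≠ s → x ∈ ({s}ᶜ : Set V) := fun x hx => by simpa using hx
  obtain ⟨hadj', e1, e2, e3, e4, e5, e6, e7, e8, e9, e10⟩ := hab
  refine ⟨fun _ => br (hat (p n1)) (hat (p n2)) (hat (p n3)) (hat (p n4)), fun _ => 1,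
    PF.br (fun i => PF.hatc p (hc1 _ h1) i) (fun i => PF.hatc p (hc1 _ h2) i)
      (fun i => PF.hatc p (hc1 _ h3) i) (fun i => PF.hatc p (hc1 _ h4) i),
    PF.const (Fd p {s}ᶜ).one_mem, ?_, one_ne_zero, one_ne_zero, by ring⟩
  exact br_ne hp e5 e6 e7 e8 e9 e10

end

theorem deg_of_adj {p : V → Fin 3 → ℝ} {C : SimpleGraph V} {ω : V → V → ℝ} (h : Std p C ω)
    {a b : V} (hab : C.Adj a b) : dg C univ a = 5 := by
  classical
  refine (h.deg5 a).resolve_left ?_
  intro h0
  unfold dg at h0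
  rw [card_eq_zero] at h0
  have : b ∈ (univ.filter fun x => C.Adj a x) := by simp [hab]
  have h1 : b ∈ (∅ : Finset V) := by
    rw [← h0]
    simpa using hab
  simp at h1

theorem adj_of_deg {C : SimpleGraph V} {a : V} (h : dg C univ a = 5) : ∃ b, C.Adj a b := by
  classical
  by_contra hno
  push Not at hno
  unfold dg at h
  rw [Finset.filter_false_of_mem (fun x _ => hno x)] at h
  simp at h

end AGaux

open AGaux

theorem allA_girth {p : V → Fin 3 → ℝ} {C : SimpleGraph V} {ω : V → V → ℝ} (h : Std p C ω)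
    (hA : ∀ v, ∑ x, ω v x = 0)
    (hT : ∀ u v w, C.Adj u v → C.Adj v w → ¬ C.Adj u w)
    (hQ : ∀ u v w x, C.Adj u v → C.Adj v w → C.Adj w x → C.Adj x u → u ≠ w → v ≠ x → False) :
    False := by
  classical
  obtain ⟨c, hc5, hc⟩ := pot h hA
  have hp := h.gen
  have hedge : ∃ v, dg C univ v = 5 := by
    by_contra hno
    push Not at hno
    apply h.circ.dep
    intro ω' hω' a b
    apply hω'.supp
    intro hab
    exact hno a (deg_of_adj h hab)
  obtain ⟨v, hv⟩ := hedge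
  obtain ⟨w, hvw⟩ := adj_of_deg hv
  obtain ⟨s, s1, s2, s3, hN⟩ := nb_of hv hvw
  have hN' := hN
  obtain ⟨hadj, c1, c2, c3, c4, c5, c6, c7, c8, c9, c10⟩ := hN'
  have hvs : C.Adj v s := (hadj s).mpr (Or.inr (Or.inl rfl))
  have hcv : c v ≠ 0 := hc5 v hv
  -- the step along an edge
  have step : ∀ a b, C.Adj a b → ¬ (a = v ∧ b = w) → ¬ (b = v ∧ a = w) →
      Un (Fd p {s}ᶜ) (fun i => (p s1 i + p s2 i + p s3 i) / 3) (p s) (c a / c v) →
      Un (Fd p {s}ᶜ) (fun i => (p s1 i + p s2 i + p s3 i) / 3) (p s) (c b / c v) := by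
    intro a b hab hne1 hne2 hU
    obtain ⟨n1, n2, n3, n4, hNa⟩ := nb_of (deg_of_adj h hab) hab
    obtain ⟨m1, m2, m3, m4, hNb⟩ := nb_of (deg_of_adj h hab.symm) hab.symm
    have hB1 := unitb hp hQ hN hNa hne1
    have hB2 := unitb hp hQ hN hNb hne2
    have e1 := hc a b n1 n2 n3 n4 hNa
    have e2 := hc b a m1 m2 m3 m4 hNb
    rw [h.stress.symm b a] at e2
    have hB2ne : br (hat (p m1)) (hat (p m2)) (hat (p m3)) (hat (p m4)) ≠ 0 := by
      obtain ⟨-, -, -, -, -, d1, d2, d3, d4, d5, d6⟩ := hNb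
      exact br_ne hp d1 d2 d3 d4 d5 d6
    have e3 := e1.symm.trans e2
    have : c b / c v = (c a / c v * (br (hat (p n1)) (hat (p n2)) (hat (p n3)) (hat (p n4)) *
        br (hat (p n1)) (hat (p n2)) (hat (p n3)) (hat (p n4)))) /
        (br (hat (p m1)) (hat (p m2)) (hat (p m3)) (hat (p m4)) *
        br (hat (p m1)) (hat (p m2)) (hat (p m3)) (hat (p m4))) := by
      field_simp
      linarith
    rw [this]
    exact (hU.mul (hB1.mul hB1)).div (hB2.mul hB2) (mul_ne_zero hB2ne hB2ne)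
  -- the set of vertices with a unit potential
  set X : Finset V := univ.filter fun a => a ≠ v ∧ dg C univ a = 5 ∧
    Un (Fd p {s}ᶜ) (fun i => (p s1 i + p s2 i + p s3 i) / 3) (p s) (c a / c v) with hX
  have hXmem : ∀ a, a ∈ X ↔ a ≠ v ∧ dg C univ a = 5 ∧
      Un (Fd p {s}ᶜ) (fun i => (p s1 i + p s2 i + p s3 i) / 3) (p s) (c a / c v) := by
    intro a
    simp [hX]
  have hclosed : Closed (del C v) X := by
    intro a ha b hab
    obtain ⟨hab1, hav, hbv⟩ := hab
    obtain ⟨_, _, hU⟩ := (hXmem a).mp ha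
    exact (hXmem b).mpr ⟨hbv, deg_of_adj h hab1.symm,
      step a b hab1 (fun hh => hav hh.1) (fun hh => hbv hh.1) hU⟩
  have hsX : s ∈ X := by
    refine (hXmem s).mpr ⟨hvs.ne', deg_of_adj h hvs.symm, step v s hvs ?_ ?_ ?_⟩
    · exact fun hh => c1 hh.2.symm
    · exact fun hh => hvs.ne' hh.1
    · rw [div_self hcv]
      exact Un.one _ _ _
  have hwX : w ∈ X := by
    by_contra hw
    rcases conn2 h v X (fun hh => ((hXmem v).mp hh).1 rfl) hclosed with h1 | h1
    · have := h1 s hsX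
      rw [deg_of_adj h hvs.symm] at this
      exact absurd this (by norm_num)
    · have := h1 w hw hvw.ne'
      rw [deg_of_adj h hvw.symm] at this
      exact absurd this (by norm_num)
  obtain ⟨-, -, f, g, hf, hg, hf0, hg0, hgy, hk⟩ := (hXmem w).mp hwX
  obtain ⟨m1, m2, m3, m4, hNw⟩ := nb_of (deg_of_adj h hvw.symm) hvw.symm
  have e1 := hc v w s s1 s2 s3 hN
  have e2 := hc w v m1 m2 m3 m4 hNw
  rw [h.stress.symm w v] at e2
  obtain ⟨hadjw, -, -, -, -, d1, d2, d3, d4, d5, d6⟩ := hNw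
  have hsm : ∀ m, C.Adj w m → m ∈ ({s}ᶜ : Set V) := by
    intro m hm
    simp only [Set.mem_compl_iff, Set.mem_singleton_iff]
    rintro rfl
    exact hT v w m hvw hm hvs
  have hm1 := hsm m1 ((hadjw m1).mpr (by tauto))
  have hm2 := hsm m2 ((hadjw m2).mpr (by tauto))
  have hm3 := hsm m3 ((hadjw m3).mpr (by tauto))
  have hm4 := hsm m4 ((hadjw m4).mpr (by tauto))
  have hcs : ∀ x : V, x ≠ s → x ∈ ({s}ᶜ : Set V) := fun x hx => by simpa using hx
  have hD : br (hat (p m1)) (hat (p m2)) (hat (p m3)) (hat (p m4)) ≠ 0 := br_ne hp d1 d2 d3 d4 d5 d6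
  have hPD : PF (Fd p {s}ᶜ) (fun _ => br (hat (p m1)) (hat (p m2)) (hat (p m3)) (hat (p m4))) :=
    PF.br (fun i => PF.hatc p hm1 i) (fun i => PF.hatc p hm2 i)
      (fun i => PF.hatc p hm3 i) (fun i => PF.hatc p hm4 i)
  have hPS : PF (Fd p {s}ᶜ) (fun ξ => br (hat ξ) (hat (p s1)) (hat (p s2)) (hat (p s3))) :=
    PF.br (fun i => PF.hat _ i) (fun i => PF.hatc p (hcs _ c5.symm) i)
      (fun i => PF.hatc p (hcs _ c6.symm) i) (fun i => PF.hatc p (hcs _ c7.symm) i)
  have hPF := (hf.mul (hPD.mul hPD)).sub (hg.mul (hPS.mul hPS))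
  have hzero : (fun ξ => f ξ * ((fun _ => br (hat (p m1)) (hat (p m2)) (hat (p m3)) (hat (p m4))) ξ *
      (fun _ => br (hat (p m1)) (hat (p m2)) (hat (p m3)) (hat (p m4))) ξ) -
      g ξ * ((fun ξ => br (hat ξ) (hat (p s1)) (hat (p s2)) (hat (p s3))) ξ *
      (fun ξ => br (hat ξ) (hat (p s1)) (hat (p s2)) (hat (p s3))) ξ)) (p s) = 0 := by
    simp only
    rw [← hk]
    have e3 := e1.symm.trans e2
    field_simp
    linear_combination (-(g (p s))) * e3
  have hall := gen_zero hp (v := s) (S := {s}ᶜ) (by simp) hPF hzero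
    (fun i => (p s1 i + p s2 i + p s3 i) / 3)
  simp only [hat_avg, br_self12, br_self13, br_self14] at hall
  simp only [add_zero, zero_div, mul_zero, sub_zero] at hall
  exact (mul_ne_zero hf0 (mul_ne_zero hD hD)) hall

end H176R2.R5
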