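import Pool.Agent.H176R2.R5.Defs

/-! # RR: ratio formulas (project R5) -/

set_option autoImplicit false

open Finset

namespace H176R2.R5

variable {V : Type} [Fintype V] [DecidableEq V]

variable {p : V → Fin 3 → ℝ} {C : SimpleGraph V} {ω : V → V → ℝ}

/-- `3 × 3` minors -/
def RR_c3 {R : Type} [CommRing R] (B C D : Fin 4 → R) (i j k : Fin 4) : R :=
  B i * (C j * D k - C k * D j) - B j * (C i * D k - C k * D i) + B k * (C i * D j - C j * D i)

theorem RR_br_eq (A B C D : Fin 4 → ℝ) :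
    br A B C D = A 0 * RR_c3 B C D 1 2 3 - A 1 * RR_c3 B C D 0 2 3 +
      A 2 * RR_c3 B C D 0 1 3 - A 3 * RR_c3 B C D 0 1 2 := by
  unfold br RR_c3
  rw [Matrix.det_succ_row_zero]
  simp [Fin.sum_univ_succ, Matrix.det_fin_three, Matrix.submatrix, Fin.succAbove]
  ring

/-- homogeneous coordinates as polynomials -/
noncomputable def RR_h (x : V) : Fin 4 → MvPolynomial (V × Fin 3) ℚ :=
  ![1, MvPolynomial.X (x, 0), MvPolynomial.X (x, 1), MvPolynomial.X (x, 2)]

/-- four different vertices span an affine frame (own copy) -/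
theorem RR_br_ne {p : V → Fin 3 → ℝ} (hp : Gen p) {a b c d : V} (hab : a ≠ b) (hac : a ≠ c)
    (had : a ≠ d) (hbc : b ≠ c) (hbd : b ≠ d) (hcd : c ≠ d) :
    br (hat (p a)) (hat (p b)) (hat (p c)) (hat (p d)) ≠ 0 := by
  intro h0
  rw [RR_br_eq] at h0
  set P : MvPolynomial (V × Fin 3) ℚ :=
    RR_h a 0 * RR_c3 (RR_h b) (RR_h c) (RR_h d) 1 2 3 -
      RR_h a 1 * RR_c3 (RR_h b) (RR_h c) (RR_h d) 0 2 3 +
      RR_h a 2 * RR_c3 (RR_h b) (RR_h c) (RR_h d) 0 1 3 -
      RR_h a 3 * RR_c3 (RR_h b) (RR_h c) (RR_h d) 0 1 2 with hP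
  have h1 : MvPolynomial.aeval (fun vi : V × Fin 3 => p vi.1 vi.2) P = 0 := by
    rw [← h0, hP]
    simp [RR_c3, RR_h, hat]
  have h2 : P = 0 := by
    have hinj := (algebraicIndependent_iff_injective_aeval).1 hp
    apply hinj
    rw [h1, map_zero]
  have h3 := congrArg (MvPolynomial.eval (fun vi : V × Fin 3 =>
    if (vi.1 = b ∧ vi.2 = 0) ∨ (vi.1 = c ∧ vi.2 = 1) ∨ (vi.1 = d ∧ vi.2 = 2) then (1 : ℚ) else 0)) h2
  rw [hP] at h3
  simp [RR_c3, RR_h, hab, hac, had, hbc, hbd, hcd, hab.symm, hac.symm, had.symm, hbc.symm,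
    hbd.symm, hcd.symm] at h3

/-- a sum over the neighbours -/
theorem RR_sum {v a b c d f : V} (hN : Nb C v a b c d f) (g : V → ℝ)
    (hg : ∀ x, ¬ C.Adj v x → g x = 0) : ∑ x, g x = g a + g b + g c + g d + g f := by
  obtain ⟨h, hab, hac, had, haf, hbc, hbd, hbf, hcd, hcf, hdf⟩ := hN
  have h1 : ∑ x, g x = ∑ x ∈ ({a, b, c, d, f} : Finset V), g x := by
    symm
    refine Finset.sum_subset (Finset.subset_univ _) ?_
    intro x _ hx
    refine hg x ?_
    intro hadj
    apply hx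
    simp only [Finset.mem_insert, Finset.mem_singleton]
    exact (h x).1 hadj
  rw [h1, Finset.sum_insert (by simp [hab, hac, had, haf]),
    Finset.sum_insert (by simp [hbc, hbd, hbf]), Finset.sum_insert (by simp [hcd, hcf]),
    Finset.sum_insert (by simp [hdf]), Finset.sum_singleton]
  ring

/-- the equilibrium in homogeneous coordinates -/
theorem RR_hat (h : IsStress p C ω) {v a b c d f : V} (hN : Nb C v a b c d f) (k : Fin 4) :
    ω v a * hat (p a) k + ω v b * hat (p b) k + ω v c * hat (p c) k + ω v d * hat (p d) k +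
      ω v f * hat (p f) k = (∑ x, ω v x) * hat (p v) k := by
  have hs : ∑ x, ω v x = ω v a + ω v b + ω v c + ω v d + ω v f :=
    RR_sum hN (fun x => ω v x) (fun x hx => h.supp v x hx)
  have hb : ∀ i : Fin 3, ω v a * (p v i - p a i) + ω v b * (p v i - p b i) +
      ω v c * (p v i - p c i) + ω v d * (p v i - p d i) + ω v f * (p v i - p f i) = 0 := by
    intro i
    rw [← h.bal v i]
    exact (RR_sum hN (fun x => ω v x * (p v i - p x i))
      (fun x hx => by rw [h.supp v x hx, zero_mul])).symm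
  rw [hs]
  fin_cases k
  · show ω v a * 1 + ω v b * 1 + ω v c * 1 + ω v d * 1 + ω v f * 1 = _ * 1
    ring
  · show ω v a * p a 0 + ω v b * p b 0 + ω v c * p c 0 + ω v d * p d 0 + ω v f * p f 0 =
      _ * p v 0
    linear_combination -(hb 0)
  · show ω v a * p a 1 + ω v b * p b 1 + ω v c * p c 1 + ω v d * p d 1 + ω v f * p f 1 =
      _ * p v 1
    linear_combination -(hb 1)
  · show ω v a * p a 2 + ω v b * p b 2 + ω v c * p c 2 + ω v d * p d 2 + ω v f * p f 2 =
      _ * p v 2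
    linear_combination -(hb 2)

theorem RA (h : IsStress p C ω) {v a b c d f : V} (hN : Nb C v a b c d f)
    (hA : ∑ x, ω v x = 0) :
    ω v a * br (hat (p a)) (hat (p c)) (hat (p d)) (hat (p f)) +
      ω v b * br (hat (p b)) (hat (p c)) (hat (p d)) (hat (p f)) = 0 := by
  have e := fun k => RR_hat h hN k
  rw [hA] at e
  rw [RR_br_eq, RR_br_eq]
  unfold RR_c3
  have e0 := e 0
  have e1 := e 1
  have e2 := e 2
  have e3 := e 3
  generalize hat (p a) = A at *
  generalize hat (p b) = B at *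
  generalize hat (p c) = C' at *
  generalize hat (p d) = D at *
  generalize hat (p f) = F at *
  linear_combination (norm := (simp only [RR_c3]; ring)) e0 * RR_c3 C' D F 1 2 3 - e1 * RR_c3 C' D F 0 2 3 +
      e2 * RR_c3 C' D F 0 1 3 - e3 * RR_c3 C' D F 0 1 2

/-- the virtual hinge -/
noncomputable def zz (p : V → Fin 3 → ℝ) (ω : V → V → ℝ) (v i1 i2 : V) : Fin 4 → ℝ :=
  fun k => (ω v i1 / ω v i2) * hat (p i1) k + hat (p i2) k

theorem RR_zz (p : V → Fin 3 → ℝ) (ω : V → V → ℝ) (v i1 i2 : V) (h2 : ω v i2 ≠ 0) (k : Fin 4) :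
    ω v i2 * zz p ω v i1 i2 k = ω v i1 * hat (p i1) k + ω v i2 * hat (p i2) k := by
  unfold zz
  field_simp

theorem RB (h : IsStress p C ω) {v i1 i2 j1 j2 j3 : V} (hN : Nb C v i1 i2 j1 j2 j3)
    (h2 : ω v i2 ≠ 0) :
    ω v j1 * br (hat (p j1)) (hat (p v)) (zz p ω v i1 i2) (hat (p j3)) +
      ω v j2 * br (hat (p j2)) (hat (p v)) (zz p ω v i1 i2) (hat (p j3)) = 0 := by
  have e : ∀ k, ω v j1 * hat (p j1) k + ω v j2 * hat (p j2) k + ω v j3 * hat (p j3) k +
      ω v i2 * zz p ω v i1 i2 k = (∑ x, ω v x) * hat (p v) k := by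
    intro k
    rw [← RR_hat h hN k, RR_zz p ω v i1 i2 h2 k]
    ring
  rw [RR_br_eq, RR_br_eq]
  have e0 := e 0
  have e1 := e 1
  have e2 := e 2
  have e3 := e 3
  generalize hat (p j1) = A at *
  generalize hat (p j2) = B at *
  generalize hat (p j3) = C' at *
  generalize hat (p v) = D at *
  generalize zz p ω v i1 i2 = F at *
  generalize (∑ x, ω v x) = s at *
  unfold RR_c3
  linear_combination (norm := (simp only [RR_c3]; ring)) e0 * RR_c3 D F C' 1 2 3 - e1 * RR_c3 D F C' 0 2 3 +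
      e2 * RR_c3 D F C' 0 1 3 - e3 * RR_c3 D F C' 0 1 2

theorem RBne (hp : Gen p) (h : IsStress p C ω) {v i1 i2 j1 j2 j3 : V}
    (hN : Nb C v i1 i2 j1 j2 j3) (h2 : ω v i2 ≠ 0) (hs : ∑ x, ω v x ≠ 0) :
    br (zz p ω v i1 i2) (hat (p j1)) (hat (p j2)) (hat (p j3)) ≠ 0 := by
  have e : ∀ k, ω v j1 * hat (p j1) k + ω v j2 * hat (p j2) k + ω v j3 * hat (p j3) k +
      ω v i2 * zz p ω v i1 i2 k = (∑ x, ω v x) * hat (p v) k := by
    intro k
    rw [← RR_hat h hN k, RR_zz p ω v i1 i2 h2 k]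
    ring
  have hadj := hN.1
  have hv1 : v ≠ j1 := (C.ne_of_adj ((hadj j1).2 (by simp)))
  have hv2 : v ≠ j2 := (C.ne_of_adj ((hadj j2).2 (by simp)))
  have hv3 : v ≠ j3 := (C.ne_of_adj ((hadj j3).2 (by simp)))
  obtain ⟨_, _, _, _, _, _, _, _, h12, h13, h23⟩ := hN
  have hne := RR_br_ne hp hv1 hv2 hv3 h12 h13 h23
  have key : ω v i2 * br (zz p ω v i1 i2) (hat (p j1)) (hat (p j2)) (hat (p j3)) =
      (∑ x, ω v x) * br (hat (p v)) (hat (p j1)) (hat (p j2)) (hat (p j3)) := by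
    rw [RR_br_eq, RR_br_eq]
    have e0 := e 0
    have e1 := e 1
    have e2 := e 2
    have e3 := e 3
    generalize hat (p j1) = A at *
    generalize hat (p j2) = B at *
    generalize hat (p j3) = C' at *
    generalize hat (p v) = D at *
    generalize zz p ω v i1 i2 = F at *
    generalize (∑ x, ω v x) = s at *
    unfold RR_c3
    linear_combination (norm := (simp only [RR_c3]; ring)) e0 * RR_c3 A B C' 1 2 3 - e1 * RR_c3 A B C' 0 2 3 +
        e2 * RR_c3 A B C' 0 1 3 - e3 * RR_c3 A B C' 0 1 2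
  intro h0
  rw [h0, mul_zero] at key
  exact mul_ne_zero hs hne key.symm

end H176R2.R5
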