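import Pool.Agent.H176R2.R5.Defs
import Pool.Agent.H176R2.R5.GN1
import Pool.Agent.H176R2.R5.GN2
import Pool.Agent.H176R2.R5.RR

/-!
# AQ: no squares (all vertices of type A)
-/

set_option autoImplicit false

open Finset

namespace H176R2.R5

variable {V : Type} [Fintype V] [DecidableEq V]

variable {p : V → Fin 3 → ℝ} {C : SimpleGraph V} {ω : V → V → ℝ}

namespace AQ

theorem br01 (A B D : Fin 4 → ℝ) : br A A B D = 0 :=
  Matrix.det_zero_of_row_eq (i := 0) (j := 1) (by decide) rfl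

theorem br02 (A B D : Fin 4 → ℝ) : br A B A D = 0 :=
  Matrix.det_zero_of_row_eq (i := 0) (j := 2) (by decide) rfl

theorem br03 (A B D : Fin 4 → ℝ) : br A B D A = 0 :=
  Matrix.det_zero_of_row_eq (i := 0) (j := 3) (by decide) rfl

theorem dg5 (h : Std p C ω) {u v : V} (h1 : C.Adj u v) : dg C univ u = 5 := by
  classical
  rcases h.deg5 u with h0 | h0
  · exfalso
    unfold dg at h0
    rw [Finset.card_eq_zero] at h0
    have h2 : v ∈ (univ.filter fun b => C.Adj u b) := by simp [h1]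
    rw [h0] at h2
    simp at h2
  · exact h0

theorem exists_nb (h : Std p C ω) {u v x : V} (h1 : C.Adj u v) (h2 : C.Adj u x) (hne : v ≠ x) :
    ∃ a b c, Nb C u v x a b c := by
  classical
  have h5 := dg5 h h1
  unfold dg at h5
  set N : Finset V := univ.filter fun b => C.Adj u b with hN
  have hv : v ∈ N := by simp [hN, h1]
  have hx : x ∈ N.erase v := by simp [hN, h2, hne.symm]
  have h3 : ((N.erase v).erase x).card = 3 := by
    rw [Finset.card_erase_of_mem hx, Finset.card_erase_of_mem hv, h5]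
  obtain ⟨a, b, c, hab, hac, hbc, he⟩ := Finset.card_eq_three.1 h3
  have hmem : ∀ y, y ∈ (N.erase v).erase x ↔ y = a ∨ y = b ∨ y = c := by
    intro y
    rw [he]
    simp
  have ha := (hmem a).2 (Or.inl rfl)
  have hb := (hmem b).2 (Or.inr (Or.inl rfl))
  have hc := (hmem c).2 (Or.inr (Or.inr rfl))
  simp only [Finset.mem_erase] at ha hb hc
  refine ⟨a, b, c, ?_, hne, ha.2.1.symm, hb.2.1.symm, hc.2.1.symm, ha.1.symm, hb.1.symm, hc.1.symm,
    hab, hac, hbc⟩
  intro y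
  have hyN : y ∈ N ↔ C.Adj u y := by simp [hN]
  constructor
  · intro hy
    by_cases hyv : y = v
    · exact Or.inl hyv
    by_cases hyx : y = x
    · exact Or.inr (Or.inl hyx)
    have := (hmem y).1 (by
      simp only [Finset.mem_erase]
      exact ⟨hyx, hyv, hyN.2 hy⟩)
    exact Or.inr (Or.inr this)
  · rintro (rfl | rfl | rfl | rfl | rfl)
    · exact h1
    · exact h2
    · exact hyN.1 ha.2.2
    · exact hyN.1 hb.2.2
    · exact hyN.1 hc.2.2

theorem nb_sub (h : Std p C ω) (hA : ∀ v, ∑ x, ω v x = 0)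
    (hT : ∀ u v w, C.Adj u v → C.Adj v w → ¬ C.Adj u w) {u v w x : V} (h1 : C.Adj u v)
    (h2 : C.Adj v w) (h3 : C.Adj w x) (h4 : C.Adj x u) (h5 : u ≠ w) (h6 : v ≠ x) :
    ∀ y, C.Adj u y → C.Adj w y := by
  obtain ⟨a1, a2, a3, hu⟩ := exists_nb h h1 h4.symm h6
  obtain ⟨b1, b2, b3, hv⟩ := exists_nb h h1.symm h2 h5
  obtain ⟨c1, c2, c3, hw⟩ := exists_nb h h2.symm h3 h6
  obtain ⟨d1, d2, d3, hx⟩ := exists_nb h h4 h3.symm h5
  have eu := RA h.stress hu (hA u)
  have ev := RA h.stress hv (hA v)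
  have ew := RA h.stress hw (hA w)
  have ex := RA h.stress hx (hA x)
  have n1 := h.ne _ _ h1
  have n2 := h.ne _ _ h2
  have n3 := h.ne _ _ h3
  have n4 := h.ne _ _ h4
  rw [h.stress.symm v u] at ev
  rw [h.stress.symm w v] at ew
  rw [h.stress.symm u x] at eu
  rw [h.stress.symm x w] at ex
  -- membership facts
  have au1 := (hu.1 a1).2 (by simp)
  have au2 := (hu.1 a2).2 (by simp)
  have au3 := (hu.1 a3).2 (by simp)
  have bv1 := (hv.1 b1).2 (by simp)
  have bv2 := (hv.1 b2).2 (by simp)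
  have bv3 := (hv.1 b3).2 (by simp)
  have cw1 := (hw.1 c1).2 (by simp)
  have cw2 := (hw.1 c2).2 (by simp)
  have cw3 := (hw.1 c3).2 (by simp)
  have dx1 := (hx.1 d1).2 (by simp)
  have dx2 := (hx.1 d2).2 (by simp)
  have dx3 := (hx.1 d3).2 (by simp)
  have key : br (hat (p v)) (hat (p a1)) (hat (p a2)) (hat (p a3)) *
      br (hat (p w)) (hat (p b1)) (hat (p b2)) (hat (p b3)) *
      br (hat (p x)) (hat (p c1)) (hat (p c2)) (hat (p c3)) *
      br (hat (p u)) (hat (p d1)) (hat (p d2)) (hat (p d3)) -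
      br (hat (p x)) (hat (p a1)) (hat (p a2)) (hat (p a3)) *
      br (hat (p u)) (hat (p b1)) (hat (p b2)) (hat (p b3)) *
      br (hat (p v)) (hat (p c1)) (hat (p c2)) (hat (p c3)) *
      br (hat (p w)) (hat (p d1)) (hat (p d2)) (hat (p d3)) = 0 := by
    have hne : ω u v * ω v w * ω w x * ω x u ≠ 0 :=
      mul_ne_zero (mul_ne_zero (mul_ne_zero n1 n2) n3) n4
    apply (mul_right_injective₀ hne)
    simp only [mul_zero]
    generalize br (hat (p v)) (hat (p a1)) (hat (p a2)) (hat (p a3)) = X1 at *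
    generalize br (hat (p w)) (hat (p b1)) (hat (p b2)) (hat (p b3)) = X2 at *
    generalize br (hat (p x)) (hat (p c1)) (hat (p c2)) (hat (p c3)) = X3 at *
    generalize br (hat (p u)) (hat (p d1)) (hat (p d2)) (hat (p d3)) = X4 at *
    generalize br (hat (p x)) (hat (p a1)) (hat (p a2)) (hat (p a3)) = Y1 at *
    generalize br (hat (p u)) (hat (p b1)) (hat (p b2)) (hat (p b3)) = Y2 at *
    generalize br (hat (p v)) (hat (p c1)) (hat (p c2)) (hat (p c3)) = Y3 at *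
    generalize br (hat (p w)) (hat (p d1)) (hat (p d2)) (hat (p d3)) = Y4 at *
    have e1 : ω u v * X1 = -(ω x u * Y1) := by linarith
    have e2 : ω v w * X2 = -(ω u v * Y2) := by linarith
    have e3 : ω w x * X3 = -(ω v w * Y3) := by linarith
    have e4 : ω x u * X4 = -(ω w x * Y4) := by linarith
    have e5 : (ω u v * X1) * (ω v w * X2) * (ω w x * X3) * (ω x u * X4) =
        (-(ω x u * Y1)) * (-(ω u v * Y2)) * (-(ω v w * Y3)) * (-(ω w x * Y4)) := by
      rw [e1, e2, e3, e4]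
    linear_combination e5
  -- x is a vertex different from all others
  have xv : v ≠ x := h6
  have xw : w ≠ x := h3.ne
  have xu : u ≠ x := h4.ne'
  have xa1 : a1 ≠ x := by rintro rfl; exact hu.2.2.2.2.2.1 rfl
  have xa2 : a2 ≠ x := by rintro rfl; exact hu.2.2.2.2.2.2.1 rfl
  have xa3 : a3 ≠ x := by rintro rfl; exact hu.2.2.2.2.2.2.2.1 rfl
  have xc1 : c1 ≠ x := by rintro rfl; exact hw.2.2.2.2.2.1 rfl
  have xc2 : c2 ≠ x := by rintro rfl; exact hw.2.2.2.2.2.2.1 rfl
  have xc3 : c3 ≠ x := by rintro rfl; exact hw.2.2.2.2.2.2.2.1 rfl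
  have nvx : ¬ C.Adj v x := fun hh => hT u v x h1 hh h4.symm
  have xb1 : b1 ≠ x := by rintro rfl; exact nvx bv1
  have xb2 : b2 ≠ x := by rintro rfl; exact nvx bv2
  have xb3 : b3 ≠ x := by rintro rfl; exact nvx bv3
  have xd1 : d1 ≠ x := dx1.ne'
  have xd2 : d2 ≠ x := dx2.ne'
  have xd3 : d3 ≠ x := dx3.ne'
  have hS : x ∉ ({x}ᶜ : Set V) := by simp
  have mem : ∀ {y : V}, y ≠ x → y ∈ ({x}ᶜ : Set V) := by
    intro y hy
    simpa using hy
  have cst : ∀ {a b c d : V}, a ≠ x → b ≠ x → c ≠ x → d ≠ x →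
      PF (Fd p ({x}ᶜ : Set V)) (fun _ => br (hat (p a)) (hat (p b)) (hat (p c)) (hat (p d))) := by
    intro a b c d ha hb hc hd
    exact PF.br (fun i => PF.hatc p (mem ha) i) (fun i => PF.hatc p (mem hb) i)
      (fun i => PF.hatc p (mem hc) i) (fun i => PF.hatc p (mem hd) i)
  have vr : ∀ {b c d : V}, b ≠ x → c ≠ x → d ≠ x →
      PF (Fd p ({x}ᶜ : Set V)) (fun ξ => br (hat ξ) (hat (p b)) (hat (p c)) (hat (p d))) := by
    intro b c d hb hc hd
    exact PF.br (fun i => PF.hat _ i) (fun i => PF.hatc p (mem hb) i)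
      (fun i => PF.hatc p (mem hc) i) (fun i => PF.hatc p (mem hd) i)
  have hpf : PF (Fd p ({x}ᶜ : Set V)) (fun ξ =>
      br (hat (p v)) (hat (p a1)) (hat (p a2)) (hat (p a3)) *
      br (hat (p w)) (hat (p b1)) (hat (p b2)) (hat (p b3)) *
      br (hat ξ) (hat (p c1)) (hat (p c2)) (hat (p c3)) *
      br (hat (p u)) (hat (p d1)) (hat (p d2)) (hat (p d3)) -
      br (hat ξ) (hat (p a1)) (hat (p a2)) (hat (p a3)) *
      br (hat (p u)) (hat (p b1)) (hat (p b2)) (hat (p b3)) *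
      br (hat (p v)) (hat (p c1)) (hat (p c2)) (hat (p c3)) *
      br (hat (p w)) (hat (p d1)) (hat (p d2)) (hat (p d3))) :=
    PF.sub (PF.mul (PF.mul (PF.mul (cst xv xa1 xa2 xa3) (cst xw xb1 xb2 xb3)) (vr xc1 xc2 xc3))
      (cst xu xd1 xd2 xd3))
      (PF.mul (PF.mul (PF.mul (vr xa1 xa2 xa3) (cst xu xb1 xb2 xb3)) (cst xv xc1 xc2 xc3))
      (cst xw xd1 xd2 xd3))
  have hz := gen_zero h.gen hS hpf key
  have hX1 : br (hat (p v)) (hat (p a1)) (hat (p a2)) (hat (p a3)) ≠ 0 :=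
    br_ne h.gen hu.2.2.1 hu.2.2.2.1 hu.2.2.2.2.1 hu.2.2.2.2.2.2.2.2.1 hu.2.2.2.2.2.2.2.2.2.1
      hu.2.2.2.2.2.2.2.2.2.2
  have hX2 : br (hat (p w)) (hat (p b1)) (hat (p b2)) (hat (p b3)) ≠ 0 :=
    br_ne h.gen hv.2.2.2.2.2.1 hv.2.2.2.2.2.2.1 hv.2.2.2.2.2.2.2.1 hv.2.2.2.2.2.2.2.2.1
      hv.2.2.2.2.2.2.2.2.2.1 hv.2.2.2.2.2.2.2.2.2.2
  have hX4 : br (hat (p u)) (hat (p d1)) (hat (p d2)) (hat (p d3)) ≠ 0 :=
    br_ne h.gen hx.2.2.1 hx.2.2.2.1 hx.2.2.2.2.1 hx.2.2.2.2.2.2.2.2.1 hx.2.2.2.2.2.2.2.2.2.1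
      hx.2.2.2.2.2.2.2.2.2.2
  have fin : ∀ a, br (hat (p a)) (hat (p a1)) (hat (p a2)) (hat (p a3)) = 0 → C.Adj w a := by
    intro a ha
    have h0 := hz (p a)
    simp only [ha, zero_mul, sub_zero] at h0
    have h7 : br (hat (p a)) (hat (p c1)) (hat (p c2)) (hat (p c3)) = 0 := by
      rcases mul_eq_zero.1 h0 with h8 | h8
      · rcases mul_eq_zero.1 h8 with h9 | h9
        · rcases mul_eq_zero.1 h9 with h10 | h10
          · exact absurd h10 hX1
          · exact absurd h10 hX2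
        · exact h9
      · exact absurd h8 hX4
    by_contra hna
    have e1 : a ≠ c1 := by rintro rfl; exact hna cw1
    have e2 : a ≠ c2 := by rintro rfl; exact hna cw2
    have e3 : a ≠ c3 := by rintro rfl; exact hna cw3
    exact br_ne h.gen e1 e2 e3 hw.2.2.2.2.2.2.2.2.1 hw.2.2.2.2.2.2.2.2.2.1
      hw.2.2.2.2.2.2.2.2.2.2 h7
  intro y hy
  rcases (hu.1 y).1 hy with rfl | rfl | rfl | rfl | rfl
  · exact h2.symm
  · exact h3
  · exact fin _ (br01 _ _ _)
  · exact fin _ (br02 _ _ _)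
  · exact fin _ (br03 _ _ _)

end AQ

theorem allA_square (h : Std p C ω) (hA : ∀ v, ∑ x, ω v x = 0)
    (hT : ∀ u v w, C.Adj u v → C.Adj v w → ¬ C.Adj u w) {u v w x : V} (h1 : C.Adj u v)
    (h2 : C.Adj v w) (h3 : C.Adj w x) (h4 : C.Adj x u) (h5 : u ≠ w) (h6 : v ≠ x) : False := by
  classical
  have huw := AQ.nb_sub h hA hT h1 h2 h3 h4 h5 h6
  -- every neighbour of `u` has the neighbours of `v`
  have hN : ∀ y, C.Adj u y → ∀ m, C.Adj v m → C.Adj y m := by
    intro y hy m hm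
    by_cases hyv : y = v
    · subst hyv; exact hm
    · exact AQ.nb_sub h hA hT h1.symm hy (huw y hy).symm h2.symm (Ne.symm hyv) h5 m hm
  have hdis : Disjoint (univ.filter fun b => C.Adj u b) (univ.filter fun b => C.Adj v b) := by
    rw [Finset.disjoint_left]
    intro z hz1 hz2
    simp only [Finset.mem_filter, Finset.mem_univ, true_and] at hz1 hz2
    exact hT u v z h1 hz2 hz1
  have cu : (univ.filter fun b => C.Adj u b).card = 5 := by
    have := AQ.dg5 h h1
    unfold dg at this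
    exact this
  have cv : (univ.filter fun b => C.Adj v b).card = 5 := by
    have := AQ.dg5 h h2
    unfold dg at this
    exact this
  set N : Finset V := univ.filter fun b => C.Adj u b with hNdef
  set M : Finset V := univ.filter fun b => C.Adj v b with hMdef
  have hcard : (N ∪ M).card = 10 := by
    rw [Finset.card_union_of_disjoint hdis, cu, cv]
  have hdeg : ∀ a ∈ N ∪ M, 5 ≤ dg C (N ∪ M) a := by
    intro a ha
    unfold dg
    rcases Finset.mem_union.1 ha with ha | ha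
    · rw [← cv]
      apply Finset.card_le_card
      intro m hm
      simp only [hNdef, hMdef, Finset.mem_filter, Finset.mem_univ, true_and, Finset.mem_union] at *
      exact ⟨Or.inr hm, hN a ha m hm⟩
    · rw [← cu]
      apply Finset.card_le_card
      intro m hm
      simp only [hNdef, hMdef, Finset.mem_filter, Finset.mem_univ, true_and, Finset.mem_union] at *
      exact ⟨Or.inl hm, (hN m hm a ha).symm⟩
  have hi2 : 50 ≤ i2 C (N ∪ M) := by
    unfold i2
    calc 50 = ∑ _a ∈ N ∪ M, 5 := by rw [Finset.sum_const, hcard]; rfl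
      _ ≤ _ := Finset.sum_le_sum hdeg
  have hs := h.sparse (N ∪ M) (by omega)
  omega

end H176R2.R5
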