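import Pool.Agent.H176R2.R5.RR
import Pool.Agent.H176R2.R5.GN1
import Pool.Agent.H176R2.R5.GN2

/-!
# R5, task AT: all vertices of type A, triangles
-/

set_option autoImplicit false

open Finset

namespace H176R2.R5

variable {V : Type} [Fintype V] [DecidableEq V]

/-- The square of the bracket is a symmetric function of the four vectors. -/
theorem AT_br_sq (A B C D : Fin 4 → ℝ) :
    br A B C D ^ 2 = Matrix.det (Matrix.vecMulVec A A + Matrix.vecMulVec B B +
      Matrix.vecMulVec C C + Matrix.vecMulVec D D) := by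
  have h1 : br A B C D ^ 2 = Matrix.det ((Matrix.of ![A, B, C, D]).transpose * Matrix.of ![A, B, C, D]) := by
    rw [Matrix.det_mul, Matrix.det_transpose, sq]; rfl
  rw [h1]
  congr 1
  ext i j
  simp [Matrix.mul_apply, Fin.sum_univ_succ, Matrix.vecMulVec_apply]
  ring

/-- The set bracket. -/
noncomputable def AT_sqb (p : V → Fin 3 → ℝ) (S : Finset V) : ℝ :=
  Matrix.det (∑ b ∈ S, Matrix.vecMulVec (hat (p b)) (hat (p b)))

theorem AT_sqb_eq (p : V → Fin 3 → ℝ) {a b c d : V} (hab : a ≠ b) (hac : a ≠ c)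
    (had : a ≠ d) (hbc : b ≠ c) (hbd : b ≠ d) (hcd : c ≠ d) :
    br (hat (p a)) (hat (p b)) (hat (p c)) (hat (p d)) ^ 2 = AT_sqb p {a, b, c, d} := by
  rw [AT_br_sq, AT_sqb, Finset.sum_insert (by simp [hab, hac, had]),
    Finset.sum_insert (by simp [hbc, hbd]), Finset.sum_insert (by simp [hcd]),
    Finset.sum_singleton]
  congr 1
  abel

theorem Nb.AT_swap {G : SimpleGraph V} {v a b c d f : V} (h : Nb G v a b c d f) :
    Nb G v b a c d f := by
  obtain ⟨h0, h1, h2, h3, h4, h5, h6, h7, h8, h9, h10⟩ := h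
  refine ⟨fun x => ?_, h1.symm, h5, h6, h7, h2, h3, h4, h8, h9, h10⟩
  rw [h0 x]; tauto

theorem AT_nb_of_three {G : SimpleGraph V} {v x y z : V} (hd : dg G univ v = 5) (hx : G.Adj v x)
    (hy : G.Adj v y) (hz : G.Adj v z) (hxy : x ≠ y) (hxz : x ≠ z) (hyz : y ≠ z) :
    ∃ a b, Nb G v x y z a b := by
  classical
  set S : Finset V := (univ.filter fun b => G.Adj v b) with hS
  have hc : S.card = 5 := by
    have : dg G univ v = S.card := by
      unfold dg; rw [hS]
    omega
  have hxS : x ∈ S := by simp [hS, hx]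
  have hyS : y ∈ S.erase x := by simp [hS, hy, hxy.symm]
  have hzS : z ∈ (S.erase x).erase y := by simp [hS, hz, hxz.symm, hyz.symm]
  have hc2 : (((S.erase x).erase y).erase z).card = 2 := by
    rw [Finset.card_erase_of_mem hzS, Finset.card_erase_of_mem hyS, Finset.card_erase_of_mem hxS,
      hc]
  obtain ⟨a, b, hab, he⟩ := Finset.card_eq_two.mp hc2
  have ha : a ∈ ((S.erase x).erase y).erase z := by rw [he]; simp
  have hb : b ∈ ((S.erase x).erase y).erase z := by rw [he]; simp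
  simp only [Finset.mem_erase] at ha hb
  refine ⟨a, b, fun t => ?_, hxy, hxz, ha.2.2.1.symm, hb.2.2.1.symm, hyz, ha.2.1.symm,
    hb.2.1.symm, ha.1.symm, hb.1.symm, hab⟩
  constructor
  · intro ht
    by_cases h1 : t = x
    · exact Or.inl h1
    by_cases h2 : t = y
    · exact Or.inr (Or.inl h2)
    by_cases h3 : t = z
    · exact Or.inr (Or.inr (Or.inl h3))
    have : t ∈ ((S.erase x).erase y).erase z := by
      simp [hS, ht, h1, h2, h3]
    rw [he] at this
    simp only [Finset.mem_insert, Finset.mem_singleton] at this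
    tauto
  · rintro (rfl | rfl | rfl | rfl | rfl)
    · exact hx
    · exact hy
    · exact hz
    · have := ha.2.2.2; simpa [hS] using this
    · have := hb.2.2.2; simpa [hS] using this

theorem AT_nb_of_two {G : SimpleGraph V} {v x y : V} (hd : dg G univ v = 5) (hx : G.Adj v x)
    (hy : G.Adj v y) (hxy : x ≠ y) : ∃ a b c, Nb G v x y a b c := by
  classical
  set S : Finset V := (univ.filter fun b => G.Adj v b) with hS
  have hc : S.card = 5 := by
    have : dg G univ v = S.card := by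
      unfold dg; rw [hS]
    omega
  have hxS : x ∈ S := by simp [hS, hx]
  have hyS : y ∈ S.erase x := by simp [hS, hy, hxy.symm]
  have hc2 : ((S.erase x).erase y).card = 3 := by
    rw [Finset.card_erase_of_mem hyS, Finset.card_erase_of_mem hxS, hc]
  have hne : ((S.erase x).erase y).Nonempty := by
    rw [← Finset.card_pos]; omega
  obtain ⟨z, hz⟩ := hne
  simp only [Finset.mem_erase] at hz
  have hz' : G.Adj v z := by have := hz.2.2; simpa [hS] using this
  obtain ⟨b, c, h⟩ := AT_nb_of_three hd hx hy hz' hxy hz.2.1.symm hz.1.symm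
  exact ⟨z, b, c, h⟩

theorem AT_nb_dg {G : SimpleGraph V} {v a b c d f : V} (h : Nb G v a b c d f) :
    dg G univ v = 5 := by
  classical
  obtain ⟨h0, h1, h2, h3, h4, h5, h6, h7, h8, h9, h10⟩ := h
  have : (univ.filter fun x => G.Adj v x) = {a, b, c, d, f} := by
    ext x
    simp only [Finset.mem_filter, Finset.mem_univ, true_and, Finset.mem_insert,
      Finset.mem_singleton]
    exact h0 x
  have h' : dg G univ v = (univ.filter fun x => G.Adj v x).card := by
    unfold dg; congr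
  rw [h', this,
    Finset.card_insert_of_notMem (by simp [h1, h2, h3, h4]),
    Finset.card_insert_of_notMem (by simp [h5, h6, h7]),
    Finset.card_insert_of_notMem (by simp [h8, h9]), Finset.card_pair h10]

theorem Nb.AT_filter {G : SimpleGraph V} {v a b c d f : V} (h : Nb G v a b c d f)
    (S : Finset V) (hS : ∀ x, x ∈ S ↔ G.Adj v x) : S.erase a = {b, c, d, f} := by
  obtain ⟨h0, h1, h2, h3, h4, h5, h6, h7, h8, h9, h10⟩ := h
  ext x
  simp only [Finset.mem_erase, hS, h0, Finset.mem_insert, Finset.mem_singleton]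
  constructor
  · rintro ⟨h, h' | h'⟩
    · exact absurd h' h
    · exact h'
  · intro h'
    refine ⟨?_, Or.inr h'⟩
    rintro rfl
    rcases h' with rfl | rfl | rfl | rfl
    · exact h1 rfl
    · exact h2 rfl
    · exact h3 rfl
    · exact h4 rfl

section std

variable {p : V → Fin 3 → ℝ} {C : SimpleGraph V} {ω : V → V → ℝ}

/-- The potential: if all vertices have type A then the squares of the stress coefficients at `v`
are proportional to the squares of the brackets of the other four neighbours. -/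
theorem pot (h : Std p C ω) (hA : ∀ v, ∑ x, ω v x = 0) :
    ∃ c : V → ℝ, (∀ v, dg C univ v = 5 → c v ≠ 0) ∧ ∀ v a b d e f, Nb C v a b d e f →
      ω v a ^ 2 = c v * br (hat (p b)) (hat (p d)) (hat (p e)) (hat (p f)) ^ 2 := by
  classical
  -- the quotient
  let N : V → Finset V := fun v => univ.filter fun x => C.Adj v x
  have hN : ∀ v x, x ∈ N v ↔ C.Adj v x := by intro v x; simp [N]
  let q : V → V → ℝ := fun v a => ω v a ^ 2 / AT_sqb p ((N v).erase a)
  have key : ∀ v a b d e f, Nb C v a b d e f →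
      ω v a ^ 2 = q v a * br (hat (p b)) (hat (p d)) (hat (p e)) (hat (p f)) ^ 2 ∧ q v a ≠ 0 := by
    intro v a b d e f hn
    have hbr : br (hat (p b)) (hat (p d)) (hat (p e)) (hat (p f)) ≠ 0 := by
      obtain ⟨h0, h1, h2, h3, h4, h5, h6, h7, h8, h9, h10⟩ := hn
      exact br_ne h.gen h5 h6 h7 h8 h9 h10
    have hs : AT_sqb p ((N v).erase a) = br (hat (p b)) (hat (p d)) (hat (p e)) (hat (p f)) ^ 2 := by
      rw [hn.AT_filter (N v) (hN v)]
      obtain ⟨h0, h1, h2, h3, h4, h5, h6, h7, h8, h9, h10⟩ := hn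
      exact (AT_sqb_eq p h5 h6 h7 h8 h9 h10).symm
    have hω : ω v a ≠ 0 := h.ne v a ((hn.1 a).2 (Or.inl rfl))
    constructor
    · simp only [q]
      rw [hs, div_mul_cancel₀ _ (pow_ne_zero 2 hbr)]
    · simp only [q]
      rw [hs]
      exact div_ne_zero (pow_ne_zero 2 hω) (pow_ne_zero 2 hbr)
  have hq : ∀ v a b, dg C univ v = 5 → C.Adj v a → C.Adj v b → q v a = q v b := by
    intro v a b hd ha hb
    by_cases hab : a = b
    · rw [hab]
    obtain ⟨d, e, f, hn⟩ := AT_nb_of_two hd ha hb hab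
    have hra := RA h.stress hn (hA v)
    obtain ⟨k1, -⟩ := key v a b d e f hn
    obtain ⟨k2, -⟩ := key v b a d e f hn.AT_swap
    obtain ⟨h0, h1, h2, h3, h4, h5, h6, h7, h8, h9, h10⟩ := hn
    have hb1 : br (hat (p b)) (hat (p d)) (hat (p e)) (hat (p f)) ≠ 0 := br_ne h.gen h5 h6 h7 h8 h9 h10
    have hb2 : br (hat (p a)) (hat (p d)) (hat (p e)) (hat (p f)) ≠ 0 := br_ne h.gen h2 h3 h4 h8 h9 h10
    set X := br (hat (p b)) (hat (p d)) (hat (p e)) (hat (p f)) with hX
    set Y := br (hat (p a)) (hat (p d)) (hat (p e)) (hat (p f)) with hY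
    have h1 : ω v a ^ 2 * Y ^ 2 = ω v b ^ 2 * X ^ 2 := by
      have : ω v a * Y = - (ω v b * X) := by linarith
      calc ω v a ^ 2 * Y ^ 2 = (ω v a * Y) ^ 2 := by ring
        _ = (- (ω v b * X)) ^ 2 := by rw [this]
        _ = _ := by ring
    have h2 : q v a * (X ^ 2 * Y ^ 2) = q v b * (X ^ 2 * Y ^ 2) := by
      calc q v a * (X ^ 2 * Y ^ 2) = (q v a * X ^ 2) * Y ^ 2 := by ring
        _ = ω v a ^ 2 * Y ^ 2 := by rw [← k1]
        _ = ω v b ^ 2 * X ^ 2 := h1
        _ = (q v b * Y ^ 2) * X ^ 2 := by rw [← k2]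
        _ = _ := by ring
    exact mul_right_cancel₀ (mul_ne_zero (pow_ne_zero 2 hb1) (pow_ne_zero 2 hb2)) h2
  refine ⟨fun v => if hv : ∃ a, C.Adj v a then q v hv.choose else 1, ?_, ?_⟩
  · intro v hd
    by_cases hv : ∃ a, C.Adj v a
    · simp only [hv, dite_true]
      have ha := hv.choose_spec
      have hcard : 1 < (N v).card := by
        have : dg C univ v = (N v).card := by unfold dg; congr
        omega
      obtain ⟨b, hb, hbne⟩ := Finset.exists_mem_ne hcard hv.choose
      obtain ⟨d, e, f, hn⟩ := AT_nb_of_two hd ha ((hN v b).1 hb) hbne.symm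
      exact (key _ _ _ _ _ _ hn).2
    · simp only [hv, dite_false]
      exact one_ne_zero
  · intro v a b d e f hn
    have ha : C.Adj v a := (hn.1 a).2 (Or.inl rfl)
    have hv : ∃ a, C.Adj v a := ⟨a, ha⟩
    simp only [hv, dite_true]
    rw [hq v hv.choose a (AT_nb_dg hn) hv.choose_spec ha]
    exact (key _ _ _ _ _ _ hn).1

theorem AT_br_self (A B C : Fin 4 → ℝ) : br A A B C = 0 := by
  unfold br
  exact Matrix.det_zero_of_row_eq (i := 0) (j := 1) (by decide) (by ext i; simp)

/-- In a triangle `u,v,w` every other neighbour of `u` is a neighbour of `v`. -/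
theorem AT_tri_step (h : Std p C ω) (hA : ∀ v, ∑ x, ω v x = 0) {u v w : V} (h1 : C.Adj u v)
    (h2 : C.Adj v w) (h3 : C.Adj u w) {a : V} (ha : C.Adj u a) (hav : a ≠ v) (haw : a ≠ w) :
    C.Adj v a := by
  classical
  obtain ⟨c, hc0, hc⟩ := pot h hA
  have deg : ∀ x y, C.Adj x y → dg C univ x = 5 := by
    intro x y hxy
    rcases h.deg5 x with h0 | h5
    · exfalso
      unfold dg at h0
      rw [Finset.card_eq_zero] at h0
      have : y ∈ (univ.filter fun b => C.Adj x b) := by simp [hxy]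
      have h0' : (univ.filter fun b => C.Adj x b) = ∅ := by
        convert h0
      rw [h0'] at this
      exact absurd this (Finset.notMem_empty _)
    · exact h5
  have du := deg u v h1
  have dv := deg v w h2
  have dw := deg w u h3.symm
  obtain ⟨a2, a3, nu⟩ := AT_nb_of_three du h1 h3 ha h2.ne hav.symm haw.symm
  obtain ⟨b1, b2, b3, nv⟩ := AT_nb_of_two dv h1.symm h2 h3.ne
  obtain ⟨d1, d2, d3, nw⟩ := AT_nb_of_two dw h3.symm h2.symm h1.ne
  have e1 := hc _ _ _ _ _ _ nu
  have e2 := hc _ _ _ _ _ _ nu.AT_swap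
  have e3 := hc _ _ _ _ _ _ nv
  have e4 := hc _ _ _ _ _ _ nv.AT_swap
  have e5 := hc _ _ _ _ _ _ nw
  have e6 := hc _ _ _ _ _ _ nw.AT_swap
  rw [h.stress.symm u v] at e1
  rw [h.stress.symm u w] at e2
  rw [h.stress.symm v w] at e4
  -- e1 : ω v u ^ 2 = c u * [w a a2 a3]^2, e3 : ω v u ^ 2 = c v * [w b1 b2 b3] ^ 2
  -- e2 : ω w u ^2 = c u * [v a a2 a3]^2, e5 : ω w u ^ 2 = c w * [v d1 d2 d3]^2
  -- e4 : ω w v ^ 2 = c v * [u b1 b2 b3]^2, e6 : ω w v ^ 2 = c w * [u d1 d2 d3]^2
  have hcu := hc0 u du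
  have hcv := hc0 v dv
  have hcw := hc0 w dw
  obtain ⟨nu0, nu1, nu2, nu3, nu4, nu5, nu6, nu7, nu8, nu9, nu10⟩ := nu
  obtain ⟨nv0, nv1, nv2, nv3, nv4, nv5, nv6, nv7, nv8, nv9, nv10⟩ := nv
  obtain ⟨nw0, nw1, nw2, nw3, nw4, nw5, nw6, nw7, nw8, nw9, nw10⟩ := nw
  have hud : br (hat (p u)) (hat (p d1)) (hat (p d2)) (hat (p d3)) ≠ 0 :=
    br_ne h.gen nw2 nw3 nw4 nw8 nw9 nw10
  have hva : br (hat (p v)) (hat (p a)) (hat (p a2)) (hat (p a3)) ≠ 0 :=
    br_ne h.gen nu2 nu3 nu4 nu8 nu9 nu10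
  have hwd : w ≠ d1 ∧ w ≠ d2 ∧ w ≠ d3 := by
    refine ⟨?_, ?_, ?_⟩
    · exact ((nw0 d1).2 (by simp)).ne
    · exact ((nw0 d2).2 (by simp)).ne
    · exact ((nw0 d3).2 (by simp)).ne
  have hmem : ∀ x, w ≠ x → x ∈ ({w}ᶜ : Set V) := by
    intro x hx
    simpa using hx.symm
  have hbr : ∀ x1 x2 x3 x4, w ≠ x1 → w ≠ x2 → w ≠ x3 → w ≠ x4 →
      PF (Fd p {w}ᶜ) (fun _ => br (hat (p x1)) (hat (p x2)) (hat (p x3)) (hat (p x4))) := by
    intro x1 x2 x3 x4 g1 g2 g3 g4
    exact PF.br (A := fun _ => hat (p x1)) (B := fun _ => hat (p x2)) (C := fun _ => hat (p x3))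
      (D := fun _ => hat (p x4)) (PF.hatc p (hmem _ g1)) (PF.hatc p (hmem _ g2))
      (PF.hatc p (hmem _ g3)) (PF.hatc p (hmem _ g4))
  have hbr' : ∀ x2 x3 x4, w ≠ x2 → w ≠ x3 → w ≠ x4 →
      PF (Fd p {w}ᶜ) (fun ξ => br (hat ξ) (hat (p x2)) (hat (p x3)) (hat (p x4))) := by
    intro x2 x3 x4 g2 g3 g4
    exact PF.br (A := fun ξ => hat ξ) (B := fun _ => hat (p x2)) (C := fun _ => hat (p x3))
      (D := fun _ => hat (p x4)) (PF.hat _) (PF.hatc p (hmem _ g2))
      (PF.hatc p (hmem _ g3)) (PF.hatc p (hmem _ g4))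
  have hX := hbr' a a2 a3 nu5 nu6 nu7
  have hY := hbr' b1 b2 b3 nv5 nv6 nv7
  have hK1 := hbr u b1 b2 b3 nv1.symm nv5 nv6 nv7
  have hK2 := hbr v d1 d2 d3 h2.ne.symm hwd.1 hwd.2.1 hwd.2.2
  have hK3 := hbr u d1 d2 d3 nv1.symm hwd.1 hwd.2.1 hwd.2.2
  have hK4 := hbr v a a2 a3 h2.ne.symm nu5 nu6 nu7
  have hPF := PF.sub (PF.mul (PF.mul hX hX) (PF.mul (PF.mul hK1 hK1) (PF.mul hK2 hK2)))
    (PF.mul (PF.mul hY hY) (PF.mul (PF.mul hK3 hK3) (PF.mul hK4 hK4)))
  have hz := gen_zero h.gen (v := w) (by simp) hPF (by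
    have hccc : c u * c v * c w ≠ 0 := mul_ne_zero (mul_ne_zero hcu hcv) hcw
    apply mul_left_cancel₀ hccc
    rw [mul_zero]
    set X1 := br (hat (p w)) (hat (p a)) (hat (p a2)) (hat (p a3))
    set X2 := br (hat (p v)) (hat (p a)) (hat (p a2)) (hat (p a3))
    set Y1 := br (hat (p w)) (hat (p b1)) (hat (p b2)) (hat (p b3))
    set Y2 := br (hat (p u)) (hat (p b1)) (hat (p b2)) (hat (p b3))
    set Z1 := br (hat (p v)) (hat (p d1)) (hat (p d2)) (hat (p d3))
    set Z2 := br (hat (p u)) (hat (p d1)) (hat (p d2)) (hat (p d3))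
    calc c u * c v * c w * (X1 * X1 * (Y2 * Y2 * (Z1 * Z1)) - Y1 * Y1 * (Z2 * Z2 * (X2 * X2)))
        = (c u * X1 ^ 2) * (c v * Y2 ^ 2) * (c w * Z1 ^ 2)
          - (c v * Y1 ^ 2) * (c w * Z2 ^ 2) * (c u * X2 ^ 2) := by ring
      _ = 0 := by rw [← e1, ← e2, ← e3, ← e4, ← e5, ← e6]; ring)
  have hza := hz (p a)
  simp only [AT_br_self, zero_mul, zero_sub, neg_eq_zero] at hza
  have hb : br (hat (p a)) (hat (p b1)) (hat (p b2)) (hat (p b3)) = 0 := by
    rcases mul_eq_zero.1 hza with h' | h'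
    · exact mul_self_eq_zero.1 h'
    · rcases mul_eq_zero.1 h' with h'' | h''
      · exact absurd (mul_self_eq_zero.1 h'') hud
      · exact absurd (mul_self_eq_zero.1 h'') hva
  by_contra hcon
  have : a ≠ b1 ∧ a ≠ b2 ∧ a ≠ b3 := by
    refine ⟨?_, ?_, ?_⟩
    · rintro rfl; exact hcon ((nv0 a).2 (by simp))
    · rintro rfl; exact hcon ((nv0 a).2 (by simp))
    · rintro rfl; exact hcon ((nv0 a).2 (by simp))
  exact br_ne h.gen this.1 this.2.1 this.2.2 nv8 nv9 nv10 hb

theorem allA_triangle (h : Std p C ω) (hA : ∀ v, ∑ x, ω v x = 0) {u v w : V} (h1 : C.Adj u v)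
    (h2 : C.Adj v w) (h3 : C.Adj u w) : False := by
  classical
  have du : dg C univ u = 5 := by
    rcases h.deg5 u with h0 | h5
    · exfalso
      unfold dg at h0
      rw [Finset.card_eq_zero] at h0
      have : v ∈ (univ.filter fun b => C.Adj u b) := by simp [h1]
      have h0' : (univ.filter fun b => C.Adj u b) = ∅ := by
        convert h0
      rw [h0'] at this
      exact absurd this (Finset.notMem_empty _)
    · exact h5
  -- every neighbour of `u` lies in a triangle with `u`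
  have tri : ∀ x, C.Adj u x → ∃ z, C.Adj u z ∧ C.Adj x z ∧ x ≠ z := by
    intro x hx
    by_cases hxv : x = v
    · subst hxv; exact ⟨w, h3, h2, h2.ne⟩
    by_cases hxw : x = w
    · subst hxw; exact ⟨v, h1, h2.symm, h2.ne.symm⟩
    exact ⟨v, h1, (AT_tri_step h hA h1 h2 h3 hx hxv hxw).symm, hxv⟩
  have adj : ∀ x y, C.Adj u x → C.Adj u y → x ≠ y → C.Adj x y := by
    intro x y hx hy hxy
    obtain ⟨z, hz, hxz, -⟩ := tri x hx
    by_cases hyz : y = z
    · rw [hyz]; exact hxz
    · exact AT_tri_step h hA hx hxz hz hy hxy.symm hyz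
  set N : Finset V := univ.filter fun x => C.Adj u x with hN
  have hNc : N.card = 5 := by
    have : dg C univ u = N.card := by unfold dg; rw [hN]
    omega
  have huN : u ∉ N := by simp [hN]
  have hc6 : (insert u N).card = 6 := by rw [Finset.card_insert_of_notMem huN, hNc]
  have hd : ∀ x ∈ insert u N, dg C (insert u N) x = 5 := by
    intro x hx
    have : ((insert u N).filter fun b => C.Adj x b) = (insert u N).erase x := by
      ext y
      simp only [Finset.mem_filter, Finset.mem_erase]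
      constructor
      · rintro ⟨hy, hxy⟩
        exact ⟨hxy.ne.symm, hy⟩
      · rintro ⟨hne, hy⟩
        refine ⟨hy, ?_⟩
        rcases Finset.mem_insert.1 hx with rfl | hx'
        · rcases Finset.mem_insert.1 hy with rfl | hy'
          · exact absurd rfl hne
          · simpa [hN] using hy'
        · rcases Finset.mem_insert.1 hy with rfl | hy'
          · have : C.Adj y x := by simpa [hN] using hx'
            exact this.symm
          · exact adj x y (by simpa [hN] using hx') (by simpa [hN] using hy') hne.symm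
    have h' : dg C (insert u N) x = ((insert u N).filter fun b => C.Adj x b).card := by
      unfold dg; congr
    rw [h', this, Finset.card_erase_of_mem hx, hc6]
  have hi : i2 C (insert u N) = 30 := by
    unfold i2
    rw [Finset.sum_congr rfl hd, Finset.sum_const, hc6]; rfl
  have := h.sparse (insert u N) (by omega)
  omega

end std

end H176R2.R5
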