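import Pool.Agent.H176R2.R5.Defs

/-!
# Project R5, task L1: duality between stresses and motions
-/

set_option autoImplicit false
set_option linter.unusedSectionVars false

open Finset

namespace H176R2.R5

variable {V : Type} [Fintype V] [DecidableEq V]

namespace L1Aux

theorem ee_symm (p u : V → Fin 3 → ℝ) (a b : V) : ee p u a b = ee p u b a := by
  unfold ee
  exact Finset.sum_congr rfl fun i _ => by ring

theorem ee_self (p u : V → Fin 3 → ℝ) (a : V) : ee p u a a = 0 := by
  unfold ee
  simp

theorem ee_add (p u v : V → Fin 3 → ℝ) (a b : V) : ee p (u + v) a b = ee p u a b + ee p v a b := by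
  unfold ee
  rw [← Finset.sum_add_distrib]
  exact Finset.sum_congr rfl fun i _ => by simp only [Pi.add_apply]; ring

theorem ee_smul (p u : V → Fin 3 → ℝ) (t : ℝ) (a b : V) :
    ee p (t • u) a b = t * ee p u a b := by
  unfold ee
  rw [Finset.mul_sum]
  exact Finset.sum_congr rfl fun i _ => by simp only [Pi.smul_apply, smul_eq_mul]; ring

theorem half (p : V → Fin 3 → ℝ) (ω : V → V → ℝ) (hs : ∀ a b, ω a b = ω b a)
    (u : V → Fin 3 → ℝ) : ∑ a, ∑ b, ω a b * ee p u a b =
      2 * ∑ a, ∑ i, u a i * ∑ b, ω a b * (p a i - p b i) := by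
  have e1 : ∑ a, ∑ b, ω a b * ee p u a b =
      (∑ a, ∑ b, ω a b * ∑ i, (p a i - p b i) * u a i) -
        ∑ a, ∑ b, ω a b * ∑ i, (p a i - p b i) * u b i := by
    rw [← Finset.sum_sub_distrib]
    refine Finset.sum_congr rfl fun a _ => ?_
    rw [← Finset.sum_sub_distrib]
    refine Finset.sum_congr rfl fun b _ => ?_
    rw [← mul_sub, ← Finset.sum_sub_distrib]
    unfold ee
    congr 1
    exact Finset.sum_congr rfl fun i _ => by ring
  have e2 : ∑ a, ∑ b, ω a b * ∑ i, (p a i - p b i) * u b i =
      - ∑ a, ∑ b, ω a b * ∑ i, (p a i - p b i) * u a i := by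
    rw [Finset.sum_comm, ← Finset.sum_neg_distrib]
    refine Finset.sum_congr rfl fun b _ => ?_
    rw [← Finset.sum_neg_distrib]
    refine Finset.sum_congr rfl fun a _ => ?_
    rw [hs a b, ← mul_neg, ← Finset.sum_neg_distrib]
    congr 1
    exact Finset.sum_congr rfl fun i _ => by ring
  have e3 : ∑ a, ∑ b, ω a b * ∑ i, (p a i - p b i) * u a i =
      ∑ a, ∑ i, u a i * ∑ b, ω a b * (p a i - p b i) := by
    refine Finset.sum_congr rfl fun a _ => ?_
    simp only [Finset.mul_sum]
    rw [Finset.sum_comm]
    exact Finset.sum_congr rfl fun i _ => Finset.sum_congr rfl fun b _ => by ring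
  rw [e1, e2, e3]
  ring

open Classical in
/-- the rigidity map -/
noncomputable def TT (p : V → Fin 3 → ℝ) (G : SimpleGraph V) :
    (V → Fin 3 → ℝ) →ₗ[ℝ] (V × V → ℝ) where
  toFun u := fun x => if G.Adj x.1 x.2 then ee p u x.1 x.2 else 0
  map_add' u v := by
    funext x
    simp only [Pi.add_apply]
    split_ifs
    · exact ee_add p u v _ _
    · ring
  map_smul' t u := by
    funext x
    simp only [Pi.smul_apply, smul_eq_mul, RingHom.id_apply]
    split_ifs
    · exact ee_smul p u t _ _
    · ring

end L1Aux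

open L1Aux

theorem stress_pair {p : V → Fin 3 → ℝ} {G : SimpleGraph V} {ω : V → V → ℝ} (h : IsStress p G ω)
    (u : V → Fin 3 → ℝ) : ∑ a, ∑ b, ω a b * ee p u a b = 0 := by
  rw [half p ω h.symm u]
  simp only [h.bal, mul_zero, Finset.sum_const_zero]

theorem surj (p : V → Fin 3 → ℝ) (G : SimpleGraph V) (h : Ind p G) (c : V → V → ℝ)
    (hc : ∀ a b, c a b = c b a) : ∃ u, ∀ a b, G.Adj a b → ee p u a b = c a b := by
  classical
  set c' : V × V → ℝ := fun x => if G.Adj x.1 x.2 then c x.1 x.2 else 0 with hc'
  by_cases hmem : c' ∈ LinearMap.range (TT p G)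
  · obtain ⟨u, hu⟩ := hmem
    refine ⟨u, fun a b hab => ?_⟩
    have h1 := congrFun hu (a, b)
    simp only [TT, hc', LinearMap.coe_mk, AddHom.coe_mk] at h1
    rw [if_pos hab, if_pos hab] at h1
    exact h1
  · exfalso
    obtain ⟨f, hf, hf0⟩ := Submodule.exists_dual_map_eq_bot_of_notMem hmem inferInstance
    apply hf
    obtain ⟨w, hw⟩ : ∃ w : V × V → ℝ, w = fun x => f (Pi.single x 1) := ⟨_, rfl⟩
    have hfw : ∀ g : V × V → ℝ, f g = ∑ x, w x * g x := by
      intro g
      rw [f.pi_apply_eq_sum_univ g]
      refine Finset.sum_congr rfl fun x _ => ?_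
      rw [smul_eq_mul, mul_comm, hw]
      congr 2
      funext y
      rw [Pi.single_apply]
      simp only [eq_comm]
    have hT : ∀ u, f (TT p G u) = 0 := by
      intro u
      have : f (TT p G u) ∈ Submodule.map f (LinearMap.range (TT p G)) :=
        Submodule.mem_map_of_mem ⟨u, rfl⟩
      rw [hf0] at this
      exact (Submodule.mem_bot ℝ).1 this
    obtain ⟨ω, hω⟩ : ∃ ω : V → V → ℝ, ω = fun a b =>
      if G.Adj a b then w (a, b) + w (b, a) else 0 := ⟨_, rfl⟩
    have hsymm : ∀ a b, ω a b = ω b a := by
      intro a b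
      rw [hω]
      simp only [G.adj_comm a b]
      split_ifs
      · ring
      · rfl
    have hdouble : ∀ g : V → V → ℝ, (∀ a b, g a b = g b a) →
        2 * (∑ x : V × V, w x * (if G.Adj x.1 x.2 then g x.1 x.2 else 0)) =
          ∑ a, ∑ b, ω a b * g a b := by
      intro g hg
      have e1 : (∑ x : V × V, w x * (if G.Adj x.1 x.2 then g x.1 x.2 else 0)) =
          ∑ a, ∑ b, w (a, b) * (if G.Adj a b then g a b else 0) :=
        Fintype.sum_prod_type _
      have e2 : (∑ x : V × V, w x * (if G.Adj x.1 x.2 then g x.1 x.2 else 0)) =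
          ∑ a, ∑ b, w (b, a) * (if G.Adj a b then g a b else 0) := by
        rw [e1, Finset.sum_comm]
        refine Finset.sum_congr rfl fun a _ => Finset.sum_congr rfl fun b _ => ?_
        rw [G.adj_comm b a, hg b a]
      rw [two_mul]
      nth_rewrite 1 [e1]
      rw [e2, ← Finset.sum_add_distrib]
      refine Finset.sum_congr rfl fun a _ => ?_
      rw [← Finset.sum_add_distrib]
      refine Finset.sum_congr rfl fun b _ => ?_
      rw [hω]
      simp only
      split_ifs
      · ring
      · ring
    have hstress : IsStress p G ω := by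
      refine ⟨hsymm, ?_, ?_⟩
      · intro a b hab
        rw [hω]
        simp only
        rw [if_neg hab]
      · intro a i
        have h1 := hT (Pi.single a (Pi.single i 1))
        rw [hfw] at h1
        have h2 := hdouble (fun x y => ee p (Pi.single a (Pi.single i 1)) x y)
          (fun x y => ee_symm _ _ _ _)
        have h3 : (∑ x : V × V, w x * (if G.Adj x.1 x.2 then
            ee p (Pi.single a (Pi.single i 1)) x.1 x.2 else 0)) = 0 := h1
        rw [h3, mul_zero, half p ω hsymm] at h2
        have h4 : ∑ x, ∑ j, (Pi.single a (Pi.single i (1 : ℝ)) : V → Fin 3 → ℝ) x j *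
            ∑ b, ω x b * (p x j - p b j) = ∑ b, ω a b * (p a i - p b i) := by
          rw [Finset.sum_eq_single a]
          · rw [Pi.single_eq_same, Finset.sum_eq_single i]
            · rw [Pi.single_eq_same, one_mul]
            · intro j _ hj
              rw [Pi.single_eq_of_ne hj, zero_mul]
            · intro hi
              exact absurd (Finset.mem_univ i) hi
          · intro x _ hx
            rw [Pi.single_eq_of_ne hx]
            simp
          · intro ha
            exact absurd (Finset.mem_univ a) ha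
        rw [h4] at h2
        linarith
    have h0 := h ω hstress
    rw [hfw]
    have h5 := hdouble c hc
    have h6 : ∑ a, ∑ b, ω a b * c a b = 0 := by
      refine Finset.sum_eq_zero fun a _ => Finset.sum_eq_zero fun b _ => ?_
      rw [h0 a b, zero_mul]
    rw [h6] at h5
    have h7 : (∑ x : V × V, w x * c' x) =
        ∑ x : V × V, w x * (if G.Adj x.1 x.2 then c x.1 x.2 else 0) := rfl
    rw [h7]
    linarith

theorem ind_mono {p : V → Fin 3 → ℝ} {G G' : SimpleGraph V} (h : Ind p G) (hle : G' ≤ G) :
    Ind p G' := by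
  intro ω hω
  exact h ω ⟨hω.symm, fun a b hab => hω.supp a b fun h' => hab (hle h'), hω.bal⟩

/-- a motion which detects the new edge makes it independent -/
theorem ind_add {p : V → Fin 3 → ℝ} {G : SimpleGraph V} (h : Ind p G) {a b : V}
    {u : V → Fin 3 → ℝ} (hu : IsMotion p G u) (hab : ee p u a b ≠ 0) : Ind p (addE G a b) := by
  intro ω hω
  have hne : a ≠ b := by
    rintro rfl
    exact hab (ee_self p u a)
  have hG : ¬ G.Adj a b := fun h' => hab (hu a b h')
  have key : ω a b = 0 := by
    have h1 := stress_pair hω u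
    have h2 : ∀ x y, ω x y * ee p u x y =
        (if x = a ∧ y = b then ω a b * ee p u a b else 0) +
          (if x = b ∧ y = a then ω a b * ee p u a b else 0) := by
      intro x y
      by_cases h3 : x = a ∧ y = b
      · obtain ⟨rfl, rfl⟩ := h3
        rw [if_pos ⟨rfl, rfl⟩, if_neg (fun h4 => hne h4.1), add_zero]
      · by_cases h4 : x = b ∧ y = a
        · obtain ⟨rfl, rfl⟩ := h4
          rw [if_neg h3, if_pos ⟨rfl, rfl⟩, zero_add, hω.symm x y, ee_symm p u x y]
        · rw [if_neg h3, if_neg h4, add_zero]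
          by_cases h5 : G.Adj x y
          · rw [hu x y h5, mul_zero]
          · rw [hω.supp x y, zero_mul]
            rintro (h6 | ⟨_, h6 | h6⟩)
            · exact h5 h6
            · exact h3 h6
            · exact h4 h6
    rw [Finset.sum_congr rfl (fun x _ => Finset.sum_congr rfl (fun y _ => h2 x y))] at h1
    simp only [Finset.sum_add_distrib] at h1
    have h3 : ∀ (s t : V) (z : ℝ), ∑ x, ∑ y, (if x = s ∧ y = t then z else 0) = z := by
      intro s t z
      rw [Finset.sum_eq_single s]
      · rw [Finset.sum_eq_single t]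
        · rw [if_pos ⟨rfl, rfl⟩]
        · intro y _ hy
          rw [if_neg (fun h' => hy h'.2)]
        · intro ht
          exact absurd (Finset.mem_univ t) ht
      · intro x _ hx
        refine Finset.sum_eq_zero fun y _ => ?_
        rw [if_neg (fun h' => hx h'.1)]
      · intro hs
        exact absurd (Finset.mem_univ s) hs
    rw [h3, h3] at h1
    have h4 : ω a b * ee p u a b = 0 := by linarith
    exact (mul_eq_zero.1 h4).resolve_right hab
  apply h
  refine ⟨hω.symm, ?_, hω.bal⟩
  intro x y hxy
  by_cases h1 : (addE G a b).Adj x y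
  · rcases h1 with h1 | ⟨_, ⟨rfl, rfl⟩ | ⟨rfl, rfl⟩⟩
    · exact absurd h1 hxy
    · exact key
    · rw [hω.symm]; exact key
  · exact hω.supp x y h1

end H176R2.R5
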