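import Pool.Agent.H176R2.R5.Defs
import Pool.Agent.H176R2.R5.L1
import Pool.Agent.H176R2.R5.GN2

/-!
# L2 (helper903): rigid pieces -- `load`, `maxwell`, `subst`, `blocked_motion`
-/

set_option autoImplicit false

open Finset

namespace H176R2.R5

variable {V : Type} [Fintype V] [DecidableEq V]


namespace L2

theorem ee_symm (p u : V → Fin 3 → ℝ) (a b : V) : ee p u a b = ee p u b a := by
  unfold ee
  refine Finset.sum_congr rfl fun i _ => ?_
  ring

/-- extension by zero -/
noncomputable def ext (X : Finset V) (u : X → Fin 3 → ℝ) (a : V) : Fin 3 → ℝ :=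
  if h : a ∈ X then u ⟨a, h⟩ else 0

theorem ext_mem (X : Finset V) (u : X → Fin 3 → ℝ) {a : V} (h : a ∈ X) :
    ext X u a = u ⟨a, h⟩ := dif_pos h

/-- the rigidity map of the edges of `T` -/
noncomputable def Rg (p : V → Fin 3 → ℝ) (T : SimpleGraph V) (X : Finset V) :
    (X → Fin 3 → ℝ) →ₗ[ℝ] (T.edgeSet → ℝ) where
  toFun u e := Sym2.lift ⟨fun a b => ee p (ext X u) a b, fun a b => ee_symm p _ a b⟩ e.1
  map_add' u u' := by
    funext e
    obtain ⟨e, he⟩ := e
    induction e using Sym2.ind with
    | _ a b =>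
      simp only [Sym2.lift_mk, Pi.add_apply]
      unfold ee
      rw [← Finset.sum_add_distrib]
      refine Finset.sum_congr rfl fun i _ => ?_
      have h1 : ∀ x, ext X (u + u') x = ext X u x + ext X u' x := by
        intro x
        unfold ext
        split_ifs <;> simp
      rw [h1 a, h1 b]
      simp only [Pi.add_apply]
      ring
  map_smul' c u := by
    funext e
    obtain ⟨e, he⟩ := e
    induction e using Sym2.ind with
    | _ a b =>
      simp only [Sym2.lift_mk, Pi.smul_apply, RingHom.id_apply, smul_eq_mul]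
      unfold ee
      rw [Finset.mul_sum]
      refine Finset.sum_congr rfl fun i _ => ?_
      have h1 : ∀ x, ext X (c • u) x = c • ext X u x := by
        intro x
        unfold ext
        split_ifs <;> simp
      rw [h1 a, h1 b]
      simp only [Pi.smul_apply, smul_eq_mul]
      ring

theorem Rg_apply (p : V → Fin 3 → ℝ) (T : SimpleGraph V) (X : Finset V) (u : X → Fin 3 → ℝ)
    {a b : V} (h : s(a, b) ∈ T.edgeSet) :
    Rg p T X u ⟨s(a, b), h⟩ = ee p (ext X u) a b := rfl

/-- trivial motions -/
noncomputable def Tr (p : V → Fin 3 → ℝ) (X : Finset V) :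
    ((Fin 3 → ℝ) × (Fin 3 → ℝ)) →ₗ[ℝ] (X → Fin 3 → ℝ) where
  toFun x a := ![x.1 0 + (x.2 1 * p a 2 - x.2 2 * p a 1),
    x.1 1 + (x.2 2 * p a 0 - x.2 0 * p a 2), x.1 2 + (x.2 0 * p a 1 - x.2 1 * p a 0)]
  map_add' x y := by
    funext a i
    fin_cases i <;> simp <;> ring
  map_smul' c x := by
    funext a i
    fin_cases i <;> simp <;> ring

theorem Tr_ee (p : V → Fin 3 → ℝ) (X : Finset V) (x : (Fin 3 → ℝ) × (Fin 3 → ℝ))
    {u : V → Fin 3 → ℝ} {a b : V} (ha : a ∈ X) (hb : b ∈ X) (hua : u a = Tr p X x ⟨a, ha⟩)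
    (hub : u b = Tr p X x ⟨b, hb⟩) : ee p u a b = 0 := by
  unfold ee
  rw [hua, hub]
  simp only [Tr, LinearMap.coe_mk, AddHom.coe_mk, Fin.sum_univ_three]
  simp
  ring

/-- the trivial motions of three points in general position form a space of dimension six -/
theorem Tr_inj {p : V → Fin 3 → ℝ} (hp : Gen p) {X : Finset V} (hX : 3 ≤ X.card) :
    Function.Injective (Tr p X) := by
  obtain ⟨a, ha, b, hb, c, hc, hab, hac, hbc⟩ := Finset.two_lt_card.1 (show 2 < X.card from hX)
  rw [← LinearMap.ker_eq_bot, LinearMap.ker_eq_bot']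
  rintro ⟨t, r⟩ h
  have hind := small_indep hp (w := a) (N := {b, c}) (by simp [hab, hac]) (by
    rw [Finset.card_pair hbc]; norm_num)
  have e1 : ∀ x (hx : x ∈ X) i, Tr p X (t, r) ⟨x, hx⟩ i = 0 := by
    intro x hx i
    rw [h]; rfl
  simp only [Tr, LinearMap.coe_mk, AddHom.coe_mk] at e1
  have a0 := e1 a ha 0
  have a1 := e1 a ha 1
  have a2 := e1 a ha 2
  have b0 := e1 b hb 0
  have b1 := e1 b hb 1
  have b2 := e1 b hb 2
  have c0 := e1 c hc 0
  have c1 := e1 c hc 1
  have c2 := e1 c hc 2
  simp at a0 a1 a2 b0 b1 b2 c0 c1 c2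
  -- differences
  have hbv : ∀ i j, r i * (p a j - p b j) = r j * (p a i - p b i) := by
    intro i j
    fin_cases i <;> fin_cases j <;> simp <;> linarith
  have hcv : ∀ i j, r i * (p a j - p c j) = r j * (p a i - p c i) := by
    intro i j
    fin_cases i <;> fin_cases j <;> simp <;> linarith
  have hr : ∀ k, r k = 0 := by
    intro k
    by_contra hk
    have h1 := hind (fun v => if v = b then p a k - p c k else -(p a k - p b k)) (by
      intro i
      rw [Finset.sum_pair hbc]
      simp only [if_true, if_neg (Ne.symm hbc)]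
      have : r k * ((p a k - p c k) * (p a i - p b i) + -(p a k - p b k) * (p a i - p c i)) = 0 := by
        have h2 := hbv k i
        have h3 := hcv k i
        calc _ = (p a k - p c k) * (r k * (p a i - p b i)) -
              (p a k - p b k) * (r k * (p a i - p c i)) := by ring
          _ = 0 := by rw [h2, h3]; ring
      exact (mul_eq_zero.1 this).resolve_left hk)
    have hb' := h1 b (by simp)
    have hc' := h1 c (by simp)
    simp only [if_true, if_neg (Ne.symm hbc)] at hb' hc'
    have h4 := hind (fun v => if v = b then 1 else 0) (by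
      intro i
      rw [Finset.sum_pair hbc]
      simp only [if_true, if_neg (Ne.symm hbc)]
      have : r k * (p a i - p b i) = 0 := by
        rw [hbv k i]
        have : p a k - p b k = 0 := by linarith
        rw [this, mul_zero]
      have := (mul_eq_zero.1 this).resolve_left hk
      rw [this]
      ring)
    have := h4 b (by simp)
    simp at this
  have ht : ∀ k, t k = 0 := by
    intro k
    simp only [hr, zero_mul, sub_zero, add_zero] at a0 a1 a2
    fin_cases k <;> simp <;> linarith
  ext k
  · exact ht k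
  · exact hr k

open Classical in
theorem card_edges {T : SimpleGraph V} {Y : Finset V} (hT : ∀ a b, T.Adj a b → a ∈ Y ∧ b ∈ Y) :
    i2 T Y = 2 * Fintype.card T.edgeSet := by
  rw [← SimpleGraph.edgeFinset_card, ← SimpleGraph.sum_degrees_eq_twice_card_edges]
  unfold i2
  have h1 : ∀ a, dg T Y a = T.degree a := by
    intro a
    unfold dg
    rw [← SimpleGraph.card_neighborFinset_eq_degree]
    congr 1
    ext b
    simp only [Finset.mem_filter, SimpleGraph.mem_neighborFinset]
    exact ⟨fun h => h.2, fun h => ⟨(hT a b h).2, h⟩⟩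
  simp only [h1]
  refine Finset.sum_subset (Finset.subset_univ Y) ?_
  intro a _ ha
  rw [← h1 a]
  unfold dg
  rw [Finset.card_eq_zero, Finset.filter_eq_empty_iff]
  intro b _ hb
  exact ha (hT a b hb).1

theorem Rg_surj {p : V → Fin 3 → ℝ} {T : SimpleGraph V} {Y : Finset V}
    (hT : ∀ a b, T.Adj a b → a ∈ Y ∧ b ∈ Y) (hI : Ind p T) :
    Function.Surjective (Rg p T Y) := by
  classical
  intro c
  obtain ⟨u, hu⟩ := surj p T hI (fun a b => if h : s(a, b) ∈ T.edgeSet then c ⟨s(a, b), h⟩ else 0)
    (by
      intro a b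
      simp only [Sym2.eq_swap (a := a) (b := b)])
  refine ⟨fun a => u a, ?_⟩
  funext e
  obtain ⟨e, he⟩ := e
  induction e using Sym2.ind with
  | _ a b =>
    have hab : T.Adj a b := he
    rw [Rg_apply]
    have h1 := hu a b hab
    rw [dif_pos he] at h1
    rw [← h1]
    unfold ee
    rw [ext_mem Y _ (hT a b hab).1, ext_mem Y _ (hT a b hab).2]

theorem Tr_ker (p : V → Fin 3 → ℝ) {T : SimpleGraph V} {Y : Finset V}
    (hT : ∀ a b, T.Adj a b → a ∈ Y ∧ b ∈ Y) :
    LinearMap.range (Tr p Y) ≤ LinearMap.ker (Rg p T Y) := by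
  rintro _ ⟨x, rfl⟩
  rw [LinearMap.mem_ker]
  funext e
  obtain ⟨e, he⟩ := e
  induction e using Sym2.ind with
  | _ a b =>
    have hab : T.Adj a b := he
    rw [Rg_apply]
    exact Tr_ee p Y x (hT a b hab).1 (hT a b hab).2 (ext_mem Y _ _) (ext_mem Y _ _)

theorem dims {p : V → Fin 3 → ℝ} {T : SimpleGraph V} {Y : Finset V}
    (hT : ∀ a b, T.Adj a b → a ∈ Y ∧ b ∈ Y) (hI : Ind p T) :
    i2 T Y + 2 * Module.finrank ℝ (LinearMap.ker (Rg p T Y)) = 6 * Y.card := by
  classical
  have h1 := LinearMap.finrank_range_add_finrank_ker (Rg p T Y)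
  rw [LinearMap.range_eq_top.2 (Rg_surj hT hI), finrank_top] at h1
  have h2 : Module.finrank ℝ (T.edgeSet → ℝ) = Fintype.card T.edgeSet :=
    Module.finrank_fintype_fun_eq_card ℝ
  have h3 : Module.finrank ℝ (Y → Fin 3 → ℝ) = Y.card * 3 := by
    rw [Module.finrank_pi_fintype]
    simp
  rw [h2, h3] at h1
  rw [card_edges hT]
  omega

theorem finrank_Tr {p : V → Fin 3 → ℝ} (hp : Gen p) {X : Finset V} (hX : 3 ≤ X.card) :
    Module.finrank ℝ (LinearMap.range (Tr p X)) = 6 := by
  rw [LinearMap.finrank_range_of_inj (Tr_inj hp hX)]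
  simp

theorem ker_eq {p : V → Fin 3 → ℝ} (hp : Gen p) {T : SimpleGraph V} {Y : Finset V}
    (hT : ∀ a b, T.Adj a b → a ∈ Y ∧ b ∈ Y) (hI : Ind p T) (ht : Tight T Y) :
    LinearMap.range (Tr p Y) = LinearMap.ker (Rg p T Y) := by
  refine Submodule.eq_of_le_of_finrank_eq (Tr_ker p hT) ?_
  rw [finrank_Tr hp ht.1]
  have h1 := dims hT hI
  have h2 := ht.2
  omega

theorem ins_in (G : SimpleGraph V) (X : Finset V) :
    ∀ a b, (ins G X).Adj a b → a ∈ X ∧ b ∈ X := fun _ _ h => h.2

theorem ins_le (G : SimpleGraph V) (X : Finset V) : ins G X ≤ G := fun _ _ h => h.1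

theorem i2_ins (G : SimpleGraph V) (X : Finset V) : i2 (ins G X) X = i2 G X := by
  unfold i2 dg
  refine Finset.sum_congr rfl fun a ha => ?_
  congr 1
  ext b
  simp only [Finset.mem_filter]
  exact ⟨fun h => ⟨h.1, h.2.1⟩, fun h => ⟨h.1, h.2, ha, h.1⟩⟩

end L2

open L2

/-- an equilibrium load on a tight independent piece is resolved -/
theorem load {p : V → Fin 3 → ℝ} (hp : Gen p) {T : SimpleGraph V} {Y : Finset V}
    (hT : ∀ a b, T.Adj a b → a ∈ Y ∧ b ∈ Y) (hI : Ind p T) (ht : Tight T Y)
    (f : V → Fin 3 → ℝ) (hf : ∀ a, a ∉ Y → ∀ i, f a i = 0) (h1 : ∀ i, ∑ a, f a i = 0)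
    (h2 : ∀ i j, ∑ a, (p a i * f a j - p a j * f a i) = 0) :
    ∃ τ : V → V → ℝ, (∀ a b, τ a b = τ b a) ∧ (∀ a b, ¬ T.Adj a b → τ a b = 0) ∧
      ∀ a i, ∑ b, τ a b * (p a i - p b i) = f a i := by
  classical
  -- the functional defined by the load
  let F : Module.Dual ℝ (Y → Fin 3 → ℝ) :=
    { toFun := fun u => ∑ a : Y, ∑ i, u a i * f a i
      map_add' := by
        intro u u'
        rw [← Finset.sum_add_distrib]
        refine Finset.sum_congr rfl fun a _ => ?_
        rw [← Finset.sum_add_distrib]
        refine Finset.sum_congr rfl fun i _ => ?_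
        simp only [Pi.add_apply]
        ring
      map_smul' := by
        intro c u
        simp only [RingHom.id_apply, smul_eq_mul]
        rw [Finset.mul_sum]
        refine Finset.sum_congr rfl fun a _ => ?_
        rw [Finset.mul_sum]
        refine Finset.sum_congr rfl fun i _ => ?_
        simp only [Pi.smul_apply, smul_eq_mul]
        ring }
  have hFdef : ∀ u, F u = ∑ a : Y, ∑ i, u a i * f a i := fun u => rfl
  have sumY : ∀ g : V → ℝ, (∀ a, a ∉ Y → g a = 0) → ∑ a : Y, g a = ∑ a, g a := by
    intro g hg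
    rw [Finset.sum_coe_sort Y g]
    exact Finset.sum_subset (Finset.subset_univ Y) fun a _ ha => hg a ha
  have hF : F ∈ (LinearMap.ker (Rg p T Y)).dualAnnihilator := by
    rw [← ker_eq hp hT hI ht, Submodule.mem_dualAnnihilator]
    rintro _ ⟨⟨t, r⟩, rfl⟩
    rw [hFdef]
    have e1 : ∀ i, ∑ a : Y, f a i = 0 := by
      intro i
      rw [sumY (fun a => f a i) fun a ha => hf a ha i]
      exact h1 i
    have e2 : ∀ i j, ∑ a : Y, (p a i * f a j - p a j * f a i) = 0 := by
      intro i j
      rw [sumY (fun a => p a i * f a j - p a j * f a i) fun a ha => by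
        rw [hf a ha, hf a ha]; ring]
      exact h2 i j
    have e3 : ∀ a : Y, ∑ i, Tr p Y (t, r) a i * f a i =
        (t 0 * f a 0 + t 1 * f a 1 + t 2 * f a 2) +
        (r 0 * (p a 1 * f a 2 - p a 2 * f a 1) + r 1 * (p a 2 * f a 0 - p a 0 * f a 2) +
          r 2 * (p a 0 * f a 1 - p a 1 * f a 0)) := by
      intro a
      simp only [Tr, LinearMap.coe_mk, AddHom.coe_mk, Fin.sum_univ_three]
      simp
      ring
    simp only [e3, Finset.sum_add_distrib, ← Finset.mul_sum, e1, e2]
    ring
  rw [← LinearMap.range_dualMap_eq_dualAnnihilator_ker] at hF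
  obtain ⟨ψ, hψ⟩ := hF
  have hψ' : ∀ u, ψ (Rg p T Y u) = F u := by
    intro u
    rw [← hψ]
    rfl
  let δ : T.edgeSet → (T.edgeSet → ℝ) := fun e => Pi.single e 1
  refine ⟨fun a b => if h : s(a, b) ∈ T.edgeSet then ψ (δ ⟨s(a, b), h⟩) else 0, ?_, ?_, ?_⟩
  · intro a b
    simp only [Sym2.eq_swap (a := a) (b := b)]
  · intro a b hab
    exact dif_neg hab
  · intro a i
    by_cases ha : a ∈ Y
    · have h3 : F (Pi.single (⟨a, ha⟩ : Y) (Pi.single i 1)) = f a i := by
        rw [hFdef, Finset.sum_eq_single (⟨a, ha⟩ : Y)]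
        · rw [Finset.sum_eq_single i]
          · simp
          · intro j _ hj
            simp [hj]
          · simp
        · intro b _ hb
          simp [hb]
        · simp
      rw [← h3, ← hψ']
      have h4 : Rg p T Y (Pi.single (⟨a, ha⟩ : Y) (Pi.single i 1)) =
          ∑ b, (p a i - p b i) • (if h : s(a, b) ∈ T.edgeSet then δ ⟨s(a, b), h⟩ else 0) := by
        funext e
        obtain ⟨e, he⟩ := e
        induction e using Sym2.ind with
        | _ x y =>
          have hxy : T.Adj x y := he
          rw [Rg_apply, Finset.sum_apply]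
          have hne : x ≠ y := hxy.ne
          have hext : ∀ z (_ : z ∈ Y) j, ext Y (Pi.single (⟨a, ha⟩ : Y) (Pi.single i 1)) z j =
              if z = a then (if j = i then 1 else 0) else 0 := by
            intro z hz j
            rw [ext_mem Y _ hz]
            by_cases hza : z = a
            · subst hza
              simp [Pi.single_apply]
            · have : (⟨z, hz⟩ : Y) ≠ ⟨a, ha⟩ := fun hc => hza (congrArg Subtype.val hc)
              simp [Pi.single_apply, this, hza]
          have hval : ∀ b, ((p a i - p b i) • (if h : s(a, b) ∈ T.edgeSet then δ ⟨s(a, b), h⟩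
              else 0)) ⟨s(x, y), he⟩ = if s(a, b) = s(x, y) then p a i - p b i else 0 := by
            intro b
            by_cases hb : s(a, b) ∈ T.edgeSet
            · rw [dif_pos hb]
              simp only [δ, Pi.smul_apply, smul_eq_mul, Pi.single_apply, Subtype.mk.injEq]
              by_cases hc : s(a, b) = s(x, y)
              · rw [if_pos hc, if_pos hc.symm, mul_one]
              · rw [if_neg hc, if_neg (fun h => hc h.symm), mul_zero]
            · rw [dif_neg hb]
              have hc : s(a, b) ≠ s(x, y) := fun hc => hb (hc ▸ he)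
              simp [hc]
          simp only [hval]
          unfold ee
          rw [Finset.sum_eq_single i (by
            intro j _ hj
            rw [hext x (hT x y hxy).1, hext y (hT x y hxy).2]
            simp [hj]) (by simp)]
          rw [hext x (hT x y hxy).1, hext y (hT x y hxy).2]
          simp only [if_true]
          by_cases hxa : x = a
          · subst hxa
            have hya : y ≠ x := hne.symm
            rw [if_pos rfl, if_neg hya, Finset.sum_eq_single y]
            · simp
            · intro b _ hb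
              rw [if_neg]
              intro hc
              rw [Sym2.eq_iff] at hc
              rcases hc with ⟨_, hc⟩ | ⟨hc, _⟩
              · exact hb hc
              · exact hne hc
            · simp
          · rw [if_neg hxa]
            by_cases hya : y = a
            · subst hya
              rw [if_pos rfl, Finset.sum_eq_single x]
              · rw [if_pos (Sym2.eq_swap)]
                ring
              · intro b _ hb
                rw [if_neg]
                intro hc
                rw [Sym2.eq_iff] at hc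
                rcases hc with ⟨hc, _⟩ | ⟨_, hc⟩
                · exact hxa hc.symm
                · exact hb hc
              · simp
            · rw [if_neg hya, Finset.sum_eq_zero]
              · simp
              · intro b _
                rw [if_neg]
                intro hc
                rw [Sym2.eq_iff] at hc
                rcases hc with ⟨hc, _⟩ | ⟨hc, _⟩
                · exact hxa hc.symm
                · exact hya hc.symm
      rw [h4, map_sum]
      refine Finset.sum_congr rfl fun b _ => ?_
      rw [map_smul, smul_eq_mul, mul_comm]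
      congr 1
      beta_reduce
      split_ifs
      · rfl
      · rw [map_zero]
    · rw [hf a ha i]
      refine Finset.sum_eq_zero fun b _ => ?_
      beta_reduce
      rw [dif_neg, zero_mul]
      intro hc
      exact ha (hT a b hc).1

theorem maxwell {p : V → Fin 3 → ℝ} (hp : Gen p) {G : SimpleGraph V} (hI : Ind p G) :
    Sparse G := by
  intro X hX
  have hI' : Ind p (ins G X) := ind_mono hI (ins_le G X)
  have h1 := dims (ins_in G X) hI'
  have h2 := Submodule.finrank_mono (Tr_ker p (ins_in G X))
  rw [finrank_Tr hp hX] at h2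
  rw [i2_ins] at h1
  omega

/-- substitution of rigid pieces -/
theorem subst {p : V → Fin 3 → ℝ} (hp : Gen p) {R T1 T2 : SimpleGraph V} {Y Z : Finset V}
    (hYZ : Y ⊆ Z) (hR : ∀ a b, R.Adj a b → ¬ (a ∈ Z ∧ b ∈ Z)) (hR' : ∀ a b, R.Adj a b → a ∈ Z → a ∈ Y)
    (hT1 : ∀ a b, T1.Adj a b → a ∈ Y ∧ b ∈ Y) (hT2 : ∀ a b, T2.Adj a b → a ∈ Z ∧ b ∈ Z)
    (ht : Tight T1 Y) (h1 : Ind p (R ⊔ T1)) (h2 : Ind p T2) : Ind p (R ⊔ T2) := by
  classical
  intro w hw
  set wR : V → V → ℝ := fun a b => if R.Adj a b then w a b else 0 with hwR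
  have hwRs : ∀ a b, wR a b = wR b a := by
    intro a b
    simp only [hwR, R.adj_comm a b, hw.symm a b]
  set f : V → Fin 3 → ℝ := fun a i => ∑ b, wR a b * (p a i - p b i) with hfdef
  have hf : ∀ a, a ∉ Y → ∀ i, f a i = 0 := by
    intro a ha i
    by_cases haZ : a ∈ Z
    · simp only [hfdef]
      refine Finset.sum_eq_zero fun b _ => ?_
      simp only [hwR]
      rw [if_neg (fun h => ha (hR' a b h haZ)), zero_mul]
    · rw [← hw.bal a i]
      simp only [hfdef]
      refine Finset.sum_congr rfl fun b _ => ?_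
      simp only [hwR]
      by_cases hab : R.Adj a b
      · rw [if_pos hab]
      · rw [if_neg hab, hw.supp a b]
        rintro (h | h)
        · exact hab h
        · exact haZ (hT2 a b h).1
  have hs1 : ∀ i, ∑ a, f a i = 0 := by
    intro i
    have : ∑ a, f a i = -∑ a, f a i := by
      calc ∑ a, f a i = ∑ a, ∑ b, wR a b * (p a i - p b i) := rfl
        _ = ∑ b, ∑ a, wR a b * (p a i - p b i) := Finset.sum_comm
        _ = ∑ a, ∑ b, -(wR a b * (p a i - p b i)) := by
            refine Finset.sum_congr rfl fun a _ => Finset.sum_congr rfl fun b _ => ?_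
            rw [hwRs b a]
            ring
        _ = _ := by
            simp only [Finset.sum_neg_distrib]
            rfl
    linarith
  have hs2 : ∀ i j, ∑ a, (p a i * f a j - p a j * f a i) = 0 := by
    intro i j
    have e1 : ∑ a, (p a i * f a j - p a j * f a i) =
        ∑ a, ∑ b, wR a b * (p a j * p b i - p a i * p b j) := by
      refine Finset.sum_congr rfl fun a _ => ?_
      simp only [hfdef, Finset.mul_sum]
      rw [← Finset.sum_sub_distrib]
      refine Finset.sum_congr rfl fun b _ => ?_
      ring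
    have e2 : ∑ a, ∑ b, wR a b * (p a j * p b i - p a i * p b j) =
        -∑ a, ∑ b, wR a b * (p a j * p b i - p a i * p b j) := by
      calc _ = ∑ b, ∑ a, wR a b * (p a j * p b i - p a i * p b j) := Finset.sum_comm
        _ = ∑ a, ∑ b, -(wR a b * (p a j * p b i - p a i * p b j)) := by
            refine Finset.sum_congr rfl fun a _ => Finset.sum_congr rfl fun b _ => ?_
            rw [hwRs b a]
            ring
        _ = _ := by simp only [Finset.sum_neg_distrib]
    rw [e1]
    linarith
  obtain ⟨τ, hτs, hτ0, hτ⟩ := load hp hT1 (ind_mono h1 le_sup_right) ht (fun a i => -f a i)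
    (fun a ha i => by rw [hf a ha i, neg_zero])
    (fun i => by rw [Finset.sum_neg_distrib, hs1 i, neg_zero])
    (fun i j => by
      have := hs2 i j
      calc ∑ a, (p a i * -f a j - p a j * -f a i) = -∑ a, (p a i * f a j - p a j * f a i) := by
            rw [← Finset.sum_neg_distrib]
            refine Finset.sum_congr rfl fun a _ => ?_
            ring
        _ = 0 := by rw [this, neg_zero])
  have hst : IsStress p (R ⊔ T1) (fun a b => wR a b + τ a b) := by
    refine ⟨fun a b => by rw [hwRs a b, hτs a b], ?_, ?_⟩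
    · intro a b hab
      have h3 : ¬ R.Adj a b := fun h => hab (Or.inl h)
      have h4 : ¬ T1.Adj a b := fun h => hab (Or.inr h)
      simp only [hwR]
      rw [if_neg h3, hτ0 a b h4, add_zero]
    · intro a i
      simp only [add_mul, Finset.sum_add_distrib]
      rw [hτ a i]
      simp only [hfdef]
      ring
  have hz := h1 _ hst
  have hwR0 : ∀ a b, R.Adj a b → w a b = 0 := by
    intro a b hab
    have h3 := hz a b
    have h4 : ¬ T1.Adj a b := by
      intro h
      exact hR a b hab ⟨hYZ (hT1 a b h).1, hYZ (hT1 a b h).2⟩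
    rw [hτ0 a b h4, add_zero] at h3
    simp only [hwR] at h3
    rwa [if_pos hab] at h3
  refine h2 w ⟨hw.symm, ?_, hw.bal⟩
  intro a b hab
  by_cases hRab : R.Adj a b
  · exact hwR0 a b hRab
  · refine hw.supp a b ?_
    rintro (h | h)
    · exact hRab h
    · exact hab h

theorem blocked_motion {p : V → Fin 3 → ℝ} (hp : Gen p) {H : SimpleGraph V} (hI : Ind p H)
    {u : V → Fin 3 → ℝ} (hu : IsMotion p H u) {a b : V} (hb : Blocked H a b) : ee p u a b = 0 := by
  rcases hb with hb | ⟨X, hX, haX, hbX⟩
  · exact hu a b hb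
  · have hI' : Ind p (ins H X) := ind_mono hI (ins_le H X)
    have hX' : Tight (ins H X) X := ⟨hX.1, by rw [i2_ins]; exact hX.2⟩
    have hk : (fun x : X => u x) ∈ LinearMap.ker (Rg p (ins H X) X) := by
      rw [LinearMap.mem_ker]
      funext e
      obtain ⟨e, he⟩ := e
      induction e using Sym2.ind with
      | _ x y =>
        have hxy : (ins H X).Adj x y := he
        rw [Rg_apply]
        have h1 := hu x y hxy.1
        unfold ee at h1 ⊢
        rw [ext_mem X _ hxy.2.1, ext_mem X _ hxy.2.2]
        exact h1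
    rw [← ker_eq hp (ins_in H X) hI' hX'] at hk
    obtain ⟨x, hx⟩ := hk
    exact Tr_ee p X x haX hbX (congrFun hx ⟨a, haX⟩).symm (congrFun hx ⟨b, hbX⟩).symm

end H176R2.R5
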