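import Pool.Agent.H176R2.R5.G1
import Pool.Agent.H176R2.R5.G2
import Pool.Agent.H176R2.R5.JJ
import Pool.Agent.H176R2.R5.EX
import Pool.Agent.H176R2.R5.CF1
import Pool.Agent.H176R2.R5.L2

/-!
# R5, task CF2: `dg_tight_le`, `noD6`, `good_pairs`  (helper556)
-/

set_option autoImplicit false
set_option linter.unusedSectionVars false

open Finset

namespace H176R2.R5

variable {V : Type} [Fintype V] [DecidableEq V]

namespace CF2

theorem dg_mono {G G' : SimpleGraph V} (h : G ≤ G') (X : Finset V) (a : V) :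
    dg G X a ≤ dg G' X a := by
  classical
  unfold dg
  apply Finset.card_le_card
  intro b hb
  rw [Finset.mem_filter] at hb ⊢
  exact ⟨hb.1, h hb.2⟩

theorem dg_mono_set (G : SimpleGraph V) {X Y : Finset V} (h : X ⊆ Y) (a : V) :
    dg G X a ≤ dg G Y a := by
  classical
  unfold dg
  apply Finset.card_le_card
  intro b hb
  rw [Finset.mem_filter] at hb ⊢
  exact ⟨h hb.1, hb.2⟩

theorem le_dg (G : SimpleGraph V) {X : Finset V} {a : V} (S : Finset V) (hS : S ⊆ X)
    (h : ∀ b ∈ S, G.Adj a b) : S.card ≤ dg G X a := by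
  classical
  unfold dg
  apply Finset.card_le_card
  intro b hb
  rw [Finset.mem_filter]
  exact ⟨hS hb, h b hb⟩

theorem dg_le (G : SimpleGraph V) {X : Finset V} {a : V} (S : Finset V)
    (h : ∀ b ∈ X, G.Adj a b → b ∈ S) : dg G X a ≤ S.card := by
  classical
  unfold dg
  apply Finset.card_le_card
  intro b hb
  rw [Finset.mem_filter] at hb
  exact h b hb.1 hb.2

theorem dg_zero (G : SimpleGraph V) {X : Finset V} {a : V} (h : ∀ b ∈ X, ¬ G.Adj a b) :
    dg G X a = 0 := by
  have := dg_le G (X := X) (a := a) ∅ (fun b hb hab => absurd hab (h b hb))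
  simpa using this

theorem dg_sup (G G' : SimpleGraph V) (X : Finset V) (a : V) :
    dg (G ⊔ G') X a ≤ dg G X a + dg G' X a := by
  classical
  have h := dg_le (G ⊔ G') (X := X) (a := a)
    ((@Finset.filter V (fun b => G.Adj a b) (fun _ => Classical.propDecidable _) X) ∪
      (@Finset.filter V (fun b => G'.Adj a b) (fun _ => Classical.propDecidable _) X))
    (fun b hb hab => by
      rw [Finset.mem_union, Finset.mem_filter, Finset.mem_filter]
      rcases hab with h | h
      · exact Or.inl ⟨hb, h⟩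
      · exact Or.inr ⟨hb, h⟩)
  exact h.trans (Finset.card_union_le _ _)

theorem dg_add_card_le (G : SimpleGraph V) {X Y : Finset V} {a : V} (W : Finset V)
    (hW : ∀ b ∈ W, G.Adj a b) (hd : ∀ b ∈ W, b ∉ X) (hXY : X ⊆ Y) (hWY : W ⊆ Y) :
    dg G X a + W.card ≤ dg G Y a := by
  classical
  have h := le_dg G (X := Y) (a := a)
    ((@Finset.filter V (fun b => G.Adj a b) (fun _ => Classical.propDecidable _) X) ∪ W)
    (fun b hb => by
      rcases Finset.mem_union.1 hb with hb | hb
      · exact hXY (Finset.mem_filter.1 hb).1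
      · exact hWY hb)
    (fun b hb => by
      rcases Finset.mem_union.1 hb with hb | hb
      · exact (Finset.mem_filter.1 hb).2
      · exact hW b hb)
  rw [Finset.card_union_of_disjoint] at h
  · exact h
  · rw [Finset.disjoint_left]
    intro b hb hb'
    exact hd b hb' (Finset.mem_filter.1 hb).1

theorem dg_univ_le (G : SimpleGraph V) {Z : Finset V} {a : V} (h : ∀ y, G.Adj a y → y ∈ Z) :
    dg G univ a ≤ dg G Z a := by
  classical
  exact dg_le G _ (fun b _ hab => Finset.mem_filter.2 ⟨h b hab, hab⟩)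

theorem card_three {a b c : V} (hab : a ≠ b) (hac : a ≠ c) (hbc : b ≠ c) :
    ({a, b, c} : Finset V).card = 3 := Finset.card_eq_three.2 ⟨a, b, c, hab, hac, hbc, rfl⟩

theorem card_four {a b c d : V} (hab : a ≠ b) (hac : a ≠ c) (had : a ≠ d) (hbc : b ≠ c)
    (hbd : b ≠ d) (hcd : c ≠ d) : ({a, b, c, d} : Finset V).card = 4 := by
  rw [Finset.card_insert_of_notMem (by simp [hab, hac, had]), card_three hbc hbd hcd]

theorem card_five {a b c d f : V} (hab : a ≠ b) (hac : a ≠ c) (had : a ≠ d) (haf : a ≠ f)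
    (hbc : b ≠ c) (hbd : b ≠ d) (hbf : b ≠ f) (hcd : c ≠ d) (hcf : c ≠ f) (hdf : d ≠ f) :
    ({a, b, c, d, f} : Finset V).card = 5 := by
  rw [Finset.card_insert_of_notMem (by simp [hab, hac, had, haf]),
    card_four hbc hbd hbf hcd hcf hdf]

theorem i2_mono {G G' : SimpleGraph V} (h : G ≤ G') (X : Finset V) : i2 G X ≤ i2 G' X :=
  Finset.sum_le_sum fun a _ => dg_mono h X a

theorem i2_sup (G G' : SimpleGraph V) (X : Finset V) : i2 (G ⊔ G') X ≤ i2 G X + i2 G' X := by
  unfold i2
  rw [← Finset.sum_add_distrib]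
  exact Finset.sum_le_sum fun a _ => dg_sup G G' X a

theorem i2_even (G : SimpleGraph V) (X : Finset V) : Even (i2 G X) := by
  induction X using Finset.induction_on with
  | empty => simp [i2]
  | insert a s ha ih =>
    rw [i2_insert G ha]
    exact ih.add (even_two_mul _)

theorem dg_congr {G G' : SimpleGraph V} {X : Finset V} {a : V}
    (h : ∀ b ∈ X, G.Adj a b ↔ G'.Adj a b) : dg G X a = dg G' X a := by
  classical
  unfold dg
  congr 1
  ext b
  rw [Finset.mem_filter, Finset.mem_filter]
  constructor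
  · rintro ⟨hb, h1⟩
    exact ⟨hb, (h b hb).1 h1⟩
  · rintro ⟨hb, h1⟩
    exact ⟨hb, (h b hb).2 h1⟩

theorem i2_congr {G G' : SimpleGraph V} {X : Finset V}
    (h : ∀ a ∈ X, ∀ b ∈ X, G.Adj a b ↔ G'.Adj a b) : i2 G X = i2 G' X :=
  Finset.sum_congr rfl fun a ha => dg_congr (h a ha)

theorem i2_del {G : SimpleGraph V} {v : V} {X : Finset V} (hv : v ∉ X) :
    i2 (del G v) X = i2 G X := by
  apply i2_congr
  intro a ha b hb
  constructor
  · exact fun h => h.1
  · exact fun h => ⟨h, fun e => hv (e ▸ ha), fun e => hv (e ▸ hb)⟩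

theorem del_le (G : SimpleGraph V) (v : V) : del G v ≤ G := fun _ _ h => h.1

theorem dg_del_self (G : SimpleGraph V) (v : V) (X : Finset V) : dg (del G v) X v = 0 :=
  dg_zero _ fun _ _ h => h.2.1 rfl

theorem blocked_symm {G : SimpleGraph V} {a b : V} (h : Blocked G a b) : Blocked G b a := by
  rcases h with h | ⟨X, hX, ha, hb⟩
  · exact Or.inl h.symm
  · exact Or.inr ⟨X, hX, hb, ha⟩

/-- a vertex all of whose edges are outside of `X` may be removed -/
theorem i2_erase {G : SimpleGraph V} {X : Finset V} {v : V} (hv : ∀ b, ¬ G.Adj v b) :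
    i2 G (X.erase v) = i2 G X := by
  by_cases h : v ∈ X
  · conv_rhs => rw [← Finset.insert_erase h]
    rw [i2_insert G (Finset.notMem_erase v X)]
    rw [dg_zero G fun b _ => hv b]
    simp
  · rw [Finset.erase_eq_of_notMem h]

/-- a graph with all edges inside `Y` has at most as many edges as the complete graph -/
theorem i2_inside (T : SimpleGraph V) (Y : Finset V) (hT : ∀ x y, T.Adj x y → x ∈ Y ∧ y ∈ Y)
    (X : Finset V) : i2 T X ≤ (X ∩ Y).card * ((X ∩ Y).card - 1) := by
  classical
  have : i2 T X ≤ ∑ x ∈ X, (if x ∈ Y then (X ∩ Y).card - 1 else 0) := by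
    apply Finset.sum_le_sum
    intro x hx
    split_ifs with hxY
    · have := dg_le T (X := X) (a := x) ((X ∩ Y).erase x) (by
        intro y hy hxy
        rw [Finset.mem_erase, Finset.mem_inter]
        exact ⟨fun e => hxy.ne e.symm, hy, (hT x y hxy).2⟩)
      rwa [Finset.card_erase_of_mem (Finset.mem_inter.2 ⟨hx, hxY⟩)] at this
    · rw [dg_zero T (fun y _ hxy => hxY (hT x y hxy).1)]
  rw [Finset.sum_ite_mem, Finset.sum_const, smul_eq_mul] at this
  exact this

theorem i2_addE_le (G : SimpleGraph V) (x y : V) (X : Finset V) :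
    i2 (addE G x y) X ≤ i2 G X + 2 := by
  classical
  let E : SimpleGraph V :=
    { Adj := fun u w => x ≠ y ∧ ((u = x ∧ w = y) ∨ (u = y ∧ w = x))
      symm := ⟨fun _ _ h => ⟨h.1, h.2.symm.imp And.symm And.symm⟩⟩
      loopless := ⟨fun _ h => by
        rcases h with ⟨h0, ⟨h1, h2⟩ | ⟨h1, h2⟩⟩
        · exact h0 (h1.symm.trans h2)
        · exact h0 (h2.symm.trans h1)⟩ }
  have h1 : i2 (addE G x y) X ≤ i2 (G ⊔ E) X := i2_mono (fun u w h => h) X
  have h2 := i2_sup G E X
  have h3 := i2_inside E {x, y} (fun u w h => by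
    rcases h.2 with ⟨rfl, rfl⟩ | ⟨rfl, rfl⟩ <;> simp) X
  have h4 : (X ∩ {x, y}).card ≤ 2 :=
    (Finset.card_le_card Finset.inter_subset_right).trans Finset.card_le_two
  have h5 : (X ∩ {x, y}).card * ((X ∩ {x, y}).card - 1) ≤ 2 := by
    interval_cases (X ∩ {x, y}).card <;> simp
  omega

theorem i2_addE_eq (G : SimpleGraph V) {x y : V} {X : Finset V} (h : ¬ (x ∈ X ∧ y ∈ X)) :
    i2 (addE G x y) X = i2 G X := by
  apply i2_congr
  intro a ha b hb
  constructor
  · rintro (h1 | ⟨_, ⟨rfl, rfl⟩ | ⟨rfl, rfl⟩⟩)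
    · exact h1
    · exact absurd ⟨ha, hb⟩ h
    · exact absurd ⟨hb, ha⟩ h
  · exact fun h1 => Or.inl h1

theorem i2_addE_comm (G : SimpleGraph V) (a b c d : V) (X : Finset V) :
    i2 (addE (addE G a b) c d) X = i2 (addE (addE G c d) a b) X := by
  apply i2_congr
  intro x _ y _
  constructor
  · rintro ((h | h) | h)
    · exact Or.inl (Or.inl h)
    · exact Or.inr h
    · exact Or.inl (Or.inr h)
  · rintro ((h | h) | h)
    · exact Or.inl (Or.inl h)
    · exact Or.inr h
    · exact Or.inl (Or.inr h)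

/-- near-tight set if two new unblocked edges violate sparsity -/
theorem two_edges {H : SimpleGraph V} (hS : Sparse H) {a b c d : V} (hab : a ≠ b) (hcd : c ≠ d)
    (h1 : ¬ Blocked H a b) (h2 : ¬ Blocked H c d) :
    Sparse (addE (addE H a b) c d) ∨
      ∃ Y, a ∈ Y ∧ b ∈ Y ∧ c ∈ Y ∧ d ∈ Y ∧ 6 * Y.card ≤ i2 H Y + 14 := by
  by_cases hsp : Sparse (addE (addE H a b) c d)
  · exact Or.inl hsp
  right
  unfold Sparse at hsp
  push Not at hsp
  obtain ⟨Y, h3, hY⟩ := hsp
  have s1 := sparse_addE hS hab h1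
  have s2 := sparse_addE hS hcd h2
  have hcdY : c ∈ Y ∧ d ∈ Y := by
    by_contra hcon
    rw [i2_addE_eq _ hcon] at hY
    have := s1 Y h3
    omega
  have habY : a ∈ Y ∧ b ∈ Y := by
    by_contra hcon
    rw [i2_addE_comm, i2_addE_eq _ hcon] at hY
    have := s2 Y h3
    omega
  refine ⟨Y, habY.1, habY.2, hcdY.1, hcdY.2, ?_⟩
  have e1 := i2_addE_le (addE H a b) c d Y
  have e2 := i2_addE_le H a b Y
  obtain ⟨m, hm⟩ := i2_even H Y
  omega

end CF2

open CF2

section std

variable {p : V → Fin 3 → ℝ} {C : SimpleGraph V} {ω : V → V → ℝ}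

theorem dg_tight_le (h : Std p C ω) {v : V} {X : Finset V} (hX : Tight (del C v) X) :
    dg C X v ≤ 3 := by
  have hS : Sparse (del C v) := sparse_le h.sparse (del_le C v)
  have hv : v ∉ X := by
    intro hv
    rcases Nat.lt_or_ge X.card 4 with h4 | h4
    · have h3 : X.card = 3 := by have := hX.1; omega
      have : ∃ b ∈ X, b ≠ v := by
        by_contra hne
        push Not at hne
        have : X ⊆ {v} := fun x hx => Finset.mem_singleton.2 (hne x hx)
        have := Finset.card_le_card this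
        simp at this
        omega
      obtain ⟨b, hb, hbv⟩ := this
      exact (tight_three hX h3 hv hb (Ne.symm hbv)).2.1 rfl
    · have := tight_min_deg hS hX h4 hv
      rw [dg_del_self] at this
      omega
  have hT : Tight C X := ⟨hX.1, by rw [← i2_del hv]; exact hX.2⟩
  exact no_four h.sparse hT hv

theorem cf2_deg_five (h : Std p C ω) {x y : V} (hxy : C.Adj x y) : dg C univ x = 5 := by
  rcases h.deg5 x with h0 | h5
  · exfalso
    have := le_dg C (X := univ) (a := x) {y} (Finset.subset_univ _)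
      (fun b hb => by rw [Finset.mem_singleton] at hb; rw [hb]; exact hxy)
    simp at this
    omega
  · exact h5

/-- if five neighbours are known, they are all the neighbours -/
theorem cf2_nb_of_five (h : Std p C ω) {x : V} (S : Finset V) (hS : S.card = 5)
    (hadj : ∀ b ∈ S, C.Adj x b) : ∀ y, C.Adj x y → y ∈ S := by
  classical
  intro y hy
  by_contra hne
  have h1 := le_dg C (X := univ) (a := x) (insert y S) (Finset.subset_univ _)
    (fun b hb => by
      rcases Finset.mem_insert.1 hb with rfl | hb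
      · exact hy
      · exact hadj b hb)
  rw [Finset.card_insert_of_notMem hne, hS, cf2_deg_five h hy] at h1
  omega

/-- the closed neighbourhood of `v` is not `K_3 * (3 K_1)` -/
theorem noD6 (h : Std p C ω) {v a b c d f : V} (hN : Nb C v a b c d f)
    (hd : C.Adj d a ∧ C.Adj d b ∧ C.Adj d c ∧ C.Adj d f) (hf : C.Adj f a ∧ C.Adj f b ∧ C.Adj f c) :
    False := by
  classical
  obtain ⟨hv, hab, hac, had, haf, hbc, hbd, hbf, hcd, hcf, hdf⟩ := hN
  obtain ⟨da, db, dc, df⟩ := hd
  obtain ⟨fa, fb, fc⟩ := hf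
  have va : C.Adj v a := (hv a).2 (by tauto)
  have vb : C.Adj v b := (hv b).2 (by tauto)
  have vc : C.Adj v c := (hv c).2 (by tauto)
  have vd : C.Adj v d := (hv d).2 (by tauto)
  have vf : C.Adj v f := (hv f).2 (by tauto)
  have nva := va.ne
  have nvb := vb.ne
  have nvc := vc.ne
  have nvd := vd.ne
  have nvf := vf.ne
  obtain ⟨Y, hY⟩ : ∃ Y : Finset V, Y = {a, b, c} := ⟨_, rfl⟩
  obtain ⟨Z, hZ⟩ : ∃ Z : Finset V, Z = insert v (insert d (insert f Y)) := ⟨_, rfl⟩
  have mY : ∀ x, x ∈ Y ↔ x = a ∨ x = b ∨ x = c := by intro x; rw [hY]; simp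
  have mZ : ∀ x, x ∈ Z ↔ x = v ∨ x = d ∨ x = f ∨ x ∈ Y := by intro x; rw [hZ]; simp
  have cY : Y.card = 3 := by rw [hY]; exact card_three hab hac hbc
  have hfY : f ∉ Y := by rw [mY]; tauto
  have hdY : d ∉ insert f Y := by rw [Finset.mem_insert, mY]; tauto
  have hvY : v ∉ insert d (insert f Y) := by
    rw [Finset.mem_insert, Finset.mem_insert, mY]; tauto
  have cZ : Z.card = 6 := by
    rw [hZ, Finset.card_insert_of_notMem hvY, Finset.card_insert_of_notMem hdY,
      Finset.card_insert_of_notMem hfY, cY]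
  have hYZ : Y ⊆ Z := fun x hx => (mZ x).2 (by tauto)
  -- all neighbours of v, d, f are in Z
  have Nv : ∀ y, C.Adj v y → y ∈ Z := by
    intro y hy
    rw [mZ, mY]
    have := (hv y).1 hy
    tauto
  have Nd : ∀ y, C.Adj d y → y ∈ Z := by
    intro y hy
    have := cf2_nb_of_five h ({v, a, b, c, f} : Finset V)
      (card_five nva nvb nvc nvf hab hac haf hbc hbf hcf)
      (by
        intro x hx
        simp only [Finset.mem_insert, Finset.mem_singleton] at hx
        rcases hx with rfl | rfl | rfl | rfl | rfl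
        · exact vd.symm
        · exact da
        · exact db
        · exact dc
        · exact df) y hy
    simp only [Finset.mem_insert, Finset.mem_singleton] at this
    rw [mZ, mY]
    tauto
  have Nf : ∀ y, C.Adj f y → y ∈ Z := by
    intro y hy
    have := cf2_nb_of_five h ({v, a, b, c, d} : Finset V)
      (card_five nva nvb nvc nvd hab hac had hbc hbd hcd)
      (by
        intro x hx
        simp only [Finset.mem_insert, Finset.mem_singleton] at hx
        rcases hx with rfl | rfl | rfl | rfl | rfl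
        · exact vf.symm
        · exact fa
        · exact fb
        · exact fc
        · exact df.symm) y hy
    simp only [Finset.mem_insert, Finset.mem_singleton] at this
    rw [mZ, mY]
    tauto
  have adjY : ∀ x ∈ Y, C.Adj x v ∧ C.Adj x d ∧ C.Adj x f := by
    intro x hx
    rcases (mY x).1 hx with rfl | rfl | rfl
    · exact ⟨va.symm, da.symm, fa.symm⟩
    · exact ⟨vb.symm, db.symm, fb.symm⟩
    · exact ⟨vc.symm, dc.symm, fc.symm⟩
  have c3 : ({v, d, f} : Finset V).card = 3 := card_three nvd nvf hdf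
  -- counting
  have sumZ : i2 C Z = dg C Z v + (dg C Z d + (dg C Z f + ∑ x ∈ Y, dg C Z x)) := by
    unfold i2
    conv_lhs => rw [hZ]
    rw [Finset.sum_insert hvY, Finset.sum_insert hdY, Finset.sum_insert hfY, ← hZ]
  have sumY : ∑ x ∈ Y, dg C Z x = dg C Z a + (dg C Z b + dg C Z c) := by
    rw [hY, Finset.sum_insert (by simp [hab, hac]), Finset.sum_insert (by simp [hbc]),
      Finset.sum_singleton]
  have hSZ := h.sparse Z (by omega)
  rw [cZ] at hSZ
  have d1 : 5 ≤ dg C Z v := by
    rw [← card_five hab hac had haf hbc hbd hbf hcd hcf hdf]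
    apply le_dg
    · intro x hx
      simp only [Finset.mem_insert, Finset.mem_singleton] at hx
      rw [mZ, mY]; tauto
    · intro x hx
      simp only [Finset.mem_insert, Finset.mem_singleton] at hx
      exact (hv x).2 hx
  have d2 : 5 ≤ dg C Z d := by
    have := dg_univ_le C Nd
    rw [cf2_deg_five h da] at this
    exact this
  have d3 : 5 ≤ dg C Z f := by
    have := dg_univ_le C Nf
    rw [cf2_deg_five h fa] at this
    exact this
  have d4 : ∀ x ∈ Y, 3 ≤ dg C Z x := by
    intro x hx
    rw [← c3]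
    apply le_dg
    · intro y hy
      simp only [Finset.mem_insert, Finset.mem_singleton] at hy
      rw [mZ]; tauto
    · intro y hy
      simp only [Finset.mem_insert, Finset.mem_singleton] at hy
      rcases hy with rfl | rfl | rfl
      · exact (adjY x hx).1
      · exact (adjY x hx).2.1
      · exact (adjY x hx).2.2
  have maY : a ∈ Y := (mY a).2 (by tauto)
  have mbY : b ∈ Y := (mY b).2 (by tauto)
  have mcY : c ∈ Y := (mY c).2 (by tauto)
  have ea := d4 a maY
  have eb := d4 b mbY
  have ec := d4 c mcY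
  have d5 : ∀ x ∈ Y, dg C Z x ≤ 3 := by
    intro x hx
    rcases (mY x).1 hx with rfl | rfl | rfl <;> omega
  have nonadj : ∀ x ∈ Y, ∀ y ∈ Y, ¬ C.Adj x y := by
    intro x hx y hy hxy
    have h4 : 4 ≤ dg C Z x := by
      have hyn : y ∉ ({v, d, f} : Finset V) := by
        simp only [Finset.mem_insert, Finset.mem_singleton]
        rcases (mY y).1 hy with rfl | rfl | rfl
        · exact fun e => by rcases e with e | e | e <;> [exact nva e.symm; exact had e; exact haf e]
        · exact fun e => by rcases e with e | e | e <;> [exact nvb e.symm; exact hbd e; exact hbf e]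
        · exact fun e => by rcases e with e | e | e <;> [exact nvc e.symm; exact hcd e; exact hcf e]
      have : (insert y ({v, d, f} : Finset V)).card = 4 := by
        rw [Finset.card_insert_of_notMem hyn, c3]
      rw [← this]
      apply le_dg
      · intro z hz
        simp only [Finset.mem_insert, Finset.mem_singleton] at hz
        rw [mZ]
        rcases hz with rfl | hz | hz | hz
        · tauto
        · tauto
        · tauto
        · tauto
      · intro z hz
        simp only [Finset.mem_insert, Finset.mem_singleton] at hz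
        rcases hz with rfl | rfl | rfl | rfl
        · exact hxy
        · exact (adjY x hx).1
        · exact (adjY x hx).2.1
        · exact (adjY x hx).2.2
    have := d5 x hx
    omega
  -- the graphs
  let T1 : SimpleGraph V :=
    { Adj := fun x y => x ≠ y ∧ x ∈ Y ∧ y ∈ Y
      symm := ⟨fun _ _ h => ⟨h.1.symm, h.2.2, h.2.1⟩⟩
      loopless := ⟨fun _ h => h.1 rfl⟩ }
  have hRW : ∀ x, (x = v ∨ x = d ∨ x = f) → ∀ y, ¬ (out C Z).Adj x y := by
    intro x hx y hxy
    have hxZ : x ∈ Z := (mZ x).2 (by tauto)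
    apply hxy.2
    refine ⟨hxZ, ?_⟩
    rcases hx with rfl | rfl | rfl
    · exact Nv y hxy.1
    · exact Nd y hxy.1
    · exact Nf y hxy.1
  have hnotY : ∀ x, (x = v ∨ x = d ∨ x = f) → x ∉ Y := by
    intro x hx
    rcases hx with rfl | rfl | rfl
    · intro hx; exact hvY (by simp [hx])
    · intro hx; exact hdY (by simp [hx])
    · exact hfY
  have hGW : ∀ x, (x = v ∨ x = d ∨ x = f) → ∀ y, ¬ (out C Z ⊔ T1).Adj x y := by
    intro x hx y hxy
    rcases hxy with hxy | hxy
    · exact hRW x hx y hxy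
    · exact hnotY x hx hxy.2.1
  have out_le : out C Z ≤ C := fun _ _ h => h.1
  -- edges of the triangle
  have iT : ∀ X : Finset V, i2 T1 X ≤ (X ∩ Y).card * ((X ∩ Y).card - 1) :=
    fun X => i2_inside T1 Y (fun _ _ h => ⟨h.2.1, h.2.2⟩) X
  -- sparsity of R ∪ T1
  have key : ∀ X : Finset V, (∀ x ∈ X, ¬ (x = v ∨ x = d ∨ x = f)) → 3 ≤ X.card →
      i2 (out C Z ⊔ T1) X + 12 ≤ 6 * X.card := by
    intro X hX h3
    have e1 := i2_sup (out C Z) T1 X
    have e2 := i2_mono out_le X
    have e3 := iT X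
    have e4 := h.sparse X h3
    have hk : (X ∩ Y).card ≤ 3 := by
      rw [← cY]; exact Finset.card_le_card Finset.inter_subset_right
    obtain ⟨k, hkk⟩ : ∃ k, k = (X ∩ Y).card := ⟨_, rfl⟩
    rw [← hkk] at e3 hk
    have hvX : v ∉ X := fun e => hX v e (by tauto)
    have hdX : d ∉ X := fun e => hX d e (by tauto)
    have hfX : f ∉ X := fun e => hX f e (by tauto)
    interval_cases k
    · omega
    · omega
    · -- two of them
      obtain ⟨x, y, hxy, hxyeq⟩ := Finset.card_eq_two.1 hkk.symm
      have hx : x ∈ X ∩ Y := by rw [hxyeq]; simp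
      have hy : y ∈ X ∩ Y := by rw [hxyeq]; simp
      rw [Finset.mem_inter] at hx hy
      have hev := i2_even C X
      by_contra hcon
      have ht : Tight C X := by
        refine ⟨h3, ?_⟩
        obtain ⟨m, hm⟩ := hev
        omega
      rcases Nat.lt_or_ge X.card 4 with h4 | h4
      · exact nonadj x hx.2 y hy.2 (tight_three ht (by omega) hx.1 hy.1 hxy)
      · have t1 := tight_min_deg h.sparse ht h4 hx.1
        have t2 := dg_add_card_le C (X := X) (Y := univ) (a := x) ({v, d, f} : Finset V)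
          (by
            intro z hz
            simp only [Finset.mem_insert, Finset.mem_singleton] at hz
            rcases hz with rfl | rfl | rfl
            · exact (adjY x hx.2).1
            · exact (adjY x hx.2).2.1
            · exact (adjY x hx.2).2.2)
          (by
            intro z hz
            simp only [Finset.mem_insert, Finset.mem_singleton] at hz
            rcases hz with rfl | rfl | rfl
            · exact hvX
            · exact hdX
            · exact hfX)
          (Finset.subset_univ _) (Finset.subset_univ _)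
        rw [c3, cf2_deg_five h (adjY x hx.2).1] at t2
        omega
    · -- all three
      have hYX : Y ⊆ X := by
        have : X ∩ Y = Y := Finset.eq_of_subset_of_card_le Finset.inter_subset_right
          (by rw [cY]; omega)
        rw [← this]; exact Finset.inter_subset_left
      have i1 : i2 C (insert d X) = i2 C X + 2 * dg C X d := i2_insert C hdX
      have hf1 : f ∉ insert d X := by
        rw [Finset.mem_insert]; rintro (e | e)
        · exact hdf e.symm
        · exact hfX e
      have i2' : i2 C (insert f (insert d X)) = i2 C (insert d X) + 2 * dg C (insert d X) f :=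
        i2_insert C hf1
      have hv1 : v ∉ insert f (insert d X) := by
        rw [Finset.mem_insert, Finset.mem_insert]; rintro (e | e | e)
        · exact nvf e
        · exact nvd e
        · exact hvX e
      have i3 : i2 C (insert v (insert f (insert d X))) = i2 C (insert f (insert d X)) +
          2 * dg C (insert f (insert d X)) v := i2_insert C hv1
      have j1 : 3 ≤ dg C X d := by
        rw [← cY]
        apply le_dg C Y hYX
        intro z hz
        exact (adjY z hz).2.1.symm
      have j2 : 4 ≤ dg C (insert d X) f := by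
        have : (insert d Y).card = 4 := by
          rw [Finset.card_insert_of_notMem (hnotY d (by tauto)), cY]
        rw [← this]
        apply le_dg C _ (Finset.insert_subset_insert d hYX)
        intro z hz
        rcases Finset.mem_insert.1 hz with rfl | hz
        · exact df.symm
        · exact (adjY z hz).2.2.symm
      have j3 : 5 ≤ dg C (insert f (insert d X)) v := by
        have : (insert f (insert d Y)).card = 5 := by
          rw [Finset.card_insert_of_notMem, Finset.card_insert_of_notMem (hnotY d (by tauto)), cY]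
          rw [Finset.mem_insert]
          rintro (e | e)
          · exact hdf e.symm
          · exact hfY e
        rw [← this]
        apply le_dg C _ (Finset.insert_subset_insert f (Finset.insert_subset_insert d hYX))
        intro z hz
        rcases Finset.mem_insert.1 hz with rfl | hz
        · exact vf
        rcases Finset.mem_insert.1 hz with rfl | hz
        · exact vd
        · exact (adjY z hz).1.symm
      have cc : (insert v (insert f (insert d X))).card = X.card + 3 := by
        rw [Finset.card_insert_of_notMem hv1, Finset.card_insert_of_notMem hf1,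
          Finset.card_insert_of_notMem hdX]
      have := h.sparse (insert v (insert f (insert d X))) (by omega)
      omega
  have sp : Sparse (out C Z ⊔ T1) := by
    intro X h3
    obtain ⟨X0, hX0⟩ : ∃ X0, X0 = ((X.erase v).erase d).erase f := ⟨_, rfl⟩
    have e0 : i2 (out C Z ⊔ T1) X0 = i2 (out C Z ⊔ T1) X := by
      rw [hX0, i2_erase (hGW f (by tauto)), i2_erase (hGW d (by tauto)), i2_erase (hGW v (by tauto))]
    have hsub : X0 ⊆ X := by
      rw [hX0]
      exact (Finset.erase_subset _ _).trans ((Finset.erase_subset _ _).trans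
        (Finset.erase_subset _ _))
    have hle := Finset.card_le_card hsub
    have hX0' : ∀ x ∈ X0, ¬ (x = v ∨ x = d ∨ x = f) := by
      intro x hx
      rw [hX0, Finset.mem_erase, Finset.mem_erase, Finset.mem_erase] at hx
      tauto
    rcases Nat.lt_or_ge X0.card 3 with h2 | h2
    · have : i2 (out C Z ⊔ T1) X0 ≤ X0.card * (X0.card - 1) := by
        unfold i2
        have : ∀ x ∈ X0, dg (out C Z ⊔ T1) X0 x ≤ X0.card - 1 := by
          intro x hx
          have := dg_le (out C Z ⊔ T1) (X := X0) (a := x) (X0.erase x) (by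
            intro y hy hxy
            rw [Finset.mem_erase]
            exact ⟨fun e => hxy.ne e.symm, hy⟩)
          rwa [Finset.card_erase_of_mem hx] at this
        have h := Finset.sum_le_sum this
        rw [Finset.sum_const, smul_eq_mul] at h
        exact h
      have h4 : X0.card * (X0.card - 1) ≤ 2 := by
        have : X0.card ≤ 2 := by omega
        interval_cases X0.card <;> simp
      omega
    · have := key X0 hX0' h2
      omega
  have dle : ∀ x ∈ Y, dg (out C Z ⊔ T1) univ x ≤ 4 := by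
    intro x hx
    have t1 := dg_sup (out C Z) T1 univ x
    have t2 : dg T1 univ x ≤ 2 := by
      have := dg_le T1 (X := univ) (a := x) (Y.erase x) (by
        intro y _ hxy
        rw [Finset.mem_erase]
        exact ⟨fun e => hxy.1 e.symm, hxy.2.2⟩)
      rw [Finset.card_erase_of_mem hx, cY] at this
      exact this
    have t3 : dg (out C Z) univ x ≤ dg C Zᶜ x := by
      classical
      refine dg_le _ _ (fun y _ hxy => ?_)
      rw [Finset.mem_filter, Finset.mem_compl]
      exact ⟨fun hy => hxy.2 ⟨hYZ hx, hy⟩, hxy.1⟩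
    have t4 := dg_add_card_le C (X := Zᶜ) (Y := univ) (a := x) ({v, d, f} : Finset V)
      (by
        intro z hz
        simp only [Finset.mem_insert, Finset.mem_singleton] at hz
        rcases hz with rfl | rfl | rfl
        · exact (adjY x hx).1
        · exact (adjY x hx).2.1
        · exact (adjY x hx).2.2)
      (by
        intro z hz
        simp only [Finset.mem_insert, Finset.mem_singleton] at hz
        rw [Finset.mem_compl, not_not, mZ]
        tauto)
      (Finset.subset_univ _) (Finset.subset_univ _)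
    rw [c3, cf2_deg_five h (adjY x hx).1] at t4
    omega
  have dle5 : ∀ x, dg (out C Z ⊔ T1) univ x ≤ 5 := by
    intro x
    by_cases hx : x ∈ Y
    · have := dle x hx; omega
    · have t1 := dg_sup (out C Z) T1 univ x
      have t2 : dg T1 univ x = 0 := dg_zero T1 (fun y _ hxy => hx hxy.2.1)
      have t3 := dg_mono out_le univ x
      rcases h.deg5 x with h0 | h5 <;> omega
  have nc : NC (out C Z ⊔ T1) := by
    intro X hne hcl
    by_contra hcon
    push Not at hcon
    have n1 : ∀ x ∈ X, x ∉ Z := by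
      intro x hx hxZ
      rcases (mZ x).1 hxZ with e | e | e | e
      · have := hcon x hx
        rw [dg_zero _ (fun y _ => hGW x (by tauto) y)] at this
        omega
      · have := hcon x hx
        rw [dg_zero _ (fun y _ => hGW x (by tauto) y)] at this
        omega
      · have := hcon x hx
        rw [dg_zero _ (fun y _ => hGW x (by tauto) y)] at this
        omega
      · have := hcon x hx
        have := dle x e
        omega
    have cl : Closed C X := by
      intro x hx y hxy
      exact hcl x hx y (Or.inl ⟨hxy, fun e => n1 x hx e.1⟩)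
    rcases conn h X cl with h0 | h0
    · obtain ⟨x, hx⟩ := hne
      have e1 := hcon x hx
      have e2 := h0 x hx
      have t1 := dg_sup (out C Z) T1 univ x
      have t2 : dg T1 univ x = 0 := dg_zero T1 (fun y _ hxy => n1 x hx (hYZ hxy.2.1))
      have t3 := dg_mono out_le univ x
      omega
    · have := h0 v (fun e => n1 v e ((mZ v).2 (by tauto)))
      rw [cf2_deg_five h va] at this
      omega
  have I1 : Ind p (out C Z ⊔ T1) := JJ (ax_ind h.gen) _ sp dle5 nc
  have tT : Tight T1 Y := by
    refine ⟨by omega, ?_⟩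
    have : ∀ x ∈ Y, dg T1 Y x = 2 := by
      intro x hx
      apply le_antisymm
      · have := dg_le T1 (X := Y) (a := x) (Y.erase x) (by
          intro y hy hxy
          rw [Finset.mem_erase]
          exact ⟨fun e => hxy.1 e.symm, hy⟩)
        rwa [Finset.card_erase_of_mem hx, cY] at this
      · have := le_dg T1 (X := Y) (a := x) (Y.erase x) (Finset.erase_subset _ _) (by
          intro y hy
          rw [Finset.mem_erase] at hy
          exact ⟨fun e => hy.1 e.symm, hx, hy.2⟩)
        rwa [Finset.card_erase_of_mem hx, cY] at this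
    unfold i2
    rw [Finset.sum_congr rfl this, Finset.sum_const, smul_eq_mul, cY]
  have I2 : Ind p (ins C Z) := by
    apply h.circ.min
    refine lt_of_le_of_ne (fun _ _ h => h.1) ?_
    intro heq
    have : ∀ y, C.Adj a y → y ∈ Z := by
      intro y hy
      rw [← heq] at hy
      exact hy.2.2
    have e1 := dg_univ_le C this
    rw [cf2_deg_five h va.symm] at e1
    have := d5 a maY
    omega
  have I3 : Ind p (out C Z ⊔ ins C Z) :=
    H176R2.R5.subst (R := out C Z) (T1 := T1) (T2 := ins C Z) h.gen hYZ (fun _ _ h => h.2)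
      (by
        intro x y hxy hx
        by_contra hxY
        rcases (mZ x).1 hx with e | e | e | e
        · exact hRW x (by tauto) y hxy
        · exact hRW x (by tauto) y hxy
        · exact hRW x (by tauto) y hxy
        · exact hxY e)
      (fun _ _ h => ⟨h.2.1, h.2.2⟩) (fun _ _ h => ⟨h.2.1, h.2.2⟩) tT I1 I2
  have hC : out C Z ⊔ ins C Z = C := by
    ext x y
    constructor
    · rintro (h | h)
      · exact h.1
      · exact h.1
    · intro hxy
      by_cases hz : x ∈ Z ∧ y ∈ Z
      · exact Or.inr ⟨hxy, hz.1, hz.2⟩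
      · exact Or.inl ⟨hxy, hz⟩
  rw [hC] at I3
  exact h.circ.dep I3

theorem cf2_nb_dg_del (h : Std p C ω) {v x : V} (hx : C.Adj v x) : dg (del C v) univ x ≤ 4 := by
  classical
  have e1 : dg (del C v) univ x ≤ dg C (univ.erase v) x := by
    refine dg_le _ _ (fun y _ hy => ?_)
    rw [Finset.mem_filter, Finset.mem_erase]
    exact ⟨⟨hy.2.2, Finset.mem_univ _⟩, hy.1⟩
  have e2 := dg_add_card_le C (X := univ.erase v) (Y := univ) (a := x) {v}
    (by intro z hz; rw [Finset.mem_singleton] at hz; rw [hz]; exact hx.symm)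
    (by intro z hz; rw [Finset.mem_singleton] at hz; rw [hz]; simp)
    (Finset.subset_univ _) (Finset.subset_univ _)
  rw [Finset.card_singleton, cf2_deg_five h hx.symm] at e2
  omega

/-- a near tight set of `C - v` which contains four neighbours of `v` does not contain `v` -/
theorem cf2_near_no_v (h : Std p C ω) {v a b c d f : V} (hN : Nb C v a b c d f) {Y : Finset V}
    (ha : a ∈ Y) (hb : b ∈ Y) (hc : c ∈ Y) (hd : d ∈ Y)
    (hY : 6 * Y.card ≤ i2 (del C v) Y + 14) : v ∉ Y := by
  intro hv
  obtain ⟨hn, hab, hac, had, haf, hbc, hbd, hbf, hcd, hcf, hdf⟩ := hN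
  have va : C.Adj v a := (hn a).2 (by tauto)
  have vb : C.Adj v b := (hn b).2 (by tauto)
  have vc : C.Adj v c := (hn c).2 (by tauto)
  have vd : C.Adj v d := (hn d).2 (by tauto)
  have e1 : i2 (del C v) (Y.erase v) = i2 (del C v) Y := i2_erase (fun b hb => hb.2.1 rfl)
  have e2 := Finset.card_erase_add_one hv
  have e3 : 4 ≤ (Y.erase v).card := by
    rw [← card_four hab hac had hbc hbd hcd]
    apply Finset.card_le_card
    intro x hx
    simp only [Finset.mem_insert, Finset.mem_singleton] at hx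
    rw [Finset.mem_erase]
    rcases hx with rfl | rfl | rfl | rfl
    · exact ⟨va.ne.symm, ha⟩
    · exact ⟨vb.ne.symm, hb⟩
    · exact ⟨vc.ne.symm, hc⟩
    · exact ⟨vd.ne.symm, hd⟩
  have e4 := sparse_le h.sparse (del_le C v) (Y.erase v) (by omega)
  omega

theorem cf2_nb_ge_five {v a b c d f : V} (hN : Nb C v a b c d f) {Y : Finset V}
    (ha : a ∈ Y) (hb : b ∈ Y) (hc : c ∈ Y) (hd : d ∈ Y) (hf : f ∈ Y) : 5 ≤ dg C Y v := by
  obtain ⟨hn, hab, hac, had, haf, hbc, hbd, hbf, hcd, hcf, hdf⟩ := hN
  rw [← card_five hab hac had haf hbc hbd hbf hcd hcf hdf]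
  apply le_dg
  · intro x hx
    simp only [Finset.mem_insert, Finset.mem_singleton] at hx
    rcases hx with rfl | rfl | rfl | rfl | rfl <;> assumption
  · intro x hx
    simp only [Finset.mem_insert, Finset.mem_singleton] at hx
    exact (hn x).2 hx

theorem cf2_full_bound (h : Std p C ω) {v a b c d f : V} (hN : Nb C v a b c d f) {Y : Finset V}
    (ha : a ∈ Y) (hb : b ∈ Y) (hc : c ∈ Y) (hd : d ∈ Y) (hf : f ∈ Y) (hv : v ∉ Y) :
    i2 (del C v) Y + 16 ≤ 6 * Y.card := by
  have e1 := cf2_nb_ge_five hN ha hb hc hd hf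
  have e2 : i2 C (insert v Y) = i2 C Y + 2 * dg C Y v := i2_insert C hv
  have e3 := Finset.card_insert_of_notMem hv
  have e4 := h.sparse (insert v Y) (by
    have := Finset.card_le_card (show ({a, b} : Finset V) ⊆ Y by
      intro x hx
      simp only [Finset.mem_insert, Finset.mem_singleton] at hx
      rcases hx with rfl | rfl <;> assumption)
    rw [Finset.card_pair hN.2.1] at this
    omega)
  rw [i2_del hv]
  omega

/-- the set of the neighbours -/
theorem cf2_mem_five {v a b c d f : V} (hN : Nb C v a b c d f) (x : V) :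
    x ∈ ({a, b, c, d, f} : Finset V) ↔ C.Adj v x := by
  rw [hN.1 x]
  simp only [Finset.mem_insert, Finset.mem_singleton]

theorem cf2_nb_card {v a b c d f : V} (hN : Nb C v a b c d f) :
    ({a, b, c, d, f} : Finset V).card = 5 := by
  obtain ⟨hn, hab, hac, had, haf, hbc, hbd, hbf, hcd, hcf, hdf⟩ := hN
  exact card_five hab hac had haf hbc hbd hbf hcd hcf hdf

theorem cf2_tight_four (h : Std p C ω) {v : V} {X : Finset V} (hX : Tight (del C v) X) (S : Finset V)
    (hS : S ⊆ X) (hS4 : 4 ≤ S.card) (hadj : ∀ x ∈ S, C.Adj v x) : False := by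
  have e1 := le_dg C S hS hadj
  have e2 := dg_tight_le h hX
  omega

/-- the fifth neighbour is not blocked with all the others -/
theorem cf2_near_f (h : Std p C ω) {v a b c d f : V} (hN : Nb C v a b c d f) {Y : Finset V}
    (ha : a ∈ Y) (hb : b ∈ Y) (hc : c ∈ Y) (hd : d ∈ Y)
    (hY : 6 * Y.card ≤ i2 (del C v) Y + 14) :
    ¬ Blocked (del C v) f a ∨ ¬ Blocked (del C v) f b ∨ ¬ Blocked (del C v) f c ∨
      ¬ Blocked (del C v) f d := by
  by_contra hcon
  have hcon' : Blocked (del C v) f a ∧ Blocked (del C v) f b ∧ Blocked (del C v) f c ∧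
      Blocked (del C v) f d := by
    simp only [not_or, not_not] at hcon
    exact hcon
  obtain ⟨b1, b2, b3, b4⟩ := hcon'
  have hvY := cf2_near_no_v h hN ha hb hc hd hY
  have hfY : f ∉ Y := by
    intro hf
    have := cf2_full_bound h hN ha hb hc hd hf hvY
    omega
  have vf : C.Adj v f := (hN.1 f).2 (by tauto)
  have hvf : v ∉ insert f Y := by
    rw [Finset.mem_insert]
    rintro (e | e)
    · exact vf.ne e
    · exact hvY e
  rcases blocked_all (sparse_le h.sparse (del_le C v)) ({a, b, c, d, f} : Finset V) (cf2_nb_card hN)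
    (x := f) (by simp) (cf2_nb_dg_del h vf) (by
      intro y hy hyf
      simp only [Finset.mem_insert, Finset.mem_singleton] at hy
      rcases hy with rfl | rfl | rfl | rfl | rfl
      · exact b1
      · exact b2
      · exact b3
      · exact b4
      · exact absurd rfl hyf) with hadj | ⟨X, hX, h4⟩
  · have e1 := cf2_full_bound h hN (Y := insert f Y) (Finset.mem_insert_of_mem ha)
      (Finset.mem_insert_of_mem hb) (Finset.mem_insert_of_mem hc) (Finset.mem_insert_of_mem hd)
      (Finset.mem_insert_self _ _) hvf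
    have e2 : i2 (del C v) (insert f Y) = i2 (del C v) Y + 2 * dg (del C v) Y f :=
      i2_insert _ hfY
    have e3 := Finset.card_insert_of_notMem hfY
    have e4 : 4 ≤ dg (del C v) Y f := by
      obtain ⟨hn, hab, hac, had, haf, hbc, hbd, hbf, hcd, hcf, hdf⟩ := hN
      rw [← card_four hab hac had hbc hbd hcd]
      apply le_dg
      · intro x hx
        simp only [Finset.mem_insert, Finset.mem_singleton] at hx
        rcases hx with rfl | rfl | rfl | rfl <;> assumption
      · intro x hx
        simp only [Finset.mem_insert, Finset.mem_singleton] at hx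
        rcases hx with rfl | rfl | rfl | rfl
        · exact hadj _ (by simp) haf
        · exact hadj _ (by simp) hbf
        · exact hadj _ (by simp) hcf
        · exact hadj _ (by simp) hdf
    omega
  · exact cf2_tight_four h hX _ Finset.inter_subset_left h4
      (fun x hx => (cf2_mem_five hN x).1 (Finset.mem_inter.1 hx).2)

theorem cf2_step (h : Std p C ω) {v a b c d f : V} (hN : Nb C v a b c d f) {Y : Finset V}
    (ha : a ∈ Y) (hb : b ∈ Y) (hc : c ∈ Y) (hd : d ∈ Y)
    (hY : 6 * Y.card ≤ i2 (del C v) Y + 14) (h2 : ¬ Blocked (del C v) c d)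
    (h3 : ¬ Blocked (del C v) f a) (hN' : Nb C v f a c d b) :
    Sparse (addE (addE (del C v) f a) c d) := by
  have hS : Sparse (del C v) := sparse_le h.sparse (del_le C v)
  have hcd : c ≠ d := hN.2.2.2.2.2.2.2.2.1
  have hac : a ≠ c := hN.2.2.1
  have had : a ≠ d := hN.2.2.2.1
  rcases two_edges hS hN'.2.1 hcd h3 h2 with h4 | ⟨Y', hf', ha', hc', hd', hY'⟩
  · exact h4
  exfalso
  have v1 := cf2_near_no_v h hN ha hb hc hd hY
  have v2 := cf2_near_no_v h hN' hf' ha' hc' hd' hY'
  have e1 := near_union hY hY'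
  have e2 := cf2_full_bound h hN (Y := Y ∪ Y') (Finset.mem_union_left _ ha)
    (Finset.mem_union_left _ hb) (Finset.mem_union_left _ hc) (Finset.mem_union_left _ hd)
    (Finset.mem_union_right _ hf') (by
      rw [Finset.mem_union]; rintro (e | e)
      · exact v1 e
      · exact v2 e)
  have e3 : 3 ≤ (Y ∩ Y').card := by
    rw [← card_three hac had hcd]
    apply Finset.card_le_card
    intro x hx
    simp only [Finset.mem_insert, Finset.mem_singleton] at hx
    rw [Finset.mem_inter]
    rcases hx with rfl | rfl | rfl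
    · exact ⟨ha, ha'⟩
    · exact ⟨hc, hc'⟩
    · exact ⟨hd, hd'⟩
  have e4 := hS (Y ∩ Y') e3
  apply h2
  refine Or.inr ⟨Y ∩ Y', ⟨e3, by omega⟩, ?_, ?_⟩
  · exact Finset.mem_inter.2 ⟨hc, hc'⟩
  · exact Finset.mem_inter.2 ⟨hd, hd'⟩

/-- the conclusion of `good_pairs` -/
def cf2_Good (p : V → Fin 3 → ℝ) (C : SimpleGraph V) (v : V) : Prop :=
  ∃ a b c d f, Nb C v a b c d f ∧ ¬ (del C v).Adj a b ∧ ¬ (del C v).Adj c d ∧
      Sparse (addE (addE (del C v) a b) c d) ∧ Ind p (addE (addE (del C v) a b) c d)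

theorem cf2_mk_good (h : Std p C ω) {v a b c d f : V} (hN : Nb C v a b c d f)
    (h1 : ¬ Blocked (del C v) a b) (h2 : ¬ Blocked (del C v) c d)
    (hS : Sparse (addE (addE (del C v) a b) c d)) : cf2_Good p C v :=
  ⟨a, b, c, d, f, hN, fun e => h1 (Or.inl e), fun e => h2 (Or.inl e), hS,
    ind_add2 h hN (fun e => h1 (Or.inl e)) (fun e => h2 (Or.inl e)) hS⟩

theorem cf2_good_of_pairs (h : Std p C ω) {v a b c d f : V} (hN : Nb C v a b c d f)
    (h1 : ¬ Blocked (del C v) a b) (h2 : ¬ Blocked (del C v) c d) : cf2_Good p C v := by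
  have hS : Sparse (del C v) := sparse_le h.sparse (del_le C v)
  have hN0 := hN
  obtain ⟨hn, hab, hac, had, haf, hbc, hbd, hbf, hcd, hcf, hdf⟩ := hN
  rcases two_edges hS hab hcd h1 h2 with h4 | ⟨Y, ha, hb, hc, hd, hY⟩
  · exact cf2_mk_good h hN0 h1 h2 h4
  have h2' : ¬ Blocked (del C v) d c := fun e => h2 (blocked_symm e)
  have h1' : ¬ Blocked (del C v) b a := fun e => h1 (blocked_symm e)
  rcases cf2_near_f h hN0 ha hb hc hd hY with h3 | h3 | h3 | h3
  · have hN' : Nb C v f a c d b :=
      ⟨fun x => by rw [hn x]; tauto, haf.symm, hcf.symm, hdf.symm, hbf.symm, hac, had, hab, hcd,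
        hbc.symm, hbd.symm⟩
    exact cf2_mk_good h hN' h3 h2 (cf2_step h hN0 ha hb hc hd hY h2 h3 hN')
  · have hN1 : Nb C v b a c d f :=
      ⟨fun x => by rw [hn x]; tauto, hab.symm, hbc, hbd, hbf, hac, had, haf, hcd, hcf, hdf⟩
    have hN' : Nb C v f b c d a :=
      ⟨fun x => by rw [hn x]; tauto, hbf.symm, hcf.symm, hdf.symm, haf.symm, hbc, hbd, hab.symm,
        hcd, hac.symm, had.symm⟩
    exact cf2_mk_good h hN' h3 h2 (cf2_step h hN1 hb ha hc hd hY h2 h3 hN')
  · have hN1 : Nb C v c d a b f :=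
      ⟨fun x => by rw [hn x]; tauto, hcd, hac.symm, hbc.symm, hcf, had.symm, hbd.symm, hdf, hab,
        haf, hbf⟩
    have hN' : Nb C v f c a b d :=
      ⟨fun x => by rw [hn x]; tauto, hcf.symm, haf.symm, hbf.symm, hdf.symm, hac.symm, hbc.symm,
        hcd, hab, had, hbd⟩
    exact cf2_mk_good h hN' h3 h1 (cf2_step h hN1 hc hd ha hb hY h1 h3 hN')
  · have hN1 : Nb C v d c a b f :=
      ⟨fun x => by rw [hn x]; tauto, hcd.symm, had.symm, hbd.symm, hdf, hac.symm, hbc.symm, hcf,
        hab, haf, hbf⟩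
    have hN' : Nb C v f d a b c :=
      ⟨fun x => by rw [hn x]; tauto, hdf.symm, haf.symm, hbf.symm, hcf.symm, had.symm, hbd.symm,
        hcd.symm, hab, hac, hbc⟩
    exact cf2_mk_good h hN' h3 h1 (cf2_step h hN1 hd hc ha hb hY h1 h3 hN')

theorem cf2_rest3 : ∀ i j : Fin 5, i ≠ j → ∃ k l m : Fin 5, i ≠ k ∧ i ≠ l ∧ i ≠ m ∧ j ≠ k ∧ j ≠ l ∧
    j ≠ m ∧ k ≠ l ∧ k ≠ m ∧ l ≠ m := by
  intro i j hij
  have h3 : ({i, j}ᶜ : Finset (Fin 5)).card = 3 := by
    rw [Finset.card_compl, Finset.card_pair hij]
    rfl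
  obtain ⟨k, l, m, hkl, hkm, hlm, heq⟩ := Finset.card_eq_three.1 h3
  have hk : k ∈ ({i, j}ᶜ : Finset (Fin 5)) := by rw [heq]; simp
  have hl : l ∈ ({i, j}ᶜ : Finset (Fin 5)) := by rw [heq]; simp
  have hm : m ∈ ({i, j}ᶜ : Finset (Fin 5)) := by rw [heq]; simp
  rw [Finset.mem_compl, Finset.mem_insert, Finset.mem_singleton, not_or] at hk hl hm
  exact ⟨k, l, m, Ne.symm hk.1, Ne.symm hl.1, Ne.symm hm.1, Ne.symm hk.2, Ne.symm hl.2,
    Ne.symm hm.2, hkl, hkm, hlm⟩

theorem cf2_all5 {i j k l m : Fin 5} (h1 : i ≠ j) (h2 : i ≠ k) (h3 : i ≠ l) (h4 : i ≠ m) (h5 : j ≠ k)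
    (h6 : j ≠ l) (h7 : j ≠ m) (h8 : k ≠ l) (h9 : k ≠ m) (h10 : l ≠ m) (n : Fin 5) :
    n = i ∨ n = j ∨ n = k ∨ n = l ∨ n = m := by
  have := Finset.eq_univ_of_card ({i, j, k, l, m} : Finset (Fin 5))
    (by rw [card_five h1 h2 h3 h4 h5 h6 h7 h8 h9 h10]; rfl)
  have h := Finset.mem_univ n
  rw [← this] at h
  simpa using h

theorem good_pairs (h : Std p C ω) {v : V} (hv : dg C univ v = 5) :
    ∃ a b c d f, Nb C v a b c d f ∧ ¬ (del C v).Adj a b ∧ ¬ (del C v).Adj c d ∧
      Sparse (addE (addE (del C v) a b) c d) ∧ Ind p (addE (addE (del C v) a b) c d) := by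
  classical
  change cf2_Good p C v
  have hS : Sparse (del C v) := sparse_le h.sparse (del_le C v)
  -- enumerate the neighbours
  obtain ⟨e, he, hr⟩ : ∃ e : Fin 5 → V, Function.Injective e ∧ ∀ x, C.Adj v x ↔ ∃ i, e i = x := by
    have hc : (@Finset.filter V (fun b => C.Adj v b) (fun _ => Classical.propDecidable _) univ).card
        = 5 := hv
    let ee := Finset.equivFinOfCardEq hc
    refine ⟨fun i => (ee.symm i).1, ?_, ?_⟩
    · intro i j hij
      exact ee.symm.injective (Subtype.ext hij)
    · intro x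
      constructor
      · intro hx
        refine ⟨ee ⟨x, ?_⟩, ?_⟩
        · rw [Finset.mem_filter]; exact ⟨Finset.mem_univ _, hx⟩
        · simp
      · rintro ⟨i, rfl⟩
        exact (Finset.mem_filter.1 (ee.symm i).2).2
  have nbE : ∀ i j k l m : Fin 5, i ≠ j → i ≠ k → i ≠ l → i ≠ m → j ≠ k → j ≠ l → j ≠ m →
      k ≠ l → k ≠ m → l ≠ m → Nb C v (e i) (e j) (e k) (e l) (e m) := by
    intro i j k l m h1 h2 h3 h4 h5 h6 h7 h8 h9 h10
    refine ⟨?_, he.ne h1, he.ne h2, he.ne h3, he.ne h4, he.ne h5, he.ne h6, he.ne h7, he.ne h8,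
      he.ne h9, he.ne h10⟩
    intro x
    rw [hr x]
    constructor
    · rintro ⟨n, rfl⟩
      rcases cf2_all5 h1 h2 h3 h4 h5 h6 h7 h8 h9 h10 n with rfl | rfl | rfl | rfl | rfl <;> tauto
    · rintro (rfl | rfl | rfl | rfl | rfl) <;> exact ⟨_, rfl⟩
  have adjE : ∀ i, C.Adj v (e i) := fun i => (hr _).2 ⟨i, rfl⟩
  obtain ⟨B, hB⟩ : ∃ B : Fin 5 → Fin 5 → Prop, ∀ i j, B i j ↔ Blocked (del C v) (e i) (e j) :=
    ⟨_, fun _ _ => Iff.rfl⟩
  have hs : ∀ i j, B i j → B j i := fun i j hij => (hB _ _).2 (blocked_symm ((hB _ _).1 hij))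
  -- star
  have star : ∀ i j k l : Fin 5, i ≠ j → i ≠ k → i ≠ l → j ≠ k → j ≠ l → k ≠ l →
      B i j → B i k → B i l → B j k → B j l → B k l → False := by
    intro i j k l h1 h2 h3 h4 h5 h6 b1 b2 b3 b4 b5 b6
    obtain ⟨X, hX, hNX⟩ := blocked4 hS ({e i, e j, e k, e l} : Finset V)
      (card_four (he.ne h1) (he.ne h2) (he.ne h3) (he.ne h4) (he.ne h5) (he.ne h6))
      (by
        intro a ha
        simp only [Finset.mem_insert, Finset.mem_singleton] at ha
        rcases ha with rfl | rfl | rfl | rfl <;> exact cf2_nb_dg_del h (adjE _))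
      (by
        intro a ha b hb hab
        simp only [Finset.mem_insert, Finset.mem_singleton] at ha hb
        rcases ha with rfl | rfl | rfl | rfl <;> rcases hb with rfl | rfl | rfl | rfl <;>
        first
        | exact absurd rfl hab
        | exact (hB _ _).1 b1
        | exact (hB _ _).1 b2
        | exact (hB _ _).1 b3
        | exact (hB _ _).1 b4
        | exact (hB _ _).1 b5
        | exact (hB _ _).1 b6
        | exact blocked_symm ((hB _ _).1 b1)
        | exact blocked_symm ((hB _ _).1 b2)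
        | exact blocked_symm ((hB _ _).1 b3)
        | exact blocked_symm ((hB _ _).1 b4)
        | exact blocked_symm ((hB _ _).1 b5)
        | exact blocked_symm ((hB _ _).1 b6))
    refine cf2_tight_four h hX _ hNX ?_ ?_
    · rw [card_four (he.ne h1) (he.ne h2) (he.ne h3) (he.ne h4) (he.ne h5) (he.ne h6)]
    · intro a ha
      simp only [Finset.mem_insert, Finset.mem_singleton] at ha
      rcases ha with rfl | rfl | rfl | rfl <;> exact adjE _
  -- a vertex which is blocked with all the others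
  have allb : ∀ i j k l m : Fin 5, i ≠ j → i ≠ k → i ≠ l → i ≠ m → j ≠ k → j ≠ l → j ≠ m →
      k ≠ l → k ≠ m → l ≠ m → B i j → B i k → B i l → B i m →
      C.Adj (e i) (e j) ∧ C.Adj (e i) (e k) ∧ C.Adj (e i) (e l) ∧ C.Adj (e i) (e m) := by
    intro i j k l m h1 h2 h3 h4 h5 h6 h7 h8 h9 h10 b1 b2 b3 b4
    have hN := nbE i j k l m h1 h2 h3 h4 h5 h6 h7 h8 h9 h10
    rcases blocked_all hS ({e i, e j, e k, e l, e m} : Finset V) (cf2_nb_card hN) (x := e i) (by simp)
      (cf2_nb_dg_del h (adjE _)) (by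
        intro y hy hyi
        simp only [Finset.mem_insert, Finset.mem_singleton] at hy
        rcases hy with rfl | rfl | rfl | rfl | rfl
        · exact absurd rfl hyi
        · exact (hB _ _).1 b1
        · exact (hB _ _).1 b2
        · exact (hB _ _).1 b3
        · exact (hB _ _).1 b4) with hadj | ⟨X, hX, h4⟩
    · exact ⟨(hadj (e j) (by simp) (he.ne h1.symm)).1, (hadj (e k) (by simp) (he.ne h2.symm)).1,
        (hadj (e l) (by simp) (he.ne h3.symm)).1, (hadj (e m) (by simp) (he.ne h4.symm)).1⟩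
    · exact (cf2_tight_four h hX _ Finset.inter_subset_left h4
        (fun x hx => (cf2_mem_five hN x).1 (Finset.mem_inter.1 hx).2)).elim
  -- triangle
  have tri : ∀ i j k l m : Fin 5, i ≠ j → i ≠ k → i ≠ l → i ≠ m → j ≠ k → j ≠ l → j ≠ m →
      k ≠ l → k ≠ m → l ≠ m → B l i → B l j → B l k → B l m → B m i → B m j → B m k → False := by
    intro i j k l m h1 h2 h3 h4 h5 h6 h7 h8 h9 h10 b1 b2 b3 b4 b5 b6 b7
    obtain ⟨l1, l2, l3, l4⟩ := allb l i j k m h3.symm h6.symm h8.symm h10 h1 h2 h4 h5 h7 h9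
      b1 b2 b3 b4
    obtain ⟨m1, m2, m3, _⟩ := allb m i j k l h4.symm h7.symm h9.symm h10.symm h1 h2 h3 h5 h6 h8
      b5 b6 b7 (hs _ _ b4)
    exact noD6 h (nbE i j k l m h1 h2 h3 h4 h5 h6 h7 h8 h9 h10) ⟨l1, l2, l3, l4⟩ ⟨m1, m2, m3⟩
  by_cases hD : ∃ i j k l m : Fin 5, (i ≠ j ∧ i ≠ k ∧ i ≠ l ∧ i ≠ m ∧ j ≠ k ∧ j ≠ l ∧ j ≠ m ∧
      k ≠ l ∧ k ≠ m ∧ l ≠ m) ∧ ¬ B i j ∧ ¬ B k l
  · obtain ⟨i, j, k, l, m, ⟨h1, h2, h3, h4, h5, h6, h7, h8, h9, h10⟩, b1, b2⟩ := hD
    exact cf2_good_of_pairs h (nbE i j k l m h1 h2 h3 h4 h5 h6 h7 h8 h9 h10)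
      (fun e => b1 ((hB _ _).2 e)) (fun e => b2 ((hB _ _).2 e))
  exfalso
  have D : ∀ i j k l m : Fin 5, i ≠ j → i ≠ k → i ≠ l → i ≠ m → j ≠ k → j ≠ l → j ≠ m →
      k ≠ l → k ≠ m → l ≠ m → B i j ∨ B k l := by
    intro i j k l m h1 h2 h3 h4 h5 h6 h7 h8 h9 h10
    by_contra hcon
    exact hD ⟨i, j, k, l, m, ⟨h1, h2, h3, h4, h5, h6, h7, h8, h9, h10⟩, by tauto, by tauto⟩
  by_cases hall : ∀ i j, i ≠ j → B i j
  · exact star 0 1 2 3 (by decide) (by decide) (by decide) (by decide) (by decide) (by decide)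
      (hall _ _ (by decide)) (hall _ _ (by decide)) (hall _ _ (by decide)) (hall _ _ (by decide))
      (hall _ _ (by decide)) (hall _ _ (by decide))
  push Not at hall
  obtain ⟨i, j, hij, hb⟩ := hall
  obtain ⟨k, l, m, h2, h3, h4, h5, h6, h7, h8, h9, h10⟩ := cf2_rest3 i j hij
  have h1 := hij
  have bkl : B k l := (D i j k l m h1 h2 h3 h4 h5 h6 h7 h8 h9 h10).resolve_left hb
  have bkm : B k m := (D i j k m l h1 h2 h4 h3 h5 h7 h6 h9 h8 h10.symm).resolve_left hb
  have blm : B l m := (D i j l m k h1 h3 h4 h2 h6 h7 h5 h10 h8.symm h9.symm).resolve_left hb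
  have q1 : B i k ∨ B j l := D i k j l m h2 h1 h3 h4 h5.symm h8 h9 h6 h7 h10
  have q2 : B i k ∨ B j m := D i k j m l h2 h1 h4 h3 h5.symm h9 h8 h7 h6 h10.symm
  have q3 : B i l ∨ B j k := D i l j k m h3 h1 h2 h4 h6.symm h8.symm h10 h5 h7 h9
  have q4 : B i l ∨ B j m := D i l j m k h3 h1 h4 h2 h6.symm h10 h8.symm h7 h5 h9.symm
  have q5 : B i m ∨ B j k := D i m j k l h4 h1 h2 h3 h7.symm h9.symm h10.symm h5 h6 h8
  have q6 : B i m ∨ B j l := D i m j l k h4 h1 h3 h2 h7.symm h10.symm h9.symm h6 h5 h8.symm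
  by_cases s1 : B j k ∧ B j l ∧ B j m
  · exact star j k l m h5 h6 h7 h8 h9 h10 s1.1 s1.2.1 s1.2.2 bkl bkm blm
  by_cases s2 : B i k ∧ B i l ∧ B i m
  · exact star i k l m h2 h3 h4 h8 h9 h10 s2.1 s2.2.1 s2.2.2 bkl bkm blm
  by_cases c1 : ¬ B j k ∧ ¬ B i k
  · have a1 : B i l := q3.resolve_right c1.1
    have a2 : B i m := q5.resolve_right c1.1
    have a3 : B j l := q1.resolve_left c1.2
    have a4 : B j m := q2.resolve_left c1.2
    exact tri i j k l m h1 h2 h3 h4 h5 h6 h7 h8 h9 h10 (hs _ _ a1) (hs _ _ a3) (hs _ _ bkl) blm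
      (hs _ _ a2) (hs _ _ a4) (hs _ _ bkm)
  by_cases c2 : ¬ B j l ∧ ¬ B i l
  · have a1 : B i k := q1.resolve_right c2.1
    have a2 : B i m := q6.resolve_right c2.1
    have a3 : B j k := q3.resolve_left c2.2
    have a4 : B j m := q4.resolve_left c2.2
    exact tri i j l k m h1 h3 h2 h4 h6 h5 h7 h8.symm h10 h9 (hs _ _ a1) (hs _ _ a3) bkl bkm
      (hs _ _ a2) (hs _ _ a4) (hs _ _ blm)
  by_cases c3 : ¬ B j m ∧ ¬ B i m
  · have a1 : B i k := q2.resolve_right c3.1
    have a2 : B i l := q4.resolve_right c3.1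
    have a3 : B j k := q5.resolve_left c3.2
    have a4 : B j l := q6.resolve_left c3.2
    exact tri i j m k l h1 h4 h2 h3 h7 h5 h6 h9.symm h10.symm h8 (hs _ _ a1) (hs _ _ a3) bkm bkl
      (hs _ _ a2) (hs _ _ a4) blm
  tauto

end std

end H176R2.R5
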