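import Pool.Agent.H176R2.R5.Defs
import Pool.Agent.H176R2.R5.G1
import Pool.Agent.H176R2.R5.L1
import Pool.Agent.H176R2.R5.L2
import Pool.Agent.H176R2.R5.CF2

set_option autoImplicit false
set_option linter.unusedSectionVars false

open Finset

namespace H176R2.R5

variable {V : Type} [Fintype V] [DecidableEq V]

open Classical in
theorem cf3_eq (G : SimpleGraph V) (X : Finset V) :
    i2 G X = ∑ a ∈ X, ∑ b ∈ X, if G.Adj a b then 1 else 0 := by
  unfold i2 dg
  refine Finset.sum_congr rfl fun a _ => ?_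
  rw [Finset.card_filter]

theorem cf3_congr {G G' : SimpleGraph V} {X : Finset V}
    (h : ∀ a ∈ X, ∀ b ∈ X, (G.Adj a b ↔ G'.Adj a b)) : i2 G X = i2 G' X := by
  classical
  rw [cf3_eq, cf3_eq]
  refine Finset.sum_congr rfl fun a ha => Finset.sum_congr rfl fun b hb => ?_
  rw [if_congr (h a ha b hb) rfl rfl]

theorem cf3_addE {G : SimpleGraph V} {X : Finset V} {a b : V} (ha : a ∈ X) (hb : b ∈ X)
    (hab : a ≠ b) (hn : ¬ G.Adj a b) : i2 (addE G a b) X = i2 G X + 2 := by
  classical
  rw [cf3_eq, cf3_eq]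
  have key : ∀ x y, (if (addE G a b).Adj x y then 1 else 0) =
      (if G.Adj x y then 1 else 0) + (if x = a then (if y = b then 1 else 0) else 0) +
        (if x = b then (if y = a then 1 else 0) else 0) := by
    intro x y
    have hadj : (addE G a b).Adj x y ↔
      (G.Adj x y ∨ (a ≠ b ∧ ((x = a ∧ y = b) ∨ (x = b ∧ y = a)))) := Iff.rfl
    by_cases hxa : x = a
    · subst hxa
      by_cases hyb : y = b
      · subst hyb
        rw [if_pos (hadj.2 (Or.inr ⟨hab, Or.inl ⟨rfl, rfl⟩⟩)), if_neg hn, if_pos rfl, if_pos rfl,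
          if_neg hab]
      · rw [if_pos rfl, if_neg hyb, if_neg hab]
        by_cases hG : G.Adj x y
        · rw [if_pos hG, if_pos (hadj.2 (Or.inl hG))]
        · rw [if_neg hG, if_neg]
          rw [hadj]
          rintro (h | ⟨_, ⟨_, h⟩ | ⟨h, _⟩⟩)
          · exact hG h
          · exact hyb h
          · exact hab h
    · by_cases hxb : x = b
      · subst hxb
        rw [if_neg (fun h => hxa h), if_pos rfl]
        by_cases hya : y = a
        · subst hya
          rw [if_pos (hadj.2 (Or.inr ⟨hab, Or.inr ⟨rfl, rfl⟩⟩)),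
            if_neg (fun h => hn h.symm), if_pos rfl]
        · rw [if_neg hya]
          by_cases hG : G.Adj x y
          · rw [if_pos hG, if_pos (hadj.2 (Or.inl hG))]
          · rw [if_neg hG, if_neg]
            rw [hadj]
            rintro (h | ⟨_, ⟨h, _⟩ | ⟨_, h⟩⟩)
            · exact hG h
            · exact hxa h
            · exact hya h
      · rw [if_neg hxa, if_neg hxb]
        by_cases hG : G.Adj x y
        · rw [if_pos hG, if_pos (hadj.2 (Or.inl hG))]
        · rw [if_neg hG, if_neg]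
          rw [hadj]
          rintro (h | ⟨_, ⟨h, _⟩ | ⟨h, _⟩⟩)
          · exact hG h
          · exact hxa h
          · exact hxb h
  simp only [key, Finset.sum_add_distrib]
  have e1 : ∑ x ∈ X, ∑ y ∈ X, (if x = a then (if y = b then 1 else 0) else 0) = 1 := by
    rw [Finset.sum_eq_single a]
    · rw [Finset.sum_eq_single b]
      · simp
      · intro y _ hy; simp [hy]
      · intro h; exact absurd hb h
    · intro x _ hx; simp [hx]
    · intro h; exact absurd ha h
  have e2 : ∑ x ∈ X, ∑ y ∈ X, (if x = b then (if y = a then 1 else 0) else 0) = 1 := by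
    rw [Finset.sum_eq_single b]
    · rw [Finset.sum_eq_single a]
      · simp
      · intro y _ hy; simp [hy]
      · intro h; exact absurd ha h
    · intro x _ hx; simp [hx]
    · intro h; exact absurd hb h
  omega

section std

variable {p : V → Fin 3 → ℝ} {C : SimpleGraph V} {ω : V → V → ℝ}

theorem fact0 (h : Std p C ω) {Z : Finset V} (hZ : Tight C Z) {y : V} (hy : y ∉ Z)
    (hy5 : dg C univ y = 5) : ∀ z ∈ Z, ∃ b, b ∉ Z ∧ C.Adj z b := by
  classical
  intro z hz
  by_contra hcon
  push Not at hcon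
  have hin : ∀ b, C.Adj z b → b ∈ Z := fun b hb => by
    by_contra hbZ
    exact hcon b hbZ hb
  -- the degree of z in Z is positive
  have hZ3 := hZ.1
  have hdZ : dg C Z z = dg C univ z := by
    unfold dg
    congr 1
    ext b
    simp only [mem_filter, mem_univ, true_and]
    exact ⟨fun h => h.2, fun h => ⟨hin b h, h⟩⟩
  have hpos : 0 < dg C univ z := by
    rcases Nat.lt_or_ge Z.card 4 with h4 | h4
    · have h3 : Z.card = 3 := by omega
      have : 0 < (Z.erase z).card := by rw [Finset.card_erase_of_mem hz]; omega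
      obtain ⟨b, hb⟩ := Finset.card_pos.1 this
      rw [Finset.mem_erase] at hb
      have hadj := tight_three hZ h3 hz hb.2 (Ne.symm hb.1)
      unfold dg
      exact Finset.card_pos.2 ⟨b, mem_filter.2 ⟨mem_univ _, hadj⟩⟩
    · have := tight_min_deg h.sparse hZ h4 hz
      omega
  have hz5 : dg C univ z = 5 := by
    rcases h.deg5 z with h0 | h5
    · omega
    · exact h5
  obtain ⟨a, b, c, d, f, hN, hab, hcd, _, hInd⟩ := good_pairs h hz5
  obtain ⟨hadj, d1, d2, d3, d4, d5, d6, d7, d8, d9, d10⟩ := hN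
  have za : C.Adj z a := (hadj a).2 (by simp)
  have zb : C.Adj z b := (hadj b).2 (by simp)
  have zc : C.Adj z c := (hadj c).2 (by simp)
  have zd : C.Adj z d := (hadj d).2 (by simp)
  set G' := addE (addE (del C z) a b) c d with hG'
  set Y := Z.erase z with hY
  have mY : ∀ x, C.Adj z x → x ∈ Y := fun x hx => mem_erase.2 ⟨hx.ne', hin x hx⟩
  have hYZ : Z = insert z Y := (insert_erase hz).symm
  have hzY : z ∉ Y := notMem_erase z Z
  have hcard : Z.card = Y.card + 1 := by
    rw [hYZ, card_insert_of_notMem hzY]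
  have hdY : dg C Y z = 5 := by
    rw [← hz5]
    unfold dg
    congr 1
    ext b
    simp only [mem_filter, mem_univ, true_and]
    exact ⟨fun h => h.2, fun h => ⟨mY b h, h⟩⟩
  have hi : i2 C Z = i2 C Y + 2 * 5 := by
    rw [hYZ, i2_insert C hzY, hdY]
  have h5 : 5 ≤ Y.card := by
    rw [← hdY]; unfold dg; exact card_le_card (filter_subset _ _)
  have hcd' : ¬ (addE (del C z) a b).Adj c d := by
    rintro (h1 | ⟨_, ⟨h1, _⟩ | ⟨h1, _⟩⟩)
    · exact hcd h1
    · exact d2 h1.symm
    · exact d5 h1.symm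
  have e1 : i2 (ins G' Y) Y = i2 C Y + 4 := by
    rw [cf3_congr (G := ins G' Y) (G' := G') (fun a ha b hb => ⟨fun h => h.1, fun h => ⟨h, ha, hb⟩⟩), hG',
      cf3_addE (mY c zc) (mY d zd) d8 hcd', cf3_addE (mY a za) (mY b zb) d1 hab,
      cf3_congr (G := del C z) (G' := C) (fun a ha b hb => ⟨fun h => h.1, fun h =>
        ⟨h, (mem_erase.1 ha).1, (mem_erase.1 hb).1⟩⟩)]
  have hT1 : Tight (ins G' Y) Y := by
    refine ⟨by omega, ?_⟩
    have := hZ.2
    rw [e1]
    omega
  have hle : out C Z ⊔ ins G' Y ≤ G' := by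
    rw [sup_le_iff]
    constructor
    · intro x w hxw
      have hxw' : C.Adj x w ∧ ¬ (x ∈ Z ∧ w ∈ Z) := hxw
      refine Or.inl (Or.inl ⟨hxw'.1, ?_, ?_⟩)
      · rintro rfl
        exact hxw'.2 ⟨hz, hin w hxw'.1⟩
      · rintro rfl
        exact hxw'.2 ⟨hin x hxw'.1.symm, hz⟩
    · intro x w hxw
      exact hxw.1
  have hI1 : Ind p (out C Z ⊔ ins G' Y) := ind_mono hInd hle
  have hlt : ins C Z < C := by
    rw [lt_iff_le_and_ne]
    refine ⟨fun x w hxw => hxw.1, fun heq => ?_⟩
    have : 0 < dg C univ y := by omega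
    unfold dg at this
    obtain ⟨w, hw⟩ := card_pos.1 this
    have hyw : C.Adj y w := (mem_filter.1 hw).2
    rw [← heq] at hyw
    exact hy hyw.2.1
  have hI2 : Ind p (ins C Z) := h.circ.min _ hlt
  have hsub := subst (R := out C Z) (T1 := ins G' Y) (T2 := ins C Z) h.gen
    (erase_subset z Z) (fun a b hh => hh.2)
    (fun a b hh haZ => mem_erase.2 ⟨by
      rintro rfl
      exact hh.2 ⟨hz, hin b hh.1⟩, haZ⟩) (fun a b hh => hh.2) (fun a b hh => hh.2) hT1 hI1 hI2
  have heq : out C Z ⊔ ins C Z = C := by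
    ext x w
    constructor
    · rintro (hh | hh)
      · exact hh.1
      · exact hh.1
    · intro hh
      by_cases hm : x ∈ Z ∧ w ∈ Z
      · exact Or.inr ⟨hh, hm⟩
      · exact Or.inl ⟨hh, hm⟩
  rw [heq] at hsub
  exact h.circ.dep hsub

end std

end H176R2.R5
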