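import Pool.Agent.H176R2.R5.G1
import Pool.Agent.H176R2.R5.G2
import Pool.Agent.H176R2.R5.CF3

set_option autoImplicit false

open Finset

namespace H176R2.R5

variable {V : Type} [Fintype V] [DecidableEq V]

/-! ### auxiliary lemmas -/

theorem st_dg_del {C : SimpleGraph V} {v a : V} {X : Finset V} (hv : v ∉ X) (ha : a ≠ v) :
    dg (del C v) X a = dg C X a := by
  classical
  unfold dg
  congr 1
  apply Finset.filter_congr
  intro b hb
  have hbv : b ≠ v := fun h => hv (h ▸ hb)
  change (C.Adj a b ∧ a ≠ v ∧ b ≠ v) ↔ C.Adj a b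
  exact ⟨fun h => h.1, fun h => ⟨h, ha, hbv⟩⟩

theorem st_i2_del {C : SimpleGraph V} {v : V} {X : Finset V} (hv : v ∉ X) :
    i2 (del C v) X = i2 C X := by
  unfold i2
  apply Finset.sum_congr rfl
  intro a ha
  exact st_dg_del hv (fun h => hv (h ▸ ha))

theorem st_dg_out {G : SimpleGraph V} {X T : Finset V} {z : V} (hd : Disjoint X T)
    (hT : ∀ b ∈ T, G.Adj z b) : dg G X z + T.card ≤ dg G univ z := by
  classical
  unfold dg
  have h1 : Disjoint (X.filter fun b => G.Adj z b) T :=
    Finset.disjoint_of_subset_left (Finset.filter_subset _ _) hd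
  rw [← Finset.card_union_of_disjoint h1]
  apply Finset.card_le_card
  intro b hb
  rcases Finset.mem_union.mp hb with h | h
  · exact Finset.mem_filter.mpr ⟨Finset.mem_univ _, (Finset.mem_filter.mp h).2⟩
  · exact Finset.mem_filter.mpr ⟨Finset.mem_univ _, hT b h⟩

theorem st_dg_le {G : SimpleGraph V} {X : Finset V} {a : V} (ha : a ∈ X) :
    dg G X a + 1 ≤ X.card := by
  classical
  unfold dg
  have h1 : (X.filter fun b => G.Adj a b) ⊆ X.erase a := by
    intro b hb
    have := (Finset.mem_filter.mp hb)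
    exact Finset.mem_erase.mpr ⟨fun h => this.2.ne h.symm, this.1⟩
  have h2 := Finset.card_le_card h1
  rw [Finset.card_erase_of_mem ha] at h2
  have h3 : 0 < X.card := Finset.card_pos.mpr ⟨a, ha⟩
  omega

theorem st_full {G : SimpleGraph V} {X : Finset V} {a : V} (ha : a ∈ X)
    (h : X.card ≤ dg G X a + 1) {b : V} (hb : b ∈ X) (hab : a ≠ b) : G.Adj a b := by
  classical
  unfold dg at h
  have h1 : (X.filter fun b => G.Adj a b) ⊆ X.erase a := by
    intro b hb
    have := (Finset.mem_filter.mp hb)
    exact Finset.mem_erase.mpr ⟨fun h => this.2.ne h.symm, this.1⟩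
  have h2 : (X.filter fun b => G.Adj a b) = X.erase a := by
    apply Finset.eq_of_subset_of_card_le h1
    rw [Finset.card_erase_of_mem ha]
    omega
  have h3 : b ∈ X.erase a := Finset.mem_erase.mpr ⟨hab.symm, hb⟩
  rw [← h2] at h3
  exact (Finset.mem_filter.mp h3).2

/-- A tight set with four elements is a `K₄`. -/
theorem st_four {G : SimpleGraph V} {X : Finset V} (hX : Tight G X) (h4 : X.card = 4)
    {a b : V} (ha : a ∈ X) (hb : b ∈ X) (hab : a ≠ b) : G.Adj a b := by
  apply st_full ha _ hb hab
  have h1 : i2 G X = 12 := by have := hX.2; omega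
  by_contra hlt
  push Not at hlt
  have h2 : i2 G X < ∑ _z ∈ X, 3 := by
    unfold i2
    apply Finset.sum_lt_sum
    · intro z hz
      have := st_dg_le (G := G) hz
      omega
    · exact ⟨a, ha, by omega⟩
  rw [Finset.sum_const, smul_eq_mul, h4] at h2
  omega

theorem st_five {p : V → Fin 3 → ℝ} {C : SimpleGraph V} {ω : V → V → ℝ} (h : Std p C ω)
    {a b : V} (hab : C.Adj a b) : dg C univ a = 5 := by
  classical
  rcases h.deg5 a with h0 | h5
  · exfalso
    unfold dg at h0
    rw [Finset.card_eq_zero] at h0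
    have : b ∈ (univ.filter fun b => C.Adj a b) := Finset.mem_filter.mpr ⟨Finset.mem_univ _, hab⟩
    rw [h0] at this
    exact absurd this (Finset.notMem_empty _)
  · exact h5

theorem st_nb {G : SimpleGraph V} {x a b c d f : V} (h5 : dg G univ x = 5) (ha : G.Adj x a)
    (hb : G.Adj x b) (hc : G.Adj x c) (hd : G.Adj x d) (hf : G.Adj x f)
    (n1 : a ≠ b) (n2 : a ≠ c) (n3 : a ≠ d) (n4 : a ≠ f) (n5 : b ≠ c) (n6 : b ≠ d) (n7 : b ≠ f)
    (n8 : c ≠ d) (n9 : c ≠ f) (n10 : d ≠ f) : Nb G x a b c d f := by
  classical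
  refine ⟨?_, n1, n2, n3, n4, n5, n6, n7, n8, n9, n10⟩
  have hcard : ({a, b, c, d, f} : Finset V).card = 5 := by
    rw [Finset.card_insert_of_notMem, Finset.card_insert_of_notMem, Finset.card_insert_of_notMem,
      Finset.card_insert_of_notMem, Finset.card_singleton]
    all_goals simp only [Finset.mem_insert, Finset.mem_singleton, not_or]
    · exact n10
    · exact ⟨n8, n9⟩
    · exact ⟨n5, n6, n7⟩
    · exact ⟨n1, n2, n3, n4⟩
  have hsub : ({a, b, c, d, f} : Finset V) ⊆ univ.filter fun b => G.Adj x b := by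
    intro z hz
    simp only [Finset.mem_insert, Finset.mem_singleton] at hz
    rw [Finset.mem_filter]
    refine ⟨Finset.mem_univ _, ?_⟩
    rcases hz with rfl | rfl | rfl | rfl | rfl <;> assumption
  have heq : ({a, b, c, d, f} : Finset V) = univ.filter fun b => G.Adj x b := by
    apply Finset.eq_of_subset_of_card_le hsub
    rw [hcard]
    unfold dg at h5
    exact h5.le
  intro z
  have : z ∈ ({a, b, c, d, f} : Finset V) ↔ z ∈ univ.filter fun b => G.Adj x b := by rw [heq]
  simpa only [Finset.mem_insert, Finset.mem_singleton, Finset.mem_filter, Finset.mem_univ,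
    true_and] using this.symm

section std

variable {p : V → Fin 3 → ℝ} {C : SimpleGraph V} {ω : V → V → ℝ}

theorem struct_B (h : Std p C ω) {v i1 i2 j1 j2 j3 : V} (hB : BV p C ω v i1 i2 j1 j2 j3) :
    (C.Adj j1 j2 ∧ C.Adj j1 j3 ∧ C.Adj j2 j3) ∨
    ∃ x m y a b c, BV p C ω v i1 i2 x m y ∧ Nb C x a b c v m ∧ Nb C y a b c v m ∧
      C.Adj a b ∧ C.Adj a c ∧ C.Adj b c ∧ ¬ C.Adj v a := by
  classical
  obtain ⟨hadj, d12, d13, d14, d15, d23, d24, d25, d34, d35, d45⟩ := hB.nb
  have vi1 : C.Adj v i1 := (hadj i1).mpr (Or.inl rfl)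
  have vi2 : C.Adj v i2 := (hadj i2).mpr (Or.inr (Or.inl rfl))
  have vj1 : C.Adj v j1 := (hadj j1).mpr (Or.inr (Or.inr (Or.inl rfl)))
  have vj2 : C.Adj v j2 := (hadj j2).mpr (Or.inr (Or.inr (Or.inr (Or.inl rfl))))
  have vj3 : C.Adj v j3 := (hadj j3).mpr (Or.inr (Or.inr (Or.inr (Or.inr rfl))))
  have hSH : Sparse (del C v) := by
    intro X hX
    have h1 := h.sparse X hX
    have h2 : H176R2.R5.i2 (del C v) X ≤ H176R2.R5.i2 C X := by
      unfold H176R2.R5.i2
      apply Finset.sum_le_sum
      intro a _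
      unfold dg
      apply Finset.card_le_card
      intro b hb
      rw [Finset.mem_filter] at hb ⊢
      exact ⟨hb.1, hb.2.1⟩
    omega
  have hdeg : ∀ j, C.Adj v j → dg (del C v) univ j ≤ 4 := by
    intro j hj
    have h5 := st_five h hj.symm
    have h1 : dg C (univ.erase v) j + ({v} : Finset V).card ≤ dg C univ j := by
      apply st_dg_out
      · rw [Finset.disjoint_singleton_right]; exact Finset.notMem_erase _ _
      · intro b hb
        rw [Finset.mem_singleton] at hb
        subst hb
        exact hj.symm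
    rw [Finset.card_singleton] at h1
    have h2 : dg (del C v) univ j ≤ dg C (univ.erase v) j := by
      unfold dg
      apply Finset.card_le_card
      intro b hb
      rw [Finset.mem_filter] at hb ⊢
      exact ⟨Finset.mem_erase.mpr ⟨hb.2.2.2, Finset.mem_univ _⟩, hb.2.1⟩
    omega
  have hvX : ∀ X : Finset V, Tight (del C v) X → 4 ≤ X.card → v ∉ X := by
    intro X hX h4 hv
    have h1 := tight_min_deg hSH hX h4 hv
    have h2 : dg (del C v) X v = 0 := by
      unfold dg
      rw [Finset.card_eq_zero, Finset.filter_eq_empty_iff]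
      intro b _ hb
      exact hb.2.1 rfl
    omega
  have hiX : ∀ X : Finset V, Tight (del C v) X → ∀ j, (j = j1 ∨ j = j2 ∨ j = j3) → j ∈ X →
      i1 ∉ X ∧ i2 ∉ X := by
    intro X hX j hj hjX
    exact ⟨fun hi => hB.cr i1 (Or.inl rfl) j hj (Or.inr ⟨X, hX, hi, hjX⟩),
      fun hi => hB.cr i2 (Or.inr rfl) j hj (Or.inr ⟨X, hX, hi, hjX⟩)⟩
  rcases blocked3 hSH d34 d35 d45 (hdeg j1 vj1) (hdeg j2 vj2) (hdeg j3 vj3) hB.b12 hB.b13 hB.b23
    with ⟨X, hX, k1, k2, k3⟩ | ⟨x, m, y, hxmy, hxm, hmy, hxy, X, hX, hxX, hyX, hmX⟩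
  · -- case (T)
    left
    suffices hall : ∀ a ∈ X, ∀ b ∈ X, a ≠ b → (del C v).Adj a b by
      exact ⟨(hall j1 k1 j2 k2 d34).1, (hall j1 k1 j3 k3 d35).1, (hall j2 k2 j3 k3 d45).1⟩
    intro a ha b hb hab
    by_cases h3 : X.card = 3
    · exact tight_three hX h3 ha hb hab
    have h4 : 4 ≤ X.card := by have := hX.1; omega
    have hv := hvX X hX h4
    obtain ⟨hi1, hi2⟩ := hiX X hX j1 (Or.inl rfl) k1
    -- the set `Z`
    have hdv : dg C X v = 3 := by
      have : (X.filter fun b => C.Adj v b) = {j1, j2, j3} := by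
        ext z
        rw [Finset.mem_filter, hadj z]
        simp only [Finset.mem_insert, Finset.mem_singleton]
        constructor
        · rintro ⟨hz, rfl | rfl | rfl | rfl | rfl⟩
          · exact absurd hz hi1
          · exact absurd hz hi2
          · exact Or.inl rfl
          · exact Or.inr (Or.inl rfl)
          · exact Or.inr (Or.inr rfl)
        · rintro (rfl | rfl | rfl)
          · exact ⟨k1, Or.inr (Or.inr (Or.inl rfl))⟩
          · exact ⟨k2, Or.inr (Or.inr (Or.inr (Or.inl rfl)))⟩
          · exact ⟨k3, Or.inr (Or.inr (Or.inr (Or.inr rfl)))⟩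
      have h' : dg C X v = (X.filter fun b => C.Adj v b).card := rfl
      rw [h', this, Finset.card_insert_of_notMem, Finset.card_insert_of_notMem,
        Finset.card_singleton]
      · simpa using d45
      · simp only [Finset.mem_insert, Finset.mem_singleton, not_or]; exact ⟨d34, d35⟩
    have hdgZ : ∀ z ∈ X, dg C (insert v X) z = dg C X z + (if C.Adj z v then 1 else 0) := by
      intro z _
      unfold dg
      rw [Finset.filter_insert]
      by_cases hz : C.Adj z v
      · rw [if_pos hz, if_pos hz, Finset.card_insert_of_notMem]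
        intro h'
        exact hv (Finset.mem_filter.mp h').1
      · rw [if_neg hz, if_neg hz, add_zero]
    have hdgZv : dg C (insert v X) v = 3 := by
      unfold dg
      rw [Finset.filter_insert, if_neg (fun h' => h'.ne rfl)]
      exact hdv
    have hsumv : ∑ z ∈ X, (if C.Adj z v then 1 else 0) = dg C X v := by
      unfold dg
      rw [Finset.card_filter]
      apply Finset.sum_congr rfl
      intro z _
      simp only [C.adj_comm z v]
    have hi2Z : H176R2.R5.i2 C (insert v X) = H176R2.R5.i2 C X + 6 := by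
      unfold H176R2.R5.i2
      rw [Finset.sum_insert hv, hdgZv, Finset.sum_congr rfl hdgZ, Finset.sum_add_distrib, hsumv,
        hdv]
      ring
    have hcardZ : (insert v X).card = X.card + 1 := Finset.card_insert_of_notMem hv
    have htX : H176R2.R5.i2 C X + 12 = 6 * X.card := by
      rw [← st_i2_del hv]; exact hX.2
    have hZ : Tight C (insert v X) := ⟨by omega, by omega⟩
    have hi1Z : i1 ∉ insert v X := by
      rw [Finset.mem_insert, not_or]
      exact ⟨vi1.ne.symm, hi1⟩
    have hf := fact0 h hZ hi1Z (st_five h vi1.symm)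
    have hle : ∀ z ∈ X, dg C (insert v X) z ≤ 4 := by
      intro z hz
      obtain ⟨b', hb', hzb⟩ := hf z (Finset.mem_insert_of_mem hz)
      have h5 := st_five h hzb
      have := st_dg_out (G := C) (X := insert v X) (T := {b'}) (z := z)
        (by rw [Finset.disjoint_singleton_right]; exact hb')
        (by intro b'' hb''; rw [Finset.mem_singleton] at hb''; subst hb''; exact hzb)
      rw [Finset.card_singleton] at this
      omega
    have hsum : H176R2.R5.i2 C (insert v X) ≤ 3 + 4 * X.card := by
      unfold H176R2.R5.i2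
      rw [Finset.sum_insert hv, hdgZv]
      have : ∑ z ∈ X, dg C (insert v X) z ≤ ∑ _z ∈ X, 4 := Finset.sum_le_sum hle
      rw [Finset.sum_const, smul_eq_mul] at this
      omega
    have hc4 : X.card = 4 := by omega
    exact st_four hX hc4 ha hb hab
  · -- case (P)
    right
    have hx : x = j1 ∨ x = j2 ∨ x = j3 := (hxmy x).mpr (Or.inl rfl)
    have hm : m = j1 ∨ m = j2 ∨ m = j3 := (hxmy m).mpr (Or.inr (Or.inl rfl))
    have hy : y = j1 ∨ y = j2 ∨ y = j3 := (hxmy y).mpr (Or.inr (Or.inr rfl))
    have nxm : x ≠ m := hxm.1.ne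
    have nmy : m ≠ y := hmy.1.ne
    have nxy : x ≠ y := by
      intro hxy'
      subst hxy'
      have e1 := (hxmy j1).mp (Or.inl rfl)
      have e2 := (hxmy j2).mp (Or.inr (Or.inl rfl))
      have e3 := (hxmy j3).mp (Or.inr (Or.inr rfl))
      rcases e1 with e1 | e1 | e1 <;> rcases e2 with e2 | e2 | e2 <;>
        rcases e3 with e3 | e3 | e3 <;>
        first
          | exact d34 (e1.trans e2.symm)
          | exact d35 (e1.trans e3.symm)
          | exact d45 (e2.trans e3.symm)
    have vx : C.Adj v x := (hadj x).mpr (Or.inr (Or.inr hx))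
    have vm : C.Adj v m := (hadj m).mpr (Or.inr (Or.inr hm))
    have vy : C.Adj v y := (hadj y).mpr (Or.inr (Or.inr hy))
    have hn3 : X.card ≠ 3 := fun h3 => hxy (tight_three hX h3 hxX hyX nxy)
    have hn4 : X.card ≠ 4 := fun h4 => hxy (st_four hX h4 hxX hyX nxy)
    have h5 : 5 ≤ X.card := by have := hX.1; omega
    have hv := hvX X hX (by omega)
    obtain ⟨hi1, hi2⟩ := hiX X hX x hx hxX
    have htX : H176R2.R5.i2 C X + 12 = 6 * X.card := by
      rw [← st_i2_del hv]; exact hX.2
    have hXC : Tight C X := ⟨by omega, htX⟩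
    have hf := fact0 h hXC hmX (st_five h vm.symm)
    have hle : ∀ z ∈ X, dg C X z ≤ 4 := by
      intro z hz
      obtain ⟨b', hb', hzb⟩ := hf z hz
      have h5 := st_five h hzb
      have := st_dg_out (G := C) (X := X) (T := {b'}) (z := z)
        (by rw [Finset.disjoint_singleton_right]; exact hb')
        (by intro b'' hb''; rw [Finset.mem_singleton] at hb''; subst hb''; exact hzb)
      rw [Finset.card_singleton] at this
      omega
    have hle3 : ∀ z, C.Adj z v → C.Adj z m → dg C X z ≤ 3 := by
      intro z hzv hzm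
      have h5 := st_five h hzv
      have := st_dg_out (G := C) (X := X) (T := {v, m}) (z := z)
        (by
          rw [Finset.disjoint_right]
          intro w hw
          rw [Finset.mem_insert, Finset.mem_singleton] at hw
          rcases hw with rfl | rfl
          · exact hv
          · exact hmX)
        (by
          intro w hw
          rw [Finset.mem_insert, Finset.mem_singleton] at hw
          rcases hw with rfl | rfl
          · exact hzv
          · exact hzm)
      rw [Finset.card_pair vm.ne] at this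
      omega
    have hx3 := hle3 x vx.symm hxm.1
    have hy3 := hle3 y vy.symm hmy.1.symm
    set R := (X.erase x).erase y with hR
    have hyE : y ∈ X.erase x := Finset.mem_erase.mpr ⟨nxy.symm, hyX⟩
    have hcR : R.card + 2 = X.card := by
      rw [hR, Finset.card_erase_of_mem hyE, Finset.card_erase_of_mem hxX]
      omega
    have hsplit : H176R2.R5.i2 C X = dg C X x + (dg C X y + ∑ z ∈ R, dg C X z) := by
      unfold H176R2.R5.i2
      rw [hR, Finset.add_sum_erase _ _ hyE, Finset.add_sum_erase _ _ hxX]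
    have hRX : ∀ z ∈ R, z ∈ X ∧ z ≠ x ∧ z ≠ y := by
      intro z hz
      rw [hR, Finset.mem_erase, Finset.mem_erase] at hz
      exact ⟨hz.2.2, hz.2.1, hz.1⟩
    have hsR : ∑ z ∈ R, dg C X z ≤ ∑ _z ∈ R, 4 := Finset.sum_le_sum (fun z hz => hle z (hRX z hz).1)
    have hsR' : ∑ _z ∈ R, 4 = 4 * R.card := by rw [Finset.sum_const, smul_eq_mul, mul_comm]
    rw [hsR'] at hsR
    have hc5 : X.card = 5 := by omega
    have hR3 : R.card = 3 := by omega
    have hdR : ∀ z ∈ R, dg C X z = 4 := by
      intro z hz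
      by_contra hne
      have hlt : dg C X z < 4 := lt_of_le_of_ne (hle z (hRX z hz).1) hne
      have : ∑ z ∈ R, dg C X z < ∑ _z ∈ R, 4 :=
        Finset.sum_lt_sum (fun z hz => hle z (hRX z hz).1) ⟨z, hz, hlt⟩
      rw [hsR'] at this
      omega
    have hfull : ∀ z ∈ R, ∀ w ∈ X, z ≠ w → C.Adj z w := by
      intro z hz w hw hzw
      exact st_full (hRX z hz).1 (by rw [hdR z hz, hc5]) hw hzw
    obtain ⟨a, b, c, nab, nac, nbc, hRabc⟩ := Finset.card_eq_three.mp hR3
    have haR : a ∈ R := by rw [hRabc]; simp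
    have hbR : b ∈ R := by rw [hRabc]; simp
    have hcR' : c ∈ R := by rw [hRabc]; simp
    obtain ⟨haX, hax, hay⟩ := hRX a haR
    obtain ⟨hbX, hbx, hby⟩ := hRX b hbR
    obtain ⟨hcX, hcx, hcy⟩ := hRX c hcR'
    have hav : a ≠ v := fun h' => hv (h' ▸ haX)
    have hbv : b ≠ v := fun h' => hv (h' ▸ hbX)
    have hcv : c ≠ v := fun h' => hv (h' ▸ hcX)
    have ham : a ≠ m := fun h' => hmX (h' ▸ haX)
    have hbm : b ≠ m := fun h' => hmX (h' ▸ hbX)
    have hcm : c ≠ m := fun h' => hmX (h' ▸ hcX)
    have hai1 : a ≠ i1 := fun h' => hi1 (h' ▸ haX)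
    have hai2 : a ≠ i2 := fun h' => hi2 (h' ▸ haX)
    refine ⟨x, m, y, a, b, c, ?_, ?_, ?_, hfull a haR b hbX nab, hfull a haR c hcX nac,
      hfull b hbR c hcX nbc, ?_⟩
    · refine ⟨?_, hB.bI, Or.inl hxm, Or.inr ⟨X, hX, hxX, hyX⟩, Or.inl hmy, ?_, hB.sum, hB.rho, ?_⟩
      · exact st_nb (st_five h vi1) vi1 vi2 vx vm vy d12
          (by rcases hx with rfl | rfl | rfl <;> assumption)
          (by rcases hm with rfl | rfl | rfl <;> assumption)
          (by rcases hy with rfl | rfl | rfl <;> assumption)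
          (by rcases hx with rfl | rfl | rfl <;> assumption)
          (by rcases hm with rfl | rfl | rfl <;> assumption)
          (by rcases hy with rfl | rfl | rfl <;> assumption)
          nxm nxy nmy
      · intro i hi j hj
        exact hB.cr i hi j ((hxmy j).mpr hj)
      · intro j hj
        exact hB.rhoj j ((hxmy j).mpr hj)
    · exact st_nb (st_five h vx.symm) (hfull a haR x hxX hax).symm (hfull b hbR x hxX hbx).symm
        (hfull c hcR' x hxX hcx).symm vx.symm hxm.1 nab nac hav ham nbc hbv hbm hcv hcm vm.ne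
    · exact st_nb (st_five h vy.symm) (hfull a haR y hyX hay).symm (hfull b hbR y hyX hby).symm
        (hfull c hcR' y hyX hcy).symm vy.symm hmy.1.symm nab nac hav ham nbc hbv hbm hcv hcm vm.ne
    · intro hva
      rcases (hadj a).mp hva with e | e | e | e | e
      · exact hai1 e
      · exact hai2 e
      · rcases (hxmy a).mp (Or.inl e) with e | e | e
        · exact hax e
        · exact ham e
        · exact hay e
      · rcases (hxmy a).mp (Or.inr (Or.inl e)) with e | e | e
        · exact hax e
        · exact ham e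
        · exact hay e
      · rcases (hxmy a).mp (Or.inr (Or.inr e)) with e | e | e
        · exact hax e
        · exact ham e
        · exact hay e

end std

end H176R2.R5
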