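import Pool.Agent.H176R2.R5.GN1
import Pool.Agent.H176R2.R5.GN2
import Pool.Agent.H176R2.R5.RR

/-! XA: no vertex of type B with a triangle of type A neighbours. -/

set_option autoImplicit false

open Finset

namespace H176R2.R5

variable {V : Type} [Fintype V] [DecidableEq V]

namespace XA

theorem nb_of_three (C : SimpleGraph V) {a x y z : V} (h5 : dg C univ a = 5) (hx : C.Adj a x)
    (hy : C.Adj a y) (hz : C.Adj a z) (hxy : x ≠ y) (hxz : x ≠ z) (hyz : y ≠ z) :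
    ∃ s t, Nb C a x y z s t := by
  classical
  unfold dg at h5
  set N := (univ : Finset V).filter (fun b => C.Adj a b) with hN
  have hmem : ∀ b, b ∈ N ↔ C.Adj a b := fun b => by simp [hN]
  have hsub : ({x, y, z} : Finset V) ⊆ N := by
    intro b hb
    simp only [Finset.mem_insert, Finset.mem_singleton] at hb
    rw [hmem]
    rcases hb with rfl | rfl | rfl <;> assumption
  have h3 : ({x, y, z} : Finset V).card = 3 := by
    rw [Finset.card_eq_three]
    exact ⟨x, y, z, hxy, hxz, hyz, rfl⟩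
  have h2 : (N \ {x, y, z}).card = 2 := by
    have h5' : N.card = 5 := by convert h5
    rw [Finset.card_sdiff_of_subset hsub, h3, h5']
  obtain ⟨s, t, hst, hN2⟩ := Finset.card_eq_two.1 h2
  have hs : s ∈ N \ {x, y, z} := by rw [hN2]; simp
  have ht : t ∈ N \ {x, y, z} := by rw [hN2]; simp
  simp only [Finset.mem_sdiff, Finset.mem_insert, Finset.mem_singleton, not_or] at hs ht
  refine ⟨s, t, ?_, hxy, hxz, Ne.symm hs.2.1, Ne.symm ht.2.1, hyz, Ne.symm hs.2.2.1,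
    Ne.symm ht.2.2.1, Ne.symm hs.2.2.2, Ne.symm ht.2.2.2, hst⟩
  intro b
  constructor
  · intro hb
    by_cases h : b ∈ ({x, y, z} : Finset V)
    · simp only [Finset.mem_insert, Finset.mem_singleton] at h
      tauto
    · have : b ∈ N \ {x, y, z} := Finset.mem_sdiff.2 ⟨(hmem b).2 hb, h⟩
      rw [hN2] at this
      simp only [Finset.mem_insert, Finset.mem_singleton] at this
      tauto
  · rintro (rfl | rfl | rfl | rfl | rfl)
    · exact hx
    · exact hy
    · exact hz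
    · exact (hmem _).1 hs.1
    · exact (hmem _).1 ht.1

theorem br_expand (A B C D : Fin 4 → ℝ) : br A B C D =
    A 0 * (B 1 * (C 2 * D 3 - C 3 * D 2) - B 2 * (C 1 * D 3 - C 3 * D 1) + B 3 * (C 1 * D 2 - C 2 * D 1))
    - A 1 * (B 0 * (C 2 * D 3 - C 3 * D 2) - B 2 * (C 0 * D 3 - C 3 * D 0) + B 3 * (C 0 * D 2 - C 2 * D 0))
    + A 2 * (B 0 * (C 1 * D 3 - C 3 * D 1) - B 1 * (C 0 * D 3 - C 3 * D 0) + B 3 * (C 0 * D 1 - C 1 * D 0))
    - A 3 * (B 0 * (C 1 * D 2 - C 2 * D 1) - B 1 * (C 0 * D 2 - C 2 * D 0) + B 2 * (C 0 * D 1 - C 1 * D 0)) := by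
  unfold br
  rw [Matrix.det_succ_row_zero]
  simp [Fin.sum_univ_succ, Matrix.det_fin_three, Matrix.submatrix_apply, Fin.succAbove]
  ring

theorem br_rot (A B C D : Fin 4 → ℝ) : br A B C D = br C A B D := by
  rw [br_expand, br_expand]; ring

theorem br_self (A C D : Fin 4 → ℝ) : br A A C D = 0 := by
  rw [br_expand]; ring

theorem nb_ne {C : SimpleGraph V} {v a b c d f : V} (h : Nb C v a b c d f) :
    v ≠ a ∧ v ≠ b ∧ v ≠ c ∧ v ≠ d ∧ v ≠ f := by
  refine ⟨((h.1 a).2 ?_).ne, ((h.1 b).2 ?_).ne, ((h.1 c).2 ?_).ne, ((h.1 d).2 ?_).ne,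
    ((h.1 f).2 ?_).ne⟩ <;> simp

end XA

open XA

variable {p : V → Fin 3 → ℝ} {C : SimpleGraph V} {ω : V → V → ℝ}

theorem noB_AA (h : Std p C ω) {v i1 i2 j1 j2 j3 : V} (hB : BV p C ω v i1 i2 j1 j2 j3)
    (h12 : C.Adj j1 j2) (h13 : C.Adj j1 j3) (h23 : C.Adj j2 j3) (hA1 : ∑ x, ω j1 x = 0)
    (hA2 : ∑ x, ω j2 x = 0) : False := by
  obtain ⟨hnb, n12, n13, n14, n15, n23, n24, n25, n34, n35, n45⟩ := hB.nb
  obtain ⟨v1, v2, v3, v4, v5⟩ := nb_ne hB.nb
  have a3 : C.Adj v j1 := (hnb j1).2 (by simp)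
  have a4 : C.Adj v j2 := (hnb j2).2 (by simp)
  have a5 : C.Adj v j3 := (hnb j3).2 (by simp)
  have ai2 : C.Adj v i2 := (hnb i2).2 (by simp)
  have deg : ∀ a b, C.Adj a b → dg C univ a = 5 := by
    intro a b hab
    rcases h.deg5 a with h0 | h0
    · exfalso
      classical
      unfold dg at h0
      rw [Finset.card_eq_zero] at h0
      have : b ∈ (univ : Finset V).filter (fun b => C.Adj a b) := by simpa using hab
      rw [Finset.filter_eq_empty_iff] at h0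
      exact h0 (Finset.mem_univ b) hab
    · exact h0
  obtain ⟨s, t, hN1⟩ := nb_of_three C (deg j1 j2 h12) a3.symm h12 h13 v4 v5 n45
  obtain ⟨s', t', hN2⟩ := nb_of_three C (deg j2 j1 h12.symm) a4.symm h12.symm h23 v3 v5 n35
  have hi2 : ω v i2 ≠ 0 := h.ne v i2 ai2
  have e1 := RB h.stress hB.nb hi2
  have e2 := RA h.stress hN1 hA1
  have e3 := RA h.stress hN2 hA2
  rw [h.stress.symm j1 v, ] at e2
  rw [h.stress.symm j2 v, h.stress.symm j2 j1] at e3
  have hc : ω j1 j2 ≠ 0 := h.ne j1 j2 h12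
  obtain ⟨_, _, m1, m2, m3, m4, m5, m6, m7, m8, m9⟩ := hN1
  obtain ⟨k1, k2, k3, k4, k5⟩ := nb_ne hN2
  obtain ⟨_, _, l1, l2, l3, l4, l5, l6, l7, l8, l9⟩ := hN2
  have key : br (hat (p j2)) (hat (p j3)) (hat (p s)) (hat (p t)) *
      br (hat (p v)) (hat (p j3)) (hat (p s')) (hat (p t')) *
      br (hat (p j1)) (hat (p v)) (zz p ω v i1 i2) (hat (p j3)) +
      br (hat (p j1)) (hat (p j3)) (hat (p s')) (hat (p t')) *
      br (hat (p v)) (hat (p j3)) (hat (p s)) (hat (p t)) *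
      br (hat (p j2)) (hat (p v)) (zz p ω v i1 i2) (hat (p j3)) = 0 := by
    apply mul_left_cancel₀ hc
    rw [mul_zero]
    linear_combination
      (-(br (hat (p v)) (hat (p j3)) (hat (p s)) (hat (p t)) *
        br (hat (p v)) (hat (p j3)) (hat (p s')) (hat (p t')))) * e1 +
      br (hat (p v)) (hat (p j3)) (hat (p s')) (hat (p t')) *
        br (hat (p j1)) (hat (p v)) (zz p ω v i1 i2) (hat (p j3)) * e2 +
      br (hat (p v)) (hat (p j3)) (hat (p s)) (hat (p t)) *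
        br (hat (p j2)) (hat (p v)) (zz p ω v i1 i2) (hat (p j3)) * e3
  have hzz : ∀ i, PF (Fd p {v}ᶜ) (fun _ => zz p ω v i1 i2 i) := by
    intro i
    unfold zz
    exact PF.add (PF.mul (PF.const hB.rho) (PF.hatc p (by simpa using v1.symm) i))
      (PF.hatc p (by simpa using v2.symm) i)
  have hcc : ∀ w, w ≠ v → ∀ i, PF (Fd p {v}ᶜ) (fun _ => hat (p w) i) := by
    intro w hw i
    exact PF.hatc p (by simpa using hw) i
  have hh : ∀ i, PF (Fd p {v}ᶜ) (fun ξ => hat ξ i) := fun i => PF.hat _ i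
  have hPF : PF (Fd p {v}ᶜ) (fun ξ =>
      br (hat (p j2)) (hat (p j3)) (hat (p s)) (hat (p t)) *
      br (hat ξ) (hat (p j3)) (hat (p s')) (hat (p t')) *
      br (hat (p j1)) (hat ξ) (zz p ω v i1 i2) (hat (p j3)) +
      br (hat (p j1)) (hat (p j3)) (hat (p s')) (hat (p t')) *
      br (hat ξ) (hat (p j3)) (hat (p s)) (hat (p t)) *
      br (hat (p j2)) (hat ξ) (zz p ω v i1 i2) (hat (p j3))) := by
    refine PF.add (PF.mul (PF.mul ?_ ?_) ?_) (PF.mul (PF.mul ?_ ?_) ?_)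
    · exact PF.br (hcc _ v4.symm) (hcc _ v5.symm) (hcc _ m2.symm) (hcc _ m3.symm)
    · exact PF.br hh (hcc _ v5.symm) (hcc _ l2.symm) (hcc _ l3.symm)
    · exact PF.br (hcc _ v3.symm) hh hzz (hcc _ v5.symm)
    · exact PF.br (hcc _ v3.symm) (hcc _ v5.symm) (hcc _ l2.symm) (hcc _ l3.symm)
    · exact PF.br hh (hcc _ v5.symm) (hcc _ m2.symm) (hcc _ m3.symm)
    · exact PF.br (hcc _ v4.symm) hh hzz (hcc _ v5.symm)
  have hall := gen_zero h.gen (S := {v}ᶜ) (v := v) (by simp) hPF key (p j2)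
  simp only [br_self, mul_zero, add_zero] at hall
  have g1 : br (hat (p j2)) (hat (p j3)) (hat (p s)) (hat (p t)) ≠ 0 :=
    br_ne h.gen m4 m5 m6 m7 m8 m9
  have g2 : br (hat (p j2)) (hat (p j3)) (hat (p s')) (hat (p t')) ≠ 0 :=
    br_ne h.gen k3 k4 k5 l7 l8 l9
  have g3 : br (hat (p j1)) (hat (p j2)) (zz p ω v i1 i2) (hat (p j3)) ≠ 0 := by
    rw [br_rot]
    exact RBne h.gen h.stress hB.nb hi2 hB.sum
  exact mul_ne_zero (mul_ne_zero g1 g2) g3 hall

end H176R2.R5
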