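import Pool.Agent.H176R2.R5.Defs
import Pool.Agent.H176R2.R5.GN1
import Pool.Agent.H176R2.R5.GN2
import Pool.Agent.H176R2.R5.RR

set_option autoImplicit false
set_option linter.unusedSectionVars false

open Finset

namespace H176R2.R5

variable {V : Type} [Fintype V] [DecidableEq V]

namespace XBaux

theorem xb_br_eq (A B C D : Fin 4 → ℝ) : br A B C D =
    A 0 * (B 1 * (C 2 * D 3 - C 3 * D 2) - B 2 * (C 1 * D 3 - C 3 * D 1) +
      B 3 * (C 1 * D 2 - C 2 * D 1)) -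
    A 1 * (B 0 * (C 2 * D 3 - C 3 * D 2) - B 2 * (C 0 * D 3 - C 3 * D 0) +
      B 3 * (C 0 * D 2 - C 2 * D 0)) +
    A 2 * (B 0 * (C 1 * D 3 - C 3 * D 1) - B 1 * (C 0 * D 3 - C 3 * D 0) +
      B 3 * (C 0 * D 1 - C 1 * D 0)) -
    A 3 * (B 0 * (C 1 * D 2 - C 2 * D 1) - B 1 * (C 0 * D 2 - C 2 * D 0) +
      B 2 * (C 0 * D 1 - C 1 * D 0)) := by
  unfold br
  rw [Matrix.det_succ_row_zero]
  simp [Fin.sum_univ_succ, Matrix.det_fin_three, Fin.succAbove]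
  ring

theorem xb_smul2 (c : ℝ) (A B C D : Fin 4 → ℝ) :
    br A (fun k => c * B k) C D = c * br A B C D := by
  simp only [xb_br_eq]; ring

theorem xb_smul1 (c : ℝ) (A B C D : Fin 4 → ℝ) :
    br (fun k => c * A k) B C D = c * br A B C D := by
  simp only [xb_br_eq]; ring

/-- every vector with nonzero first coordinate is a multiple of a homogeneous coordinate vector -/
theorem xb_exists_hat (X : Fin 4 → ℝ) (hX : X 0 ≠ 0) : ∃ ξ : Fin 3 → ℝ, X = fun k => X 0 * hat ξ k := by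
  refine ⟨![X 1 / X 0, X 2 / X 0, X 3 / X 0], ?_⟩
  funext k
  fin_cases k
  · simp [hat]
  · simp [hat]; field_simp
  · simp [hat]; field_simp
  · simp [hat]; field_simp

theorem xb_Fd_mono (p : V → Fin 3 → ℝ) {S T : Set V} (h : S ⊆ T) {x : ℝ} (hx : x ∈ Fd p S) :
    x ∈ Fd p T := by
  have : Fd p S ≤ Fd p T := by
    unfold Fd
    apply IntermediateField.adjoin.mono
    rintro y ⟨w, hw, i, rfl⟩
    exact ⟨w, h hw, i, rfl⟩
  exact this hx

theorem xb_pf_zz {p : V → Fin 3 → ℝ} {ω : V → V → ℝ} {v i1 i2 : V} {S : Set V}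
    (hρ : ω v i1 / ω v i2 ∈ Fd p S) (h1 : i1 ∈ S) (h2 : i2 ∈ S) (k : Fin 4) :
    PF (Fd p S) (fun _ => zz p ω v i1 i2 k) := by
  unfold zz
  exact PF.add (PF.mul (PF.const hρ) (PF.hatc p h1 k)) (PF.hatc p h2 k)

end XBaux

open XBaux

section std

variable {p : V → Fin 3 → ℝ} {C : SimpleGraph V} {ω : V → V → ℝ}

theorem noB_BB (h : Std p C ω) {v i1 i2 j1 j2 j3 s t s' t' : V}
    (hB : BV p C ω v i1 i2 j1 j2 j3) (hB1 : BV p C ω j1 s t v j2 j3)
    (hB2 : BV p C ω j2 s' t' v j1 j3) : False := by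
  have hp := h.gen
  -- adjacencies and distinctness
  have vi1 : C.Adj v i1 := (hB.nb.1 i1).2 (by simp)
  have vi2 : C.Adj v i2 := (hB.nb.1 i2).2 (by simp)
  have vj1 : C.Adj v j1 := (hB.nb.1 j1).2 (by simp)
  have vj2 : C.Adj v j2 := (hB.nb.1 j2).2 (by simp)
  have vj3 : C.Adj v j3 := (hB.nb.1 j3).2 (by simp)
  have js : C.Adj j1 s := (hB1.nb.1 s).2 (by simp)
  have jt : C.Adj j1 t := (hB1.nb.1 t).2 (by simp)
  have j12 : C.Adj j1 j2 := (hB1.nb.1 j2).2 (by simp)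
  have j13 : C.Adj j1 j3 := (hB1.nb.1 j3).2 (by simp)
  have js' : C.Adj j2 s' := (hB2.nb.1 s').2 (by simp)
  have jt' : C.Adj j2 t' := (hB2.nb.1 t').2 (by simp)
  have j23 : C.Adj j2 j3 := (hB2.nb.1 j3).2 (by simp)
  obtain ⟨_, a1, a2, a3, a4, a5, a6, a7, a8, a9, a10⟩ := hB.nb
  obtain ⟨_, b1, b2, b3, b4, b5, b6, b7, b8, b9, b10⟩ := hB1.nb
  obtain ⟨_, c1, c2, c3, c4, c5, c6, c7, c8, c9, c10⟩ := hB2.nb
  set z := zz p ω v i1 i2 with hz
  set z1 := zz p ω j1 s t with hz1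
  set z2 := zz p ω j2 s' t' with hz2
  have e0 := RB h.stress hB.nb (h.ne _ _ vi2)
  have e1 := RB h.stress hB1.nb (h.ne _ _ jt)
  have e2 := RB h.stress hB2.nb (h.ne _ _ jt')
  rw [← hz] at e0
  rw [← hz1] at e1
  rw [← hz2] at e2
  have hne0 := RBne hp h.stress hB.nb (h.ne _ _ vi2) hB.sum
  have hne2 := RBne hp h.stress hB2.nb (h.ne _ _ jt') hB2.sum
  rw [← hz] at hne0
  rw [← hz2] at hne2
  have s1 : ω j1 v = ω v j1 := h.stress.symm _ _
  have s2 : ω j2 v = ω v j2 := h.stress.symm _ _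
  have s3 : ω j2 j1 = ω j1 j2 := h.stress.symm _ _
  rw [s1] at e1
  rw [s2, s3] at e2
  have nβ : ω v j2 ≠ 0 := h.ne _ _ vj2
  -- the identity at `p v`
  have id0 : br (hat (p j2)) (hat (p v)) z (hat (p j3)) *
      br (hat (p v)) (hat (p j1)) z1 (hat (p j3)) *
      br (hat (p j1)) (hat (p j2)) z2 (hat (p j3)) +
      br (hat (p j1)) (hat (p v)) z (hat (p j3)) *
      br (hat (p v)) (hat (p j2)) z2 (hat (p j3)) *
      br (hat (p j2)) (hat (p j1)) z1 (hat (p j3)) = 0 := by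
    generalize br (hat (p j2)) (hat (p v)) z (hat (p j3)) = A at *
    generalize br (hat (p v)) (hat (p j1)) z1 (hat (p j3)) = B at *
    generalize br (hat (p j1)) (hat (p j2)) z2 (hat (p j3)) = E at *
    generalize br (hat (p j1)) (hat (p v)) z (hat (p j3)) = A' at *
    generalize br (hat (p v)) (hat (p j2)) z2 (hat (p j3)) = E' at *
    generalize br (hat (p j2)) (hat (p j1)) z1 (hat (p j3)) = B' at *
    have : ω v j2 * (A * B * E + A' * E' * B') = 0 := by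
      linear_combination (B * E) * e0 - (A' * E) * e1 + (A' * B') * e2
    exact (mul_eq_zero.1 this).resolve_left nβ
  -- it holds for all positions of `v`
  have hvS : v ∉ ({v}ᶜ : Set V) := fun hh => hh rfl
  have mem : ∀ w, w ≠ v → w ∈ ({v}ᶜ : Set V) := fun w hw hh => hw hh
  have zv : ∀ k, PF (Fd p {v}ᶜ) (fun _ => z k) := fun k =>
    xb_pf_zz hB.rho (mem _ vi1.ne') (mem _ vi2.ne') k
  have sub1 : ({j1, v}ᶜ : Set V) ⊆ {v}ᶜ := fun w hw hh => hw (Or.inr hh)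
  have sub2 : ({j2, v}ᶜ : Set V) ⊆ {v}ᶜ := fun w hw hh => hw (Or.inr hh)
  have z1v : ∀ k, PF (Fd p {v}ᶜ) (fun _ => z1 k) := fun k =>
    xb_pf_zz (xb_Fd_mono p sub1 (hB1.rhoj v (Or.inl rfl))) (mem _ b2) (mem _ b5) k
  have z2v : ∀ k, PF (Fd p {v}ᶜ) (fun _ => z2 k) := fun k =>
    xb_pf_zz (xb_Fd_mono p sub2 (hB2.rhoj v (Or.inl rfl))) (mem _ c2) (mem _ c5) k
  have hc : ∀ w, w ≠ v → ∀ k, PF (Fd p {v}ᶜ) (fun _ => hat (p w) k) := fun w hw k =>
    PF.hatc p (mem w hw) k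
  have id1 := gen_zero hp hvS (f := fun ξ => br (hat (p j2)) (hat ξ) z (hat (p j3)) *
      br (hat ξ) (hat (p j1)) z1 (hat (p j3)) *
      br (hat (p j1)) (hat (p j2)) z2 (hat (p j3)) +
      br (hat (p j1)) (hat ξ) z (hat (p j3)) *
      br (hat ξ) (hat (p j2)) z2 (hat (p j3)) *
      br (hat (p j2)) (hat (p j1)) z1 (hat (p j3)))
    (PF.add (PF.mul (PF.mul
      (PF.br (A := fun _ => hat (p j2)) (B := fun ξ => hat ξ) (C := fun _ => z)
        (D := fun _ => hat (p j3)) (hc _ vj2.ne') (PF.hat _) zv (hc _ vj3.ne'))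
      (PF.br (A := fun ξ => hat ξ) (B := fun _ => hat (p j1)) (C := fun _ => z1)
        (D := fun _ => hat (p j3)) (PF.hat _) (hc _ vj1.ne') z1v (hc _ vj3.ne')))
      (PF.br (A := fun _ => hat (p j1)) (B := fun _ => hat (p j2)) (C := fun _ => z2)
        (D := fun _ => hat (p j3)) (hc _ vj1.ne') (hc _ vj2.ne') z2v (hc _ vj3.ne')))
      (PF.mul (PF.mul
      (PF.br (A := fun _ => hat (p j1)) (B := fun ξ => hat ξ) (C := fun _ => z)
        (D := fun _ => hat (p j3)) (hc _ vj1.ne') (PF.hat _) zv (hc _ vj3.ne'))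
      (PF.br (A := fun ξ => hat ξ) (B := fun _ => hat (p j2)) (C := fun _ => z2)
        (D := fun _ => hat (p j3)) (PF.hat _) (hc _ vj2.ne') z2v (hc _ vj3.ne')))
      (PF.br (A := fun _ => hat (p j2)) (B := fun _ => hat (p j1)) (C := fun _ => z1)
        (D := fun _ => hat (p j3)) (hc _ vj2.ne') (hc _ vj1.ne') z1v (hc _ vj3.ne')))) id0
  have id2 : ∀ X : Fin 4 → ℝ, X 0 ≠ 0 → br (hat (p j2)) X z (hat (p j3)) *
      br X (hat (p j1)) z1 (hat (p j3)) *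
      br (hat (p j1)) (hat (p j2)) z2 (hat (p j3)) +
      br (hat (p j1)) X z (hat (p j3)) *
      br X (hat (p j2)) z2 (hat (p j3)) *
      br (hat (p j2)) (hat (p j1)) z1 (hat (p j3)) = 0 := by
    intro X hX
    obtain ⟨ξ, hξ⟩ := xb_exists_hat X hX
    have := id1 ξ
    rw [hξ, xb_smul2, xb_smul2, xb_smul1, xb_smul1]
    generalize X 0 = x0
    linear_combination (x0 * x0) * this
  -- `[j1,j2,z2,j3] ≠ 0`
  have hj2S : j2 ∉ ({j2}ᶜ : Set V) := fun hh => hh rfl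
  have mem2 : ∀ w, w ≠ j2 → w ∈ ({j2}ᶜ : Set V) := fun w hw hh => hw hh
  have n2 : br (hat (p j1)) (hat (p j2)) z2 (hat (p j3)) ≠ 0 := by
    intro h0
    have := gen_zero hp hj2S (f := fun ξ => br (hat (p j1)) (hat ξ) z2 (hat (p j3)))
      (PF.br (A := fun _ => hat (p j1)) (B := fun ξ => hat ξ) (C := fun _ => z2)
        (D := fun _ => hat (p j3)) (PF.hatc p (mem2 _ j12.ne)) (PF.hat _)
        (xb_pf_zz hB2.rho (mem2 _ js'.ne') (mem2 _ jt'.ne')) (PF.hatc p (mem2 _ j23.ne'))) h0 (p v)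
    apply hne2
    have e : br z2 (hat (p v)) (hat (p j1)) (hat (p j3)) =
        - br (hat (p j1)) (hat (p v)) z2 (hat (p j3)) := by
      simp only [xb_br_eq]; ring
    rw [e, this, neg_zero]
  -- the special point
  have hs0 : ∃ s0 : ℝ, s0 ≠ 0 ∧ 1 + s0 * z 0 ≠ 0 := by
    by_cases h1 : 1 + z 0 = 0
    · refine ⟨2, by norm_num, ?_⟩
      intro h2
      have : z 0 = -1 := by linarith
      rw [this] at h2
      norm_num at h2
    · exact ⟨1, one_ne_zero, by rwa [one_mul]⟩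
  obtain ⟨s0, hs0, hs1⟩ := hs0
  have hat0 : ∀ x, hat x 0 = 1 := fun x => rfl
  have id3 := id2 (fun k => hat (p j1) k + s0 * z k) (by
    show hat (p j1) 0 + s0 * z 0 ≠ 0
    rw [hat0]; exact hs1)
  have r1 : br (hat (p j1)) (fun k => hat (p j1) k + s0 * z k) z (hat (p j3)) = 0 := by
    simp only [xb_br_eq]; ring
  have r2 : br (hat (p j2)) (fun k => hat (p j1) k + s0 * z k) z (hat (p j3)) =
      - br z (hat (p j1)) (hat (p j2)) (hat (p j3)) := by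
    simp only [xb_br_eq]; ring
  have r3 : br (fun k => hat (p j1) k + s0 * z k) (hat (p j1)) z1 (hat (p j3)) =
      s0 * br z (hat (p j1)) z1 (hat (p j3)) := by
    simp only [xb_br_eq]; ring
  rw [r1, r2, r3] at id3
  have hz0 : br z (hat (p j1)) z1 (hat (p j3)) = 0 := by
    have : (br z (hat (p j1)) (hat (p j2)) (hat (p j3)) *
        s0 * br (hat (p j1)) (hat (p j2)) z2 (hat (p j3))) *
        br z (hat (p j1)) z1 (hat (p j3)) = 0 := by linear_combination -id3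
    exact (mul_eq_zero.1 this).resolve_left (mul_ne_zero (mul_ne_zero hne0 hs0) n2)
  -- for all positions of `j1`
  have hj1S : j1 ∉ ({j1}ᶜ : Set V) := fun hh => hh rfl
  have mem1 : ∀ w, w ≠ j1 → w ∈ ({j1}ᶜ : Set V) := fun w hw hh => hw hh
  have sub3 : ({v, j1}ᶜ : Set V) ⊆ {j1}ᶜ := fun w hw hh => hw (Or.inr hh)
  have hy := gen_zero hp hj1S (f := fun ξ => br z (hat ξ) z1 (hat (p j3)))
    (PF.br (A := fun _ => z) (B := fun ξ => hat ξ) (C := fun _ => z1)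
      (D := fun _ => hat (p j3))
      (xb_pf_zz (xb_Fd_mono p sub3 (hB.rhoj j1 (Or.inl rfl))) (mem1 _ a2) (mem1 _ a5)) (PF.hat _)
      (xb_pf_zz hB1.rho (mem1 _ js.ne') (mem1 _ jt.ne')) (PF.hatc p (mem1 _ j13.ne'))) hz0 (p s)
  -- for all positions of `j3`
  have hj3S : j3 ∉ ({j3}ᶜ : Set V) := fun hh => hh rfl
  have mem3 : ∀ w, w ≠ j3 → w ∈ ({j3}ᶜ : Set V) := fun w hw hh => hw hh
  have sub4 : ({v, j3}ᶜ : Set V) ⊆ {j3}ᶜ := fun w hw hh => hw (Or.inr hh)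
  have sub5 : ({j1, j3}ᶜ : Set V) ⊆ {j3}ᶜ := fun w hw hh => hw (Or.inr hh)
  have hw := gen_zero hp hj3S (f := fun ξ => br z (hat (p s)) z1 (hat ξ))
    (PF.br (A := fun _ => z) (B := fun _ => hat (p s)) (C := fun _ => z1)
      (D := fun ξ => hat ξ)
      (xb_pf_zz (xb_Fd_mono p sub4 (hB.rhoj j3 (Or.inr (Or.inr rfl)))) (mem3 _ a4) (mem3 _ a7))
      (PF.hatc p (mem3 _ b4))
      (xb_pf_zz (xb_Fd_mono p sub5 (hB1.rhoj j3 (Or.inr (Or.inr rfl)))) (mem3 _ b4) (mem3 _ b7))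
      (PF.hat _)) hy (p i1)
  have fin : br z (hat (p s)) z1 (hat (p i1)) =
      br (hat (p i2)) (hat (p s)) (hat (p t)) (hat (p i1)) := by
    rw [hz, hz1]
    simp only [xb_br_eq, zz]; ring
  have na : ∀ i, (i = i1 ∨ i = i2) → C.Adj v i → ¬ C.Adj j1 i := by
    intro i hi hvi hadj
    apply hB.cr i hi j1 (Or.inl rfl)
    exact Or.inl ⟨hadj.symm, hvi.ne', vj1.ne'⟩
  have n1 : i1 ≠ s := fun e => na i1 (Or.inl rfl) vi1 (e ▸ js)
  have n2' : i1 ≠ t := fun e => na i1 (Or.inl rfl) vi1 (e ▸ jt)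
  have n3 : i2 ≠ s := fun e => na i2 (Or.inr rfl) vi2 (e ▸ js)
  have n4 : i2 ≠ t := fun e => na i2 (Or.inr rfl) vi2 (e ▸ jt)
  exact br_ne hp n3 n4 a1.symm b1 n1.symm n2'.symm (fin ▸ hw)

end std

end H176R2.R5
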