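import Pool.Agent.H176R2.R5.Defs
import Pool.Agent.H176R2.R5.GN1
import Pool.Agent.H176R2.R5.GN2
import Pool.Agent.H176R2.R5.RR

/-!
# XP: the path case at a vertex of type B is impossible
-/

set_option autoImplicit false

open Finset

namespace H176R2.R5

variable {V : Type} [Fintype V] [DecidableEq V]

section std

variable {p : V → Fin 3 → ℝ} {C : SimpleGraph V} {ω : V → V → ℝ}

private theorem xp_perm (A B D E : Fin 4 → ℝ) : br A B D E = br D B E A := by
  simp only [br, Matrix.det_succ_row_zero, Matrix.det_fin_three, Fin.sum_univ_succ,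
    Matrix.of_apply, Matrix.cons_val', Matrix.cons_val_zero, Matrix.cons_val_succ,
    Matrix.submatrix_apply, Fin.succAbove, Finset.univ_eq_empty, Finset.sum_empty]
  simp [Fin.lt_def]
  ring

private theorem xp_same (A D E : Fin 4 → ℝ) : br A A D E = 0 := by
  unfold br
  apply Matrix.det_zero_of_row_eq (i := 0) (j := 1) (by decide)
  rfl

theorem noB_path (h : Std p C ω) {v i1 i2 x m y a b c : V} (hB : BV p C ω v i1 i2 x m y)
    (hx : Nb C x a b c v m) (hy : Nb C y a b c v m) (hab : C.Adj a b) (hac : C.Adj a c)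
    (hbc : C.Adj b c) (hva : ¬ C.Adj v a) (hAx : ∑ z, ω x z = 0) (hAy : ∑ z, ω y z = 0)
    (hAa : ∑ z, ω a z = 0) : False := by
  have hvN := hB.nb
  obtain ⟨hvn, i12, i1x, i1m, i1y, i2x, i2m, i2y, xm, xy, my⟩ := hvN
  obtain ⟨hxn, ab, ac, av, am, bc, bv, bm, cv, cm, vm⟩ := hx
  obtain ⟨hyn, -, -, -, -, -, -, -, -, -, -⟩ := hy
  have hxa : C.Adj x a := (hxn a).2 (by tauto)
  have hxb : C.Adj x b := (hxn b).2 (by tauto)
  have hxc : C.Adj x c := (hxn c).2 (by tauto)
  have hya : C.Adj y a := (hyn a).2 (by tauto)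
  have hyb : C.Adj y b := (hyn b).2 (by tauto)
  have hyc : C.Adj y c := (hyn c).2 (by tauto)
  have hvx : C.Adj v x := (hvn x).2 (by tauto)
  have hvy : C.Adj v y := (hvn y).2 (by tauto)
  have hvi1 : C.Adj v i1 := (hvn i1).2 (by tauto)
  have hvi2 : C.Adj v i2 := (hvn i2).2 (by tauto)
  -- the fifth neighbour of `a`
  obtain ⟨N, hNc, hNm⟩ : ∃ N : Finset V, N.card = dg C univ a ∧ ∀ z, z ∈ N ↔ C.Adj a z := by
    unfold dg
    exact ⟨_, rfl, fun z => by simp⟩
  have hN5 : N.card = 5 := by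
    rcases h.deg5 a with h0 | h5
    · exfalso
      rw [h0, Finset.card_eq_zero] at hNc
      have := (hNm x).2 hxa.symm
      rw [hNc] at this
      simp at this
    · rw [hNc, h5]
  have hsub : ({x, y, b, c} : Finset V) ⊆ N := by
    intro z hz
    simp only [Finset.mem_insert, Finset.mem_singleton] at hz
    rw [hNm]
    rcases hz with rfl | rfl | rfl | rfl
    · exact hxa.symm
    · exact hya.symm
    · exact hab
    · exact hac
  have xb : x ≠ b := hxb.ne
  have xc : x ≠ c := hxc.ne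
  have yb : y ≠ b := hyb.ne
  have yc : y ≠ c := hyc.ne
  have hc4 : ({x, y, b, c} : Finset V).card = 4 := by
    rw [Finset.card_insert_of_notMem, Finset.card_insert_of_notMem, Finset.card_pair bc]
    · simp [yb, yc]
    · simp [xy, xb, xc]
  have hc1 : (N \ {x, y, b, c}).card = 1 := by
    rw [Finset.card_sdiff_of_subset hsub]; omega
  obtain ⟨r, hr⟩ := Finset.card_eq_one.mp hc1
  have hrm : r ∈ N \ {x, y, b, c} := by rw [hr]; exact Finset.mem_singleton_self r
  have hr1 := Finset.mem_sdiff.mp hrm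
  have har : C.Adj a r := (hNm r).1 hr1.1
  have hrn : r ≠ x ∧ r ≠ y ∧ r ≠ b ∧ r ≠ c := by
    have := hr1.2
    simp only [Finset.mem_insert, Finset.mem_singleton, not_or] at this
    exact this
  obtain ⟨rx, ry, rb, rc⟩ := hrn
  have rv : r ≠ v := by
    rintro rfl
    exact hva har.symm
  have haN : Nb C a x y b c r := by
    refine ⟨fun z => ⟨fun hz => ?_, fun hz => ?_⟩, xy, xb, xc, rx.symm, yb, yc, ry.symm, bc,
      rb.symm, rc.symm⟩
    · by_contra hcon
      simp only [not_or] at hcon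
      have hz1 : z ∈ N \ {x, y, b, c} := by
        rw [Finset.mem_sdiff]
        refine ⟨(hNm z).2 hz, ?_⟩
        simp only [Finset.mem_insert, Finset.mem_singleton, not_or]
        exact ⟨hcon.1, hcon.2.1, hcon.2.2.1, hcon.2.2.2.1⟩
      rw [hr, Finset.mem_singleton] at hz1
      exact hcon.2.2.2.2 hz1
    · rcases hz with rfl | rfl | rfl | rfl | rfl
      · exact hxa.symm
      · exact hya.symm
      · exact hab
      · exact hac
      · exact har
  -- the four relations
  have hxN' : Nb C x v a m b c :=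
    ⟨fun z => (hxn z).trans (by tauto), av.symm, vm, bv.symm, cv.symm, am, ab, ac, bm.symm,
      cm.symm, bc⟩
  have hyN' : Nb C y v a m b c :=
    ⟨fun z => (hyn z).trans (by tauto), av.symm, vm, bv.symm, cv.symm, am, ab, ac, bm.symm,
      cm.symm, bc⟩
  have hvN' : Nb C v i1 i2 x y m :=
    ⟨fun z => (hvn z).trans (by tauto), i12, i1x, i1y, i1m, i2x, i2y, i2m, xy, xm, my.symm⟩
  have R1 := RA h.stress hxN' hAx
  have R2 := RA h.stress hyN' hAy
  have R3 := RA h.stress haN hAa
  have hw2 : ω v i2 ≠ 0 := h.ne v i2 hvi2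
  have R4 := RB h.stress hvN' hw2
  have hne := RBne h.gen h.stress hB.nb hw2 hB.sum
  have hP : br (hat (p v)) (hat (p m)) (hat (p b)) (hat (p c)) ≠ 0 :=
    br_ne h.gen vm bv.symm cv.symm bm.symm cm.symm bc
  have hQ : br (hat (p x)) (hat (p b)) (hat (p c)) (hat (p r)) ≠ 0 :=
    br_ne h.gen xb xc rx.symm bc rb.symm rc.symm
  have hwx : ω v x ≠ 0 := h.ne v x hvx
  rw [h.stress.symm x v, h.stress.symm x a] at R1
  rw [h.stress.symm y v, h.stress.symm y a] at R2
  set P := br (hat (p v)) (hat (p m)) (hat (p b)) (hat (p c)) with hPd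
  set Q := br (hat (p a)) (hat (p m)) (hat (p b)) (hat (p c)) with hQd
  set X1 := br (hat (p x)) (hat (p b)) (hat (p c)) (hat (p r)) with hX1
  set Y1 := br (hat (p y)) (hat (p b)) (hat (p c)) (hat (p r)) with hY1
  have E1 : P * (ω v x * X1 + ω v y * Y1) = 0 := by
    linear_combination X1 * R1 + Y1 * R2 - Q * R3
  have E2 : ω v x * X1 + ω v y * Y1 = 0 := (mul_eq_zero.mp E1).resolve_left hP
  set Z := zz p ω v i1 i2 with hZ
  have E3 : X1 * br (hat (p y)) (hat (p v)) Z (hat (p m)) -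
      Y1 * br (hat (p x)) (hat (p v)) Z (hat (p m)) = 0 := by
    have E4 : ω v x * (X1 * br (hat (p y)) (hat (p v)) Z (hat (p m)) -
      Y1 * br (hat (p x)) (hat (p v)) Z (hat (p m))) = 0 := by
      linear_combination br (hat (p y)) (hat (p v)) Z (hat (p m)) * E2 - Y1 * R4
    exact (mul_eq_zero.mp E4).resolve_left hwx
  -- genericity
  have hmem : ∀ w : V, w ≠ v → w ∈ ({v}ᶜ : Set V) := fun w hw => by simpa using hw
  have hZF : ∀ i, PF (Fd p ({v}ᶜ : Set V)) (fun _ => Z i) := by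
    intro i
    have h1 := PF.mul (PF.const hB.rho) (PF.hatc p (hmem i1 hvi1.ne') i)
    exact PF.add h1 (PF.hatc p (hmem i2 hvi2.ne') i)
  have hcst : ∀ w : V, w ≠ v → ∀ i, PF (Fd p ({v}ᶜ : Set V)) (fun _ => hat (p w) i) :=
    fun w hw i => PF.hatc p (hmem w hw) i
  have hmv : m ≠ v := vm.symm
  have hxv : x ≠ v := hvx.ne'
  have hyv : y ≠ v := hvy.ne'
  have hF : PF (Fd p ({v}ᶜ : Set V)) (fun ξ => X1 * br (hat (p y)) (hat ξ) Z (hat (p m)) -
      Y1 * br (hat (p x)) (hat ξ) Z (hat (p m))) := by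
    refine PF.sub (PF.mul ?_ ?_) (PF.mul ?_ ?_)
    · exact PF.br (hcst x hxv) (hcst b bv) (hcst c cv) (hcst r rv)
    · exact PF.br (hcst y hyv) (PF.hat _) hZF (hcst m hmv)
    · exact PF.br (hcst y hyv) (hcst b bv) (hcst c cv) (hcst r rv)
    · exact PF.br (hcst x hxv) (PF.hat _) hZF (hcst m hmv)
  have hall := gen_zero h.gen (S := ({v}ᶜ : Set V)) (v := v) (by simp) hF E3 (p x)
  rw [xp_same, mul_zero, sub_zero] at hall
  rcases mul_eq_zero.mp hall with h0 | h0
  · exact hQ h0
  · apply hne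
    rw [← xp_perm]
    exact h0

end std

end H176R2.R5
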