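import Pool.Agent.H176R2.R5.TY
import Pool.Agent.H176R2.R5.XA
import Pool.Agent.H176R2.R5.XB
import Pool.Agent.H176R2.R5.XP
import Pool.Agent.H176R2.R5.ST

/-!
# No vertices of type B (assembly)
-/

set_option autoImplicit false

open Finset

namespace H176R2.R5

variable {V : Type} [Fintype V] [DecidableEq V]

namespace NB

variable {p : V → Fin 3 → ℝ} {C : SimpleGraph V} {ω : V → V → ℝ}

omit [DecidableEq V] in
theorem blocked_symm {G : SimpleGraph V} {a b : V} (h : Blocked G a b) : Blocked G b a := by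
  rcases h with h | ⟨X, hX, ha, hb⟩
  · exact Or.inl h.symm
  · exact Or.inr ⟨X, hX, hb, ha⟩

omit [DecidableEq V] in
theorem swap12 {v i1 i2 j1 j2 j3 : V} (hB : BV p C ω v i1 i2 j1 j2 j3) :
    BV p C ω v i1 i2 j2 j1 j3 := by
  obtain ⟨⟨hadj, d1, d2, d3, d4, d5, d6, d7, d8, d9, d10⟩, bI, b12, b13, b23, cr, hs, rho, rhoj⟩ := hB
  refine ⟨⟨fun x => ?_, d1, d3, d2, d4, d6, d5, d7, d8.symm, d10, d9⟩, bI, blocked_symm b12, b23,
    b13, fun i hi j hj => cr i hi j (by tauto), hs, rho, fun j hj => rhoj j (by tauto)⟩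
  rw [hadj]
  tauto

omit [DecidableEq V] in
theorem swap23 {v i1 i2 j1 j2 j3 : V} (hB : BV p C ω v i1 i2 j1 j2 j3) :
    BV p C ω v i1 i2 j1 j3 j2 := by
  obtain ⟨⟨hadj, d1, d2, d3, d4, d5, d6, d7, d8, d9, d10⟩, bI, b12, b13, b23, cr, hs, rho, rhoj⟩ := hB
  refine ⟨⟨fun x => ?_, d1, d2, d4, d3, d5, d7, d6, d9, d8, d10.symm⟩, bI, b13, b12,
    blocked_symm b23, fun i hi j hj => cr i hi j (by tauto), hs, rho, fun j hj => rhoj j (by tauto)⟩
  rw [hadj]
  tauto

omit [DecidableEq V] in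
theorem nb_mem {j s t k1 k2 k3 P : V} (hB : BV p C ω j s t k1 k2 k3) (hP : C.Adj j P) :
    (P = s ∨ P = t) ∨ (P = k1 ∨ P = k2 ∨ P = k3) := by
  have := (hB.nb.1 P).1 hP
  tauto

omit [DecidableEq V] in
theorem side {j s t k1 k2 k3 P Q : V} (hB : BV p C ω j s t k1 k2 k3) (hP : C.Adj j P)
    (hQ : C.Adj j Q) (hPQ : C.Adj P Q) :
    ((P = s ∨ P = t) ∧ (Q = s ∨ Q = t)) ∨
      ((P = k1 ∨ P = k2 ∨ P = k3) ∧ (Q = k1 ∨ Q = k2 ∨ Q = k3)) := by
  have hadj : (del C j).Adj P Q := ⟨hPQ, hP.ne.symm, hQ.ne.symm⟩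
  rcases nb_mem hB hP with h1 | h1 <;> rcases nb_mem hB hQ with h2 | h2
  · exact Or.inl ⟨h1, h2⟩
  · exact absurd (Or.inl hadj) (hB.cr P h1 Q h2)
  · exact absurd (Or.inl hadj.symm) (hB.cr Q h2 P h1)
  · exact Or.inr ⟨h1, h2⟩

omit [DecidableEq V] in
/-- three mutually adjacent neighbours form the part of three -/
theorem tri_mem {j s t k1 k2 k3 P Q R : V} (hB : BV p C ω j s t k1 k2 k3) (hP : C.Adj j P)
    (hQ : C.Adj j Q) (hR : C.Adj j R) (hPQ : C.Adj P Q) (hPR : C.Adj P R) (hQR : C.Adj Q R) :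
    (P = k1 ∨ P = k2 ∨ P = k3) ∧ (Q = k1 ∨ Q = k2 ∨ Q = k3) ∧ (R = k1 ∨ R = k2 ∨ R = k3) := by
  have n1 := hPQ.ne
  have n2 := hPR.ne
  have n3 := hQR.ne
  obtain ⟨-, d1, d2, d3, d4, d5, d6, d7, d8, d9, d10⟩ := hB.nb
  rcases side hB hP hQ hPQ with ⟨h1, h2⟩ | ⟨h1, h2⟩
  · rcases side hB hP hR hPR with ⟨-, h3⟩ | ⟨h4, h3⟩
    · exfalso
      rcases h1 with rfl | rfl <;> rcases h2 with rfl | rfl <;> rcases h3 with rfl | rfl <;>
        simp_all
    · exfalso
      rcases h1 with rfl | rfl <;> rcases h4 with rfl | rfl | rfl <;> simp_all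
  · rcases side hB hP hR hPR with ⟨h4, h3⟩ | ⟨h4, h3⟩
    · exfalso
      rcases h4 with rfl | rfl <;> rcases h1 with rfl | rfl | rfl <;> simp_all
    · exact ⟨h1, h2, h3⟩

omit [DecidableEq V] in
theorem tri {j s t k1 k2 k3 P Q R : V} (hB : BV p C ω j s t k1 k2 k3) (hP : C.Adj j P)
    (hQ : C.Adj j Q) (hR : C.Adj j R) (hPQ : C.Adj P Q) (hPR : C.Adj P R) (hQR : C.Adj Q R) :
    BV p C ω j s t P Q R := by
  have n1 := hPQ.ne
  have n2 := hPR.ne
  have n3 := hQR.ne
  obtain ⟨h1, h2, h3⟩ := tri_mem hB hP hQ hR hPQ hPR hQR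
  rcases h1 with rfl | rfl | rfl
  · rcases h2 with rfl | rfl | rfl
    · exact absurd rfl n1
    · rcases h3 with rfl | rfl | rfl
      · exact absurd rfl n2
      · exact absurd rfl n3
      · exact hB
    · rcases h3 with rfl | rfl | rfl
      · exact absurd rfl n2
      · exact swap23 hB
      · exact absurd rfl n3
  · rcases h2 with rfl | rfl | rfl
    · rcases h3 with rfl | rfl | rfl
      · exact absurd rfl n3
      · exact absurd rfl n2
      · exact swap12 hB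
    · exact absurd rfl n1
    · rcases h3 with rfl | rfl | rfl
      · exact swap23 (swap12 hB)
      · exact absurd rfl n2
      · exact absurd rfl n3
  · rcases h2 with rfl | rfl | rfl
    · rcases h3 with rfl | rfl | rfl
      · exact absurd rfl n3
      · exact swap12 (swap23 hB)
      · exact absurd rfl n2
    · rcases h3 with rfl | rfl | rfl
      · exact swap12 (swap23 (swap12 hB))
      · exact absurd rfl n3
      · exact absurd rfl n2
    · exact absurd rfl n1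

theorem noB_tri (h : Std p C ω) {v i1 i2 j1 j2 j3 : V} (hB : BV p C ω v i1 i2 j1 j2 j3)
    (h12 : C.Adj j1 j2) (h13 : C.Adj j1 j3) (h23 : C.Adj j2 j3) : False := by
  have a1 : C.Adj v j1 := by rw [hB.nb.1]; simp
  have a2 : C.Adj v j2 := by rw [hB.nb.1]; simp
  have a3 : C.Adj v j3 := by rw [hB.nb.1]; simp
  rcases types h j1 with t1 | ⟨s1, s1', k1, k2, k3, t1⟩
  · rcases types h j2 with t2 | ⟨s2, s2', l1, l2, l3, t2⟩
    · exact noB_AA h hB h12 h13 h23 t1 t2
    · rcases types h j3 with t3 | ⟨s3, s3', m1, m2, m3, t3⟩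
      · exact noB_AA h (swap23 hB) h13 h12 h23.symm t1 t3
      · -- j2, j3 of type B
        exact noB_BB h (swap23 (swap12 hB)) (tri t2 a2.symm h23 h12.symm a3 a1 h13.symm)
          (tri t3 a3.symm h23.symm h13.symm a2 a1 h12.symm)
  · rcases types h j2 with t2 | ⟨s2, s2', l1, l2, l3, t2⟩
    · rcases types h j3 with t3 | ⟨s3, s3', m1, m2, m3, t3⟩
      · exact noB_AA h (swap23 (swap12 hB)) h23 h12.symm h13.symm t2 t3
      · exact noB_BB h (swap23 hB) (tri t1 a1.symm h13 h12 a3 a2 h23.symm)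
          (tri t3 a3.symm h13.symm h23.symm a1 a2 h12)
    · exact noB_BB h hB (tri t1 a1.symm h12 h13 a2 a3 h23)
        (tri t2 a2.symm h12.symm h23 a1 a3 h13)

end NB

open NB

theorem noB {p : V → Fin 3 → ℝ} {C : SimpleGraph V} {ω : V → V → ℝ} (h : Std p C ω)
    {v i1 i2 j1 j2 j3 : V} : ¬ BV p C ω v i1 i2 j1 j2 j3 := by
  intro hB
  rcases struct_B h hB with ⟨h12, h13, h23⟩ | ⟨x, m, y, a, b, c, hB', hx, hy, hab, hac, hbc, hva⟩
  · exact noB_tri h hB h12 h13 h23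
  have xa : C.Adj x a := by rw [hx.1]; simp
  have xb : C.Adj x b := by rw [hx.1]; simp
  have xc : C.Adj x c := by rw [hx.1]; simp
  have ya : C.Adj y a := by rw [hy.1]; simp
  have yb : C.Adj y b := by rw [hy.1]; simp
  have yc : C.Adj y c := by rw [hy.1]; simp
  have hxy : x ≠ y := hB'.nb.2.2.2.2.2.2.2.2.2.1
  have tx : ∑ z, ω x z = 0 := by
    rcases types h x with t | ⟨s, s', k1, k2, k3, t⟩
    · exact t
    · exact absurd (noB_tri h (tri t xa xb xc hab hac hbc) hab hac hbc) not_false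
  have ty : ∑ z, ω y z = 0 := by
    rcases types h y with t | ⟨s, s', k1, k2, k3, t⟩
    · exact t
    · exact absurd (noB_tri h (tri t ya yb yc hab hac hbc) hab hac hbc) not_false
  have ta : ∑ z, ω a z = 0 := by
    rcases types h a with t | ⟨s, s', k1, k2, k3, t⟩
    · exact t
    · exfalso
      obtain ⟨e1, e2, e3⟩ := tri_mem t xa.symm hab hac xb xc hbc
      obtain ⟨e4, -, -⟩ := tri_mem t ya.symm hab hac yb yc hbc
      have n1 := xb.ne
      have n2 := xc.ne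
      have n3 := hbc.ne
      have n4 := yb.ne
      have n5 := yc.ne
      rcases e1 with rfl | rfl | rfl <;> rcases e2 with rfl | rfl | rfl <;>
        rcases e3 with rfl | rfl | rfl <;> rcases e4 with rfl | rfl | rfl <;> simp_all
  exact noB_path h hB' hx hy hab hac hbc hva tx ty ta

end H176R2.R5
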