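import Pool.Agent.H176R2.R5.TY
import Pool.Agent.H176R2.R5.NB
import Pool.Agent.H176R2.R5.CF1
import Pool.Agent.H176R2.R5.G1
import Pool.Agent.H176R2.R5.AT
import Pool.Agent.H176R2.R5.AQ
import Pool.Agent.H176R2.R5.AG

/-!
# The main theorem (assembly)
-/

set_option autoImplicit false

open Finset

namespace H176R2.R5

variable {V : Type} [Fintype V] [DecidableEq V]

namespace MA

theorem exists_circ {p : V → Fin 3 → ℝ} {G : SimpleGraph V} (hG : ¬ Ind p G) :
    ∃ C : SimpleGraph V, C ≤ G ∧ Circ p C := by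
  obtain ⟨C, hC, hmin⟩ := (wellFounded_lt (α := SimpleGraph V)).has_min
    {C | C ≤ G ∧ ¬ Ind p C} ⟨G, le_refl G, hG⟩
  refine ⟨C, hC.1, hC.2, fun H hH => ?_⟩
  by_contra hI
  exact hmin H ⟨hH.le.trans hC.1, hI⟩ hH

theorem dg_mono {G G' : SimpleGraph V} (hle : G' ≤ G) (a : V) : dg G' univ a ≤ dg G univ a := by
  unfold dg
  apply card_le_card
  intro x hx
  simp only [mem_filter, mem_univ, true_and] at hx ⊢
  exact hle hx

end MA

open MA

theorem main {p : V → Fin 3 → ℝ} (hp : Gen p) {G : SimpleGraph V} (hS : Sparse G)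
    (hd : ∀ a, dg G univ a ≤ 5) : Ind p G := by
  by_contra hG
  obtain ⟨C, hCG, hC⟩ := exists_circ hG
  obtain ⟨ω, h⟩ := circ_std hp hC (sparse_le hS hCG) (fun a => (dg_mono hCG a).trans (hd a))
  have hA : ∀ v, ∑ x, ω v x = 0 := by
    intro v
    rcases types h v with t | ⟨i1, i2, j1, j2, j3, t⟩
    · exact t
    · exact absurd t (noB h)
  by_cases hT : ∀ u v w, C.Adj u v → C.Adj v w → ¬ C.Adj u w
  · by_cases hQ : ∀ u v w x, C.Adj u v → C.Adj v w → C.Adj w x → C.Adj x u → u ≠ w → v ≠ x → False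
    · exact allA_girth h hA hT hQ
    · push Not at hQ
      obtain ⟨u, v, w, x, h1, h2, h3, h4, h5, h6, -⟩ := hQ
      exact allA_square h hA hT h1 h2 h3 h4 h5 h6
  · push Not at hT
    obtain ⟨u, v, w, h1, h2, h3⟩ := hT
    exact allA_triangle h hA h1 h2 h3

end H176R2.R5
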