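import Pool.Agent.H176R2.R5.TR
import Pool.Agent.H176R2.R5.MA
import Pool.Agent.H176R2.R5.L2
import Pool.Agent.H176R2.R5.GN2
import Pool.Agent.H176R2.R5.EX
import Pool.Agent.H176R2.R5.G1

/-!
# Graphs whose `4`-core has maximum degree at most five
-/

set_option autoImplicit false

open Finset

namespace H176R2.R5

namespace CORE

variable {V : Type} [Fintype V] [DecidableEq V]

omit [DecidableEq V] in
theorem dg_le {G G' : SimpleGraph V} (hle : G' ≤ G) (X : Finset V) (a : V) :
    dg G' X a ≤ dg G X a := by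
  unfold dg
  apply card_le_card
  intro x hx
  simp only [mem_filter] at hx ⊢
  exact ⟨hx.1, hle hx.2⟩

/-- the degrees of a circuit are `0` or at least `4` -/
theorem circ_deg {p : V → Fin 3 → ℝ} (hp : Gen p) {C : SimpleGraph V} (hC : Circ p C) (v : V) :
    dg C univ v = 0 ∨ 4 ≤ dg C univ v := by
  classical
  by_contra hcon
  push Not at hcon
  obtain ⟨h0, h4⟩ := hcon
  apply hC.dep
  apply (ax_ind hp).ext0 C v (by omega)
  apply hC.min
  rw [lt_iff_le_and_ne]
  refine ⟨fun x y hxy => hxy.1, fun he => h0 ?_⟩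
  unfold dg
  rw [card_eq_zero, filter_eq_empty_iff]
  intro x _ hx
  rw [← he] at hx
  exact hx.2.1 rfl

theorem core_main {p : V → Fin 3 → ℝ} (hp : Gen p) {G : SimpleGraph V} (hS : Sparse G)
    (hc : ∀ S : Finset V, (∀ v ∈ S, 4 ≤ dg G S v) → ∀ v ∈ S, dg G S v ≤ 5) : Ind p G := by
  classical
  by_contra hG
  obtain ⟨C, hCG, hC⟩ := MA.exists_circ hG
  set S : Finset V := univ.filter fun v => dg C univ v ≠ 0 with hSdef
  have hdS : ∀ v, dg C S v = dg C univ v := by
    intro v
    unfold dg
    congr 1
    ext x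
    simp only [mem_filter, mem_univ, true_and, hSdef, and_iff_right_iff_imp]
    intro hvx h0
    unfold dg at h0
    rw [card_eq_zero, filter_eq_empty_iff] at h0
    exact h0 (mem_univ v) hvx.symm
  apply hC.dep
  apply main hp (sparse_le hS hCG)
  intro a
  by_cases ha : a ∈ S
  · rw [← hdS a]
    refine (dg_le hCG S a).trans (hc S ?_ a ha)
    intro v hv
    refine le_trans ?_ (dg_le hCG S v)
    rw [hdS v]
    rcases circ_deg hp hC v with h | h
    · exact absurd h (mem_filter.1 hv).2
    · exact h
  · have : dg C univ a = 0 := by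
      by_contra h
      exact ha (mem_filter.2 ⟨mem_univ a, h⟩)
    omega

end CORE

/-- Every induced subgraph of minimum degree at least four has maximum degree at most five; in other
words, the `4`-core of `G` has maximum degree at most five. -/
def CoreLeFive {V : Type} (G : SimpleGraph V) : Prop :=
  ∀ S : Set V, (∀ v ∈ S, 4 ≤ (G.neighborSet v ∩ S).ncard) → ∀ v ∈ S, (G.neighborSet v ∩ S).ncard ≤ 5

theorem coreLeFive_of_degree {V : Type} [Fintype V] {G : SimpleGraph V}
    (hd : ∀ v, (G.neighborSet v).ncard ≤ 5) : CoreLeFive G := fun S _ v _ =>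
  (Set.ncard_le_ncard Set.inter_subset_left (Set.toFinite _)).trans (hd v)

theorem rowInd_of_core {V : Type} [Fintype V] {G : SimpleGraph V}
    (hc : CoreLeFive G) (hS : Sparse36 G) {p : V → Fin 3 → ℝ}
    (hp : Generic p) : RowInd G p := by
  classical
  rw [TR.rowInd_iff]
  apply CORE.core_main hp ((TR.sparse_iff G).1 hS)
  have key : ∀ (S : Finset V) (v : V), dg G S v = (G.neighborSet v ∩ (S : Set V)).ncard := by
    intro S v
    unfold dg
    rw [Set.ncard_eq_toFinset_card']
    congr 1
    ext x
    simp [and_comm]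
  intro S h4 v hv
  rw [key]
  apply hc (S : Set V) _ v hv
  intro w hw
  rw [← key]
  exact h4 w hw

end H176R2.R5
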