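import Pool.Agent.H176R2.R5.TR
import Pool.Agent.H176R2.R5.MA
import Pool.Agent.H176R2.R5.L2
import Pool.Agent.H176R2.R5.GN2

/-!
# The final form of the theorem
-/

set_option autoImplicit false

open Finset

namespace H176R2.R5

/-- independence at some placement implies the count -/
theorem sparse_of_rowInd {V : Type} [Fintype V] {G : SimpleGraph V} {p : V → Fin 3 → ℝ}
    (h : RowInd G p) : Sparse36 G := by
  classical
  obtain ⟨q, hq⟩ := exists_gen (V := V)
  rw [TR.sparse_iff]
  exact maxwell hq ((TR.rowInd_iff G q).1 (TR.ind_gen G h hq))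

/-- the count implies independence at every generic placement, if the degrees are at most five -/
theorem rowInd_of_sparse {V : Type} [Fintype V] {G : SimpleGraph V}
    (hd : ∀ v, (G.neighborSet v).ncard ≤ 5) (hS : Sparse36 G) {p : V → Fin 3 → ℝ}
    (hp : Generic p) : RowInd G p := by
  classical
  rw [TR.rowInd_iff]
  apply main hp ((TR.sparse_iff G).1 hS)
  intro a
  rw [TR.dg_eq]
  exact hd a

theorem exists_generic (V : Type) [Fintype V] : ∃ p : V → Fin 3 → ℝ, Generic p := by
  classical
  exact exists_gen

end H176R2.R5
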