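import Mathlib

/-!
# The generic three-dimensional rigidity matroid: public definitions
-/

set_option autoImplicit false

namespace H176R2.R5

/-- A graph is `(3,6)`-sparse if every subgraph `H` with at least three vertices has at most
`3|V(H)| - 6` edges. -/
def Sparse36 {V : Type} (G : SimpleGraph V) : Prop :=
  ∀ H : G.Subgraph, 3 ≤ H.verts.ncard → H.edgeSet.ncard + 6 ≤ 3 * H.verts.ncard

open Classical in
/-- The row of the edge `uv` of the rigidity matrix at the placement `p`: the vector `p u - p v` in
the three columns of `u`, the vector `p v - p u` in the three columns of `v`, zeros elsewhere. -/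
noncomputable def row {V : Type} (p : V → Fin 3 → ℝ) (u v : V) : V × Fin 3 → ℝ := fun c =>
  if c.1 = u then p u c.2 - p v c.2 else if c.1 = v then p v c.2 - p u c.2 else 0

theorem row_comm {V : Type} (p : V → Fin 3 → ℝ) (u v : V) : row p u v = row p v u := by
  funext c
  unfold row
  split_ifs with h1 h2 h2
  · rw [← h1, ← h2]
  · rfl
  · rfl
  · rfl

/-- The rigidity matrix: one row per edge, three columns per vertex. -/
noncomputable def rigidityMatrix {V : Type} (G : SimpleGraph V) (p : V → Fin 3 → ℝ) :
    Matrix G.edgeSet (V × Fin 3) ℝ :=
  fun e => Sym2.lift ⟨row p, row_comm p⟩ e.1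

/-- The rows of the rigidity matrix are linearly independent. -/
def RowInd {V : Type} (G : SimpleGraph V) (p : V → Fin 3 → ℝ) : Prop :=
  LinearIndependent ℝ (rigidityMatrix G p).row

/-- A generic placement: the `3n` coordinates are algebraically independent over `ℚ`. -/
def Generic {V : Type} (p : V → Fin 3 → ℝ) : Prop :=
  AlgebraicIndependent ℚ (fun c : V × Fin 3 => p c.1 c.2)

end H176R2.R5
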