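import Pool.Agent.H176R2.R5.Defs
import Pool.Agent.H176R2.R5.Pub

/-!
# Translation: rows of the rigidity matrix, sparsity by subgraphs
-/

set_option autoImplicit false

open Finset

namespace H176R2.R5

namespace TR

variable {V : Type} [Fintype V] [DecidableEq V]

omit [DecidableEq V] in
theorem dg_eq (G : SimpleGraph V) (a : V) : dg G univ a = (G.neighborSet a).ncard := by
  classical
  unfold dg
  rw [Set.ncard_eq_toFinset_card']
  congr 1
  ext x
  simp

omit [DecidableEq V] in
theorem i2_eq (G : SimpleGraph V) (X : Finset V) : i2 G X = 2 * (ins G X).edgeSet.ncard := by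
  classical
  have h1 := (ins G X).sum_degrees_eq_twice_card_edges
  rw [Set.ncard_eq_toFinset_card', ← SimpleGraph.edgeFinset, ← h1]
  unfold i2
  have h2 : ∀ a ∈ X, dg G X a = (ins G X).degree a := by
    intro a ha
    unfold dg
    rw [← SimpleGraph.card_neighborFinset_eq_degree]
    congr 1
    ext b
    simp only [mem_filter, SimpleGraph.mem_neighborFinset, ins]
    tauto
  rw [sum_congr rfl h2]
  apply sum_subset (subset_univ X)
  intro a _ ha
  rw [SimpleGraph.degree_eq_zero_iff_notMem_support, SimpleGraph.mem_support]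
  rintro ⟨b, hb⟩
  exact ha hb.2.1

theorem sparse_iff (G : SimpleGraph V) : Sparse36 G ↔ Sparse G := by
  classical
  constructor
  · intro h X hX
    have h1 := h ((⊤ : G.Subgraph).induce (X : Set V))
    have h2 : ((⊤ : G.Subgraph).induce (X : Set V)).verts = (X : Set V) := rfl
    have h3 : ((⊤ : G.Subgraph).induce (X : Set V)).edgeSet = (ins G X).edgeSet := by
      ext e
      induction e using Sym2.ind with
      | _ a b =>
        simp only [SimpleGraph.Subgraph.mem_edgeSet, SimpleGraph.mem_edgeSet,
          SimpleGraph.Subgraph.induce_adj, ins, SimpleGraph.Subgraph.top_adj, mem_coe]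
        tauto
    rw [h2, h3, Set.ncard_coe_finset] at h1
    have h4 := h1 hX
    rw [i2_eq]
    omega
  · intro h H hH
    have h1 : H.verts.ncard = H.verts.toFinset.card := Set.ncard_eq_toFinset_card' _
    rw [h1] at hH ⊢
    have h2 := h H.verts.toFinset hH
    rw [i2_eq] at h2
    have h3 : H.edgeSet.ncard ≤ (ins G H.verts.toFinset).edgeSet.ncard := by
      apply Set.ncard_le_ncard _ (Set.toFinite _)
      intro e
      induction e using Sym2.ind with
      | _ a b =>
        intro he
        rw [SimpleGraph.Subgraph.mem_edgeSet] at he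
        rw [SimpleGraph.mem_edgeSet]
        refine ⟨H.adj_sub he, ?_, ?_⟩
        · rw [Set.mem_toFinset]; exact he.fst_mem
        · rw [Set.mem_toFinset]; exact he.snd_mem
    omega

theorem row_sum (G : SimpleGraph V) (p : V → Fin 3 → ℝ) (g : G.edgeSet → ℝ)
    (ω : V → V → ℝ) (hω : ∀ a b (h : G.Adj a b), ω a b = g ⟨s(a, b), h⟩)
    (hω0 : ∀ a b, ¬ G.Adj a b → ω a b = 0) [Fintype G.edgeSet] (a : V) (i : Fin 3) :
    (∑ e, g e • (rigidityMatrix G p).row e) (a, i) = ∑ b, ω a b * (p a i - p b i) := by
  classical
  rw [Finset.sum_apply]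
  have h1 : ∑ b : {b // G.Adj a b}, ω a b.1 * (p a i - p b.1 i) =
      ∑ b, ω a b * (p a i - p b i) := by
    apply Fintype.sum_of_injective (fun b : {b // G.Adj a b} => b.1) Subtype.val_injective
    · intro b hb
      rw [hω0 a b, zero_mul]
      intro h
      exact hb ⟨⟨b, h⟩, rfl⟩
    · intro b
      rfl
  rw [← h1]
  symm
  apply Fintype.sum_of_injective (fun b : {b // G.Adj a b} => (⟨s(a, b.1), b.2⟩ : G.edgeSet))
  · intro b c hbc
    have h2 := congrArg Subtype.val hbc
    simp only at h2
    apply Subtype.ext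
    have h3 := Sym2.eq_iff.1 h2
    rcases h3 with ⟨-, h⟩ | ⟨h, h'⟩
    · exact h
    · exact h'.trans h
  · rintro ⟨e, he⟩ hne
    induction e using Sym2.ind with
    | _ x y =>
      have hxa : a ≠ x := by
        rintro rfl
        exact hne ⟨⟨y, he⟩, rfl⟩
      have hya : a ≠ y := by
        rintro rfl
        exact hne ⟨⟨x, SimpleGraph.Adj.symm he⟩, Subtype.ext Sym2.eq_swap⟩
      simp [rigidityMatrix, row, hxa, hya]
  · rintro ⟨b, hb⟩
    simp [rigidityMatrix, row, hω a b hb]

theorem rowInd_iff (G : SimpleGraph V) (p : V → Fin 3 → ℝ) : RowInd G p ↔ Ind p G := by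
  classical
  unfold RowInd
  rw [Fintype.linearIndependent_iff]
  constructor
  · intro h ω hω a b
    by_cases hab : G.Adj a b
    · have hsym : ∀ a b, ω a b = ω b a := hω.symm
      have h1 := h (fun e => Sym2.lift ⟨ω, hsym⟩ e.1) (by
        funext c
        obtain ⟨x, i⟩ := c
        rw [row_sum G p _ ω (fun a b h => rfl) hω.supp]
        exact hω.bal x i) ⟨s(a, b), hab⟩
      exact h1
    · exact hω.supp a b hab
  · intro h g hg e
    set ω : V → V → ℝ := fun a b => if h : G.Adj a b then g ⟨s(a, b), h⟩ else 0 with hω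
    have h1 : ∀ a b (h : G.Adj a b), ω a b = g ⟨s(a, b), h⟩ := by
      intro a b h
      simp [hω, h]
    have h0 : ∀ a b, ¬ G.Adj a b → ω a b = 0 := by
      intro a b h
      simp [hω, h]
    have h2 : IsStress p G ω := by
      refine ⟨?_, h0, ?_⟩
      · intro a b
        by_cases hab : G.Adj a b
        · rw [h1 a b hab, h1 b a hab.symm]
          congr 1
          exact Subtype.ext Sym2.eq_swap
        · rw [h0 a b hab, h0 b a (fun h => hab h.symm)]
      · intro a i
        rw [← row_sum G p g ω h1 h0 a i, hg]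
        rfl
    obtain ⟨e, he⟩ := e
    induction e using Sym2.ind with
    | _ x y =>
      rw [← h1 x y he]
      exact h ω h2 x y

/-- the polynomial rigidity matrix -/
noncomputable def rowP {V : Type} [DecidableEq V] (u v : V) : V × Fin 3 → MvPolynomial (V × Fin 3) ℚ := fun c =>
  if c.1 = u then MvPolynomial.X (u, c.2) - MvPolynomial.X (v, c.2) else
    if c.1 = v then MvPolynomial.X (v, c.2) - MvPolynomial.X (u, c.2) else 0

theorem rowP_comm {V : Type} [DecidableEq V] (u v : V) : rowP u v = rowP v u := by
  funext c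
  unfold rowP
  split_ifs with h1 h2 h2
  · rw [← h1, ← h2]
  · rfl
  · rfl
  · rfl

noncomputable def matP (G : SimpleGraph V) : Matrix G.edgeSet (V × Fin 3) (MvPolynomial (V × Fin 3) ℚ) :=
  fun e => Sym2.lift ⟨rowP, rowP_comm⟩ e.1

omit [Fintype V] in
theorem matP_map (G : SimpleGraph V) (p : V → Fin 3 → ℝ) :
    (matP G).map (MvPolynomial.aeval (fun vi : V × Fin 3 => p vi.1 vi.2)) = rigidityMatrix G p := by
  ext ⟨e, he⟩ c
  induction e using Sym2.ind with
  | _ x y =>
    simp only [matP, rigidityMatrix, Matrix.map_apply, Sym2.lift_mk, rowP, row]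
    split_ifs <;> simp

omit [DecidableEq V] in
theorem gram (G : SimpleGraph V) [Fintype G.edgeSet] [DecidableEq G.edgeSet] (p : V → Fin 3 → ℝ) :
    RowInd G p ↔ (rigidityMatrix G p * (rigidityMatrix G p).transpose).det ≠ 0 := by
  unfold RowInd
  constructor
  · intro h h0
    obtain ⟨x, hx, hx0⟩ := Matrix.exists_vecMul_eq_zero_iff.2 h0
    have h1 : Matrix.vecMul x (rigidityMatrix G p) = 0 := by
      have h2 : Matrix.vecMul x (rigidityMatrix G p) ⬝ᵥ Matrix.vecMul x (rigidityMatrix G p) = 0 := by
        have h3 : Matrix.vecMul x (rigidityMatrix G p * (rigidityMatrix G p).transpose) ⬝ᵥ x = 0 := by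
          rw [hx0, zero_dotProduct]
        rw [← Matrix.vecMul_vecMul, Matrix.vecMul_transpose] at h3
        rw [← Matrix.dotProduct_mulVec] 
        rw [dotProduct_comm]
        exact h3
      exact dotProduct_self_eq_zero.1 h2
    apply hx
    rw [Fintype.linearIndependent_iff] at h
    funext e
    apply h x
    funext c
    have := congrFun h1 c
    simpa [Matrix.vecMul, dotProduct, Finset.sum_apply] using this
  · intro h
    rw [Fintype.linearIndependent_iff]
    intro g hg
    by_contra hne
    apply h
    apply Matrix.exists_vecMul_eq_zero_iff.1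
    refine ⟨g, fun h0 => hne (fun i => congrFun h0 i), ?_⟩
    rw [← Matrix.vecMul_vecMul]
    have : Matrix.vecMul g (rigidityMatrix G p) = 0 := by
      funext c
      have := congrFun hg c
      simpa [Matrix.vecMul, dotProduct, Finset.sum_apply] using this
    rw [this, Matrix.zero_vecMul]

theorem ind_gen (G : SimpleGraph V) {p q : V → Fin 3 → ℝ} (h : RowInd G p) (hq : Gen q) :
    RowInd G q := by
  classical
  rw [gram] at h ⊢
  have key : ∀ r : V → Fin 3 → ℝ, (rigidityMatrix G r * (rigidityMatrix G r).transpose).det =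
      MvPolynomial.aeval (fun vi : V × Fin 3 => r vi.1 vi.2) (matP G * (matP G).transpose).det := by
    intro r
    rw [← AlgHom.coe_toRingHom, RingHom.map_det, RingHom.mapMatrix_apply, Matrix.map_mul, 
      Matrix.transpose_map]
    have := matP_map G r
    simp only [AlgHom.coe_toRingHom]
    rw [this]
  rw [key] at h ⊢
  intro h0
  apply h
  have : (matP G * (matP G).transpose).det = 0 := by
    apply hq
    rw [h0, map_zero]
  rw [this, map_zero]

end TR

end H176R2.R5
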