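import Pool.Agent.H176R2.R5.OR
import Pool.Agent.H176R2.R5.TR
import Pool.Agent.H176R2.R5.CORE

/-!
# Graver's maximality question for edge sets with a `4`-core of maximum degree at most five
-/

set_option autoImplicit false

open Finset

namespace H176R2.R5.OR

variable {n : ℕ}

theorem gr_eq (I : Set (Fin n × Fin n)) : gr I = SimpleGraph.fromRel (fun a b => (a, b) ∈ I) := by
  ext a b
  rw [SimpleGraph.fromRel_adj]
  rfl

/-- the edges of `gr I` inside `X` -/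
theorem i2_gr {I : Set (Fin n × Fin n)} (hI : ∀ e ∈ I, e.1 < e.2) (X : Finset (Fin n)) :
    i2 (gr I) X = 2 * (I ∩ {e | e.1 ∈ X ∧ e.2 ∈ X ∧ e.1 < e.2}).ncard := by
  classical
  rw [TR.i2_eq]
  congr 1
  have h1 : (ins (gr I) X).edgeSet =
      (fun e : Fin n × Fin n => s(e.1, e.2)) '' (I ∩ {e | e.1 ∈ X ∧ e.2 ∈ X ∧ e.1 < e.2}) := by
    ext e
    induction e using Sym2.ind with
    | _ a b =>
      rw [SimpleGraph.mem_edgeSet, Set.mem_image]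
      constructor
      · rintro ⟨⟨-, h | h⟩, ha, hb⟩
        · exact ⟨(a, b), ⟨h, ha, hb, hI _ h⟩, rfl⟩
        · exact ⟨(b, a), ⟨h, hb, ha, hI _ h⟩, Sym2.eq_swap⟩
      · rintro ⟨⟨x, y⟩, ⟨h, hx, hy, hlt⟩, he⟩
        rcases Sym2.eq_iff.1 he with ⟨rfl, rfl⟩ | ⟨rfl, rfl⟩
        · exact ⟨⟨(hI _ h).ne, Or.inl h⟩, hx, hy⟩
        · exact ⟨⟨(hI _ h).ne', Or.inr h⟩, hy, hx⟩
  rw [h1, Set.ncard_image_of_injOn]
  rintro ⟨a, b⟩ ⟨-, -, -, h1⟩ ⟨c, d⟩ ⟨-, -, -, h2⟩ he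
  simp only at h1 h2 he
  rcases Sym2.eq_iff.1 he with ⟨rfl, rfl⟩ | ⟨rfl, rfl⟩
  · rfl
  · exact absurd h1 (lt_asymm h2)

theorem sparse_of_matroid (M : Matroid (Fin n × Fin n))
    (hE : M.E = {x : Fin n × Fin n | x.1 < x.2})
    (hr : ∀ S : Finset (Fin n), 3 ≤ S.card →
      M.eRk {x : Fin n × Fin n | x.1 ∈ S ∧ x.2 ∈ S ∧ x.1 < x.2} = ((3 * S.card - 6 : ℕ) : ℕ∞))
    {I : Set (Fin n × Fin n)} (hI : M.Indep I) : Sparse (gr I) := by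
  have hlt : ∀ e ∈ I, e.1 < e.2 := by
    intro e he
    have := hI.subset_ground he
    rw [hE] at this
    exact this
  intro X hX
  rw [i2_gr hlt X]
  have h1 : M.Indep (I ∩ {e | e.1 ∈ X ∧ e.2 ∈ X ∧ e.1 < e.2}) := hI.subset Set.inter_subset_left
  have h2 : (I ∩ {e | e.1 ∈ X ∧ e.2 ∈ X ∧ e.1 < e.2}).encard ≤ ((3 * X.card - 6 : ℕ) : ℕ∞) := by
    rw [← h1.eRk_eq_encard, ← hr X hX]
    exact M.eRk_mono Set.inter_subset_right
  rw [← (Set.toFinite (I ∩ {e | e.1 ∈ X ∧ e.2 ∈ X ∧ e.1 < e.2})).cast_ncard_eq] at h2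
  have h3 := ENat.coe_le_coe.1 h2
  omega

theorem exists_of_sparse {I : Set (Fin n × Fin n)} (hI : ∀ e ∈ I, e.1 < e.2)
    (hc : CoreLeFive (SimpleGraph.fromRel (fun a b => (a, b) ∈ I))) (hS : Sparse (gr I)) :
    ∃ p : Fin n → Fin 3 → ℝ, Ind p (gr I) := by
  obtain ⟨p, hp⟩ := exists_gen (V := Fin n)
  refine ⟨p, ?_⟩
  rw [← TR.rowInd_iff]
  apply rowInd_of_core _ _ hp
  · rw [gr_eq]
    exact hc
  · rw [TR.sparse_iff]
    exact hS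

end H176R2.R5.OR
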