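import Mathlib

/-!
# Sparse graphs of maximum degree five are independent in the generic 3-dimensional rigidity matroid

Project R5 (MP_98a5df_co).  Definitions.
-/

set_option autoImplicit false

open Finset

namespace H176R2.R5

section graph

variable {V : Type} [Fintype V] [DecidableEq V]

open Classical in
/-- The number of neighbours of `a` in `X`. -/
noncomputable def dg (G : SimpleGraph V) (X : Finset V) (a : V) : ℕ :=
  (X.filter fun b => G.Adj a b).card

/-- Twice the number of edges inside `X`. -/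
noncomputable def i2 (G : SimpleGraph V) (X : Finset V) : ℕ := ∑ a ∈ X, dg G X a

/-- `(3,6)`-sparse: every set `X` of at least three vertices spans at most `3|X| - 6` edges. -/
def Sparse (G : SimpleGraph V) : Prop := ∀ X : Finset V, 3 ≤ X.card → i2 G X + 12 ≤ 6 * X.card

/-- A tight set: at least three vertices and exactly `3|X| - 6` edges. -/
def Tight (G : SimpleGraph V) (X : Finset V) : Prop := 3 ≤ X.card ∧ i2 G X + 12 = 6 * X.card

/-- A blocked pair: adjacent, or contained in a tight set. -/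
def Blocked (G : SimpleGraph V) (a b : V) : Prop :=
  G.Adj a b ∨ ∃ X : Finset V, Tight G X ∧ a ∈ X ∧ b ∈ X

/-- Remove all edges at `w`. -/
def del (G : SimpleGraph V) (w : V) : SimpleGraph V where
  Adj a b := G.Adj a b ∧ a ≠ w ∧ b ≠ w
  symm := ⟨fun _ _ h => ⟨h.1.symm, h.2.2, h.2.1⟩⟩
  loopless := ⟨fun _ h => h.1.ne rfl⟩

/-- Add the edge `ab`. -/
def addE (G : SimpleGraph V) (a b : V) : SimpleGraph V where
  Adj x y := G.Adj x y ∨ (a ≠ b ∧ ((x = a ∧ y = b) ∨ (x = b ∧ y = a)))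
  symm := ⟨fun _ _ h => by
    rcases h with h | ⟨h, h1 | h1⟩
    · exact Or.inl h.symm
    · exact Or.inr ⟨h, Or.inr ⟨h1.2, h1.1⟩⟩
    · exact Or.inr ⟨h, Or.inl ⟨h1.2, h1.1⟩⟩⟩
  loopless := ⟨fun _ h => by
    rcases h with h | ⟨h, ⟨h1, h2⟩ | ⟨h1, h2⟩⟩
    · exact h.ne rfl
    · exact h (h1.symm.trans h2)
    · exact h (h2.symm.trans h1)⟩

/-- The edges with both ends in `X`. -/
def ins (G : SimpleGraph V) (X : Finset V) : SimpleGraph V where
  Adj a b := G.Adj a b ∧ a ∈ X ∧ b ∈ X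
  symm := ⟨fun _ _ h => ⟨h.1.symm, h.2.2, h.2.1⟩⟩
  loopless := ⟨fun _ h => h.1.ne rfl⟩

/-- The edges which do not have both ends in `X`. -/
def out (G : SimpleGraph V) (X : Finset V) : SimpleGraph V where
  Adj a b := G.Adj a b ∧ ¬ (a ∈ X ∧ b ∈ X)
  symm := ⟨fun _ _ h => ⟨h.1.symm, fun h' => h.2 ⟨h'.2, h'.1⟩⟩⟩
  loopless := ⟨fun _ h => h.1.ne rfl⟩

/-- The edges with at least one end in `X`. -/
def tch (G : SimpleGraph V) (X : Finset V) : SimpleGraph V where
  Adj a b := G.Adj a b ∧ (a ∈ X ∨ b ∈ X)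
  symm := ⟨fun _ _ h => ⟨h.1.symm, h.2.symm⟩⟩
  loopless := ⟨fun _ h => h.1.ne rfl⟩

/-- The edges with no end in `X`. -/
def nch (G : SimpleGraph V) (X : Finset V) : SimpleGraph V where
  Adj a b := G.Adj a b ∧ a ∉ X ∧ b ∉ X
  symm := ⟨fun _ _ h => ⟨h.1.symm, h.2.2, h.2.1⟩⟩
  loopless := ⟨fun _ h => h.1.ne rfl⟩

/-- `X` is closed under adjacency. -/
def Closed (G : SimpleGraph V) (X : Finset V) : Prop := ∀ a ∈ X, ∀ b, G.Adj a b → b ∈ X

/-- No nonempty closed set has all its degrees equal to `5`. -/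
def NC (G : SimpleGraph V) : Prop :=
  ∀ X : Finset V, X.Nonempty → Closed G X → ∃ a ∈ X, dg G univ a ≠ 5

/-- The axioms of an independence predicate needed for the Jackson-Jordan theorem. -/
structure Ax (I : SimpleGraph V → Prop) : Prop where
  bot : I ⊥
  ext0 : ∀ (G : SimpleGraph V) (w : V), dg G univ w ≤ 3 → I (del G w) → I G
  ext1 : ∀ (G : SimpleGraph V) (w a b c d : V), (∀ x, G.Adj w x ↔ x = a ∨ x = b ∨ x = c ∨ x = d) →
    a ≠ b → a ≠ c → a ≠ d → b ≠ c → b ≠ d → c ≠ d → ¬ G.Adj a b →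
    I (addE (del G w) a b) → I G
  cut : ∀ (G : SimpleGraph V) (w : V) (X : Finset V), w ∉ X → Closed (del G w) X →
    I (tch G X) → I (nch G X) → I G

/-- `N(v) = {a,b,c,d,f}` with five different elements. -/
def Nb (G : SimpleGraph V) (v a b c d f : V) : Prop :=
  (∀ x, G.Adj v x ↔ x = a ∨ x = b ∨ x = c ∨ x = d ∨ x = f) ∧ a ≠ b ∧ a ≠ c ∧ a ≠ d ∧ a ≠ f ∧
    b ≠ c ∧ b ≠ d ∧ b ≠ f ∧ c ≠ d ∧ c ≠ f ∧ d ≠ f

end graph

section rigidity

variable {V : Type} [Fintype V] [DecidableEq V]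

/-- `(p a - p b) · (u a - u b)` -/
def ee (p u : V → Fin 3 → ℝ) (a b : V) : ℝ := ∑ i, (p a i - p b i) * (u a i - u b i)

/-- `ω` is a stress of the framework `(G,p)`. -/
structure IsStress (p : V → Fin 3 → ℝ) (G : SimpleGraph V) (ω : V → V → ℝ) : Prop where
  symm : ∀ a b, ω a b = ω b a
  supp : ∀ a b, ¬ G.Adj a b → ω a b = 0
  bal : ∀ a i, ∑ b, ω a b * (p a i - p b i) = 0

/-- The framework `(G,p)` is independent: it has no nonzero stress. -/
def Ind (p : V → Fin 3 → ℝ) (G : SimpleGraph V) : Prop :=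
  ∀ ω, IsStress p G ω → ∀ a b, ω a b = 0

/-- `u` is an infinitesimal motion of `(G,p)`. -/
def IsMotion (p : V → Fin 3 → ℝ) (G : SimpleGraph V) (u : V → Fin 3 → ℝ) : Prop :=
  ∀ a b, G.Adj a b → ee p u a b = 0

/-- Homogeneous coordinates. -/
def hat (x : Fin 3 → ℝ) : Fin 4 → ℝ := ![1, x 0, x 1, x 2]

/-- The bracket of four vectors. -/
noncomputable def br (A B C D : Fin 4 → ℝ) : ℝ := Matrix.det (Matrix.of ![A, B, C, D])

/-- Generic placements: all coordinates are algebraically independent over `ℚ`. -/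
def Gen (p : V → Fin 3 → ℝ) : Prop := AlgebraicIndependent ℚ (fun vi : V × Fin 3 => p vi.1 vi.2)

/-- The field generated by the coordinates of the vertices in `S`. -/
noncomputable def Fd (p : V → Fin 3 → ℝ) (S : Set V) : IntermediateField ℚ ℝ :=
  IntermediateField.adjoin ℚ {x | ∃ w ∈ S, ∃ i, x = p w i}

/-- Polynomial functions on `ℝ³` with coefficients in `F`. -/
def PF (F : IntermediateField ℚ ℝ) (f : (Fin 3 → ℝ) → ℝ) : Prop :=
  ∃ P : MvPolynomial (Fin 3) F, ∀ ξ, f ξ = MvPolynomial.aeval ξ P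

/-- Minimal dependent graphs. -/
structure Circ (p : V → Fin 3 → ℝ) (C : SimpleGraph V) : Prop where
  dep : ¬ Ind p C
  min : ∀ G : SimpleGraph V, G < C → Ind p G

/-- The standing assumptions: a generic placement, a circuit which is sparse with degrees at most
five, and a stress of it without zero coefficients. -/
structure Std (p : V → Fin 3 → ℝ) (C : SimpleGraph V) (ω : V → V → ℝ) : Prop where
  gen : Gen p
  circ : Circ p C
  sparse : Sparse C
  deg5 : ∀ a, dg C univ a = 0 ∨ dg C univ a = 5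
  stress : IsStress p C ω
  ne : ∀ a b, C.Adj a b → ω a b ≠ 0

/-- A vertex `v` of type B: its neighbours are `i1,i2 | j1,j2,j3`. -/
structure BV (p : V → Fin 3 → ℝ) (C : SimpleGraph V) (ω : V → V → ℝ) (v i1 i2 j1 j2 j3 : V) :
    Prop where
  nb : Nb C v i1 i2 j1 j2 j3
  bI : Blocked (del C v) i1 i2
  b12 : Blocked (del C v) j1 j2
  b13 : Blocked (del C v) j1 j3
  b23 : Blocked (del C v) j2 j3
  cr : ∀ i, (i = i1 ∨ i = i2) → ∀ j, (j = j1 ∨ j = j2 ∨ j = j3) → ¬ Blocked (del C v) i j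
  sum : ∑ b, ω v b ≠ 0
  rho : ω v i1 / ω v i2 ∈ Fd p {v}ᶜ
  rhoj : ∀ j, (j = j1 ∨ j = j2 ∨ j = j3) → ω v i1 / ω v i2 ∈ Fd p {v, j}ᶜ

end rigidity

end H176R2.R5
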