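import Pool.Agent.H176R2.R5.GN1
import Pool.Agent.H176R2.R5.L1
import Pool.Agent.H176R2.R5.GN2

set_option autoImplicit false
set_option linter.unusedSectionVars false

open Finset

namespace H176R2.R5

variable {V : Type} [Fintype V] [DecidableEq V]

namespace Kap

/-- the four new edges: a complete bipartite graph between `{i1,i2}` and `{k,l}` -/
def nw (i1 i2 k l a b : V) : Prop :=
  ((a = i1 ∨ a = i2) ∧ (b = k ∨ b = l)) ∨ ((b = i1 ∨ b = i2) ∧ (a = k ∨ a = l))

theorem nw_symm {i1 i2 k l a b : V} (h : nw i1 i2 k l a b) : nw i1 i2 k l b a := by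
  rcases h with h | h
  · exact Or.inr h
  · exact Or.inl h

/-- add the four new edges -/
def ad (G : SimpleGraph V) (i1 i2 k l : V) (d3 : i1 ≠ k) (d4 : i1 ≠ l) (d6 : i2 ≠ k)
    (d7 : i2 ≠ l) : SimpleGraph V where
  Adj a b := G.Adj a b ∨ nw i1 i2 k l a b
  symm := ⟨fun _ _ h => h.elim (fun h => Or.inl h.symm) (fun h => Or.inr (nw_symm h))⟩
  loopless := ⟨fun a h => by
    rcases h with h | ⟨h1 | h1, h2 | h2⟩ | ⟨h1 | h1, h2 | h2⟩
    · exact h.ne rfl
    · exact d3 (h1.symm.trans h2)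
    · exact d4 (h1.symm.trans h2)
    · exact d6 (h1.symm.trans h2)
    · exact d7 (h1.symm.trans h2)
    · exact d3 (h1.symm.trans h2)
    · exact d4 (h1.symm.trans h2)
    · exact d6 (h1.symm.trans h2)
    · exact d7 (h1.symm.trans h2)⟩

/-- remove the edge `jt` -/
def rm (G : SimpleGraph V) (j t : V) : SimpleGraph V where
  Adj a b := G.Adj a b ∧ ¬ ((a = j ∧ b = t) ∨ (a = t ∧ b = j))
  symm := ⟨fun _ _ h => ⟨h.1.symm, fun h' => h.2 (h'.elim (fun h => Or.inr ⟨h.2, h.1⟩)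
    (fun h => Or.inl ⟨h.2, h.1⟩))⟩⟩
  loopless := ⟨fun _ h => h.1.ne rfl⟩

theorem ee_symm (p u : V → Fin 3 → ℝ) (a b : V) : ee p u a b = ee p u b a := by
  unfold ee
  apply Finset.sum_congr rfl
  intro i _
  ring

theorem ee_self (p u : V → Fin 3 → ℝ) (a : V) : ee p u a a = 0 := by
  unfold ee
  simp

theorem ee_comb (p u1 u2 : V → Fin 3 → ℝ) (A B : ℝ) (a b : V) :
    ee p (fun x i => A * u1 x i + B * u2 x i) a b = A * ee p u1 a b + B * ee p u2 a b := by
  unfold ee
  rw [Finset.mul_sum, Finset.mul_sum, ← Finset.sum_add_distrib]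
  apply Finset.sum_congr rfl
  intro i _
  ring

theorem ext0' {p : V → Fin 3 → ℝ} (hp : Gen p) (G : SimpleGraph V) (w : V)
    (hd : dg G univ w ≤ 3) (hI : Ind p (del G w)) : Ind p G := by
  classical
  intro ω hω
  have hN : (univ.filter fun b => G.Adj w b).card ≤ 3 := by
    unfold dg at hd
    exact hd
  have h0 : ∀ b, ω w b = 0 := by
    intro b
    by_cases hb : G.Adj w b
    · refine small_indep hp (w := w) (N := univ.filter fun b => G.Adj w b) ?_ hN (ω w) ?_ b ?_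
      · rw [mem_filter]; exact fun h => h.2.ne rfl
      · intro i
        rw [← hω.bal w i]
        apply Finset.sum_subset (Finset.subset_univ _)
        intro x _ hx
        rw [hω.supp w x (fun h => hx (by rw [mem_filter]; exact ⟨mem_univ _, h⟩)), zero_mul]
      · rw [mem_filter]; exact ⟨mem_univ _, hb⟩
    · exact hω.supp w b hb
  refine hI ω ⟨hω.symm, ?_, hω.bal⟩
  intro a b hab
  by_cases ha : a = w
  · rw [ha]; exact h0 b
  by_cases hb : b = w
  · rw [hb, hω.symm]; exact h0 a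
  exact hω.supp a b (fun h => hab ⟨h, ha, hb⟩)

end Kap

open Kap

theorem kappa {p : V → Fin 3 → ℝ} (hp : Gen p) (H : SimpleGraph V) (hI : Ind p H) (v : V)
    (hv : ∀ x, ¬ H.Adj v x) (i1 i2 j k l : V) (d1 : i1 ≠ i2) (d2 : i1 ≠ j) (d3 : i1 ≠ k)
    (d4 : i1 ≠ l) (d5 : i2 ≠ j) (d6 : i2 ≠ k) (d7 : i2 ≠ l) (d8 : j ≠ k) (d9 : j ≠ l)
    (d10 : k ≠ l) (e1 : i1 ≠ v) (e2 : i2 ≠ v) (e3 : j ≠ v) (e4 : k ≠ v) (e5 : l ≠ v)
    (hdeg : dg H univ j = 4) (n1 : ¬ H.Adj i1 k) (n2 : ¬ H.Adj i2 k) (n3 : ¬ H.Adj i1 l)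
    (n4 : ¬ H.Adj i2 l) (ℓ1 ℓ2 : ℝ) (h1 : ℓ1 ≠ 0) (h2 : ℓ2 ≠ 0)
    (hrel : ∀ u, IsMotion p H u →
      ℓ2 * ee p u i1 k = ℓ1 * ee p u i2 k ∧ ℓ2 * ee p u i1 l = ℓ1 * ee p u i2 l)
    (hex1 : ∃ u, IsMotion p H u ∧ ee p u i1 k = 1 ∧ ee p u i1 l = 0)
    (hex2 : ∃ u, IsMotion p H u ∧ ee p u i1 k = 0 ∧ ee p u i1 l = 1) :
    ℓ1 / ℓ2 ∈ Fd p {v, j}ᶜ := by
  classical
  -- a neighbour of `j`
  obtain ⟨t, ht⟩ : ∃ t, H.Adj j t := by
    by_contra hcon
    push Not at hcon
    have : dg H univ j = 0 := by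
      unfold dg
      rw [Finset.card_eq_zero, Finset.filter_eq_empty_iff]
      intro x _
      exact hcon x
    omega
  have nwne : ∀ a b, nw i1 i2 k l a b → ¬ H.Adj a b := by
    rintro a b (⟨rfl | rfl, rfl | rfl⟩ | ⟨rfl | rfl, rfl | rfl⟩)
    · exact n1
    · exact n3
    · exact n2
    · exact n4
    · exact fun h => n1 h.symm
    · exact fun h => n3 h.symm
    · exact fun h => n2 h.symm
    · exact fun h => n4 h.symm
  have nwj : ∀ a b, nw i1 i2 k l a b → a ≠ j ∧ b ≠ j ∧ a ≠ v ∧ b ≠ v := by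
    rintro a b (⟨rfl | rfl, rfl | rfl⟩ | ⟨rfl | rfl, rfl | rfl⟩)
    · exact ⟨d2, d8.symm, e1, e4⟩
    · exact ⟨d2, d9.symm, e1, e5⟩
    · exact ⟨d5, d8.symm, e2, e4⟩
    · exact ⟨d5, d9.symm, e2, e5⟩
    · exact ⟨d8.symm, d2, e4, e1⟩
    · exact ⟨d9.symm, d2, e5, e1⟩
    · exact ⟨d8.symm, d5, e4, e2⟩
    · exact ⟨d9.symm, d5, e5, e2⟩
  set G4 : SimpleGraph V := ad (del H j) i1 i2 k l d3 d4 d6 d7 with hG4
  set G5 : SimpleGraph V := ad (rm H j t) i1 i2 k l d3 d4 d6 d7 with hG5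
  -- the graph `G4` is dependent
  have hnot : ¬ Ind p G4 := by
    intro hI4
    have hI5' : Ind p (del G5 j) := by
      apply ind_mono hI4
      intro a b hab
      obtain ⟨hab, haj, hbj⟩ := hab
      rcases hab with hab | hab
      · exact Or.inl ⟨hab.1, haj, hbj⟩
      · exact Or.inr hab
    have hd5 : dg G5 univ j ≤ 3 := by
      have hsub : (univ.filter fun b => G5.Adj j b) ⊆ (univ.filter fun b => H.Adj j b).erase t := by
        intro b hb
        rw [mem_filter] at hb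
        rw [mem_erase, mem_filter]
        rcases hb.2 with hb | hb
        · refine ⟨fun hbt => hb.2 (Or.inl ⟨rfl, hbt⟩), mem_univ _, hb.1⟩
        · exact absurd rfl (nwj _ _ hb).1
      unfold dg at hdeg ⊢
      have hc := Finset.card_le_card hsub
      rw [Finset.card_erase_of_mem (by rw [mem_filter]; exact ⟨mem_univ _, ht⟩)] at hc
      calc _ ≤ _ := hc
        _ = 3 := by rw [hdeg]
    have hI5 : Ind p G5 := ext0' hp G5 j hd5 hI5'
    obtain ⟨u1, hu1⟩ := surj p G5 hI5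
      (fun a b => if (a = i1 ∧ b = k) ∨ (a = k ∧ b = i1) then 1 else 0)
      (by intro a b; congr 1; apply propext; tauto)
    obtain ⟨u2, hu2⟩ := surj p G5 hI5
      (fun a b => if (a = i1 ∧ b = l) ∨ (a = l ∧ b = i1) then 1 else 0)
      (by intro a b; congr 1; apply propext; tauto)
    obtain ⟨A, B, hAB, hne⟩ : ∃ A B : ℝ, A * ee p u1 j t + B * ee p u2 j t = 0 ∧
        ¬ (A = 0 ∧ B = 0) := by
      by_cases h0 : ee p u1 j t = 0
      · exact ⟨1, 0, by rw [h0]; ring, by simp⟩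
      · exact ⟨ee p u2 j t, -ee p u1 j t, by ring, fun h => h0 (neg_eq_zero.mp h.2)⟩
    set u : V → Fin 3 → ℝ := fun x i => A * u1 x i + B * u2 x i with hu
    have hee : ∀ a b, ee p u a b = A * ee p u1 a b + B * ee p u2 a b :=
      fun a b => ee_comb p u1 u2 A B a b
    have hmot : IsMotion p H u := by
      intro a b hab
      rw [hee]
      by_cases hjt : (a = j ∧ b = t) ∨ (a = t ∧ b = j)
      · rcases hjt with ⟨rfl, rfl⟩ | ⟨rfl, rfl⟩
        · exact hAB
        · rw [ee_symm p u1, ee_symm p u2]; exact hAB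
      · have hadj : G5.Adj a b := Or.inl ⟨hab, hjt⟩
        rw [hu1 a b hadj, hu2 a b hadj, if_neg, if_neg]
        · ring
        · rintro (⟨rfl, rfl⟩ | ⟨rfl, rfl⟩)
          · exact n3 hab
          · exact n3 hab.symm
        · rintro (⟨rfl, rfl⟩ | ⟨rfl, rfl⟩)
          · exact n1 hab
          · exact n1 hab.symm
    have a1 : G5.Adj i1 k := Or.inr (Or.inl ⟨Or.inl rfl, Or.inl rfl⟩)
    have a2 : G5.Adj i1 l := Or.inr (Or.inl ⟨Or.inl rfl, Or.inr rfl⟩)
    have a3 : G5.Adj i2 k := Or.inr (Or.inl ⟨Or.inr rfl, Or.inl rfl⟩)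
    have a4 : G5.Adj i2 l := Or.inr (Or.inl ⟨Or.inr rfl, Or.inr rfl⟩)
    have b1 : ee p u i1 k = A := by
      rw [hee, hu1 _ _ a1, hu2 _ _ a1, if_pos (Or.inl ⟨rfl, rfl⟩), if_neg]
      · ring
      · rintro (⟨_, h⟩ | ⟨h, _⟩)
        · exact d10 h
        · exact d4 h
    have b2 : ee p u i1 l = B := by
      rw [hee, hu1 _ _ a2, hu2 _ _ a2, if_neg, if_pos (Or.inl ⟨rfl, rfl⟩)]
      · ring
      · rintro (⟨_, h⟩ | ⟨h, _⟩)
        · exact d10 h.symm
        · exact d3 h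
    have b3 : ee p u i2 k = 0 := by
      rw [hee, hu1 _ _ a3, hu2 _ _ a3, if_neg, if_neg]
      · ring
      · rintro (⟨h, _⟩ | ⟨h, _⟩)
        · exact d1 h.symm
        · exact d7 h
      · rintro (⟨h, _⟩ | ⟨h, _⟩)
        · exact d1 h.symm
        · exact d6 h
    have b4 : ee p u i2 l = 0 := by
      rw [hee, hu1 _ _ a4, hu2 _ _ a4, if_neg, if_neg]
      · ring
      · rintro (⟨h, _⟩ | ⟨h, _⟩)
        · exact d1 h.symm
        · exact d7 h
      · rintro (⟨h, _⟩ | ⟨h, _⟩)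
        · exact d1 h.symm
        · exact d6 h
    obtain ⟨r1, r2⟩ := hrel u hmot
    rw [b1, b3, mul_zero] at r1
    rw [b2, b4, mul_zero] at r2
    exact hne ⟨(mul_eq_zero.mp r1).resolve_left h2, (mul_eq_zero.mp r2).resolve_left h2⟩
  -- a nonzero stress
  obtain ⟨c, hc, x0, y0, hxy⟩ : ∃ c, IsStress p G4 c ∧ ∃ a b, c a b ≠ 0 := by
    unfold Ind at hnot
    push Not at hnot
    obtain ⟨c, hc, a, b, hab⟩ := hnot
    exact ⟨c, hc, a, b, hab⟩
  have hIdel : Ind p (del H j) := ind_mono hI (fun a b h => h.1)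
  obtain ⟨x1, y1, hnw1, hc1⟩ : ∃ a b, nw i1 i2 k l a b ∧ c a b ≠ 0 := by
    by_contra hcon
    push Not at hcon
    apply hxy
    refine hIdel c ⟨hc.symm, ?_, hc.bal⟩ x0 y0
    intro a b hab
    by_cases hn : nw i1 i2 k l a b
    · exact hcon a b hn
    · exact hc.supp a b (fun h => h.elim hab hn)
  set F := Fd p {v, j}ᶜ with hF
  obtain ⟨π, hπF, hπid, hπadd, hπmul⟩ := exists_retract F
  have hπ0 : π 0 = 0 := hπid 0 F.zero_mem
  set c' : V → V → ℝ := fun a b => π (c a b / c x1 y1) with hc'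
  have hG4vj : ∀ a b, G4.Adj a b → a ∈ ({v, j}ᶜ : Set V) := by
    intro a b hab
    rw [Set.mem_compl_iff, Set.mem_insert_iff, Set.mem_singleton_iff, not_or]
    rcases hab with hab | hab
    · refine ⟨?_, hab.2.1⟩
      rintro rfl
      exact hv _ hab.1
    · exact ⟨(nwj _ _ hab).2.2.1, (nwj _ _ hab).1⟩
  have hπsum : ∀ (s : Finset V) (f : V → ℝ), π (∑ b ∈ s, f b) = ∑ b ∈ s, π (f b) := by
    intro s f
    induction s using Finset.induction_on with
    | empty => simpa using hπ0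
    | insert a s ha ih => rw [Finset.sum_insert ha, Finset.sum_insert ha, hπadd, ih]
  have hstress : IsStress p G4 c' := by
    refine ⟨?_, ?_, ?_⟩
    · intro a b
      simp only [hc']
      rw [hc.symm a b]
    · intro a b hab
      simp only [hc']
      rw [hc.supp a b hab, zero_div, hπ0]
    · intro a i
      have : ∀ b, c' a b * (p a i - p b i) = π (c a b / c x1 y1 * (p a i - p b i)) := by
        intro b
        by_cases hab : G4.Adj a b
        · have hm : p a i - p b i ∈ F :=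
            F.sub_mem (Fd_mem p (hG4vj a b hab) i) (Fd_mem p (hG4vj b a hab.symm) i)
          rw [mul_comm (c a b / c x1 y1), hπmul _ hm, mul_comm]
        · simp only [hc']
          rw [hc.supp a b hab, zero_div, zero_mul, hπ0, zero_mul]
      rw [Finset.sum_congr rfl (fun b _ => this b), ← hπsum]
      have : ∑ b, c a b / c x1 y1 * (p a i - p b i) = (∑ b, c a b * (p a i - p b i)) / c x1 y1 := by
        rw [Finset.sum_div]
        apply Finset.sum_congr rfl
        intro b _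
        ring
      rw [this, hc.bal a i, zero_div, hπ0]
  have hone : c' x1 y1 = 1 := by
    simp only [hc']
    rw [div_self hc1]
    exact hπid 1 F.one_mem
  -- pairing with motions of `H`
  have hpair : ∀ u, IsMotion p H u → c' i1 k * ee p u i1 k + c' i2 k * ee p u i2 k +
      c' i1 l * ee p u i1 l + c' i2 l * ee p u i2 l = 0 := by
    intro u hu
    have hs := stress_pair hstress u
    have hz : ∀ a b, ¬ nw i1 i2 k l a b → c' a b * ee p u a b = 0 := by
      intro a b hn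
      by_cases hab : H.Adj a b
      · rw [hu a b hab, mul_zero]
      · rw [hstress.supp a b (fun h => h.elim (fun h => hab h.1) hn), zero_mul]
    have hsy : ∀ a b, c' a b * ee p u a b = c' b a * ee p u b a := by
      intro a b
      rw [hstress.symm a b, ee_symm p u a b]
    set Z : Finset V := {i1, i2, k, l} with hZ
    have hnZ : ∀ a b, nw i1 i2 k l a b → a ∈ Z ∧ b ∈ Z := by
      rintro a b (⟨rfl | rfl, rfl | rfl⟩ | ⟨rfl | rfl, rfl | rfl⟩) <;> simp [hZ]
    have s1 : ∑ a, ∑ b, c' a b * ee p u a b = ∑ a ∈ Z, ∑ b ∈ Z, c' a b * ee p u a b := by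
      symm
      have : ∀ a ∈ Z, ∑ b ∈ Z, c' a b * ee p u a b = ∑ b, c' a b * ee p u a b := by
        intro a _
        apply Finset.sum_subset (Finset.subset_univ Z)
        intro b _ hb
        exact hz a b (fun h => hb (hnZ a b h).2)
      rw [Finset.sum_congr rfl this]
      apply Finset.sum_subset (Finset.subset_univ Z)
      intro a _ ha
      apply Finset.sum_eq_zero
      intro b _
      exact hz a b (fun h => ha (hnZ a b h).1)
    rw [s1] at hs
    have hexp : ∀ f : V → ℝ, ∑ a ∈ Z, f a = f i1 + f i2 + f k + f l := by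
      intro f
      rw [hZ, Finset.sum_insert, Finset.sum_insert, Finset.sum_insert, Finset.sum_singleton]
      · ring
      · simpa using d10
      · simp only [mem_insert, mem_singleton, not_or]; exact ⟨d6, d7⟩
      · simp only [mem_insert, mem_singleton, not_or]; exact ⟨d1, d3, d4⟩
    rw [hexp, hexp, hexp, hexp, hexp] at hs
    have z1 : c' i1 i1 * ee p u i1 i1 = 0 := by rw [ee_self]; ring
    have z2 : c' i2 i2 * ee p u i2 i2 = 0 := by rw [ee_self]; ring
    have z3 : c' k k * ee p u k k = 0 := by rw [ee_self]; ring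
    have z4 : c' l l * ee p u l l = 0 := by rw [ee_self]; ring
    have z5 : c' i1 i2 * ee p u i1 i2 = 0 := by
      apply hz
      rintro (⟨_, h | h⟩ | ⟨_, h | h⟩)
      · exact d6 h
      · exact d7 h
      · exact d3 h
      · exact d4 h
    have z6 : c' k l * ee p u k l = 0 := by
      apply hz
      rintro (⟨h | h, _⟩ | ⟨h | h, _⟩)
      · exact d3 h.symm
      · exact d6 h.symm
      · exact d4 h.symm
      · exact d7 h.symm
    rw [hsy i2 i1, hsy k i1, hsy k i2, hsy l i1, hsy l i2, hsy l k, z1, z2, z3, z4, z5, z6] at hs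
    linarith
  obtain ⟨u1, hm1, hu11, hu12⟩ := hex1
  obtain ⟨u2, hm2, hu21, hu22⟩ := hex2
  have q1 := hpair u1 hm1
  have q2 := hpair u2 hm2
  obtain ⟨r11, r12⟩ := hrel u1 hm1
  obtain ⟨r21, r22⟩ := hrel u2 hm2
  rw [hu11, mul_one] at r11
  rw [hu12, mul_zero] at r12
  rw [hu21, mul_zero] at r21
  rw [hu22, mul_one] at r22
  have w1 : ee p u1 i2 k = ℓ2 / ℓ1 := by rw [r11]; field_simp
  have w2 : ee p u1 i2 l = 0 := (mul_eq_zero.mp r12.symm).resolve_left h1
  have w3 : ee p u2 i2 k = 0 := (mul_eq_zero.mp r21.symm).resolve_left h1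
  have w4 : ee p u2 i2 l = ℓ2 / ℓ1 := by rw [r22]; field_simp
  rw [hu11, hu12, w1, w2] at q1
  rw [hu21, hu22, w3, w4] at q2
  have q1' : c' i1 k * ℓ1 + c' i2 k * ℓ2 = 0 := by
    field_simp at q1
    linarith
  have q2' : c' i1 l * ℓ1 + c' i2 l * ℓ2 = 0 := by
    field_simp at q2
    linarith
  have hFm : ∀ a b, c' a b ∈ F := fun a b => hπF _
  -- a general conclusion
  have key : ∀ α β : ℝ, α ∈ F → β ∈ F → α * ℓ1 + β * ℓ2 = 0 → (α = 1 ∨ β = 1) → ℓ1 / ℓ2 ∈ F := by
    intro α β hα hβ hab hor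
    have hα0 : α ≠ 0 := by
      intro h0
      rw [h0, zero_mul, zero_add] at hab
      rcases hor with h | h
      · rw [h0] at h; exact zero_ne_one h
      · rw [h, one_mul] at hab; exact h2 hab
    have : ℓ1 / ℓ2 = -(β / α) := by
      rw [div_eq_iff h2]
      field_simp
      linarith
    rw [this]
    exact F.neg_mem (F.div_mem hβ hα)
  rcases hnw1 with ⟨ha | ha, hb | hb⟩ | ⟨hb | hb, ha | ha⟩
  · rw [ha, hb] at hone
    exact key _ _ (hFm _ _) (hFm _ _) q1' (Or.inl hone)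
  · rw [ha, hb] at hone
    exact key _ _ (hFm _ _) (hFm _ _) q2' (Or.inl hone)
  · rw [ha, hb] at hone
    exact key _ _ (hFm _ _) (hFm _ _) q1' (Or.inr hone)
  · rw [ha, hb] at hone
    exact key _ _ (hFm _ _) (hFm _ _) q2' (Or.inr hone)
  · rw [ha, hb, hstress.symm] at hone
    exact key _ _ (hFm _ _) (hFm _ _) q1' (Or.inl hone)
  · rw [ha, hb, hstress.symm] at hone
    exact key _ _ (hFm _ _) (hFm _ _) q2' (Or.inl hone)
  · rw [ha, hb, hstress.symm] at hone
    exact key _ _ (hFm _ _) (hFm _ _) q1' (Or.inr hone)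
  · rw [ha, hb, hstress.symm] at hone
    exact key _ _ (hFm _ _) (hFm _ _) q2' (Or.inr hone)

end H176R2.R5
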