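import Mathlib

/-!
# Project R5 (MP_98a5df_co), task LL: families of quadratic forms
-/

set_option autoImplicit false

namespace H176R2.R5

namespace LLaux

/-- A quadratic form whose product with a nonzero linear form vanishes is zero. -/
theorem factZ {F X : Type} [Field F] [CharZero F] [AddCommGroup X] [Module F X]
    (B : X →ₗ[F] X →ₗ[F] F) (L : X →ₗ[F] F) (η : X) (hη : L η ≠ 0)
    (h : ∀ x, B x x * L x = 0) (x : X) : B x x = 0 := by
  by_cases hx : L x = 0
  · have h0 : B η η = 0 := (mul_eq_zero.mp (h η)).resolve_right hη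
    have h1 := h (x + η)
    have h2 := h (x - η)
    simp only [map_add, map_sub, LinearMap.add_apply, LinearMap.sub_apply, hx, zero_add,
      zero_sub, mul_neg, neg_eq_zero] at h1 h2
    have h1' := (mul_eq_zero.mp h1).resolve_right hη
    have h2' := (mul_eq_zero.mp h2).resolve_right hη
    have h3 : (2 : F) * B x x = 0 := by linear_combination h1' + h2' - 2 * h0
    exact (mul_eq_zero.mp h3).resolve_left two_ne_zero
  · exact (mul_eq_zero.mp (h x)).resolve_right hx

/-- The bilinear form attached to a matrix. -/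
def bf {F : Type} [Field F] (e : Fin 5 → Fin 5 → F) :
    (Fin 5 → F) →ₗ[F] (Fin 5 → F) →ₗ[F] F :=
  LinearMap.mk₂ F (fun x x' => ∑ i, ∑ j, x i * x' j * e i j)
    (by
      intro a b c
      simp only [Pi.add_apply, ← Finset.sum_add_distrib]
      exact Finset.sum_congr rfl fun i _ => Finset.sum_congr rfl fun j _ => by ring)
    (by
      intro a b c
      simp only [Pi.smul_apply, smul_eq_mul, Finset.mul_sum]
      exact Finset.sum_congr rfl fun i _ => Finset.sum_congr rfl fun j _ => by ring)
    (by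
      intro a b c
      simp only [Pi.add_apply, ← Finset.sum_add_distrib]
      exact Finset.sum_congr rfl fun i _ => Finset.sum_congr rfl fun j _ => by ring)
    (by
      intro a b c
      simp only [Pi.smul_apply, smul_eq_mul, Finset.mul_sum]
      exact Finset.sum_congr rfl fun i _ => Finset.sum_congr rfl fun j _ => by ring)

theorem bf_apply {F : Type} [Field F] (e : Fin 5 → Fin 5 → F) (x x' : Fin 5 → F) :
    bf e x x' = ∑ i, ∑ j, x i * x' j * e i j := rfl

theorem bf_single {F : Type} [Field F] (e : Fin 5 → Fin 5 → F) (i j : Fin 5) :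
    bf e (Pi.single i 1) (Pi.single j 1) = e i j := by
  rw [bf_apply, Finset.sum_eq_single i, Finset.sum_eq_single j]
  · simp
  · intro b _ hb
    simp [hb]
  · simp
  · intro b _ hb
    simp [hb]
  · simp

theorem bf_symm {F : Type} [Field F] (e : Fin 5 → Fin 5 → F) (he : ∀ i j, e i j = e j i)
    (x x' : Fin 5 → F) : bf e x x' = bf e x' x := by
  rw [bf_apply, bf_apply, Finset.sum_comm]
  exact Finset.sum_congr rfl fun i _ => Finset.sum_congr rfl fun j _ => by rw [he i j]; ring

theorem bf_comb {F M : Type} [Field F] [AddCommGroup M] [Module F M]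
    (E : M →ₗ[F] (Fin 5 → Fin 5 → F)) (s t : F) (y y' : M) (x x' : Fin 5 → F) :
    bf (E (s • y + t • y')) x x' = s * bf (E y) x x' + t * bf (E y') x x' := by
  simp only [bf_apply, map_add, map_smul, Pi.add_apply, Pi.smul_apply, smul_eq_mul,
    Finset.mul_sum, ← Finset.sum_add_distrib]
  exact Finset.sum_congr rfl fun i _ => Finset.sum_congr rfl fun j _ => by ring

/-- The coefficients of a form which vanishes on the diagonal are zero. -/
theorem bf_zero {F : Type} [Field F] [CharZero F] (e : Fin 5 → Fin 5 → F)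
    (he : ∀ i j, e i j = e j i) (h : ∀ x, bf e x x = 0) (i j : Fin 5) : e i j = 0 := by
  have h1 := h (Pi.single i 1 + Pi.single j 1)
  have h2 := h (Pi.single i 1)
  have h3 := h (Pi.single j 1)
  simp only [map_add, LinearMap.add_apply] at h1
  rw [bf_single] at h2 h3
  simp only [bf_single] at h1
  have h4 : (2 : F) * e i j = 0 := by
    have := he i j
    linear_combination h1 - h2 - h3 + this
  exact (mul_eq_zero.mp h4).resolve_left two_ne_zero

theorem fifth (a b c d : Fin 5) (hab : a ≠ b) (hac : a ≠ c) (had : a ≠ d) (hbc : b ≠ c)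
    (hbd : b ≠ d) (hcd : c ≠ d) : ∃ m : Fin 5, ∀ x, x ≠ m → x = a ∨ x = b ∨ x = c ∨ x = d := by
  have hc : ({a, b, c, d} : Finset (Fin 5)).card = 4 := by
    rw [Finset.card_insert_of_notMem (by simp [hab, hac, had]),
      Finset.card_insert_of_notMem (by simp [hbc, hbd]),
      Finset.card_insert_of_notMem (by simp [hcd]), Finset.card_singleton]
  have h1 : (({a, b, c, d} : Finset (Fin 5))ᶜ).card = 1 := by
    rw [Finset.card_compl, hc, Fintype.card_fin]
  obtain ⟨m, hm⟩ := Finset.card_eq_one.mp h1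
  refine ⟨m, fun x hx => ?_⟩
  by_contra hcon
  have : x ∈ (({a, b, c, d} : Finset (Fin 5))ᶜ) := by
    simpa using hcon
  rw [hm, Finset.mem_singleton] at this
  exact hx this

end LLaux

open LLaux in
theorem LL2 {F M : Type} [Field F] [CharZero F] [AddCommGroup M] [Module F M]
    (E : M →ₗ[F] (Fin 5 → Fin 5 → F)) (hsym : ∀ y i j, E y i j = E y j i)
    (hdiag : ∀ y i, E y i i = 0) (α : Fin 5 → F) (hα : ∀ i, α i ≠ 0)
    (hQα : ∀ y, ∑ i, ∑ j, α i * α j * E y i j = 0)
    (hid : ∀ y y' (x : Fin 5 → F),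
      (∑ i, ∑ j, x i * x j * E y i j) * (∑ i, ∑ j, x i * α j * E y' i j) =
        (∑ i, ∑ j, x i * x j * E y' i j) * (∑ i, ∑ j, x i * α j * E y i j))
    (a b c d : Fin 5) (y1 y2 : M) (h11 : E y1 a b = 1) (h12 : E y1 c d = 0) (h21 : E y2 a b = 0)
    (h22 : E y2 c d = 1) (hL : ∃ y, ∃ x : Fin 5 → F, ∑ i, ∑ j, x i * α j * E y i j ≠ 0) :
    ∃ ℓ : Fin 5 → F,
      (∀ y (x : Fin 5 → F), ∑ i, ∑ j, x i * x j * E y i j =
        (∑ i, ℓ i * x i) * ∑ i, ∑ j, x i * α j * E y i j) ∧
      ((∃ i0, ∀ y i j, i ≠ i0 → j ≠ i0 → E y i j = 0) ∨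
        ∃ i1 i2, i1 ≠ i2 ∧ ℓ i1 ≠ 0 ∧ ℓ i2 ≠ 0 ∧ (∀ j, j ≠ i1 → j ≠ i2 → ℓ j = 0) ∧
          (∀ y, E y i1 i2 = 0) ∧
          (∀ y j k, j ≠ i1 → j ≠ i2 → k ≠ i1 → k ≠ i2 → E y j k = 0) ∧
          (∀ y j, j ≠ i1 → j ≠ i2 → ℓ i2 * E y i1 j = ℓ i1 * E y i2 j) ∧
          ∀ j k, j ≠ i1 → j ≠ i2 → k ≠ i1 → k ≠ i2 → j ≠ k →
            ∃ y, E y i1 j = 1 ∧ E y i1 k = 0) := by
  classical
  -- bilinear notation
  set B : M → (Fin 5 → F) →ₗ[F] (Fin 5 → F) →ₗ[F] F := fun y => bf (E y) with hB
  have hid' : ∀ y y' x, B y x x * B y' x α = B y' x x * B y x α := hid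
  have hQα' : ∀ y, B y α α = 0 := hQα
  have hBs : ∀ y x x', B y x x' = B y x' x := fun y x x' => bf_symm _ (hsym y) x x'
  have hcomb : ∀ s t y y' x x', B (s • y + t • y') x x' = s * B y x x' + t * B y' x x' :=
    fun s t y y' x x' => bf_comb E s t y y' x x'
  obtain ⟨y0, η0, hη0⟩ := hL
  change B y0 η0 α ≠ 0 at hη0
  -- (0) a form with `L_z = 0` is zero
  have hzero : ∀ z, (∀ x, B z x α = 0) → ∀ i j, E z i j = 0 := by
    intro z hz
    apply bf_zero (E z) (hsym z)
    apply factZ (bf (E z)) ((B y0).flip α) η0 hη0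
    intro x
    have := hid' z y0 x
    rw [hz x, mul_zero] at this
    exact this
  -- (1) two independent linear forms
  have hind : ∃ y y' x η, B y x α = 0 ∧ B y' x α ≠ 0 ∧ B y η α ≠ 0 := by
    by_contra hcon
    push Not at hcon
    have hprop : ∀ z x, B z x α = B y0 x α / B y0 η0 α * B z η0 α := by
      intro z x
      by_contra hne
      have h1 : B y0 (x - (B y0 x α / B y0 η0 α) • η0) α = 0 := by
        simp only [map_sub, map_smul, LinearMap.sub_apply, LinearMap.smul_apply, smul_eq_mul]
        field_simp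
        ring
      have h2 : B z (x - (B y0 x α / B y0 η0 α) • η0) α ≠ 0 := by
        simp only [map_sub, map_smul, LinearMap.sub_apply, LinearMap.smul_apply, smul_eq_mul]
        exact sub_ne_zero.mpr hne
      exact hη0 (hcon y0 z _ η0 h1 h2)
    have hst : ∀ x, B (B y2 η0 α • y1 + (-(B y1 η0 α)) • y2) x α = 0 := by
      intro x
      rw [hcomb, hprop y1 x, hprop y2 x]
      ring
    have hE := hzero _ hst
    have hab := hE a b
    have hcd := hE c d
    simp only [map_add, map_smul, Pi.add_apply, Pi.smul_apply, smul_eq_mul, h11, h21, h12, h22,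
      mul_one, mul_zero, add_zero, zero_add, neg_eq_zero] at hab hcd
    have h1 : ∀ x, B y1 x α = 0 := by
      intro x
      rw [hprop y1 x, hcd, mul_zero]
    have := hzero y1 h1 a b
    rw [h11] at this
    exact one_ne_zero this
  obtain ⟨y, y', x0, η, hyx, hyx', hyη⟩ := hind
  -- (2) the common factor
  have hker : ∀ x, B y x α = 0 → B y x x = 0 := by
    intro x hx
    let K : Submodule F (Fin 5 → F) := LinearMap.ker ((B y).flip α)
    have hK : ∀ z : K, B y z α = 0 := fun z => z.2
    have := factZ (X := K) (((B y).domRestrict K).compl₂ K.subtype)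
      (((B y').flip α).domRestrict K) ⟨x0, hyx⟩ hyx' (by
        intro z
        have h1 := hid' y y' z
        rw [hK z, mul_zero] at h1
        exact h1) ⟨x, hx⟩
    exact this
  let ℓl : (Fin 5 → F) →ₗ[F] F :=
    (2 / B y η α) • ((B y).flip η) - (B y η η / (B y η α) ^ 2) • ((B y).flip α)
  have hℓl : ∀ x, ℓl x = 2 / B y η α * B y x η - B y η η / (B y η α) ^ 2 * B y x α := by
    intro x
    rfl
  have hfac0 : ∀ x, B y x x = ℓl x * B y x α := by
    intro x
    have h1 : B y (x - (B y x α / B y η α) • η) α = 0 := by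
      simp only [map_sub, map_smul, LinearMap.sub_apply, LinearMap.smul_apply, smul_eq_mul]
      field_simp
      ring
    have h2 := hker _ h1
    simp only [map_sub, map_smul, LinearMap.sub_apply, LinearMap.smul_apply, smul_eq_mul] at h2
    rw [hBs y η x] at h2
    rw [hℓl]
    field_simp at h2 ⊢
    linear_combination h2
  have hfac : ∀ z x, B z x x = ℓl x * B z x α := by
    intro z x
    have := factZ (X := Fin 5 → F)
      (B z - LinearMap.smulRight ℓl ((B z).flip α)) ((B y).flip α) η hyη (by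
        intro w
        have h1 := hid' z y w
        have h2 := hfac0 w
        simp only [LinearMap.sub_apply, LinearMap.smulRight_apply, LinearMap.flip_apply,
          smul_eq_mul, LinearMap.smul_apply]
        rw [h2] at h1
        linear_combination h1) x
    simp only [LinearMap.sub_apply, LinearMap.smulRight_apply, LinearMap.flip_apply,
      smul_eq_mul, LinearMap.smul_apply] at this
    linear_combination this
  -- coordinates
  let ℓ : Fin 5 → F := fun i => ℓl (Pi.single i 1)
  have hℓsum : ∀ x, ℓl x = ∑ i, ℓ i * x i := by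
    intro x
    have h1 : x = ∑ i, x i • (Pi.single i 1 : Fin 5 → F) := by
      ext j
      simp [Finset.sum_apply, Pi.single_apply]
    conv_lhs => rw [h1]
    rw [map_sum]
    exact Finset.sum_congr rfl fun i _ => by rw [map_smul, smul_eq_mul, mul_comm]
  let m : M → Fin 5 → F := fun z i => B z (Pi.single i 1) α
  have hmsum : ∀ z x, B z x α = ∑ i, m z i * x i := by
    intro z x
    have h1 : x = ∑ i, x i • (Pi.single i 1 : Fin 5 → F) := by
      ext j
      simp [Finset.sum_apply, Pi.single_apply]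
    conv_lhs => rw [h1]
    rw [map_sum, LinearMap.sum_apply]
    exact Finset.sum_congr rfl fun i _ => by
      rw [map_smul, LinearMap.smul_apply, smul_eq_mul, mul_comm]
  have hm_comb : ∀ s t z z' i, m (s • z + t • z') i = s * m z i + t * m z' i :=
    fun s t z z' i => hcomb s t z z' _ _
  have h3a : ∀ z i, ℓ i * m z i = 0 := by
    intro z i
    have h1 := hfac z (Pi.single i 1)
    have h2 : B z (Pi.single i 1) (Pi.single i 1) = E z i i := bf_single _ _ _
    rw [h2, hdiag z i] at h1
    exact h1.symm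
  have h3b : ∀ z i j, 2 * E z i j = ℓ i * m z j + ℓ j * m z i := by
    intro z i j
    have h1 := hfac z (Pi.single i 1 + Pi.single j 1)
    have e1 : B z (Pi.single i 1) (Pi.single i 1) = E z i i := bf_single _ _ _
    have e2 : B z (Pi.single i 1) (Pi.single j 1) = E z i j := bf_single _ _ _
    have e3 : B z (Pi.single j 1) (Pi.single i 1) = E z j i := bf_single _ _ _
    have e4 : B z (Pi.single j 1) (Pi.single j 1) = E z j j := bf_single _ _ _
    simp only [map_add, LinearMap.add_apply, e1, e2, e3, e4, hdiag] at h1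
    have h2 := h3a z i
    have h3 := h3a z j
    have h4 := hsym z i j
    change 0 + E z j i + (E z i j + 0) = (ℓ i + ℓ j) * (m z i + m z j) at h1
    linear_combination h1 + h2 + h3 + h4
  have h3c : ∀ z, ∑ i, m z i * α i = 0 := by
    intro z
    rw [← hmsum z α]
    exact hQα' z
  have h3d : ∀ z i, (2 - ∑ j, ℓ j * α j) * m z i = 0 := by
    intro z i
    have h1 : 2 * m z i = ∑ j, α j * (2 * E z i j) := by
      have : m z i = ∑ j, α j * E z i j := by
        change B z (Pi.single i 1) α = _
        change bf (E z) (Pi.single i 1) α = _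
        rw [bf_apply, Finset.sum_eq_single i]
        · simp
        · intro b _ hb
          simp [hb]
        · simp
      rw [this, Finset.mul_sum]
      exact Finset.sum_congr rfl fun j _ => by ring
    have h2 : ∑ j, α j * (2 * E z i j) = ℓ i * ∑ j, m z j * α j + (∑ j, ℓ j * α j) * m z i := by
      rw [Finset.mul_sum, Finset.sum_mul, ← Finset.sum_add_distrib]
      exact Finset.sum_congr rfl fun j _ => by rw [h3b]; ring
    rw [h3c z] at h2
    linear_combination h1 + h2
  have hmη : ∃ i, m y i ≠ 0 := by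
    by_contra hcon
    push Not at hcon
    apply hyη
    rw [hmsum]
    exact Finset.sum_eq_zero fun i _ => by rw [hcon i, zero_mul]
  have hℓα : ∑ j, ℓ j * α j = 2 := by
    obtain ⟨i, hi⟩ := hmη
    have := (mul_eq_zero.mp (h3d y i)).resolve_right hi
    linear_combination -this
  have hindep : ∀ s t : F, (∀ i, s * m y i + t * m y' i = 0) → s = 0 ∧ t = 0 := by
    intro s t hst
    have h1 : ∀ x, s * B y x α + t * B y' x α = 0 := by
      intro x
      rw [hmsum, hmsum, Finset.mul_sum, Finset.mul_sum, ← Finset.sum_add_distrib]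
      exact Finset.sum_eq_zero fun i _ => by linear_combination x i * hst i
    have ht : t = 0 := by
      have := h1 x0
      rw [hyx, mul_zero, zero_add] at this
      exact (mul_eq_zero.mp this).resolve_right hyx'
    refine ⟨?_, ht⟩
    have := h1 η
    rw [ht, zero_mul, add_zero] at this
    exact (mul_eq_zero.mp this).resolve_right hyη
  have key : ∀ z (a b c d : Fin 5), a ≠ b → a ≠ c → a ≠ d → b ≠ c → b ≠ d → c ≠ d →
      m z a = 0 → m z b = 0 → m z c = 0 → m z d = 0 → ∀ i, m z i = 0 := by
    intro z a b c d hab hac had hbc hbd hcd ha hb hc hd i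
    obtain ⟨q, hq⟩ := fifth a b c d hab hac had hbc hbd hcd
    have h4 : ∀ x, x ≠ q → m z x = 0 := by
      intro x hx
      rcases hq x hx with h | h | h | h <;> rw [h] <;> assumption
    by_cases hi : i = q
    · have h5 := h3c z
      rw [Finset.sum_eq_single q (fun x _ hx => by rw [h4 x hx, zero_mul]) (by simp)] at h5
      rw [hi]
      exact (mul_eq_zero.mp h5).resolve_right (hα q)
    · exact h4 i hi
  have hI : ∀ i, ℓ i ≠ 0 → ∀ z, m z i = 0 := fun i hi z => (mul_eq_zero.mp (h3a z i)).resolve_left hi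
  have hJJ : ∀ i j, ℓ i = 0 → ℓ j = 0 → ∀ z, E z i j = 0 := by
    intro i j hi hj z
    have := h3b z i j
    rw [hi, hj, zero_mul, zero_mul, add_zero] at this
    exact (mul_eq_zero.mp this).resolve_left two_ne_zero
  refine ⟨ℓ, ?_, ?_⟩
  · intro z x
    have := hfac z x
    rw [hℓsum x] at this
    exact this
  -- (3) the structure
  obtain ⟨i1, hi1⟩ : ∃ i, ℓ i ≠ 0 := by
    by_contra hcon
    push Not at hcon
    have : ∑ j, ℓ j * α j = 0 := Finset.sum_eq_zero fun i _ => by rw [hcon i, zero_mul]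
    rw [this] at hℓα
    exact two_ne_zero hℓα.symm
  by_cases hA : ∀ i, i ≠ i1 → ℓ i = 0
  · left
    exact ⟨i1, fun z i j hi hj => hJJ i j (hA i hi) (hA j hj) z⟩
  right
  push Not at hA
  obtain ⟨i2, h21', hi2⟩ := hA
  have h3 : ∀ j, j ≠ i1 → j ≠ i2 → ℓ j = 0 := by
    intro i3 h31 h32
    by_contra hi3
    obtain ⟨j, hj1, hj2, hj3⟩ : ∃ j : Fin 5, j ≠ i1 ∧ j ≠ i2 ∧ j ≠ i3 := by
      by_contra hcon
      push Not at hcon
      have : (Finset.univ : Finset (Fin 5)) ⊆ {i1, i2, i3} := by
        intro x _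
        simp only [Finset.mem_insert, Finset.mem_singleton]
        by_contra hx
        push Not at hx
        exact hx.2.2 (hcon x hx.1 hx.2.1)
      have h1 := Finset.card_le_card this
      have h2 : ({i1, i2, i3} : Finset (Fin 5)).card ≤ 3 := Finset.card_le_three
      simp only [Finset.card_univ, Fintype.card_fin] at h1
      omega
    have hk : ∀ z, m z j = 0 → ∀ i, m z i = 0 := fun z hz =>
      key z i1 i2 i3 j h21'.symm h31.symm hj1.symm h32.symm hj2.symm hj3.symm
        (hI i1 hi1 z) (hI i2 hi2 z) (hI i3 hi3 z) hz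
    have hz0 := hk (m y' j • y + (-(m y j)) • y') (by rw [hm_comb]; ring)
    obtain ⟨_, h2⟩ := hindep (m y' j) (-(m y j)) (fun i => by rw [← hm_comb]; exact hz0 i)
    have h4 := hk y (neg_eq_zero.mp h2)
    obtain ⟨i, hi⟩ := hmη
    exact hi (h4 i)
  refine ⟨i1, i2, h21'.symm, hi1, hi2, h3, ?_, ?_, ?_, ?_⟩
  · intro z
    have := h3b z i1 i2
    rw [hI i1 hi1 z, hI i2 hi2 z, mul_zero, mul_zero, add_zero] at this
    exact (mul_eq_zero.mp this).resolve_left two_ne_zero
  · intro z j k hj1 hj2 hk1 hk2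
    exact hJJ j k (h3 j hj1 hj2) (h3 k hk1 hk2) z
  · intro z j hj1 hj2
    have e1 := h3b z i1 j
    have e2 := h3b z i2 j
    rw [h3 j hj1 hj2] at e1 e2
    have : (2 : F) * (ℓ i2 * E z i1 j - ℓ i1 * E z i2 j) = 0 := by
      linear_combination ℓ i2 * e1 - ℓ i1 * e2
    have := (mul_eq_zero.mp this).resolve_left two_ne_zero
    linear_combination this
  · intro j k hj1 hj2 hk1 hk2 hjk
    have hk : ∀ z, m z j = 0 → m z k = 0 → ∀ i, m z i = 0 := fun z hz hz' =>
      key z i1 i2 j k h21'.symm hj1.symm hk1.symm hj2.symm hk2.symm hjk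
        (hI i1 hi1 z) (hI i2 hi2 z) hz hz'
    have hdet : m y j * m y' k - m y k * m y' j ≠ 0 := by
      intro h0
      -- one of the two combinations
      by_cases hc : m y j = 0 ∧ m y' j = 0
      · have hz0 := hk (m y' k • y + (-(m y k)) • y') (by rw [hm_comb, hc.1, hc.2]; ring)
          (by rw [hm_comb]; ring)
        obtain ⟨_, h2⟩ := hindep (m y' k) (-(m y k)) (fun i => by rw [← hm_comb]; exact hz0 i)
        have h4 := hk y hc.1 (neg_eq_zero.mp h2)
        obtain ⟨i, hi⟩ := hmη
        exact hi (h4 i)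
      · have hz0 := hk (m y' j • y + (-(m y j)) • y') (by rw [hm_comb]; ring)
          (by rw [hm_comb]; linear_combination -h0)
        obtain ⟨h1, h2⟩ := hindep (m y' j) (-(m y j)) (fun i => by rw [← hm_comb]; exact hz0 i)
        exact hc ⟨neg_eq_zero.mp h2, h1⟩
    set D := m y j * m y' k - m y k * m y' j with hD
    refine ⟨(2 / ℓ i1 * m y' k / D) • y + (-(2 / ℓ i1 * m y k / D)) • y', ?_, ?_⟩
    · have e1 := h3b ((2 / ℓ i1 * m y' k / D) • y + (-(2 / ℓ i1 * m y k / D)) • y') i1 j
      rw [h3 j hj1 hj2, zero_mul, add_zero, hm_comb] at e1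
      have e2 : ℓ i1 * (2 / ℓ i1 * m y' k / D * m y j + -(2 / ℓ i1 * m y k / D) * m y' j)
          = 2 := by
        field_simp
        linear_combination -hD
      rw [e2] at e1
      have : (2 : F) ≠ 0 := two_ne_zero
      exact mul_left_cancel₀ this (by rw [e1, mul_one])
    · have e1 := h3b ((2 / ℓ i1 * m y' k / D) • y + (-(2 / ℓ i1 * m y k / D)) • y') i1 k
      rw [h3 k hk1 hk2, zero_mul, add_zero, hm_comb] at e1
      have e2 : ℓ i1 * (2 / ℓ i1 * m y' k / D * m y k + -(2 / ℓ i1 * m y k / D) * m y' k)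
          = 0 := by
        field_simp
        ring
      rw [e2] at e1
      exact (mul_eq_zero.mp e1).resolve_left two_ne_zero

end H176R2.R5
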