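import Pool.Agent.H176R2.R5.LocA

/-!
# LOC: the local lemma at a vertex of degree five (project R5)
-/

set_option autoImplicit false
set_option linter.unusedSectionVars false

open Finset

namespace H176R2.R5.LOC

open H176R2.R5

variable {V : Type} [Fintype V] [DecidableEq V]

section main

variable {p : V → Fin 3 → ℝ} {H : SimpleGraph V} {v : V} {n : Fin 5 → V}

theorem ee_eq_lq (p u : V → Fin 3 → ℝ) (n : Fin 5 → V) (i j : Fin 5) :
    ee p u (n i) (n j) = lq (fun i => p (n i)) (fun i => u (n i)) i j := rfl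

theorem p_mem (p : V → Fin 3 → ℝ) {a v : V} (h : a ≠ v) (k : Fin 3) : p a k ∈ Fd p {v}ᶜ :=
  Fd_mem p (by simpa using h) k

theorem hH_of (hv : ∀ x, ¬ H.Adj v x) : ∀ a b, H.Adj a b →
    (∀ k, p a k ∈ Fd p {v}ᶜ) ∧ ∀ k, p b k ∈ Fd p {v}ᶜ := by
  intro a b hab
  refine ⟨p_mem p ?_, p_mem p ?_⟩
  · rintro rfl
    exact hv _ hab
  · rintro rfl
    exact hv _ hab.symm

theorem al_mem (hnv : ∀ i, n i ≠ v) (i : Fin 5) :
    al (fun j => p (n j)) i ∈ Fd p {v}ᶜ := by
  have hhat : ∀ i l, hat (p (n i)) l ∈ Fd p {v}ᶜ := by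
    intro i l
    fin_cases l
    · exact one_mem _
    · exact p_mem p (hnv i) 0
    · exact p_mem p (hnv i) 1
    · exact p_mem p (hnv i) 2
  unfold al
  refine mul_mem (pow_mem (neg_mem (one_mem _)) _) ?_
  rw [Matrix.det_apply]
  refine sum_mem fun σ _ => ?_
  have hprod : ∏ s, (Matrix.of fun j m => hat (p (n (i.succAbove j))) m) (σ s) s ∈
      Fd p {v}ᶜ := prod_mem fun s _ => hhat _ _
  rcases Int.units_eq_one_or (Equiv.Perm.sign σ) with h | h
  · rw [h, one_smul]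
    exact hprod
  · rw [h, Units.neg_smul, one_smul]
    exact neg_mem hprod

theorem sum_al_sub (q : Fin 5 → Fin 3 → ℝ) (ξ : Fin 3 → ℝ) (k : Fin 3) :
    ∑ i, al q i * (ξ k - q i k) = 0 := by
  have h1 := al_sum q
  have h2 := al_q q k
  calc ∑ i, al q i * (ξ k - q i k) = (∑ i, al q i) * ξ k - ∑ i, al q i * q i k := by
        rw [Finset.sum_mul, ← Finset.sum_sub_distrib]
        apply Finset.sum_congr rfl
        intro i _
        ring
    _ = 0 := by rw [h1, h2]; ring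

theorem xi_of_bal {q : Fin 5 → Fin 3 → ℝ} {ξ : Fin 3 → ℝ} {lam : Fin 5 → ℝ}
    (h : ∀ k, ∑ i, lam i * (ξ k - q i k) = 0) (k : Fin 3) :
    (∑ i, lam i) * ξ k = ∑ i, lam i * q i k := by
  have h1 := h k
  have h2 : ∑ i, lam i * (ξ k - q i k) = (∑ i, lam i) * ξ k - ∑ i, lam i * q i k := by
    rw [Finset.sum_mul, ← Finset.sum_sub_distrib]
    apply Finset.sum_congr rfl
    intro i _
    ring
  rw [h2] at h1
  linarith

/-- `∑ (ξ - q_i)_k Y_i` is a polynomial function -/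
theorem PF_dot {F : IntermediateField ℚ ℝ} {q Y : Fin 3 → ℝ} (hq : ∀ k, q k ∈ F)
    (hY : ∀ k, Y k ∈ F) : PF F (fun ξ => ∑ k, (ξ k - q k) * Y k) :=
  PF.sum univ fun k _ => PF.mul (PF.sub (PF.coord F k) (PF.const (hq k))) (PF.const (hY k))

theorem PF_row5 {F : IntermediateField ℚ ℝ} {q Y Y' : Fin 5 → Fin 3 → ℝ}
    (hq : ∀ i k, q i k ∈ F) (hY : ∀ i k, Y i k ∈ F) (hY' : ∀ i k, Y' i k ∈ F) (i j : Fin 5) :
    PF F (fun ξ => row5 q Y Y' i j ξ) := by
  unfold row5
  fin_cases j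
  · exact PF.sub (PF.coord F 0) (PF.const (hq i 0))
  · exact PF.sub (PF.coord F 1) (PF.const (hq i 1))
  · exact PF.sub (PF.coord F 2) (PF.const (hq i 2))
  · exact PF_dot (hq i) (hY i)
  · exact PF_dot (hq i) (hY' i)

theorem det5_zero (hp : Gen p) (hnv : ∀ i, n i ≠ v) (lam : Fin 5 → ℝ)
    (hbal : ∀ k, ∑ i, lam i * (p v k - p (n i) k) = 0) (hsum : ∑ i, lam i ≠ 0)
    {y y' : V → Fin 3 → ℝ} (hy : ∀ a k, y a k ∈ Fd p {v}ᶜ) (hy' : ∀ a k, y' a k ∈ Fd p {v}ᶜ)
    (h1 : ∑ i, lam i * ∑ k, (p v k - p (n i) k) * y (n i) k = 0)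
    (h2 : ∑ i, lam i * ∑ k, (p v k - p (n i) k) * y' (n i) k = 0) :
    ∀ ξ, Matrix.det (Matrix.of fun i j => row5 (fun j => p (n j)) (fun i => y (n i))
      (fun i => y' (n i)) i j ξ) = 0 := by
  refine gen_zero hp (S := {v}ᶜ) (v := v) (by simp) (PF.det fun i j => PF_row5
    (fun i k => p_mem p (hnv i) k) (fun i k => hy _ _) (fun i k => hy' _ _) i j) ?_
  refine Matrix.exists_vecMul_eq_zero_iff.1 ⟨lam, ?_, ?_⟩
  · rintro rfl
    simp at hsum
  · funext j
    simp only [Matrix.vecMul, dotProduct, Matrix.of_apply, Pi.zero_apply]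
    fin_cases j
    · exact hbal 0
    · exact hbal 1
    · exact hbal 2
    · exact h1
    · exact h2

/-- the four by four rows -/
def row4 (q Y : Fin 5 → Fin 3 → ℝ) (i : Fin 5) (j : Fin 4) (ξ : Fin 3 → ℝ) : ℝ :=
  (![ξ 0 - q i 0, ξ 1 - q i 1, ξ 2 - q i 2, ∑ k, (ξ k - q i k) * Y i k] : Fin 4 → ℝ) j

theorem PF_row4 {F : IntermediateField ℚ ℝ} {q Y : Fin 5 → Fin 3 → ℝ}
    (hq : ∀ i k, q i k ∈ F) (hY : ∀ i k, Y i k ∈ F) (i : Fin 5) (j : Fin 4) :
    PF F (fun ξ => row4 q Y i j ξ) := by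
  unfold row4
  fin_cases j
  · exact PF.sub (PF.coord F 0) (PF.const (hq i 0))
  · exact PF.sub (PF.coord F 1) (PF.const (hq i 1))
  · exact PF.sub (PF.coord F 2) (PF.const (hq i 2))
  · exact PF_dot (hq i) (hY i)

/-- the linear forms do not all vanish -/
theorem not_all_zero (hp : Gen p) (hn : Function.Injective n) (hnv : ∀ i, n i ≠ v)
    (lam : Fin 5 → ℝ) (hbal : ∀ k, ∑ i, lam i * (p v k - p (n i) k) = 0) (hsum : ∑ i, lam i ≠ 0)
    {a b c d : Fin 5} (hab : a ≠ b) (hac : a ≠ c) (had : a ≠ d) (hbc : b ≠ c) (hbd : b ≠ d)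
    (hcd : c ≠ d) {y : V → Fin 3 → ℝ} (hy : ∀ a k, y a k ∈ Fd p {v}ᶜ)
    (h1 : ∑ i, lam i * ∑ k, (p v k - p (n i) k) * y (n i) k = 0)
    (hE : ee p y (n a) (n b) = 1)
    (h0 : ∀ i, ∑ j, al (fun j => p (n j)) j * ee p y (n i) (n j) = 0) : False := by
  set q : Fin 5 → Fin 3 → ℝ := fun j => p (n j) with hq
  set Y : Fin 5 → Fin 3 → ℝ := fun i => y (n i) with hY
  have hT : Tf q Y (p v) (al q) = 0 := by
    have e1 := Lf_eq q Y lam (al q) (p v) (xi_of_bal hbal) (al_sum q) (al_q q)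
    have e2 : Bf q Y lam (al q) = 0 := by
      unfold Bf
      apply Finset.sum_eq_zero
      intro i _
      have := h0 i
      calc ∑ j, lam i * al q j * lq q Y i j = lam i * ∑ j, al q j * ee p y (n i) (n j) := by
            rw [Finset.mul_sum]
            apply Finset.sum_congr rfl
            intro j _
            rw [ee_eq_lq]
            ring
        _ = 0 := by rw [this, mul_zero]
    rw [e2] at e1
    rcases mul_eq_zero.1 e1.symm with h | h
    · exact absurd (neg_eq_zero.1 h) hsum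
    · exact h
  have hT2 : Tf q Y (p v) lam = 0 := h1
  obtain ⟨e, he⟩ := sum5 hab hac had hbc hbd hcd
  have hαe : al q e ≠ 0 := al_ne hp hn e
  set t := lam e / al q e with ht
  let μ : Fin 5 → ℝ := fun i => 1 * lam i + (-t) * al q i
  have hμe : μ e = 0 := by
    simp only [μ, ht]
    field_simp
    ring
  have hμT : Tf q Y (p v) μ = 0 := by
    simp only [μ]
    rw [Tf_swap, hT, hT2]
    ring
  have hμs : ∑ i, μ i = ∑ i, lam i := by
    simp only [μ]
    rw [Finset.sum_add_distrib, ← Finset.mul_sum, ← Finset.mul_sum, al_sum]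
    ring
  have hμb : ∀ k, ∑ i, μ i * (p v k - q i k) = 0 := by
    intro k
    have e1 : ∑ i, μ i * (p v k - q i k) = ∑ i, lam i * (p v k - q i k) +
        (-t) * ∑ i, al q i * (p v k - q i k) := by
      rw [Finset.mul_sum, ← Finset.sum_add_distrib]
      apply Finset.sum_congr rfl
      intro i _
      simp only [μ]
      ring
    rw [e1, sum_al_sub]
    have := hbal k
    simp only [hq]
    linarith
  -- the minor
  let σ : Fin 4 → Fin 5 := ![a, b, c, d]
  have hdet : ∀ ξ, Matrix.det (Matrix.of fun s j => row4 q Y (σ s) j ξ) = 0 := by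
    refine gen_zero hp (S := {v}ᶜ) (v := v) (by simp) (PF.det fun s j => PF_row4
      (fun i k => p_mem p (hnv i) k) (fun i k => hy _ _) (σ s) j) ?_
    refine Matrix.exists_vecMul_eq_zero_iff.1 ⟨fun s => μ (σ s), ?_, ?_⟩
    · intro h
      apply hsum
      rw [← hμs, he μ, hμe]
      have ha := congrFun h 0
      have hb := congrFun h 1
      have hc := congrFun h 2
      have hd := congrFun h 3
      simp only [σ, Pi.zero_apply, Matrix.cons_val_zero, Matrix.cons_val_one,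
        Matrix.cons_val] at ha hb hc hd
      rw [ha, hb, hc, hd]
      ring
    · have hcol : ∀ f : Fin 5 → ℝ, ∑ i, μ i * f i = 0 →
          ∑ s, μ (σ s) * f (σ s) = 0 := by
        intro f hf
        have e1 := he (fun i => μ i * f i)
        rw [hf, hμe, zero_mul, add_zero] at e1
        rw [Fin.sum_univ_four]
        exact e1.symm
      funext j
      simp only [Matrix.vecMul, dotProduct, Matrix.of_apply, Pi.zero_apply]
      fin_cases j
      · exact hcol (fun i => p v 0 - q i 0) (hμb 0)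
      · exact hcol (fun i => p v 1 - q i 1) (hμb 1)
      · exact hcol (fun i => p v 2 - q i 2) (hμb 2)
      · exact hcol (fun i => ∑ k, (p v k - q i k) * Y i k) hμT
  have hmid := hdet (fun k => (q a k + q b k) / 2)
  have hmat : (Matrix.of fun s j => row4 q Y (σ s) j (fun k => (q a k + q b k) / 2)) =
      Matrix.of ![![(q a 0 + q b 0) / 2 - q a 0, (q a 1 + q b 1) / 2 - q a 1,
        (q a 2 + q b 2) / 2 - q a 2, ∑ k, ((q a k + q b k) / 2 - q a k) * Y a k],
      ![(q a 0 + q b 0) / 2 - q b 0, (q a 1 + q b 1) / 2 - q b 1, (q a 2 + q b 2) / 2 - q b 2,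
        ∑ k, ((q a k + q b k) / 2 - q b k) * Y b k],
      ![(q a 0 + q b 0) / 2 - q c 0, (q a 1 + q b 1) / 2 - q c 1, (q a 2 + q b 2) / 2 - q c 2,
        ∑ k, ((q a k + q b k) / 2 - q c k) * Y c k],
      ![(q a 0 + q b 0) / 2 - q d 0, (q a 1 + q b 1) / 2 - q d 1, (q a 2 + q b 2) / 2 - q d 2,
        ∑ k, ((q a k + q b k) / 2 - q d k) * Y d k]] := by
    ext s j
    fin_cases s <;> fin_cases j <;> rfl
  rw [hmat, minor_id] at hmid
  have hE' : ∑ k, (q a k - q b k) * (Y a k - Y b k) = 1 := hE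
  rw [hE'] at hmid
  have hbr : br (hat (q a)) (hat (q b)) (hat (q c)) (hat (q d)) ≠ 0 :=
    br_ne hp (fun h => hab (hn h)) (fun h => hac (hn h)) (fun h => had (hn h))
      (fun h => hbc (hn h)) (fun h => hbd (hn h)) (fun h => hcd (hn h))
  apply hbr
  linarith

theorem PF_Tf (hnv : ∀ i, n i ≠ v) {y : V → Fin 3 → ℝ} (hy : ∀ a k, y a k ∈ Fd p {v}ᶜ) :
    PF (Fd p {v}ᶜ) (fun ξ => Tf (fun j => p (n j)) (fun i => y (n i)) ξ (al fun j => p (n j))) :=
  PF.sum univ fun i _ => PF.mul (PF.const (al_mem hnv i))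
    (PF_dot (fun k => p_mem p (hnv i) k) (fun k => hy _ _))

/-- if the linear form is not zero then it is not zero at `lam` -/
theorem Tf_ne (hp : Gen p) (hnv : ∀ i, n i ≠ v)
    {y : V → Fin 3 → ℝ} (hy : ∀ a k, y a k ∈ Fd p {v}ᶜ) (x : Fin 5 → ℝ)
    (hx : Bf (fun j => p (n j)) (fun i => y (n i)) x (al fun j => p (n j)) ≠ 0) :
    Tf (fun j => p (n j)) (fun i => y (n i)) (p v) (al fun j => p (n j)) ≠ 0 := by
  intro h0
  apply hx
  have hz := gen_zero hp (S := {v}ᶜ) (v := v) (by simp) (PF_Tf hnv hy) h0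
  set q : Fin 5 → Fin 3 → ℝ := fun j => p (n j) with hq
  set Y : Fin 5 → Fin 3 → ℝ := fun i => y (n i) with hY
  have hi : ∀ i, ∑ j, al q j * lq q Y i j = 0 := by
    intro i
    have e1 := Lf_eq q Y (Pi.single i (1 : ℝ)) (al q) (q i) (by
      intro _
      simp [Pi.single_apply]) (al_sum q) (al_q q)
    rw [hz (q i), mul_zero] at e1
    have e2 : Bf q Y (Pi.single i (1 : ℝ)) (al q) = ∑ j, al q j * lq q Y i j := by
      unfold Bf
      rw [Finset.sum_eq_single i]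
      · simp
      · intro s _ hs
        simp [hs]
      · simp
    rw [← e2, e1]
  unfold Bf
  apply Finset.sum_eq_zero
  intro i _
  calc ∑ j, x i * al q j * lq q Y i j = x i * ∑ j, al q j * lq q Y i j := by
        rw [Finset.mul_sum]
        apply Finset.sum_congr rfl
        intro j _
        ring
    _ = 0 := by rw [hi i, mul_zero]

end main

end H176R2.R5.LOC

namespace H176R2.R5

open H176R2.R5.LOC

variable {V : Type} [Fintype V] [DecidableEq V]

theorem loc {p : V → Fin 3 → ℝ} (hp : Gen p) (H : SimpleGraph V) (v : V) (hv : ∀ x, ¬ H.Adj v x)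
    (n : Fin 5 → V) (hn : Function.Injective n) (hnv : ∀ i, n i ≠ v) (lam : Fin 5 → ℝ)
    (hbal : ∀ k, ∑ i, lam i * (p v k - p (n i) k) = 0) (hsum : ∑ i, lam i ≠ 0)
    (hmot : ∀ u, IsMotion p H u → ∑ i, lam i * ∑ k, (p v k - p (n i) k) * u (n i) k = 0)
    (a b c d : Fin 5) (hab : a ≠ b) (hac : a ≠ c) (had : a ≠ d) (hbc : b ≠ c) (hbd : b ≠ d)
    (hcd : c ≠ d) (u1 u2 : V → Fin 3 → ℝ) (hu1 : IsMotion p H u1) (hu2 : IsMotion p H u2)
    (h11 : ee p u1 (n a) (n b) = 1) (h12 : ee p u1 (n c) (n d) = 0)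
    (h21 : ee p u2 (n a) (n b) = 0) (h22 : ee p u2 (n c) (n d) = 1) :
    (∃ i0, ∀ u, IsMotion p H u → ∀ i j, i ≠ i0 → j ≠ i0 → ee p u (n i) (n j) = 0) ∨
    ∃ i1 i2 : Fin 5, i1 ≠ i2 ∧ ∃ ℓ1 ∈ Fd p {v}ᶜ, ∃ ℓ2 ∈ Fd p {v}ᶜ, ℓ1 ≠ 0 ∧ ℓ2 ≠ 0 ∧
      ℓ1 * lam i1 + ℓ2 * lam i2 = 0 ∧
      (∀ u, IsMotion p H u → ee p u (n i1) (n i2) = 0 ∧
        (∀ j k, j ≠ i1 → j ≠ i2 → k ≠ i1 → k ≠ i2 → ee p u (n j) (n k) = 0) ∧
        ∀ j, j ≠ i1 → j ≠ i2 → ℓ2 * ee p u (n i1) (n j) = ℓ1 * ee p u (n i2) (n j)) ∧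
      ∀ j k, j ≠ i1 → j ≠ i2 → k ≠ i1 → k ≠ i2 → j ≠ k →
        ∃ u, IsMotion p H u ∧ ee p u (n i1) (n j) = 1 ∧ ee p u (n i1) (n k) = 0 := by
  classical
  have hH := hH_of (p := p) hv
  obtain ⟨π, hπ, hπF, hadd, hmul⟩ := exists_retract (Fd p {v}ᶜ)
  have hπ0 : π 0 = 0 := hπF 0 (zero_mem _)
  have hπ1 : π 1 = 1 := hπF 1 (one_mem _)
  have hpm : ∀ i k, p (n i) k ∈ Fd p {v}ᶜ := fun i k => p_mem p (hnv i) k
  set q : Fin 5 → Fin 3 → ℝ := fun j => p (n j) with hq
  let αF : Fin 5 → Fd p {v}ᶜ := fun i => ⟨al q i, al_mem hnv i⟩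
  let E : MM p H (Fd p {v}ᶜ) →ₗ[Fd p {v}ᶜ] (Fin 5 → Fin 5 → Fd p {v}ᶜ) :=
    { toFun := fun y i j => ⟨ee p y.1 (n i) (n j), ee_mem p y.1 _ _ _ (hpm i) (hpm j) y.2.2⟩
      map_add' := by
        intro y z
        funext i j
        apply Subtype.ext
        exact ee_add p y.1 z.1 _ _
      map_smul' := by
        intro c y
        funext i j
        apply Subtype.ext
        exact ee_smul p y.1 (c : ℝ) _ _ }
  have hE : ∀ (y : MM p H (Fd p {v}ᶜ)) i j, ((E y i j : Fd p {v}ᶜ) : ℝ) = ee p y.1 (n i) (n j) :=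
    fun y i j => rfl
  have hα' : ∀ i, ((αF i : Fd p {v}ᶜ) : ℝ) = al q i := fun i => rfl
  have cQ : ∀ (y : MM p H (Fd p {v}ᶜ)) (x z : Fin 5 → Fd p {v}ᶜ),
      ((∑ i, ∑ j, x i * z j * E y i j : Fd p {v}ᶜ) : ℝ) =
        Bf q (fun i => y.1 (n i)) (fun i => (x i : ℝ)) (fun i => (z i : ℝ)) := by
    intro y x z
    unfold Bf
    push_cast
    rfl
  have cS : ∀ (x : Fin 5 → Fd p {v}ᶜ), ((∑ i, x i : Fd p {v}ᶜ) : ℝ) = ∑ i, (x i : ℝ) := by
    intro x
    push_cast
    rfl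
  have hsym : ∀ y i j, E y i j = E y j i := by
    intro y i j
    apply Subtype.ext
    rw [hE, hE]
    unfold ee
    apply Finset.sum_congr rfl
    intro k _
    ring
  have hdiag : ∀ y i, E y i i = 0 := by
    intro y i
    apply Subtype.ext
    rw [hE]
    unfold ee
    simp
  have hαF : ∀ i, αF i ≠ 0 := by
    intro i h
    have := congrArg Subtype.val h
    exact al_ne hp hn i this
  have hQα : ∀ y, ∑ i, ∑ j, αF i * αF j * E y i j = 0 := by
    intro y
    apply Subtype.ext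
    rw [cQ]
    show Bf q (fun i => y.1 (n i)) (al q) (al q) = 0
    rw [Bf_eq]
    simp [al_sum, al_q]
  have hdet : ∀ (y y' : MM p H (Fd p {v}ᶜ)) ξ, Matrix.det (Matrix.of fun i j =>
      row5 (fun j => p (n j)) (fun i => y.1 (n i)) (fun i => y'.1 (n i)) i j ξ) = 0 :=
    fun y y' => det5_zero hp hnv lam hbal hsum y.2.2 y'.2.2 (hmot _ y.2.1) (hmot _ y'.2.1)
  have hid : ∀ y y' (x : Fin 5 → Fd p {v}ᶜ),
      (∑ i, ∑ j, x i * x j * E y i j) * (∑ i, ∑ j, x i * αF j * E y' i j) =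
        (∑ i, ∑ j, x i * x j * E y' i j) * (∑ i, ∑ j, x i * αF j * E y i j) := by
    intro y y' x
    apply Subtype.ext
    show ((∑ i, ∑ j, x i * x j * E y i j : Fd p {v}ᶜ) : ℝ) *
      ((∑ i, ∑ j, x i * αF j * E y' i j : Fd p {v}ᶜ) : ℝ) =
      ((∑ i, ∑ j, x i * x j * E y' i j : Fd p {v}ᶜ) : ℝ) *
      ((∑ i, ∑ j, x i * αF j * E y i j : Fd p {v}ᶜ) : ℝ)
    rw [cQ, cQ, cQ, cQ]
    exact R_zero hp hn _ _ (hdet y y') (fun i => (x i : ℝ))
  let y1 : MM p H (Fd p {v}ᶜ) :=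
    ⟨fun a k => π (u1 a k), ret_mem hπ hπ0 hadd hmul hH hu1⟩
  let y2 : MM p H (Fd p {v}ᶜ) :=
    ⟨fun a k => π (u2 a k), ret_mem hπ hπ0 hadd hmul hH hu2⟩
  have k11 : E y1 a b = 1 := by
    apply Subtype.ext
    rw [hE]
    show ee p (fun a k => π (u1 a k)) (n a) (n b) = 1
    rw [ret_ee hadd hmul u1 (hpm a) (hpm b), h11, hπ1]
  have k12 : E y1 c d = 0 := by
    apply Subtype.ext
    rw [hE]
    show ee p (fun a k => π (u1 a k)) (n c) (n d) = 0
    rw [ret_ee hadd hmul u1 (hpm c) (hpm d), h12, hπ0]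
  have k21 : E y2 a b = 0 := by
    apply Subtype.ext
    rw [hE]
    show ee p (fun a k => π (u2 a k)) (n a) (n b) = 0
    rw [ret_ee hadd hmul u2 (hpm a) (hpm b), h21, hπ0]
  have k22 : E y2 c d = 1 := by
    apply Subtype.ext
    rw [hE]
    show ee p (fun a k => π (u2 a k)) (n c) (n d) = 1
    rw [ret_ee hadd hmul u2 (hpm c) (hpm d), h22, hπ1]
  have hL : ∃ y, ∃ x : Fin 5 → Fd p {v}ᶜ, ∑ i, ∑ j, x i * αF j * E y i j ≠ 0 := by
    by_contra hcon
    push Not at hcon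
    refine not_all_zero hp hn hnv lam hbal hsum hab hac had hbc hbd hcd y1.2.2
      (hmot _ y1.2.1) (congrArg Subtype.val k11) ?_
    intro i
    have h1 := hcon y1 (Pi.single i 1)
    rw [Finset.sum_eq_single i] at h1
    · have h2 := congrArg Subtype.val h1
      simp only [Pi.single_eq_same, one_mul] at h2
      push_cast at h2
      exact h2
    · intro s _ hs
      simp [hs]
    · simp
  obtain ⟨ℓ, hℓ, halt⟩ := LL2 E hsym hdiag αF hαF hQα hid a b c d y1 y2 k11 k12 k21 k22 hL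
  rcases halt with ⟨i0, h0⟩ | ⟨i1, i2, hne, hℓ1, hℓ2, hℓ0, e12, ejk, erel, eex⟩
  · left
    refine ⟨i0, fun u hu i j hi hj => ?_⟩
    have h1 := transfer hH (hpm i) (hpm j) (hpm i) (hpm j) 1 0 (one_mem _) (zero_mem _)
      (fun y hy => by
        have h2 := congrArg Subtype.val (h0 ⟨y, hy⟩ i j hi hj)
        have h3 : ee p y (n i) (n j) = 0 := h2
        rw [h3, mul_zero, mul_zero]) u hu
    linarith
  · right
    refine ⟨i1, i2, hne, ℓ i1, (ℓ i1).2, ℓ i2, (ℓ i2).2, ?_, ?_, ?_, ?_, ?_⟩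
    · intro h
      exact hℓ1 (Subtype.ext h)
    · intro h
      exact hℓ2 (Subtype.ext h)
    · -- the linear form vanishes at `lam`
      obtain ⟨y, x, hyx⟩ := hL
      set Y : Fin 5 → Fin 3 → ℝ := fun i => y.1 (n i) with hY
      have hBx : Bf q Y (fun i => (x i : ℝ)) (al q) ≠ 0 := by
        intro h
        apply hyx
        apply Subtype.ext
        rw [cQ]
        exact h
      have hT := Tf_ne hp hnv y.2.2 _ hBx
      have hco := coef (fun i j => E y i j) (hsym y) ℓ αF (hℓ y)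
      set A : Fin 5 → ℝ := fun i => ∑ k, al q k * lq q Y i k with hA
      have hco' : ∀ i j, 2 * lq q Y i j = (ℓ i : ℝ) * A j + (ℓ j : ℝ) * A i := by
        intro i j
        have h1 := congrArg Subtype.val (hco i j)
        push_cast at h1
        exact h1
      have hB1 : Bf q Y lam (al q) = ∑ i, lam i * A i := by
        unfold Bf
        apply Finset.sum_congr rfl
        intro i _
        rw [hA, Finset.mul_sum]
        apply Finset.sum_congr rfl
        intro j _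
        ring
      have hB2 : Bf q Y lam lam = (∑ i, (ℓ i : ℝ) * lam i) * Bf q Y lam (al q) := by
        rw [hB1]
        have h2 : 2 * Bf q Y lam lam = 2 * ((∑ i, (ℓ i : ℝ) * lam i) * ∑ i, lam i * A i) := by
          have h3 : 2 * Bf q Y lam lam = ∑ i, ∑ j, (lam i * lam j * ((ℓ i : ℝ) * A j) +
              lam i * lam j * ((ℓ j : ℝ) * A i)) := by
            unfold Bf
            rw [Finset.mul_sum]
            apply Finset.sum_congr rfl
            intro i _
            rw [Finset.mul_sum]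
            apply Finset.sum_congr rfl
            intro j _
            rw [← mul_add, ← hco' i j]
            ring
          rw [h3]
          simp only [Fin.sum_univ_five]
          ring
        linarith
      have hq0 : Bf q Y lam lam = 0 := by
        rw [Qf_eq q Y lam (p v) (xi_of_bal hbal)]
        have : Tf q Y (p v) lam = 0 := hmot _ y.2.1
        rw [this, mul_zero]
      have hB3 : Bf q Y lam (al q) ≠ 0 := by
        rw [Lf_eq q Y lam (al q) (p v) (xi_of_bal hbal) (al_sum q) (al_q q)]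
        exact mul_ne_zero (neg_ne_zero.2 hsum) hT
      rw [hq0] at hB2
      have h4 : ∑ i, (ℓ i : ℝ) * lam i = 0 := (mul_eq_zero.1 hB2.symm).resolve_right hB3
      rw [Fintype.sum_eq_add i1 i2 hne] at h4
      · exact h4
      · rintro j ⟨hj1, hj2⟩
        rw [hℓ0 j hj1 hj2]
        simp
    · intro u hu
      refine ⟨?_, ?_, ?_⟩
      · have h1 := transfer hH (hpm i1) (hpm i2) (hpm i1) (hpm i2) 1 0 (one_mem _) (zero_mem _)
          (fun y hy => by
            have h3 : ee p y (n i1) (n i2) = 0 := congrArg Subtype.val (e12 ⟨y, hy⟩)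
            rw [h3, mul_zero, mul_zero]) u hu
        linarith
      · intro j k hj1 hj2 hk1 hk2
        have h1 := transfer hH (hpm j) (hpm k) (hpm j) (hpm k) 1 0 (one_mem _) (zero_mem _)
          (fun y hy => by
            have h3 : ee p y (n j) (n k) = 0 :=
              congrArg Subtype.val (ejk ⟨y, hy⟩ j k hj1 hj2 hk1 hk2)
            rw [h3, mul_zero, mul_zero]) u hu
        linarith
      · intro j hj1 hj2
        exact transfer hH (hpm i1) (hpm j) (hpm i2) (hpm j) (ℓ i2) (ℓ i1) (ℓ i2).2 (ℓ i1).2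
          (fun y hy => congrArg Subtype.val (erel ⟨y, hy⟩ j hj1 hj2)) u hu
    · intro j k hj1 hj2 hk1 hk2 hjk
      obtain ⟨y, hy1, hy2⟩ := eex j k hj1 hj2 hk1 hk2 hjk
      exact ⟨y.1, y.2.1, congrArg Subtype.val hy1, congrArg Subtype.val hy2⟩

end H176R2.R5
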