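import Pool.Agent.H176R2.R5.Defs
import Pool.Agent.H176R2.R5.GN1
import Pool.Agent.H176R2.R5.GN2
import Pool.Agent.H176R2.R5.LL

/-!
# LOC: the local lemma at a vertex of degree five (project R5)
-/

set_option autoImplicit false
set_option linter.unusedSectionVars false

open Finset

namespace H176R2.R5.LOC

open H176R2.R5

variable {V : Type} [Fintype V] [DecidableEq V]

/-! ## forms on `ℝ^5` -/

/-- the strain of the pair `i j` -/
def lq (q Y : Fin 5 → Fin 3 → ℝ) (i j : Fin 5) : ℝ := ∑ k, (q i k - q j k) * (Y i k - Y j k)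

/-- bilinear form of the strains -/
def Bf (q Y : Fin 5 → Fin 3 → ℝ) (x a : Fin 5 → ℝ) : ℝ := ∑ i, ∑ j, x i * a j * lq q Y i j

/-- `∑ c_i (ξ - q_i) · Y_i` -/
def Tf (q Y : Fin 5 → Fin 3 → ℝ) (ξ : Fin 3 → ℝ) (c : Fin 5 → ℝ) : ℝ :=
  ∑ i, c i * ∑ k, (ξ k - q i k) * Y i k

theorem Bf_eq (q Y : Fin 5 → Fin 3 → ℝ) (x a : Fin 5 → ℝ) : Bf q Y x a =
    ∑ k, ((∑ i, x i * q i k * Y i k) * (∑ i, a i) - (∑ i, x i * q i k) * (∑ i, a i * Y i k) -
      (∑ i, x i * Y i k) * (∑ i, a i * q i k) + (∑ i, x i) * (∑ i, a i * q i k * Y i k)) := by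
  simp only [Bf, lq, Fin.sum_univ_five, Fin.sum_univ_three]
  ring

theorem Qf_eq (q Y : Fin 5 → Fin 3 → ℝ) (x : Fin 5 → ℝ) (ξ : Fin 3 → ℝ)
    (hξ : ∀ k, (∑ i, x i) * ξ k = ∑ i, x i * q i k) :
    Bf q Y x x = -2 * (∑ i, x i) * Tf q Y ξ x := by
  rw [Bf_eq]
  have h0 := hξ 0
  have h1 := hξ 1
  have h2 := hξ 2
  simp only [Tf, Fin.sum_univ_five, Fin.sum_univ_three] at h0 h1 h2 ⊢
  linear_combination (2 * (x 0 * Y 0 0 + x 1 * Y 1 0 + x 2 * Y 2 0 + x 3 * Y 3 0 + x 4 * Y 4 0)) * h0 +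
    (2 * (x 0 * Y 0 1 + x 1 * Y 1 1 + x 2 * Y 2 1 + x 3 * Y 3 1 + x 4 * Y 4 1)) * h1 +
    (2 * (x 0 * Y 0 2 + x 1 * Y 1 2 + x 2 * Y 2 2 + x 3 * Y 3 2 + x 4 * Y 4 2)) * h2

theorem Lf_eq (q Y : Fin 5 → Fin 3 → ℝ) (x a : Fin 5 → ℝ) (ξ : Fin 3 → ℝ)
    (hξ : ∀ k, (∑ i, x i) * ξ k = ∑ i, x i * q i k) (ha : ∑ i, a i = 0)
    (haq : ∀ k, ∑ i, a i * q i k = 0) :
    Bf q Y x a = -(∑ i, x i) * Tf q Y ξ a := by
  rw [Bf_eq]
  have h0 := hξ 0
  have h1 := hξ 1
  have h2 := hξ 2
  simp only [ha, haq]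
  simp only [Tf, Fin.sum_univ_five, Fin.sum_univ_three] at h0 h1 h2 ⊢
  linear_combination ((a 0 * Y 0 0 + a 1 * Y 1 0 + a 2 * Y 2 0 + a 3 * Y 3 0 + a 4 * Y 4 0)) * h0 +
    ((a 0 * Y 0 1 + a 1 * Y 1 1 + a 2 * Y 2 1 + a 3 * Y 3 1 + a 4 * Y 4 1)) * h1 +
    ((a 0 * Y 0 2 + a 1 * Y 1 2 + a 2 * Y 2 2 + a 3 * Y 3 2 + a 4 * Y 4 2)) * h2

/-! ## the affine dependency of five points -/

/-- coefficients of the affine dependency -/
noncomputable def al (q : Fin 5 → Fin 3 → ℝ) (i : Fin 5) : ℝ :=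
  (-1) ^ (i : ℕ) * Matrix.det (Matrix.of fun j m => hat (q (i.succAbove j)) m)

theorem al_rel (q : Fin 5 → Fin 3 → ℝ) (l : Fin 4) : ∑ i, al q i * hat (q i) l = 0 := by
  let A : Matrix (Fin 5) (Fin 5) ℝ := Matrix.of fun i => Fin.cons (hat (q i) l) (hat (q i))
  have h0 : A.det = 0 := by
    apply Matrix.det_zero_of_column_eq (i := 0) (j := l.succ) (Fin.succ_ne_zero l).symm
    intro i
    simp [A]
  rw [Matrix.det_succ_column_zero] at h0
  rw [← h0]
  apply Finset.sum_congr rfl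
  intro i _
  have h1 : A.submatrix i.succAbove Fin.succ =
      Matrix.of fun j m => hat (q (i.succAbove j)) m := by
    ext j m
    simp [A]
  have h2 : A i 0 = hat (q i) l := by simp [A]
  rw [h1, h2, al]
  ring

theorem al_sum (q : Fin 5 → Fin 3 → ℝ) : ∑ i, al q i = 0 := by
  have := al_rel q 0
  simpa [hat] using this

theorem al_q (q : Fin 5 → Fin 3 → ℝ) (k : Fin 3) : ∑ i, al q i * q i k = 0 := by
  have := al_rel q k.succ
  fin_cases k
  · simpa [hat] using this
  · simpa [hat] using this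
  · simpa [hat] using this

theorem al_det_ne {p : V → Fin 3 → ℝ} (hp : Gen p) {n : Fin 5 → V} (hn : Function.Injective n)
    (i : Fin 5) : Matrix.det (Matrix.of fun j m => hat (p (n (i.succAbove j))) m) ≠ 0 := by
  have hinj : ∀ s t : Fin 4, s ≠ t → n (i.succAbove s) ≠ n (i.succAbove t) :=
    fun s t hst h => hst (Fin.succAbove_right_injective (hn h))
  have h := br_ne hp (hinj 0 1 (by decide)) (hinj 0 2 (by decide)) (hinj 0 3 (by decide))
    (hinj 1 2 (by decide)) (hinj 1 3 (by decide)) (hinj 2 3 (by decide))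
  have h1 : (Matrix.of fun j m => hat (p (n (i.succAbove j))) m) =
      Matrix.of ![hat (p (n (i.succAbove 0))), hat (p (n (i.succAbove 1))),
        hat (p (n (i.succAbove 2))), hat (p (n (i.succAbove 3)))] := by
    ext j m
    fin_cases j <;> rfl
  rw [h1]
  exact h

theorem al_ne {p : V → Fin 3 → ℝ} (hp : Gen p) {n : Fin 5 → V} (hn : Function.Injective n)
    (i : Fin 5) : al (fun j => p (n j)) i ≠ 0 :=
  mul_ne_zero (pow_ne_zero _ (by norm_num)) (al_det_ne hp hn i)

/-- uniqueness of the dependency -/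
theorem al_unique {p : V → Fin 3 → ℝ} (hp : Gen p) {n : Fin 5 → V} (hn : Function.Injective n)
    (c : Fin 5 → ℝ) (h0 : ∑ i, c i = 0) (hq : ∀ k, ∑ i, c i * p (n i) k = 0) :
    ∃ B, ∀ i, c i = B * al (fun j => p (n j)) i := by
  set q : Fin 5 → Fin 3 → ℝ := fun j => p (n j) with hqdef
  refine ⟨c 0 / al q 0, ?_⟩
  have hα0 : al q 0 ≠ 0 := al_ne hp hn 0
  let c' : Fin 5 → ℝ := fun i => c i - c 0 / al q 0 * al q i
  have hc0 : c' 0 = 0 := by
    simp only [c']
    rw [div_mul_cancel₀ _ hα0, sub_self]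
  have hrel : ∀ l : Fin 4, ∑ i, c' i * hat (q i) l = 0 := by
    intro l
    have h1 : ∑ i, c i * hat (q i) l = 0 := by
      fin_cases l
      · simpa [hat] using h0
      · simpa [hat] using hq 0
      · simpa [hat] using hq 1
      · simpa [hat] using hq 2
    have h2 := al_rel q l
    calc ∑ i, c' i * hat (q i) l = ∑ i, c i * hat (q i) l -
        c 0 / al q 0 * ∑ i, al q i * hat (q i) l := by
          rw [Finset.mul_sum, ← Finset.sum_sub_distrib]
          apply Finset.sum_congr rfl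
          intro i _
          simp only [c']
          ring
      _ = 0 := by rw [h1, h2]; ring
  have hv : (fun j : Fin 4 => c' j.succ) = 0 := by
    apply Matrix.eq_zero_of_vecMul_eq_zero (al_det_ne hp hn 0)
    ext l
    have h1 := hrel l
    rw [Fin.sum_univ_succ, hc0, zero_mul, zero_add] at h1
    simp only [Matrix.vecMul, dotProduct, Matrix.of_apply, Pi.zero_apply]
    exact h1
  intro i
  have hi : c' i = 0 := by
    refine Fin.cases hc0 (fun j => ?_) i
    exact congrFun hv j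
  simp only [c'] at hi
  linarith

/-! ## the five by five determinant -/

/-- the row of the vertex `i` -/
def row5 (q Y Y' : Fin 5 → Fin 3 → ℝ) (i j : Fin 5) (ξ : Fin 3 → ℝ) : ℝ :=
  (![ξ 0 - q i 0, ξ 1 - q i 1, ξ 2 - q i 2, ∑ k, (ξ k - q i k) * Y i k,
    ∑ k, (ξ k - q i k) * Y' i k] : Fin 5 → ℝ) j

theorem Tf_swap (q Y : Fin 5 → Fin 3 → ℝ) (ξ : Fin 3 → ℝ) (x c : Fin 5 → ℝ) (A B : ℝ) :
    Tf q Y ξ (fun i => A * x i + B * c i) = A * Tf q Y ξ x + B * Tf q Y ξ c := by
  simp only [Tf, Fin.sum_univ_five, Fin.sum_univ_three]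
  ring

theorem Bf_cont (q Y : Fin 5 → Fin 3 → ℝ) (x z a : Fin 5 → ℝ) :
    Continuous fun t : ℝ => Bf q Y (fun i => x i + t * z i) a := by
  unfold Bf
  fun_prop

theorem Bf_cont2 (q Y : Fin 5 → Fin 3 → ℝ) (x z : Fin 5 → ℝ) :
    Continuous fun t : ℝ => Bf q Y (fun i => x i + t * z i) (fun i => x i + t * z i) := by
  unfold Bf
  fun_prop

theorem R_zero_of_ne {p : V → Fin 3 → ℝ} (hp : Gen p) {n : Fin 5 → V} (hn : Function.Injective n)
    (Y Y' : Fin 5 → Fin 3 → ℝ)
    (hdet : ∀ ξ, Matrix.det (Matrix.of fun i j => row5 (fun j => p (n j)) Y Y' i j ξ) = 0)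
    (x : Fin 5 → ℝ) (hs : ∑ i, x i ≠ 0) :
    Bf (fun j => p (n j)) Y x x * Bf (fun j => p (n j)) Y' x (al fun j => p (n j)) =
      Bf (fun j => p (n j)) Y' x x * Bf (fun j => p (n j)) Y x (al fun j => p (n j)) := by
  set q : Fin 5 → Fin 3 → ℝ := fun j => p (n j) with hqdef
  set s := ∑ i, x i with hsdef
  let ξ : Fin 3 → ℝ := fun k => (∑ i, x i * q i k) / s
  have hξ : ∀ k, (∑ i, x i) * ξ k = ∑ i, x i * q i k := by
    intro k
    simp only [ξ]
    rw [← hsdef, mul_div_cancel₀ _ hs]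
  rw [Qf_eq q Y x ξ hξ, Qf_eq q Y' x ξ hξ, Lf_eq q Y x _ ξ hξ (al_sum q) (al_q q),
    Lf_eq q Y' x _ ξ hξ (al_sum q) (al_q q)]
  obtain ⟨μ, hμ0, hμ⟩ := Matrix.exists_vecMul_eq_zero_iff.2 (hdet ξ)
  have hcol : ∀ j, ∑ i, μ i * row5 q Y Y' i j ξ = 0 := by
    intro j
    have := congrFun hμ j
    simpa [Matrix.vecMul, dotProduct] using this
  have hk : ∀ k : Fin 3, ∑ i, μ i * (ξ k - q i k) = 0 := by
    intro k
    fin_cases k
    · have := hcol 0
      simpa [row5] using this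
    · have := hcol 1
      simpa [row5] using this
    · have := hcol 2
      simpa [row5] using this
  have hY : Tf q Y ξ μ = 0 := by
    have := hcol 3
    simpa [row5, Tf] using this
  have hY' : Tf q Y' ξ μ = 0 := by
    have := hcol 4
    simpa [row5, Tf] using this
  -- decomposition of μ
  set A := (∑ i, μ i) / s with hA
  obtain ⟨B, hB⟩ := al_unique hp hn (fun i => μ i - A * x i) (by
      rw [Finset.sum_sub_distrib, ← Finset.mul_sum, ← hsdef, hA, div_mul_cancel₀ _ hs, sub_self])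
    (by
      intro k
      have h1 : ∑ i, (μ i - A * x i) * p (n i) k = (∑ i, μ i) * ξ k - A * (∑ i, x i * q i k) := by
        have h2 : (∑ i, μ i) * ξ k - ∑ i, μ i * q i k = 0 := by
          rw [← hk k, Finset.sum_mul, ← Finset.sum_sub_distrib]
          apply Finset.sum_congr rfl
          intro i _
          ring
        have h3 : ∑ i, (μ i - A * x i) * p (n i) k = ∑ i, μ i * q i k - A * ∑ i, x i * q i k := by
          rw [Finset.mul_sum, ← Finset.sum_sub_distrib]
          apply Finset.sum_congr rfl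
          intro i _
          simp only [hqdef]
          ring
        rw [h3]
        linarith
      rw [h1, ← hξ k, ← hsdef, hA]
      field_simp
      ring)
  have hμeq : μ = fun i => A * x i + B * al q i := by
    funext i
    have := hB i
    linarith
  rw [hμeq, Tf_swap] at hY hY'
  have hD : Tf q Y ξ x * Tf q Y' ξ (al q) - Tf q Y' ξ x * Tf q Y ξ (al q) = 0 := by
    by_contra hne
    have h1 : A * (Tf q Y ξ x * Tf q Y' ξ (al q) - Tf q Y' ξ x * Tf q Y ξ (al q)) = 0 := by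
      linear_combination Tf q Y' ξ (al q) * hY - Tf q Y ξ (al q) * hY'
    have h2 : B * (Tf q Y ξ x * Tf q Y' ξ (al q) - Tf q Y' ξ x * Tf q Y ξ (al q)) = 0 := by
      linear_combination Tf q Y ξ x * hY' - Tf q Y' ξ x * hY
    have hA0 : A = 0 := (mul_eq_zero.1 h1).resolve_right hne
    have hB0 : B = 0 := (mul_eq_zero.1 h2).resolve_right hne
    apply hμ0
    rw [hμeq]
    funext i
    simp [hA0, hB0]
  linear_combination 2 * (∑ i, x i) ^ 2 * hD

theorem R_zero {p : V → Fin 3 → ℝ} (hp : Gen p) {n : Fin 5 → V} (hn : Function.Injective n)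
    (Y Y' : Fin 5 → Fin 3 → ℝ)
    (hdet : ∀ ξ, Matrix.det (Matrix.of fun i j => row5 (fun j => p (n j)) Y Y' i j ξ) = 0)
    (x : Fin 5 → ℝ) :
    Bf (fun j => p (n j)) Y x x * Bf (fun j => p (n j)) Y' x (al fun j => p (n j)) =
      Bf (fun j => p (n j)) Y' x x * Bf (fun j => p (n j)) Y x (al fun j => p (n j)) := by
  by_cases hs : ∑ i, x i = 0
  · set q : Fin 5 → Fin 3 → ℝ := fun j => p (n j) with hqdef
    let z : Fin 5 → ℝ := fun _ => 1
    have h1 : (fun t : ℝ => Bf q Y (fun i => x i + t * z i) (fun i => x i + t * z i) *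
        Bf q Y' (fun i => x i + t * z i) (al q)) = fun t : ℝ =>
        Bf q Y' (fun i => x i + t * z i) (fun i => x i + t * z i) *
        Bf q Y (fun i => x i + t * z i) (al q) := by
      apply Continuous.ext_on (dense_compl_singleton (0 : ℝ))
      · exact (Bf_cont2 q Y x z).mul (Bf_cont q Y' x z (al q))
      · exact (Bf_cont2 q Y' x z).mul (Bf_cont q Y x z (al q))
      · intro t ht
        apply R_zero_of_ne hp hn Y Y' hdet
        rw [Finset.sum_add_distrib, hs, zero_add]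
        simp only [z, mul_one, Finset.sum_const, Finset.card_univ, Fintype.card_fin, nsmul_eq_mul]
        exact mul_ne_zero (by norm_num) ht
    have h2 := congrFun h1 0
    simpa using h2
  · exact R_zero_of_ne hp hn Y Y' hdet x hs

/-! ## the minor -/

theorem minor_id (A B C D : Fin 3 → ℝ) (yA yB yC yD : Fin 3 → ℝ) :
    Matrix.det (Matrix.of ![![(A 0 + B 0) / 2 - A 0, (A 1 + B 1) / 2 - A 1, (A 2 + B 2) / 2 - A 2,
        ∑ k, ((A k + B k) / 2 - A k) * yA k],
      ![(A 0 + B 0) / 2 - B 0, (A 1 + B 1) / 2 - B 1, (A 2 + B 2) / 2 - B 2,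
        ∑ k, ((A k + B k) / 2 - B k) * yB k],
      ![(A 0 + B 0) / 2 - C 0, (A 1 + B 1) / 2 - C 1, (A 2 + B 2) / 2 - C 2,
        ∑ k, ((A k + B k) / 2 - C k) * yC k],
      ![(A 0 + B 0) / 2 - D 0, (A 1 + B 1) / 2 - D 1, (A 2 + B 2) / 2 - D 2,
        ∑ k, ((A k + B k) / 2 - D k) * yD k]]) =
      -(1 / 4) * (∑ k, (A k - B k) * (yA k - yB k)) * br (hat A) (hat B) (hat C) (hat D) := by
  unfold br hat
  simp only [Matrix.det_succ_row_zero, Fin.sum_univ_succ]
  simp [Fin.succAbove, Matrix.submatrix]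
  ring

/-! ## motions with values in a field -/

theorem ee_add (p u w : V → Fin 3 → ℝ) (a b : V) :
    ee p (u + w) a b = ee p u a b + ee p w a b := by
  unfold ee
  rw [← Finset.sum_add_distrib]
  apply Finset.sum_congr rfl
  intro i _
  simp only [Pi.add_apply]
  ring

theorem ee_smul (p u : V → Fin 3 → ℝ) (c : ℝ) (a b : V) :
    ee p (fun a k => c * u a k) a b = c * ee p u a b := by
  unfold ee
  rw [Finset.mul_sum]
  apply Finset.sum_congr rfl
  intro i _
  ring

theorem ee_mem (p u : V → Fin 3 → ℝ) (F : IntermediateField ℚ ℝ) (a b : V)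
    (ha : ∀ k, p a k ∈ F) (hb : ∀ k, p b k ∈ F) (hu : ∀ a k, u a k ∈ F) : ee p u a b ∈ F := by
  unfold ee
  exact sum_mem fun i _ => mul_mem (sub_mem (ha i) (hb i)) (sub_mem (hu a i) (hu b i))

/-- the motions with values in `F` -/
def MM (p : V → Fin 3 → ℝ) (H : SimpleGraph V) (F : IntermediateField ℚ ℝ) :
    Submodule F (V → Fin 3 → ℝ) where
  carrier := {u | IsMotion p H u ∧ ∀ a k, u a k ∈ F}
  zero_mem' := ⟨fun a b _ => by simp [ee], fun a k => F.zero_mem⟩
  add_mem' := by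
    rintro u w ⟨h1, h2⟩ ⟨h3, h4⟩
    refine ⟨fun a b hab => ?_, fun a k => F.add_mem (h2 a k) (h4 a k)⟩
    rw [ee_add, h1 a b hab, h3 a b hab, add_zero]
  smul_mem' := by
    rintro c u ⟨h1, h2⟩
    have hcu : c • u = fun a k => (c : ℝ) * u a k := by
      funext a k
      rfl
    rw [hcu]
    refine ⟨fun a b hab => ?_, fun a k => F.mul_mem c.2 (h2 a k)⟩
    rw [ee_smul, h1 a b hab, mul_zero]

section ret

variable {p : V → Fin 3 → ℝ} {F : IntermediateField ℚ ℝ} {π : ℝ → ℝ}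

theorem ret_ee (hadd : ∀ x y, π (x + y) = π x + π y) (hmul : ∀ c ∈ F, ∀ x, π (c * x) = c * π x)
    (u : V → Fin 3 → ℝ) {a b : V} (ha : ∀ k, p a k ∈ F) (hb : ∀ k, p b k ∈ F) :
    ee p (fun a k => π (u a k)) a b = π (ee p u a b) := by
  have hsub : ∀ x y, π (x - y) = π x - π y := by
    intro x y
    have := hadd (x - y) y
    rw [sub_add_cancel] at this
    linarith
  unfold ee
  rw [Fin.sum_univ_three, Fin.sum_univ_three, hadd, hadd,
    hmul _ (sub_mem (ha 0) (hb 0)), hmul _ (sub_mem (ha 1) (hb 1)),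
    hmul _ (sub_mem (ha 2) (hb 2)), hsub, hsub, hsub]

theorem ret_mem {H : SimpleGraph V} (hπ : ∀ x, π x ∈ F) (hπ0 : π 0 = 0)
    (hadd : ∀ x y, π (x + y) = π x + π y) (hmul : ∀ c ∈ F, ∀ x, π (c * x) = c * π x)
    (hH : ∀ a b, H.Adj a b → (∀ k, p a k ∈ F) ∧ ∀ k, p b k ∈ F)
    {u : V → Fin 3 → ℝ} (hu : IsMotion p H u) : (fun a k => π (u a k)) ∈ MM p H F := by
  refine ⟨fun a b hab => ?_, fun a k => hπ _⟩
  rw [ret_ee hadd hmul u (hH a b hab).1 (hH a b hab).2, hu a b hab, hπ0]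

/-- linear relations transfer from the `F`-valued motions to all motions -/
theorem transfer {H : SimpleGraph V}
    (hH : ∀ a b, H.Adj a b → (∀ k, p a k ∈ F) ∧ ∀ k, p b k ∈ F) {a b a' b' : V}
    (ha : ∀ k, p a k ∈ F) (hb : ∀ k, p b k ∈ F) (ha' : ∀ k, p a' k ∈ F) (hb' : ∀ k, p b' k ∈ F)
    (c c' : ℝ) (hc : c ∈ F) (hc' : c' ∈ F)
    (h : ∀ y ∈ MM p H F, c * ee p y a b = c' * ee p y a' b') (u : V → Fin 3 → ℝ)
    (hu : IsMotion p H u) : c * ee p u a b = c' * ee p u a' b' := by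
  obtain ⟨π, hπ, hπF, hadd, hmul⟩ := exists_retract F
  have hπ0 : π 0 = 0 := hπF 0 F.zero_mem
  have hπ1 : π 1 = 1 := hπF 1 F.one_mem
  by_contra hne
  set e := c * ee p u a b - c' * ee p u a' b' with he
  have he0 : e ≠ 0 := sub_ne_zero.2 hne
  set u' : V → Fin 3 → ℝ := fun a k => e⁻¹ * u a k with hu'
  have hmot : IsMotion p H u' := by
    intro x y hxy
    rw [hu', ee_smul, hu x y hxy, mul_zero]
  have h1 := h _ (ret_mem hπ hπ0 hadd hmul hH hmot)
  rw [ret_ee hadd hmul u' ha hb, ret_ee hadd hmul u' ha' hb', ← hmul c hc, ← hmul c' hc'] at h1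
  have h2 : c * ee p u' a b = 1 + c' * ee p u' a' b' := by
    rw [hu', ee_smul, ee_smul]
    have : e⁻¹ * e = 1 := inv_mul_cancel₀ he0
    rw [he] at this
    linarith
  rw [h2, hadd, hπ1] at h1
  linarith

end ret

/-! ## coefficients of quadratic forms -/

theorem coef {K : Type} [Field K] (e : Fin 5 → Fin 5 → K)
    (hsym : ∀ i j, e i j = e j i) (l a : Fin 5 → K)
    (h : ∀ x : Fin 5 → K, ∑ i, ∑ j, x i * x j * e i j =
      (∑ i, l i * x i) * ∑ i, ∑ j, x i * a j * e i j) (i j : Fin 5) :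
    2 * e i j = l i * (∑ k, a k * e j k) + l j * (∑ k, a k * e i k) := by
  have hQ : ∀ x y : Fin 5 → K, ∑ s, ∑ t, (x s + y s) * (x t + y t) * e s t =
      ∑ s, ∑ t, x s * x t * e s t + ∑ s, ∑ t, y s * y t * e s t +
        2 * ∑ s, ∑ t, x s * y t * e s t := by
    intro x y
    have h1 : ∑ s, ∑ t, y s * x t * e s t = ∑ s, ∑ t, x s * y t * e s t := by
      rw [Finset.sum_comm]
      apply Finset.sum_congr rfl
      intro s _
      apply Finset.sum_congr rfl
      intro t _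
      rw [hsym t s]
      ring
    have h2 : ∑ s, ∑ t, (x s + y s) * (x t + y t) * e s t =
        ∑ s, ∑ t, x s * x t * e s t + ∑ s, ∑ t, y s * y t * e s t +
        (∑ s, ∑ t, x s * y t * e s t + ∑ s, ∑ t, y s * x t * e s t) := by
      simp only [← Finset.sum_add_distrib]
      apply Finset.sum_congr rfl
      intro s _
      apply Finset.sum_congr rfl
      intro t _
      ring
    rw [h2, h1]
    ring
  have hL : ∀ x y : Fin 5 → K, ∑ s, ∑ t, (x s + y s) * a t * e s t =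
      ∑ s, ∑ t, x s * a t * e s t + ∑ s, ∑ t, y s * a t * e s t := by
    intro x y
    simp only [← Finset.sum_add_distrib]
    apply Finset.sum_congr rfl
    intro s _
    apply Finset.sum_congr rfl
    intro t _
    ring
  have hl : ∀ x y : Fin 5 → K, ∑ s, l s * (x s + y s) = ∑ s, l s * x s + ∑ s, l s * y s := by
    intro x y
    rw [← Finset.sum_add_distrib]
    apply Finset.sum_congr rfl
    intro s _
    ring
  have hsL : ∀ i : Fin 5, ∑ s, ∑ t, (Pi.single i (1 : K) : Fin 5 → K) s * a t * e s t =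
      ∑ k, a k * e i k := by
    intro i
    rw [Finset.sum_eq_single i]
    · simp
    · intro s _ hs
      simp [Pi.single_apply, hs]
    · simp
  have hsl : ∀ i : Fin 5, ∑ s, l s * (Pi.single i (1 : K) : Fin 5 → K) s = l i := by
    intro i
    rw [Finset.sum_eq_single i]
    · simp
    · intro s _ hs
      simp [Pi.single_apply, hs]
    · simp
  have hsB : ∑ s, ∑ t, (Pi.single i (1 : K) : Fin 5 → K) s * (Pi.single j (1 : K) : Fin 5 → K) t *
      e s t = e i j := by
    rw [Finset.sum_eq_single i]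
    · rw [Finset.sum_eq_single j]
      · simp
      · intro t _ ht
        simp [Pi.single_apply, ht]
      · simp
    · intro s _ hs
      simp [Pi.single_apply, hs]
    · simp
  have e1 := h (fun s => (Pi.single i (1 : K) : Fin 5 → K) s + (Pi.single j (1 : K) : Fin 5 → K) s)
  have e2 := h (Pi.single i (1 : K))
  have e3 := h (Pi.single j (1 : K))
  rw [hQ, hL, hl, hsL, hsL, hsl, hsl, hsB] at e1
  rw [hsL, hsl] at e2 e3
  linear_combination e1 - e2 - e3

/-- the fifth index -/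
theorem sum5 {a b c d : Fin 5} (hab : a ≠ b) (hac : a ≠ c) (had : a ≠ d) (hbc : b ≠ c)
    (hbd : b ≠ d) (hcd : c ≠ d) :
    ∃ e : Fin 5, ∀ f : Fin 5 → ℝ, ∑ i, f i = f a + f b + f c + f d + f e := by
  obtain ⟨e, he⟩ : ∃ e : Fin 5, e ∉ ({a, b, c, d} : Finset (Fin 5)) := by
    by_contra hcon
    push Not at hcon
    have h1 : (univ : Finset (Fin 5)) ⊆ {a, b, c, d} := fun x _ => hcon x
    have h2 := Finset.card_le_card h1
    have h3 : ({a, b, c, d} : Finset (Fin 5)).card ≤ 4 := Finset.card_le_four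
    rw [Finset.card_univ, Fintype.card_fin] at h2
    omega
  simp only [Finset.mem_insert, Finset.mem_singleton, not_or] at he
  obtain ⟨h1, h2, h3, h4⟩ := he
  have hu : (univ : Finset (Fin 5)) = {a, b, c, d, e} := by
    symm
    apply Finset.eq_univ_of_card
    rw [Fintype.card_fin]
    rw [Finset.card_insert_of_notMem, Finset.card_insert_of_notMem,
      Finset.card_insert_of_notMem, Finset.card_insert_of_notMem, Finset.card_singleton]
    · simpa using Ne.symm h4
    · simp only [Finset.mem_insert, Finset.mem_singleton, not_or]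
      exact ⟨hcd, Ne.symm h3⟩
    · simp only [Finset.mem_insert, Finset.mem_singleton, not_or]
      exact ⟨hbc, hbd, Ne.symm h2⟩
    · simp only [Finset.mem_insert, Finset.mem_singleton, not_or]
      exact ⟨hab, hac, had, Ne.symm h1⟩
  refine ⟨e, fun f => ?_⟩
  rw [hu, Finset.sum_insert, Finset.sum_insert, Finset.sum_insert, Finset.sum_insert,
    Finset.sum_singleton]
  · ring
  · simpa using Ne.symm h4
  · simp only [Finset.mem_insert, Finset.mem_singleton, not_or]
    exact ⟨hcd, Ne.symm h3⟩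
  · simp only [Finset.mem_insert, Finset.mem_singleton, not_or]
    exact ⟨hbc, hbd, Ne.symm h2⟩
  · simp only [Finset.mem_insert, Finset.mem_singleton, not_or]
    exact ⟨hab, hac, had, Ne.symm h1⟩

end H176R2.R5.LOC
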