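import Pool.Agent.H176R2.R5.RK

/-!
# Minimal generic rigidity
-/

set_option autoImplicit false

open Finset

namespace H176R2.R5

open Pool.Agent.H283R2

/-- `G` is minimally generically rigid in `ℝ³`: it is generically rigid and deleting any edge
destroys this. -/
def MinGenRigid {V : Type} (G : SimpleGraph V) : Prop :=
  DR.GenRigid 3 G ∧ ∀ e ∈ G.edgeSet, ¬ DR.GenRigid 3 (G.deleteEdges {e})

namespace RK

theorem minGenRigid_iff {V : Type} [Fintype V] {G : SimpleGraph V} (hc : CoreLeFive G)
    (h3 : 3 ≤ Fintype.card V) :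
    MinGenRigid G ↔ Sparse36 G ∧ G.edgeSet.ncard + 6 = 3 * Fintype.card V := by
  classical
  constructor
  · rintro ⟨hr, hmin⟩
    have hbot : Sparse36 (⊥ : SimpleGraph V) := by
      intro K hK
      have h0 : K.edgeSet = ∅ := by
        rw [Set.eq_empty_iff_forall_notMem]
        intro e
        induction e using Sym2.ind with
        | _ a b =>
          intro he
          exact K.adj_sub he
      rw [h0, Set.ncard_empty]
      omega
    obtain ⟨H, -, hH⟩ := exists_maxSparse (G := G) bot_le hbot
    have h1 := (genRigid_iff hc hH h3).1 hr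
    have hHG : H = G := by
      by_contra hne
      have hlt : H.edgeSet ⊂ G.edgeSet :=
        SimpleGraph.edgeSet_ssubset_edgeSet.2 (lt_of_le_of_ne hH.1 hne)
      obtain ⟨e, heG, heH⟩ := Set.exists_of_ssubset hlt
      apply hmin e heG
      have hle : G.deleteEdges {e} ≤ G := SimpleGraph.deleteEdges_le _
      have hHle : H ≤ G.deleteEdges {e} := by
        rw [← SimpleGraph.edgeSet_subset_edgeSet, SimpleGraph.edgeSet_deleteEdges]
        intro x hx
        refine ⟨SimpleGraph.edgeSet_subset_edgeSet.2 hH.1 hx, ?_⟩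
        rintro rfl
        exact heH hx
      have hH' : MaxSparse (G.deleteEdges {e}) H :=
        ⟨hHle, hH.2.1, fun K hK hSK hHK => hH.2.2 K (hK.trans hle) hSK hHK⟩
      exact (genRigid_iff (core_mono hle hc) hH' h3).2 h1
    rw [hHG] at hH h1
    exact ⟨hH.2.1, h1⟩
  · rintro ⟨hS, hcard⟩
    have hG : MaxSparse G G := ⟨le_refl G, hS, fun K hK _ hGK => le_antisymm hK hGK⟩
    refine ⟨(genRigid_iff hc hG h3).2 hcard, fun e he hr => ?_⟩
    have hle : G.deleteEdges {e} ≤ G := SimpleGraph.deleteEdges_le _
    have hS' : Sparse36 (G.deleteEdges {e}) :=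
      (TR.sparse_iff _).2 (sparse_le ((TR.sparse_iff _).1 hS) hle)
    have hG' : MaxSparse (G.deleteEdges {e}) (G.deleteEdges {e}) :=
      ⟨le_refl _, hS', fun K hK _ hGK => le_antisymm hK hGK⟩
    have h1 := (genRigid_iff (core_mono hle hc) hG' h3).1 hr
    have h2 : (G.deleteEdges {e}).edgeSet.ncard < G.edgeSet.ncard := by
      apply Set.ncard_lt_ncard _ (Set.toFinite _)
      rw [SimpleGraph.edgeSet_deleteEdges]
      refine ⟨Set.sdiff_subset, fun h => ?_⟩
      exact (h he).2 rfl
    omega

end RK

end H176R2.R5
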