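import Pool.Agent.H176R2.R5.Defs

/-!
# Rows indexed by ordered pairs
-/

set_option autoImplicit false

open Finset

namespace H176R2.R5.OR

variable {n : ℕ}

/-- the graph of a set of ordered pairs -/
def gr (I : Set (Fin n × Fin n)) : SimpleGraph (Fin n) where
  Adj a b := a ≠ b ∧ ((a, b) ∈ I ∨ (b, a) ∈ I)
  symm := ⟨fun _ _ h => ⟨h.1.symm, h.2.symm⟩⟩
  loopless := ⟨fun _ h => h.1 rfl⟩

theorem lin_iff {I : Set (Fin n × Fin n)} (hI : ∀ e ∈ I, e.1 < e.2)
    (d : Fin n × Fin n → Fin 3 → ℝ) (R : I → Fin n → Fin 3 → ℝ)
    (hR : ∀ (e : I) v k, R e v k =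
      if v = e.1.1 then d e.1 k else if v = e.1.2 then - d e.1 k else 0) :
    LinearIndependent ℝ R ↔ ∀ g : Fin n × Fin n → ℝ, (∀ e, e ∉ I → g e = 0) →
      (∀ v k, ∑ b, (g (v, b) * d (v, b) k - g (b, v) * d (b, v) k) = 0) → ∀ e, g e = 0 := by
  classical
  have key : ∀ g : Fin n × Fin n → ℝ, (∀ e, e ∉ I → g e = 0) → ∀ v k,
      (∑ e : I, g e.1 • R e) v k = ∑ b, (g (v, b) * d (v, b) k - g (b, v) * d (b, v) k) := by
    intro g hg v k
    have h1 : (∑ e : I, g e.1 • R e) v k = ∑ e : I, g e.1 *
        (if v = e.1.1 then d e.1 k else if v = e.1.2 then - d e.1 k else 0) := by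
      rw [Finset.sum_apply, Finset.sum_apply]
      exact sum_congr rfl fun e _ => by rw [Pi.smul_apply, Pi.smul_apply, hR]; rfl
    have h2 : ∑ e : I, g e.1 *
        (if v = e.1.1 then d e.1 k else if v = e.1.2 then - d e.1 k else 0) =
        ∑ e : Fin n × Fin n, g e *
        (if v = e.1 then d e k else if v = e.2 then - d e k else 0) := by
      apply Fintype.sum_of_injective (fun e : I => e.1) Subtype.val_injective
      · intro e he
        rw [hg e, zero_mul]
        intro h
        exact he ⟨⟨e, h⟩, rfl⟩
      · intro e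
        rfl
    have h3 : ∀ e : Fin n × Fin n, g e *
        (if v = e.1 then d e k else if v = e.2 then - d e k else 0) =
        (if v = e.1 then g e * d e k else 0) + (if v = e.2 then - (g e * d e k) else 0) := by
      intro e
      by_cases he : e ∈ I
      · have hlt := hI e he
        by_cases h1 : v = e.1
        · have : v ≠ e.2 := fun h => absurd (h1.symm.trans h) hlt.ne
          rw [if_pos h1, if_pos h1, if_neg this, add_zero]
        · rw [if_neg h1, if_neg h1, zero_add]
          split_ifs <;> simp
      · rw [hg e he]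
        simp
    rw [h1, h2, sum_congr rfl fun e _ => h3 e, sum_add_distrib, Fintype.sum_prod_type,
      Fintype.sum_prod_type_right, sum_sub_distrib, sub_eq_add_neg]
    congr 1
    · simp only
      rw [sum_comm]
      exact sum_congr rfl fun b _ => by simp
    · rw [← sum_neg_distrib, sum_comm]
      exact sum_congr rfl fun b _ => by simp
  rw [Fintype.linearIndependent_iff]
  constructor
  · intro h g hg hb e
    by_cases he : e ∈ I
    · refine h (fun e => g e.1) ?_ ⟨e, he⟩
      funext v k
      rw [key g hg v k, hb v k]
      rfl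
    · exact hg e he
  · intro h g hg e
    have h4 : (∑ e : I, (fun e : Fin n × Fin n => if he : e ∈ I then g ⟨e, he⟩ else 0) e.1 • R e) =
        0 := by
      rw [← hg]
      apply sum_congr rfl
      intro e _
      simp
    have h5 := h (fun e => if he : e ∈ I then g ⟨e, he⟩ else 0) (fun e he => by simp [he]) (by
      intro v k
      have h6 := key (fun e => if he : e ∈ I then g ⟨e, he⟩ else 0) (fun e he => by simp [he]) v k
      rw [h4] at h6
      exact h6.symm) e.1
    simpa using h5

theorem ind_iff {I : Set (Fin n × Fin n)} (hI : ∀ e ∈ I, e.1 < e.2) (p : Fin n → Fin 3 → ℝ)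
    (R : I → Fin n → Fin 3 → ℝ)
    (hR : ∀ (e : I) v k, R e v k =
      if v = e.1.1 then p e.1.1 k - p e.1.2 k else if v = e.1.2 then p e.1.2 k - p e.1.1 k else 0) :
    LinearIndependent ℝ R ↔ Ind p (gr I) := by
  classical
  rw [lin_iff hI (fun e k => p e.1 k - p e.2 k) R (by
    intro e v k
    rw [hR]
    split_ifs <;> ring)]
  have hn : ∀ a b, (a, b) ∈ I → (b, a) ∉ I := fun a b h1 h2 => lt_asymm (hI _ h1) (hI _ h2)
  constructor
  · intro h ω hω a b
    have h1 := h (fun e => if e ∈ I then ω e.1 e.2 else 0) (fun e he => by simp [he]) (by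
      intro v k
      refine Eq.trans (sum_congr rfl ?_) (hω.bal v k)
      intro b _
      by_cases h1 : (v, b) ∈ I
      · simp [h1, hn _ _ h1]
      · by_cases h2 : (b, v) ∈ I
        · simp only [h1, h2, if_true, if_false]
          rw [hω.symm v b]
          ring
        · simp only [h1, h2, if_false]
          rw [hω.supp v b]
          · ring
          · rintro ⟨-, h3 | h3⟩
            · exact h1 h3
            · exact h2 h3)
    by_cases hab : (a, b) ∈ I
    · have := h1 (a, b)
      simpa [hab] using this
    · by_cases hba : (b, a) ∈ I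
      · have := h1 (b, a)
        rw [hω.symm a b]
        simpa [hba] using this
      · apply hω.supp
        rintro ⟨-, h3 | h3⟩
        · exact hab h3
        · exact hba h3
  · intro h g hg hb e
    by_cases he : e ∈ I
    · have h1 : IsStress p (gr I) (fun a b => g (a, b) + g (b, a)) := by
        refine ⟨fun a b => add_comm _ _, ?_, ?_⟩
        · intro a b hab
          have ha : a = b ∨ ((a, b) ∉ I ∧ (b, a) ∉ I) := by
            by_contra hc
            push Not at hc
            apply hab
            refine ⟨hc.1, ?_⟩
            by_cases h3 : (a, b) ∈ I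
            · exact Or.inl h3
            · exact Or.inr (hc.2 h3)
          rcases ha with rfl | ⟨h3, h4⟩
          · have : (a, a) ∉ I := fun h5 => lt_irrefl _ (hI _ h5)
            simp [hg _ this]
          · simp [hg _ h3, hg _ h4]
        · intro a i
          refine Eq.trans (sum_congr rfl ?_) (hb a i)
          intro b _
          simp only
          ring
      have h2 := h _ h1 e.1 e.2
      have h3 : g (e.2, e.1) = 0 := hg _ (hn e.1 e.2 he)
      simp only [h3, add_zero] at h2
      exact h2
    · exact hg e he

end H176R2.R5.OR
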