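import Pool.Agent.H176R2.R5.CORE
import Pool.Agent.H176R2.R5.FN
import Pool.Agent.H283R2.DR.Defs

/-!
# The rank formula and generic rigidity
-/

set_option autoImplicit false

open Finset

namespace H176R2.R5

/-- `H` is maximal among the `(3,6)`-sparse subgraphs of `G`. -/
def MaxSparse {V : Type} (G H : SimpleGraph V) : Prop :=
  H ≤ G ∧ Sparse36 H ∧ ∀ K : SimpleGraph V, K ≤ G → Sparse36 K → H ≤ K → K = H

namespace RK

variable {V : Type}

/-- the row vector of a pair -/
noncomputable def f (p : V → Fin 3 → ℝ) : Sym2 V → (V × Fin 3 → ℝ) := Sym2.lift ⟨row p, row_comm p⟩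

theorem rowInd_iff_on (G : SimpleGraph V) (p : V → Fin 3 → ℝ) :
    RowInd G p ↔ LinearIndepOn ℝ (f p) G.edgeSet := Iff.rfl

theorem core_mono {G H : SimpleGraph V} [Finite V] (hle : H ≤ G) (hc : CoreLeFive G) :
    CoreLeFive H := by
  intro S h4 v hv
  have key : ∀ w, (H.neighborSet w ∩ S).ncard ≤ (G.neighborSet w ∩ S).ncard := fun w =>
    Set.ncard_le_ncard (Set.inter_subset_inter_left _ fun x hx => hle hx) (Set.toFinite _)
  exact (key v).trans (hc S (fun w hw => (h4 w hw).trans (key w)) v hv)

theorem range_row (G : SimpleGraph V) (p : V → Fin 3 → ℝ) :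
    Set.range (rigidityMatrix G p).row = f p '' G.edgeSet := by
  ext x
  constructor
  · rintro ⟨e, rfl⟩
    exact ⟨e.1, e.2, rfl⟩
  · rintro ⟨e, he, rfl⟩
    exact ⟨⟨e, he⟩, rfl⟩

theorem rank_eq [Fintype V] (G : SimpleGraph V) (p : V → Fin 3 → ℝ) :
    (rigidityMatrix G p).rank = Module.finrank ℝ (Submodule.span ℝ (f p '' G.edgeSet)) := by
  rw [Matrix.rank_eq_finrank_span_row, range_row]

theorem rank_of_ind [Fintype V] {G : SimpleGraph V} {p : V → Fin 3 → ℝ} (h : RowInd G p) :
    (rigidityMatrix G p).rank = G.edgeSet.ncard := by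
  classical
  have h1 := LinearIndependent.rank_matrix h
  rw [h1, ← Nat.card_eq_fintype_card]
  rfl

/-- at a generic placement the rank is the number of edges of any maximal sparse subgraph -/
theorem rank_max [Fintype V] {G H : SimpleGraph V} (hc : CoreLeFive G) (hH : MaxSparse G H)
    {p : V → Fin 3 → ℝ} (hp : Generic p) : (rigidityMatrix G p).rank = H.edgeSet.ncard := by
  classical
  obtain ⟨hle, hS, hmax⟩ := hH
  have hI : RowInd H p := rowInd_of_core (core_mono hle hc) hS hp
  rw [← rank_of_ind hI, rank_eq, rank_eq]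
  suffices hspan : Submodule.span ℝ (f p '' G.edgeSet) = Submodule.span ℝ (f p '' H.edgeSet) by
    rw [hspan]
  apply le_antisymm
  · rw [Submodule.span_le]
    rintro _ ⟨e, he, rfl⟩
    by_cases heH : e ∈ H.edgeSet
    · exact Submodule.subset_span ⟨e, heH, rfl⟩
    · by_contra hcon
      have h1 : LinearIndepOn ℝ (f p) (insert e H.edgeSet) :=
        (linearIndepOn_insert heH).2 ⟨hI, hcon⟩
      have h2 : (H ⊔ SimpleGraph.fromEdgeSet {e}).edgeSet = insert e H.edgeSet := by
        rw [SimpleGraph.edgeSet_sup, SimpleGraph.edgeSet_fromEdgeSet, Set.insert_eq,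
          Set.union_comm]
        congr 1
        ext x
        simp only [Set.mem_sdiff, Set.mem_singleton_iff]
        constructor
        · exact fun h => h.1
        · rintro rfl
          exact ⟨rfl, fun hd => (SimpleGraph.not_isDiag_of_mem_edgeSet G he) hd⟩
      have h3 : RowInd (H ⊔ SimpleGraph.fromEdgeSet {e}) p := by
        rw [rowInd_iff_on, h2]
        exact h1
      have h4 : H ⊔ SimpleGraph.fromEdgeSet {e} ≤ G := by
        rw [← SimpleGraph.edgeSet_subset_edgeSet, h2, Set.insert_subset_iff]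
        exact ⟨he, SimpleGraph.edgeSet_subset_edgeSet.2 hle⟩
      have h5 := hmax _ h4 (sparse_of_rowInd h3) le_sup_left
      apply heH
      rw [← h5, h2]
      exact Set.mem_insert _ _
  · exact Submodule.span_mono (Set.image_mono (SimpleGraph.edgeSet_subset_edgeSet.2 hle))

/-- every independent subgraph lies in a maximal sparse subgraph -/
theorem exists_maxSparse [Finite V] {G K : SimpleGraph V} (hK : K ≤ G) (hS : Sparse36 K) :
    ∃ H, K ≤ H ∧ MaxSparse G H := by
  obtain ⟨H, hH, hmax⟩ := (wellFounded_gt (α := SimpleGraph V)).has_min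
    {H | K ≤ H ∧ H ≤ G ∧ Sparse36 H} ⟨K, le_refl K, hK, hS⟩
  refine ⟨H, hH.1, hH.2.1, hH.2.2, fun L hL hSL hHL => ?_⟩
  by_contra hne
  exact hmax L ⟨hH.1.trans hHL, hL, hSL⟩ (lt_of_le_of_ne hHL (Ne.symm hne))

/-- at every placement the rank is at most the number of edges of a maximal sparse subgraph -/
theorem rank_le [Fintype V] {G H : SimpleGraph V} (hc : CoreLeFive G) (hH : MaxSparse G H)
    (p : V → Fin 3 → ℝ) : (rigidityMatrix G p).rank ≤ H.edgeSet.ncard := by
  classical
  obtain ⟨q, hq⟩ := exists_generic V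
  obtain ⟨b, hb1, hb2, hb3, hb4⟩ := exists_linearIndepOn_extension (K := ℝ) (v := f p)
    (s := ∅) (t := G.edgeSet) (linearIndepOn_empty ℝ _) (Set.empty_subset _)
  set K : SimpleGraph V := SimpleGraph.fromEdgeSet b with hKdef
  have hKe : K.edgeSet = b := by
    rw [hKdef, SimpleGraph.edgeSet_fromEdgeSet]
    ext x
    constructor
    · exact fun h => h.1
    · exact fun h => ⟨h, fun hd => (SimpleGraph.not_isDiag_of_mem_edgeSet G (hb1 h)) hd⟩
  have hKG : K ≤ G := by
    rw [← SimpleGraph.edgeSet_subset_edgeSet, hKe]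
    exact hb1
  have hKI : RowInd K p := by
    rw [rowInd_iff_on, hKe]
    exact hb4
  obtain ⟨L, hKL, hL⟩ := exists_maxSparse hKG (sparse_of_rowInd hKI)
  calc (rigidityMatrix G p).rank = (rigidityMatrix K p).rank := by
        rw [rank_eq, rank_eq, hKe]
        suffices hspan : Submodule.span ℝ (f p '' G.edgeSet) = Submodule.span ℝ (f p '' b) by
          rw [hspan]
        apply le_antisymm
        · rw [Submodule.span_le]
          exact hb3
        · exact Submodule.span_mono (Set.image_mono hb1)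
    _ = K.edgeSet.ncard := rank_of_ind hKI
    _ ≤ L.edgeSet.ncard := Set.ncard_le_ncard (SimpleGraph.edgeSet_subset_edgeSet.2 hKL)
        (Set.toFinite _)
    _ = H.edgeSet.ncard := by rw [← rank_max hc hL hq, ← rank_max hc hH hq]

open Pool.Agent.H283R2

/-- the trivial motions -/
noncomputable def Ph (p : V → Fin 3 → ℝ) :
    ((Fin 3 → ℝ) × (Fin 3 → ℝ)) →ₗ[ℝ] (V × Fin 3 → ℝ) where
  toFun x c := (![x.1 0 + (x.2 1 * p c.1 2 - x.2 2 * p c.1 1),
    x.1 1 + (x.2 2 * p c.1 0 - x.2 0 * p c.1 2),
    x.1 2 + (x.2 0 * p c.1 1 - x.2 1 * p c.1 0)] : Fin 3 → ℝ) c.2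
  map_add' x y := by
    funext c
    obtain ⟨a, i⟩ := c
    fin_cases i <;> simp <;> ring
  map_smul' c x := by
    funext c
    obtain ⟨a, i⟩ := c
    fin_cases i <;> simp <;> ring

theorem row_dot [Fintype V] [DecidableEq V] (p q : V → Fin 3 → ℝ) {u v : V} (huv : u ≠ v) :
    ∑ c : V × Fin 3, row p u v c * q c.1 c.2 = (p u - p v) ⬝ᵥ (q u - q v) := by
  classical
  rw [Fintype.sum_prod_type]
  have h1 : ∀ a : V, ∑ i, row p u v (a, i) * q a i =
      (if a = u then ∑ i, (p u i - p v i) * q u i else 0) +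
      (if a = v then - ∑ i, (p u i - p v i) * q v i else 0) := by
    intro a
    unfold row
    by_cases h : a = u
    · subst h
      simp [huv]
    · by_cases h' : a = v
      · subst h'
        simp only [h, if_false, if_true, zero_add, ← sum_neg_distrib]
        exact sum_congr rfl fun i _ => by ring
      · simp [h, h']
  rw [sum_congr rfl fun a _ => h1 a, sum_add_distrib, sum_ite_eq', sum_ite_eq']
  simp only [mem_univ, if_true, dotProduct, Pi.sub_apply, ← sum_neg_distrib, ← sum_add_distrib]
  exact sum_congr rfl fun i _ => by ring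

theorem rank_of_infRigid [Fintype V] {G : SimpleGraph V} {p : V → Fin 3 → ℝ}
    (h : DR.InfRigid G p) : 3 * Fintype.card V ≤ (rigidityMatrix G p).rank + 6 := by
  classical
  have h1 := LinearMap.finrank_range_add_finrank_ker (rigidityMatrix G p).mulVecLin
  have h2 : Module.finrank ℝ (V × Fin 3 → ℝ) = Fintype.card V * 3 := by
    rw [Module.finrank_fintype_fun_eq_card, Fintype.card_prod, Fintype.card_fin]
  have h3 : LinearMap.ker (rigidityMatrix G p).mulVecLin ≤ LinearMap.range (Ph p) := by
    intro q hq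
    rw [LinearMap.mem_ker, Matrix.mulVecLin_apply] at hq
    obtain ⟨A, b, hA, hb⟩ := h (fun v i => q (v, i)) (by
      intro u v huv
      rw [← row_dot p (fun v i => q (v, i)) huv.ne]
      have := congrFun hq ⟨s(u, v), huv⟩
      exact this)
    have hAij : ∀ i j, A i j = - A j i := by
      intro i j
      have := congrFun (congrFun hA j) i
      simpa using this
    refine ⟨(b, ![A 2 1, A 0 2, A 1 0]), ?_⟩
    funext c
    obtain ⟨a, i⟩ := c
    have h4 := congrFun (hb a) i
    simp only [Pi.add_apply, Matrix.mulVec, dotProduct, Fin.sum_univ_three] at h4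
    rw [h4]
    have e00 : A 0 0 = 0 := by have := hAij 0 0; linarith
    have e11 : A 1 1 = 0 := by have := hAij 1 1; linarith
    have e22 : A 2 2 = 0 := by have := hAij 2 2; linarith
    have e01 := hAij 0 1
    have e20 := hAij 2 0
    have e12 := hAij 1 2
    fin_cases i
    · simp [Ph, e00, e01, e20, e12]
      ring
    · simp [Ph, e11, e01, e20, e12]
      ring
    · simp [Ph, e22, e01, e20, e12]
      ring
  have h4 : Module.finrank ℝ (LinearMap.ker (rigidityMatrix G p).mulVecLin) ≤ 6 := by
    refine (Submodule.finrank_mono h3).trans ?_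
    refine (LinearMap.finrank_range_le (Ph p)).trans ?_
    simp
  have h5 : (rigidityMatrix G p).rank =
      Module.finrank ℝ (LinearMap.range (rigidityMatrix G p).mulVecLin) := rfl
  omega

theorem infRigid_of_tight [Fintype V] [DecidableEq V] {G H : SimpleGraph V} (hle : H ≤ G)
    {p : V → Fin 3 → ℝ} (hp : Gen p) (hI : Ind p H) (ht : Tight H univ) : DR.InfRigid G p := by
  intro q hq
  have h1 := L2.ker_eq hp (T := H) (Y := univ) (fun a b _ => ⟨mem_univ a, mem_univ b⟩) hI ht
  have h2 : (fun a : (univ : Finset V) => q a) ∈ LinearMap.range (L2.Tr p univ) := by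
    rw [h1, LinearMap.mem_ker]
    funext e
    obtain ⟨e, he⟩ := e
    induction e using Sym2.ind with
    | _ a b =>
      rw [L2.Rg_apply]
      have h3 := hq a b (hle he)
      unfold ee
      rw [L2.ext_mem _ _ (mem_univ a), L2.ext_mem _ _ (mem_univ b)]
      simpa [dotProduct] using h3
  obtain ⟨⟨t, r⟩, htr⟩ := h2
  refine ⟨!![0, - r 2, r 1; r 2, 0, - r 0; - r 1, r 0, 0], t, ?_, ?_⟩
  · ext i j
    fin_cases i <;> fin_cases j <;> simp
  · intro v
    have h4 := congrFun htr ⟨v, mem_univ v⟩
    simp only at h4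
    rw [← h4]
    funext i
    fin_cases i <;> simp [L2.Tr, Matrix.mulVec, dotProduct, Fin.sum_univ_three] <;> ring

theorem genRigid_iff [Fintype V] {G H : SimpleGraph V} (hc : CoreLeFive G) (hH : MaxSparse G H)
    (h3 : 3 ≤ Fintype.card V) :
    DR.GenRigid 3 G ↔ H.edgeSet.ncard + 6 = 3 * Fintype.card V := by
  classical
  have hup : H.edgeSet.ncard + 6 ≤ 3 * Fintype.card V := by
    have h1 := (TR.sparse_iff H).1 hH.2.1 univ (by rw [card_univ]; exact h3)
    rw [TR.i2_eq, card_univ] at h1
    have h2 : ins H univ = H := by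
      ext a b
      simp [ins]
    rw [h2] at h1
    omega
  constructor
  · rintro ⟨p, hp⟩
    have h1 := rank_of_infRigid hp
    have h2 := rank_le hc hH p
    omega
  · intro h
    obtain ⟨q, hq⟩ := exists_generic V
    refine ⟨q, infRigid_of_tight hH.1 hq ((TR.rowInd_iff H q).1
      (rowInd_of_core (core_mono hH.1 hc) hH.2.1 hq)) ⟨by rw [card_univ]; exact h3, ?_⟩⟩
    rw [TR.i2_eq, card_univ]
    have h2 : ins H univ = H := by
      ext a b
      simp [ins]
    rw [h2]
    omega

end RK

end H176R2.R5
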