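import Pool.Agent.H176R2.R5.L1
import Pool.Agent.H176R2.R5.L2
import Pool.Agent.H176R2.R5.G1
import Pool.Agent.H176R2.R5.G2
import Pool.Agent.H176R2.R5.CF1
import Pool.Agent.H176R2.R5.CF2
import Pool.Agent.H176R2.R5.LOC
import Pool.Agent.H176R2.R5.KAP

/-!
# The two types of vertices (assembly)
-/

set_option autoImplicit false

open Finset

namespace H176R2.R5

variable {V : Type} [Fintype V] [DecidableEq V]

namespace TY

variable {p : V → Fin 3 → ℝ} {C : SimpleGraph V} {ω : V → V → ℝ}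

theorem ee_comm (p u : V → Fin 3 → ℝ) (a b : V) : ee p u a b = ee p u b a := by
  unfold ee
  exact sum_congr rfl fun i _ => by ring

theorem sum_nb {v a b c d f : V} (hN : Nb C v a b c d f) (g : V → ℝ)
    (hg : ∀ x, ¬ C.Adj v x → g x = 0) : ∑ x, g x = g a + g b + g c + g d + g f := by
  obtain ⟨hadj, h1, h2, h3, h4, h5, h6, h7, h8, h9, h10⟩ := hN
  rw [← sum_subset (subset_univ ({a, b, c, d, f} : Finset V))]
  · rw [sum_insert, sum_insert, sum_insert, sum_insert, sum_singleton]
    · ring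
    all_goals simp [*]
  · intro x _ hx
    apply hg
    rw [hadj]
    simpa using hx

theorem adj_of_nb {v a b c d f : V} (hN : Nb C v a b c d f) :
    C.Adj v a ∧ C.Adj v b ∧ C.Adj v c ∧ C.Adj v d ∧ C.Adj v f := by
  refine ⟨?_, ?_, ?_, ?_, ?_⟩ <;> rw [hN.1] <;> simp

theorem dg_pos {v x : V} (h : C.Adj v x) : dg C univ v ≠ 0 := by
  classical
  unfold dg
  rw [Ne, card_eq_zero]
  intro he
  have : x ∈ (univ.filter fun b => C.Adj v b) := by simp [h]
  rw [he] at this
  exact absurd this (notMem_empty x)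

theorem deg_five (h : Std p C ω) {v x : V} (hx : C.Adj v x) : dg C univ x = 5 := by
  rcases h.deg5 x with h0 | h5
  · exact absurd h0 (dg_pos hx.symm)
  · exact h5

theorem dg_del {v x : V} (hx : C.Adj v x) (h5 : dg C univ x = 5) : dg (del C v) univ x = 4 := by
  classical
  have e : (univ.filter fun b => (del C v).Adj x b) = (univ.filter fun b => C.Adj x b).erase v := by
    ext b
    simp only [mem_filter, mem_univ, true_and, mem_erase, del]
    constructor
    · rintro ⟨h1, h2, h3⟩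
      exact ⟨h3, h1⟩
    · rintro ⟨h1, h2⟩
      exact ⟨h2, hx.ne.symm, h1⟩
  unfold dg at h5 ⊢
  rw [e, card_erase_of_mem (by simp [hx.symm]), h5]

theorem mot {H G : SimpleGraph V} (hI : Ind p G) (hle : H ≤ G) {a b : V}
    (hab : G.Adj a b) (hn : ¬ H.Adj a b) : ∃ u, IsMotion p H u ∧ ee p u a b = 1 ∧
      ∀ c d, G.Adj c d → ¬ ((c = a ∧ d = b) ∨ (c = b ∧ d = a)) → ee p u c d = 0 := by
  classical
  obtain ⟨u, hu⟩ := surj p G hI (fun x y => if (x = a ∧ y = b) ∨ (x = b ∧ y = a) then 1 else 0)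
    (by
      intro x y
      congr 1
      apply propext
      tauto)
  refine ⟨u, ?_, ?_, ?_⟩
  · intro x y hxy
    rw [hu x y (hle hxy), if_neg]
    rintro (⟨rfl, rfl⟩ | ⟨rfl, rfl⟩)
    · exact hn hxy
    · exact hn hxy.symm
  · rw [hu a b hab, if_pos (Or.inl ⟨rfl, rfl⟩)]
  · intro c d hcd hne
    rw [hu c d hcd, if_neg hne]

theorem hmot (h : Std p C ω) {v a b c d f : V} (hN : Nb C v a b c d f) {u : V → Fin 3 → ℝ}
    (hu : IsMotion p (del C v) u) :
    ∑ x, ω v x * ∑ k, (p v k - p x k) * u x k = 0 := by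
  classical
  set u' : V → Fin 3 → ℝ := fun x => if x = v then 0 else u x with hu'
  have hp := stress_pair h.stress u'
  have key : ∀ a b, ω a b * ee p u' a b =
      (if a = v then ω v b * ee p u' v b else 0) + (if b = v then ω v a * ee p u' v a else 0) := by
    intro a b
    by_cases ha : a = v
    · subst ha
      by_cases hb : b = a
      · subst hb
        rw [h.stress.supp b b (C.irrefl)]
        simp
      · simp [hb]
    · by_cases hb : b = v
      · subst hb
        simp only [ha, if_false, if_true, zero_add]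
        rw [h.stress.symm a b, ee_comm]
      · simp only [ha, hb, if_false, add_zero]
        by_cases hadj : C.Adj a b
        · have h1 : ee p u' a b = ee p u a b := by
            unfold ee
            simp only [hu', ha, hb, if_false]
          rw [h1, hu a b ⟨hadj, ha, hb⟩, mul_zero]
        · rw [h.stress.supp a b hadj, zero_mul]
  have hp2 : ∑ a : V, ∑ b : V, ((if a = v then ω v b * ee p u' v b else 0) +
      (if b = v then ω v a * ee p u' v a else 0)) = 0 := by
    refine Eq.trans ?_ hp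
    exact sum_congr rfl fun a _ => sum_congr rfl fun b _ => (key a b).symm
  have hp3 : ∑ a : V, ∑ b : V, (if b = v then ω v a * ee p u' v a else 0) =
      ∑ a, ω v a * ee p u' v a := by
    apply sum_congr rfl
    intro a _
    rw [sum_ite_eq' univ v]
    simp
  have hp4 : ∑ a : V, ∑ b : V, ((if a = v then ω v b * ee p u' v b else 0) +
      (if b = v then ω v a * ee p u' v a else 0)) =
      ∑ a : V, ∑ b : V, (if a = v then ω v b * ee p u' v b else 0) +
      ∑ a : V, ∑ b : V, (if b = v then ω v a * ee p u' v a else 0) := by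
    rw [← sum_add_distrib]
    exact sum_congr rfl fun a _ => sum_add_distrib
  have h2 : ∑ a : V, ∑ b : V, (if a = v then ω v b * ee p u' v b else 0) =
      ∑ b, ω v b * ee p u' v b := by
    rw [sum_eq_single v]
    · simp
    · intro a _ ha; simp [ha]
    · simp
  have h3 : ∑ b, ω v b * ee p u' v b = 0 := by
    rw [hp4, h2, hp3] at hp2
    linarith
  have h4 : ∑ x, ω v x * ∑ k, (p v k - p x k) * u x k = - ∑ b, ω v b * ee p u' v b := by
    rw [← sum_neg_distrib]
    apply sum_congr rfl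
    intro x _
    by_cases hx : x = v
    · subst hx
      rw [h.stress.supp x x (C.irrefl)]
      simp
    · unfold ee
      rw [← mul_neg, ← sum_neg_distrib]
      congr 1
      apply sum_congr rfl
      intro k _
      simp only [hu', if_true, hx, if_false, Pi.zero_apply]
      ring
  rw [h4, h3, neg_zero]

theorem five_split : ∀ i1 i2 : Fin 5, i1 ≠ i2 → ∃ j1 j2 j3 : Fin 5, j1 ≠ i1 ∧ j1 ≠ i2 ∧ j2 ≠ i1 ∧
    j2 ≠ i2 ∧ j3 ≠ i1 ∧ j3 ≠ i2 ∧ j1 ≠ j2 ∧ j1 ≠ j3 ∧ j2 ≠ j3 ∧
    ∀ k, k = i1 ∨ k = i2 ∨ k = j1 ∨ k = j2 ∨ k = j3 := by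
  decide

end TY

open TY

theorem types {p : V → Fin 3 → ℝ} {C : SimpleGraph V} {ω : V → V → ℝ} (h : Std p C ω) (v : V) :
    ∑ b, ω v b = 0 ∨ ∃ i1 i2 j1 j2 j3, BV p C ω v i1 i2 j1 j2 j3 := by
  classical
  rcases h.deg5 v with h0 | h5
  · left
    apply sum_eq_zero
    intro b _
    apply h.stress.supp
    intro hadj
    exact dg_pos hadj h0
  by_cases hs : ∑ b, ω v b = 0
  · exact Or.inl hs
  right
  obtain ⟨a, b, c, d, f, hN, hnab, hncd, hSp, hI2⟩ := good_pairs h h5
  obtain ⟨hva, hvb, hvc, hvd, hvf⟩ := adj_of_nb hN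
  have hN' := hN
  obtain ⟨hadj, dab, dac, dad, daf, dbc, dbd, dbf, dcd, dcf, ddf⟩ := hN'
  have hv : ∀ x, ¬ (del C v).Adj v x := fun x hx => hx.2.1 rfl
  have hI : Ind p (del C v) := ind_mono hI2 (fun x y hxy => Or.inl (Or.inl hxy))
  -- two motions
  obtain ⟨u1, hu1, h11, h12⟩ := mot (H := del C v) hI2 (fun x y hxy => Or.inl (Or.inl hxy))
    (a := a) (b := b) (Or.inl (Or.inr ⟨dab, Or.inl ⟨rfl, rfl⟩⟩)) hnab
  obtain ⟨u2, hu2, h22, h21⟩ := mot (H := del C v) hI2 (fun x y hxy => Or.inl (Or.inl hxy))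
    (a := c) (b := d) (Or.inr ⟨dcd, Or.inl ⟨rfl, rfl⟩⟩) hncd
  have h12' : ee p u1 c d = 0 := h12 c d (Or.inr ⟨dcd, Or.inl ⟨rfl, rfl⟩⟩) (by
    rintro (⟨h1, h2⟩ | ⟨h1, h2⟩)
    · exact dac h1.symm
    · exact dbc h1.symm)
  have h21' : ee p u2 a b = 0 := h21 a b (Or.inl (Or.inr ⟨dab, Or.inl ⟨rfl, rfl⟩⟩)) (by
    rintro (⟨h1, h2⟩ | ⟨h1, h2⟩)
    · exact dac h1
    · exact dad h1)
  let n : Fin 5 → V := ![a, b, c, d, f]
  have hn : Function.Injective n := by
    intro i j hij
    fin_cases i <;> fin_cases j <;> simp_all [n]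
  have hna : ∀ i, C.Adj v (n i) := by
    intro i
    fin_cases i <;> simp [n, *]
  have hnv : ∀ i, n i ≠ v := fun i => (hna i).ne.symm
  have hsum5 : ∀ g : V → ℝ, (∀ x, ¬ C.Adj v x → g x = 0) → ∑ x, g x = ∑ i, g (n i) := by
    intro g hg
    rw [sum_nb hN g hg, Fin.sum_univ_five]
    rfl
  have hloc := loc h.gen (del C v) v hv n hn hnv (fun i => ω v (n i))
    (by
      intro k
      have := h.stress.bal v k
      rw [hsum5 (fun x => ω v x * (p v k - p x k)) (fun x hx => by
        rw [h.stress.supp v x hx, zero_mul])] at this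
      exact this)
    (by
      rw [← hsum5 (fun x => ω v x) (fun x hx => h.stress.supp v x hx)]
      exact hs)
    (by
      intro u hu
      have := hmot h hN hu
      rw [hsum5 (fun x => ω v x * ∑ k, (p v k - p x k) * u x k) (fun x hx => by
        rw [h.stress.supp v x hx, zero_mul])] at this
      exact this)
    0 1 2 3 (by decide) (by decide) (by decide) (by decide) (by decide) (by decide)
    u1 u2 hu1 hu2 h11 h12' h21' h22
  have hd4 : ∀ i, dg (del C v) univ (n i) = 4 := fun i => dg_del (hna i) (deg_five h (hna i))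
  have hblock : ∀ i j, i ≠ j → (∀ u, IsMotion p (del C v) u → ee p u (n i) (n j) = 0) →
      Blocked (del C v) (n i) (n j) := by
    intro i j hij hz
    by_contra hnb
    have hne : n i ≠ n j := fun e => hij (hn e)
    have hind := ind_add1 h h5 (hna i) (hna j) hne hnb
    obtain ⟨u, hu, he, -⟩ := mot (H := del C v) hind (fun x y hxy => Or.inl hxy)
      (a := n i) (b := n j) (Or.inr ⟨hne, Or.inl ⟨rfl, rfl⟩⟩) (fun hadj => hnb (Or.inl hadj))
    rw [hz u hu] at he
    exact zero_ne_one he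
  rcases hloc with ⟨i0, hi0⟩ | ⟨i1, i2, hi12, ℓ1, hℓ1, ℓ2, hℓ2, hℓ1n, hℓ2n, hrat, hall, hex⟩
  · exfalso
    obtain ⟨X, hX, hNX⟩ := blocked4 (sparse_le h.sparse (show del C v ≤ C from fun x y hxy => hxy.1))
      ((univ.erase i0).image n)
      (by rw [card_image_of_injective _ hn, card_erase_of_mem (mem_univ _)]; simp)
      (by
        intro x hx
        obtain ⟨i, -, rfl⟩ := mem_image.1 hx
        exact (hd4 i).le)
      (by
        intro x hx y hy hxy
        obtain ⟨i, hi, rfl⟩ := mem_image.1 hx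
        obtain ⟨j, hj, rfl⟩ := mem_image.1 hy
        exact hblock i j (fun e => hxy (by rw [e])) (fun u hu =>
          hi0 u hu i j (ne_of_mem_erase hi) (ne_of_mem_erase hj)))
    have h3 := dg_tight_le h hX
    have h4 : 4 ≤ dg C X v := by
      unfold dg
      calc 4 = ((univ.erase i0).image n).card := by
            rw [card_image_of_injective _ hn, card_erase_of_mem (mem_univ _)]; simp
        _ ≤ _ := by
            apply card_le_card
            intro x hx
            rw [mem_filter]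
            refine ⟨hNX hx, ?_⟩
            obtain ⟨i, -, rfl⟩ := mem_image.1 hx
            exact hna i
    omega
  · obtain ⟨j1, j2, j3, a1, a2, b1, b2, c1, c2, e12, e13, e23, hcov⟩ := five_split i1 i2 hi12
    have inj : ∀ {i j}, i ≠ j → n i ≠ n j := fun hij e => hij (hn e)
    have hcross : ∀ j, j ≠ i1 → j ≠ i2 → ¬ Blocked (del C v) (n i1) (n j) ∧
        ¬ Blocked (del C v) (n i2) (n j) := by
      intro j h1 h2
      obtain ⟨k, k1, k2, k3⟩ : ∃ k, k ≠ i1 ∧ k ≠ i2 ∧ j ≠ k := by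
        rcases eq_or_ne j j1 with rfl | hj
        · exact ⟨j2, b1, b2, e12⟩
        · exact ⟨j1, a1, a2, hj⟩
      obtain ⟨u, hu, hu1', hu2'⟩ := hex j k h1 h2 k1 k2 k3
      constructor
      · intro hb
        rw [blocked_motion h.gen hI hu hb] at hu1'
        exact zero_ne_one hu1'
      · intro hb
        have := (hall u hu).2.2 j h1 h2
        rw [hu1', blocked_motion h.gen hI hu hb, mul_zero, mul_one] at this
        exact hℓ2n this
    have hrho : ω v (n i1) / ω v (n i2) = - (ℓ2 / ℓ1) := by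
      have hne : ω v (n i2) ≠ 0 := h.ne v (n i2) (hna i2)
      field_simp
      linarith
    have hk : ∀ j k l, j ≠ i1 → j ≠ i2 → k ≠ i1 → k ≠ i2 → l ≠ i1 → l ≠ i2 → j ≠ k → j ≠ l →
        k ≠ l → ω v (n i1) / ω v (n i2) ∈ Fd p {v, n j}ᶜ := by
      intro j k l j1' j2' k1 k2 l1 l2 jk jl kl
      have hkap := kappa h.gen (del C v) hI v hv (n i1) (n i2) (n j) (n k) (n l) (inj hi12)
        (inj j1'.symm) (inj k1.symm) (inj l1.symm) (inj j2'.symm) (inj k2.symm) (inj l2.symm)
        (inj jk) (inj jl) (inj kl) (hnv _) (hnv _) (hnv _) (hnv _) (hnv _) (hd4 j)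
        (fun hh => (hcross k k1 k2).1 (Or.inl hh)) (fun hh => (hcross k k1 k2).2 (Or.inl hh))
        (fun hh => (hcross l l1 l2).1 (Or.inl hh)) (fun hh => (hcross l l1 l2).2 (Or.inl hh))
        ℓ1 ℓ2 hℓ1n hℓ2n (fun u hu => ⟨(hall u hu).2.2 k k1 k2, (hall u hu).2.2 l l1 l2⟩)
        (hex k l k1 k2 l1 l2 kl)
        (by
          obtain ⟨u, hu, hu1', hu2'⟩ := hex l k l1 l2 k1 k2 kl.symm
          exact ⟨u, hu, hu2', hu1'⟩)
      rw [hrho, show - (ℓ2 / ℓ1) = - (ℓ1 / ℓ2)⁻¹ by rw [inv_div]]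
      exact neg_mem (inv_mem hkap)
    refine ⟨n i1, n i2, n j1, n j2, n j3, ?_⟩
    refine ⟨⟨?_, inj hi12, inj a1.symm, inj b1.symm, inj c1.symm, inj a2.symm, inj b2.symm,
      inj c2.symm, inj e12, inj e13, inj e23⟩, ?_, ?_, ?_, ?_, ?_, hs, ?_, ?_⟩
    · intro x
      constructor
      · intro hx
        have : ∃ i, x = n i := by
          rcases (hadj x).1 hx with rfl | rfl | rfl | rfl | rfl
          · exact ⟨0, rfl⟩
          · exact ⟨1, rfl⟩
          · exact ⟨2, rfl⟩
          · exact ⟨3, rfl⟩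
          · exact ⟨4, rfl⟩
        obtain ⟨i, rfl⟩ := this
        rcases hcov i with rfl | rfl | rfl | rfl | rfl <;> simp
      · rintro (rfl | rfl | rfl | rfl | rfl) <;> exact hna _
    · exact hblock _ _ hi12 (fun u hu => (hall u hu).1)
    · exact hblock _ _ e12 (fun u hu => (hall u hu).2.1 _ _ a1 a2 b1 b2)
    · exact hblock _ _ e13 (fun u hu => (hall u hu).2.1 _ _ a1 a2 c1 c2)
    · exact hblock _ _ e23 (fun u hu => (hall u hu).2.1 _ _ b1 b2 c1 c2)
    · rintro i (rfl | rfl) j (rfl | rfl | rfl)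
      · exact (hcross _ a1 a2).1
      · exact (hcross _ b1 b2).1
      · exact (hcross _ c1 c2).1
      · exact (hcross _ a1 a2).2
      · exact (hcross _ b1 b2).2
      · exact (hcross _ c1 c2).2
    · rw [hrho]
      exact neg_mem (div_mem hℓ2 hℓ1)
    · rintro j (rfl | rfl | rfl)
      · exact hk j1 j2 j3 a1 a2 b1 b2 c1 c2 e12 e13 e23
      · exact hk j2 j1 j3 b1 b2 a1 a2 c1 c2 e12.symm e23 e13
      · exact hk j3 j1 j2 c1 c2 a1 a2 b1 b2 e13.symm e23.symm e12

end H176R2.R5
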