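import Pool.Agent.H176R2.R5.XR
import Pool.Agent.H176R2.R5.GV
import Pool.Agent.H176R2.R5.FN

/-!
# X-replacement: translation
-/

set_option autoImplicit false

open Finset

namespace H176R2.R5.XR

/-- The edges of the X-replacement of `G` on the data `ab`, `cd`, `e`; the new vertex is the last
one. -/
def xEdges {n : ℕ} (G : SimpleGraph (Fin n)) (a b c d e : Fin n) : Set (Fin (n + 1) × Fin (n + 1)) :=
  {q | q.1 < q.2 ∧
    ((∃ u v : Fin n, q.1 = u.castSucc ∧ q.2 = v.castSucc ∧ G.Adj u v ∧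
        s(u, v) ≠ s(a, b) ∧ s(u, v) ≠ s(c, d)) ∨
     (q.2 = Fin.last n ∧
        ∃ u ∈ ({a, b, c, d, e} : Finset (Fin n)), q.1 = u.castSucc))}

/-- the copy of `G` on the first `n` vertices -/
def up {n : ℕ} (G : SimpleGraph (Fin n)) : SimpleGraph (Fin (n + 1)) where
  Adj x y := ∃ u v : Fin n, x = u.castSucc ∧ y = v.castSucc ∧ G.Adj u v
  symm := ⟨fun _ _ ⟨u, v, h1, h2, h3⟩ => ⟨v, u, h2, h1, h3.symm⟩⟩
  loopless := ⟨fun _ ⟨u, v, h1, h2, h3⟩ => h3.ne (Fin.castSucc_injective n (h1.symm.trans h2))⟩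

theorem sparse_up {n : ℕ} {G : SimpleGraph (Fin n)} (hS : Sparse G) : Sparse (up G) := by
  classical
  intro X hX
  set Y : Finset (Fin n) := univ.filter fun u => u.castSucc ∈ X with hY
  have h1 : i2 (up G) X = i2 G Y := by
    rw [g1_i2_card, g1_i2_card]
    symm
    apply card_bij (fun e _ => (e.1.castSucc, e.2.castSucc))
    · rintro ⟨u, v⟩ he
      simp only [mem_filter, mem_product, hY, mem_univ, true_and] at he ⊢
      exact ⟨he.1, u, v, rfl, rfl, he.2⟩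
    · rintro ⟨u, v⟩ _ ⟨u', v'⟩ _ he
      have h2 := Prod.mk.inj he
      exact Prod.ext (Fin.castSucc_injective n h2.1) (Fin.castSucc_injective n h2.2)
    · rintro ⟨x, y⟩ he
      simp only [mem_filter, mem_product] at he
      obtain ⟨⟨hx, hy⟩, u, v, rfl, rfl, huv⟩ := he
      refine ⟨(u, v), ?_, rfl⟩
      simp only [mem_filter, mem_product, hY, mem_univ, true_and]
      exact ⟨⟨hx, hy⟩, huv⟩
  have h2 : Y.card ≤ X.card := by
    apply card_le_card_of_injOn (fun u => u.castSucc)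
    · intro u hu
      simpa [hY] using hu
    · exact (Fin.castSucc_injective n).injOn
  rw [h1]
  rcases Nat.lt_or_ge Y.card 3 with h3 | h3
  · have h4 : i2 G Y ≤ Y.card * 2 := by
      have h5 : ∀ a ∈ Y, dg G Y a ≤ 2 := fun a _ => (g1_dg_le G Y a).trans (by omega)
      calc i2 G Y = ∑ a ∈ Y, dg G Y a := rfl
        _ ≤ ∑ _a ∈ Y, 2 := sum_le_sum h5
        _ = Y.card * 2 := by rw [sum_const]; rfl
    omega
  · have := hS Y h3
    omega

theorem sparse_xEdges {n : ℕ} {G : SimpleGraph (Fin n)} {a b c d e : Fin n}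
    (hnd : [a, b, c, d, e].Nodup) (hab : G.Adj a b) (hcd : G.Adj c d) (hS : Sparse G) :
    Sparse (OR.gr (xEdges G a b c d e)) := by
  classical
  simp only [List.nodup_cons, List.mem_cons, not_or, List.not_mem_nil, not_false_iff, and_true,
    List.nodup_nil] at hnd
  obtain ⟨⟨n1, n2, n3, n4⟩, ⟨n5, n6, n7⟩, ⟨n8, n9⟩, n10⟩ := hnd
  have inj : ∀ {x y : Fin n}, x ≠ y → x.castSucc ≠ y.castSucc := fun h h' =>
    h (Fin.castSucc_injective n h')
  have key : ∀ x y : Fin n, (OR.gr (xEdges G a b c d e)).Adj x.castSucc y.castSucc →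
      G.Adj x y ∧ s(x, y) ≠ s(a, b) ∧ s(x, y) ≠ s(c, d) := by
    rintro x y ⟨-, ⟨-, h | ⟨h, -⟩⟩ | ⟨-, h | ⟨h, -⟩⟩⟩
    · obtain ⟨u, v, h1, h2, h3, h4, h5⟩ := h
      rw [Fin.castSucc_injective n h1, Fin.castSucc_injective n h2]
      exact ⟨h3, h4, h5⟩
    · exact absurd h (Fin.castSucc_lt_last y).ne
    · obtain ⟨u, v, h1, h2, h3, h4, h5⟩ := h
      rw [Fin.castSucc_injective n h1, Fin.castSucc_injective n h2, Sym2.eq_swap]
      exact ⟨h3.symm, h4, h5⟩
    · exact absurd h (Fin.castSucc_lt_last x).ne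
  refine xsparse (w := Fin.last n) (a := a.castSucc) (b := b.castSucc) (c := c.castSucc)
    (d := d.castSucc) (f := e.castSucc) ⟨?_, inj n1, inj n2, inj n3, inj n4, inj n5, inj n6, inj n7,
      inj n8, inj n9, inj n10⟩ (fun h => (key _ _ h).2.1 rfl) (fun h => (key _ _ h).2.2 rfl) ?_
  · intro x
    constructor
    · rintro ⟨hne, ⟨hlt, -⟩ | ⟨hlt, h⟩⟩
      · exact absurd hlt (not_lt.2 (Fin.le_last x))
      · rcases h with ⟨u, v, -, h2, -⟩ | ⟨-, u, hu, rfl⟩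
        · exact absurd h2.symm (Fin.castSucc_lt_last v).ne
        · simp only [mem_insert, mem_singleton] at hu
          rcases hu with rfl | rfl | rfl | rfl | rfl <;> simp
    · have hlast : ∀ u ∈ ({a, b, c, d, e} : Finset (Fin n)),
          (OR.gr (xEdges G a b c d e)).Adj (Fin.last n) u.castSucc := by
        intro u hu
        exact ⟨(Fin.castSucc_lt_last u).ne', Or.inr ⟨Fin.castSucc_lt_last u, Or.inr
          ⟨rfl, u, hu, rfl⟩⟩⟩
      rintro (rfl | rfl | rfl | rfl | rfl) <;> apply hlast <;> simp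
  · refine sparse_le (sparse_up hS) ?_
    intro x y hxy
    rcases hxy with (⟨h, hx, hy⟩ | ⟨-, ⟨rfl, rfl⟩ | ⟨rfl, rfl⟩⟩) | ⟨-, ⟨rfl, rfl⟩ | ⟨rfl, rfl⟩⟩
    · obtain ⟨u, rfl⟩ := Fin.exists_castSucc_eq.2 hx
      obtain ⟨v, rfl⟩ := Fin.exists_castSucc_eq.2 hy
      exact ⟨u, v, rfl, rfl, (key u v h).1⟩
    · exact ⟨a, b, rfl, rfl, hab⟩
    · exact ⟨b, a, rfl, rfl, hab.symm⟩
    · exact ⟨c, d, rfl, rfl, hcd⟩
    · exact ⟨d, c, rfl, rfl, hcd.symm⟩

theorem sparse_of_ind {n : ℕ} {G : SimpleGraph (Fin n)} {p : Fin n → Fin 3 → ℝ} (h : Ind p G) :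
    Sparse G := (TR.sparse_iff G).1 (sparse_of_rowInd ((TR.rowInd_iff G p).2 h))

end H176R2.R5.XR
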