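import Pool.Agent.H176R2.R5.G1
import Pool.Agent.H176R2.R5.OR

/-!
# X-replacement preserves `(3,6)`-sparsity
-/

set_option autoImplicit false

open Finset

namespace H176R2.R5.XR

section general

variable {V : Type} [Fintype V] [DecidableEq V]

theorem i2_addE_ge (G : SimpleGraph V) {a b : V} (hab : a ≠ b) (hn : ¬ G.Adj a b) (X : Finset V) :
    i2 G X + (if a ∈ X ∧ b ∈ X then 2 else 0) ≤ i2 (addE G a b) X := by
  classical
  rw [g1_i2_card, g1_i2_card]
  split_ifs with h
  · have h1 : (a, b) ∉ (X ×ˢ X).filter (fun p => G.Adj p.1 p.2) := by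
      simp [hn]
    have h2 : (b, a) ∉ (X ×ˢ X).filter (fun p => G.Adj p.1 p.2) := by
      simp only [mem_filter, mem_product, not_and]
      intro _ h3
      exact hn h3.symm
    have h3 : (a, b) ∉ insert (b, a) ((X ×ˢ X).filter (fun p => G.Adj p.1 p.2)) := by
      rw [mem_insert, not_or]
      refine ⟨?_, h1⟩
      intro he
      exact hab (Prod.mk.inj he).1
    have h4 : insert (a, b) (insert (b, a) ((X ×ˢ X).filter (fun p => G.Adj p.1 p.2))) ⊆
        (X ×ˢ X).filter (fun p => (addE G a b).Adj p.1 p.2) := by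
      intro e he
      rw [mem_insert, mem_insert] at he
      rw [mem_filter, mem_product]
      rcases he with rfl | rfl | he
      · exact ⟨h, Or.inr ⟨hab, Or.inl ⟨rfl, rfl⟩⟩⟩
      · exact ⟨h.symm, Or.inr ⟨hab, Or.inr ⟨rfl, rfl⟩⟩⟩
      · rw [mem_filter, mem_product] at he
        exact ⟨he.1, Or.inl he.2⟩
    have h5 := card_le_card h4
    rw [card_insert_of_notMem h3, card_insert_of_notMem h2] at h5
    omega
  · rw [add_zero]
    apply card_le_card
    intro e he
    rw [mem_filter] at he ⊢
    exact ⟨he.1, Or.inl he.2⟩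

theorem i2_del_eq (G : SimpleGraph V) {w : V} {X : Finset V} (hw : w ∉ X) :
    i2 (del G w) X = i2 G X := by
  classical
  unfold i2
  apply sum_congr rfl
  intro a ha
  unfold dg
  congr 1
  ext b
  simp only [mem_filter, and_congr_right_iff]
  intro hb
  constructor
  · intro h
    exact h.1
  · intro h
    exact ⟨h, fun h' => hw (h' ▸ ha), fun h' => hw (h' ▸ hb)⟩

theorem i2_small (G : SimpleGraph V) {X : Finset V} (h : X.card = 3) : i2 G X ≤ 6 := by
  classical
  have h1 : ∀ a ∈ X, dg G X a ≤ 2 := by
    intro a ha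
    rw [← g1_dg_erase]
    have := g1_dg_le G (X.erase a) a
    rw [card_erase_of_mem ha, h] at this
    exact this
  calc i2 G X = ∑ a ∈ X, dg G X a := rfl
    _ ≤ ∑ _a ∈ X, 2 := sum_le_sum h1
    _ = 6 := by rw [sum_const, h]; rfl

theorem xsparse {G : SimpleGraph V} {w a b c d f : V} (hN : Nb G w a b c d f)
    (hab : ¬ G.Adj a b) (hcd : ¬ G.Adj c d)
    (hS : Sparse (addE (addE (del G w) a b) c d)) : Sparse G := by
  classical
  obtain ⟨hadj, nab, nac, nad, naf, nbc, nbd, nbf, ncd, ncf, ndf⟩ := hN
  have hab' : ¬ (del G w).Adj a b := fun h => hab h.1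
  have hcd' : ¬ (addE (del G w) a b).Adj c d := by
    rintro (h | ⟨-, ⟨h, -⟩ | ⟨h, -⟩⟩)
    · exact hcd h.1
    · exact nac h.symm
    · exact nbc h.symm
  intro X hX
  by_cases hw : w ∈ X
  · -- X = insert w Y
    obtain ⟨Y, hwY, rfl⟩ : ∃ Y, w ∉ Y ∧ insert w Y = X := ⟨X.erase w, by simp, insert_erase hw⟩
    rw [card_insert_of_notMem hwY] at hX ⊢
    rcases Nat.lt_or_ge Y.card 3 with h3 | h3
    · have := i2_small G (X := insert w Y) (by rw [card_insert_of_notMem hwY]; omega)
      omega
    · rw [i2_insert G hwY, ← i2_del_eq G hwY]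
      have h1 := i2_addE_ge (del G w) nab hab' Y
      have h2 := i2_addE_ge (addE (del G w) a b) ncd hcd' Y
      have h4 := hS Y h3
      have h5 : dg G Y w ≤ (if a ∈ Y then 1 else 0) + (if b ∈ Y then 1 else 0) +
          (if c ∈ Y then 1 else 0) + (if d ∈ Y then 1 else 0) + (if f ∈ Y then 1 else 0) := by
        unfold dg
        have h6 : Y.filter (fun x => G.Adj w x) ⊆ (({a} : Finset V).filter (· ∈ Y)) ∪
            (({b} : Finset V).filter (· ∈ Y)) ∪ (({c} : Finset V).filter (· ∈ Y)) ∪
            (({d} : Finset V).filter (· ∈ Y)) ∪ (({f} : Finset V).filter (· ∈ Y)) := by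
          intro x hx
          rw [mem_filter, hadj] at hx
          simp only [mem_union, mem_filter, mem_singleton]
          tauto
        refine (card_le_card h6).trans ?_
        refine (card_union_le _ _).trans (add_le_add ((card_union_le _ _).trans (add_le_add
          ((card_union_le _ _).trans (add_le_add ((card_union_le _ _).trans (add_le_add ?_ ?_)) ?_))
          ?_)) ?_)
        all_goals
          rw [filter_singleton]
          split_ifs <;> simp
      split_ifs at h1 h2 h5 <;> first | omega | (exfalso; tauto)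
  · rcases Nat.lt_or_ge X.card 3 with h3 | h3
    · omega
    · have h1 := i2_addE_ge (del G w) nab hab' X
      have h2 := i2_addE_ge (addE (del G w) a b) ncd hcd' X
      have h4 := hS X h3
      rw [i2_del_eq G hw] at h1
      split_ifs at h1 h2 <;> omega

end general

end H176R2.R5.XR
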